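import Pool.Agent.Y695.Key
import Pool.Agent.H437R2.Man.MWWeak

/-!
The group of rational points is finite of order twice an odd number.
-/

set_option autoImplicit false
set_option linter.all false

open WeierstrassCurve WeierstrassCurve.Affine
open scoped Classical

namespace Pool.Agent.Y695

open Polynomial

theorem fg_of_inj {A B : Type} [AddCommGroup A] [AddCommGroup B] (f : A →+ B)
    (hf : Function.Injective f) (hB : AddGroup.FG B) : AddGroup.FG A := by
  rw [← Module.Finite.iff_addGroup_fg] at hB ⊢
  have : IsNoetherian ℤ B := inferInstance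
  exact Module.Finite.of_injective f.toIntLinearMap hf

theorem fg_of_eq {K : Type} [Field K] [DecidableEq K] {W W' : WeierstrassCurve.Affine K}
    (h : W = W') (hW : AddGroup.FG W.Point) : AddGroup.FG W'.Point := by
  subst h
  exact hW

variable {W : WeierstrassCurve ℚ} {a b : ℚ}

/-- Mordell-Weil -/
theorem fg_points (h : IsT W.toAffine a b) : AddGroup.FG W.toAffine.Point := by
  classical
  let P : Cubic ℚ := ⟨1, a, b, 0⟩
  let K : Type := P.toPoly.SplittingField
  have : NumberField K :=
    { to_charZero := inferInstanceAs (CharZero P.toPoly.SplittingField)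
      to_finiteDimensional := inferInstanceAs (FiniteDimensional ℚ P.toPoly.SplittingField) }
  have ha : P.a ≠ 0 := one_ne_zero
  have hsp : Splits (P.toPoly.map (algebraMap ℚ K)) := SplittingField.splits P.toPoly
  obtain ⟨x, y, z, h3⟩ := (Cubic.splits_iff_roots_eq_three ha).1 hsp
  have hdisc : P.discr ≠ 0 := by
    have h4 : P.discr = b ^ 2 * (a ^ 2 - 4 * b) := by
      simp only [Cubic.discr, P]
      ring
    rw [h4]
    exact mul_ne_zero (pow_ne_zero 2 h.nb) h.nd
  obtain ⟨hxy, hxz, hyz⟩ := (Cubic.discr_ne_zero_iff_roots_ne ha h3).1 hdisc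
  have hb := Cubic.b_eq_three_roots ha h3
  have hc := Cubic.c_eq_three_roots ha h3
  have hd := Cubic.d_eq_three_roots ha h3
  simp only [P, map_one, map_zero, one_mul] at hb hc hd
  have hK : AddGroup.FG (Pool.Agent.H437R2.Man.MW.crv (-x) (-y) (-z)).toAffine.Point :=
    Pool.Agent.H437R2.Man.MW.pt_fg (fun h => hxy (neg_injective h)) (fun h => hxz (neg_injective h))
      (fun h => hyz (neg_injective h))
  have heq : (Pool.Agent.H437R2.Man.MW.crv (-x) (-y) (-z)).toAffine = (W.baseChange K) := by
    apply WeierstrassCurve.ext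
    · change (0 : K) = algebraMap ℚ K W.a₁
      rw [h.a1, map_zero]
    · change -x + -y + -z = algebraMap ℚ K W.a₂
      rw [h.a2]
      linear_combination -hb
    · change (0 : K) = algebraMap ℚ K W.a₃
      rw [h.a3, map_zero]
    · change -x * -y + -x * -z + -y * -z = algebraMap ℚ K W.a₄
      rw [h.a4]
      linear_combination -hc
    · change -x * -y * -z = algebraMap ℚ K W.a₆
      rw [h.a6, map_zero]
      linear_combination -hd
  have hK' : AddGroup.FG (W.baseChange K).toAffine.Point := fg_of_eq heq hK
  have hinj := WeierstrassCurve.Affine.Point.map_injective (W' := W) (Algebra.ofId ℚ K)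
  exact fg_of_inj _ hinj hK'

/-- an abelian group generated modulo doubles by an element of order two has rank zero -/
theorem fin_of_two {A : Type} [AddCommGroup A] (hfg : AddGroup.FG A) (T : A) (hT : T + T = 0)
    (h : ∀ P : A, ∃ Q, P = Q + Q ∨ P = Q + Q + T) : Finite A := by
  rw [← Module.Finite.iff_addGroup_fg] at hfg
  -- every element of the quotient by the torsion is divisible by all powers of two
  have htor : ∀ P : A, P ∈ AddCommGroup.torsion A := by
    set M := A ⧸ Submodule.torsion ℤ A with hM
    have hfree : Module.Free ℤ M := inferInstance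
    have hdiv : ∀ x : M, ∃ y : M, x = (2 : ℤ) • y := by
      intro x
      obtain ⟨P, rfl⟩ := Submodule.Quotient.mk_surjective _ x
      obtain ⟨Q, hQ⟩ := h P
      refine ⟨Submodule.Quotient.mk Q, ?_⟩
      have hTt : (Submodule.Quotient.mk T : M) = 0 := by
        rw [Submodule.Quotient.mk_eq_zero]
        refine (Submodule.mem_torsion_iff T).2 ⟨⟨2, by
          rw [mem_nonZeroDivisors_iff_ne_zero]; norm_num⟩, ?_⟩
        show (2 : ℤ) • T = 0
        rw [two_zsmul, hT]
      rcases hQ with hQ | hQ
      · rw [hQ, Submodule.Quotient.mk_add, two_zsmul]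
      · rw [hQ, Submodule.Quotient.mk_add, Submodule.Quotient.mk_add, hTt, add_zero, two_zsmul]
    have hbot : ∀ x : M, x = 0 := by
      intro x
      let B := Module.Free.chooseBasis ℤ M
      apply B.repr.injective
      rw [map_zero]
      ext i
      rw [Finsupp.zero_apply]
      have hpow : ∀ n : ℕ, ∃ y : M, x = (2 ^ n : ℤ) • y := by
        intro n
        induction n with
        | zero => exact ⟨x, by simp⟩
        | succ n ih =>
          obtain ⟨y, hy⟩ := ih
          obtain ⟨z, hz⟩ := hdiv y
          exact ⟨z, by rw [hy, hz, smul_smul, pow_succ]⟩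
      by_contra hne
      obtain ⟨y, hy⟩ := hpow (B.repr x i).natAbs
      have h1 : B.repr x i = 2 ^ (B.repr x i).natAbs * B.repr y i := by
        conv_lhs => rw [hy]
        rw [map_smul, Finsupp.smul_apply, smul_eq_mul]
      have h2 : (2 : ℤ) ^ (B.repr x i).natAbs ∣ B.repr x i := ⟨_, h1⟩
      have h3 := Int.natAbs_le_of_dvd_ne_zero h2 hne
      rw [Int.natAbs_pow] at h3
      have h4 : (B.repr x i).natAbs < 2 ^ (B.repr x i).natAbs := Nat.lt_two_pow_self
      have h5 : Int.natAbs 2 = 2 := rfl
      rw [h5] at h3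
      omega
    intro P
    have h1 := hbot (Submodule.Quotient.mk P)
    rw [Submodule.Quotient.mk_eq_zero] at h1
    rw [AddCommGroup.mem_torsion, isOfFinAddOrder_iff_zsmul_eq_zero]
    obtain ⟨n, hn⟩ := (Submodule.mem_torsion_iff P).1 h1
    exact ⟨n.1, nonZeroDivisors.ne_zero n.2, hn⟩
  haveI : AddMonoid.IsTorsion A → Finite A := fun ht => by
    haveI := Module.Finite.iff_addGroup_fg.1 hfg
    exact AddCommGroup.finite_of_fg_torsion A ht
  apply this
  intro P
  exact htor P

/-- the order of the group -/
theorem card_of_two {A : Type} [AddCommGroup A] [Finite A] (T : A) (hT0 : T ≠ 0) (hT : T + T = 0)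
    (h2 : ∀ P : A, P + P = 0 → P = 0 ∨ P = T) (h4 : ∀ P : A, P + P ≠ T) :
    ∃ m : ℕ, Odd m ∧ Nat.card A = 2 * m := by
  set φ : A →+ A := ⟨⟨fun P => P + P, add_zero 0⟩, fun P Q => by
    show P + Q + (P + Q) = P + P + (Q + Q); abel⟩ with hφ
  have hk : Nat.card φ.ker = 2 := by
    have h5 : (φ.ker : Set A) = {0, T} := by
      ext P
      constructor
      · intro hP
        exact h2 P hP
      · rintro (rfl | hP)
        · exact φ.ker.zero_mem
        · rw [Set.mem_singleton_iff] at hP
          subst hP
          exact hT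
    rw [← SetLike.coe_sort_coe, h5, Nat.card_coe_set_eq, Set.ncard_pair hT0.symm]
  have hcard : Nat.card A = Nat.card φ.ker * Nat.card φ.range := by
    rw [← AddSubgroup.card_mul_index φ.ker, AddSubgroup.index_ker]
  refine ⟨Nat.card φ.range, ?_, by rw [hcard, hk]⟩
  rw [← Nat.not_even_iff_odd]
  intro heven
  obtain ⟨x, hx⟩ := exists_prime_addOrderOf_dvd_card' (G := φ.range) 2 heven.two_dvd
  obtain ⟨Q, hQ⟩ := x.2
  have h6 : x.1 + x.1 = 0 := by
    have := addOrderOf_nsmul_eq_zero x
    rw [hx, two_nsmul] at this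
    have h7 := congrArg Subtype.val this
    exact h7
  have h7 : x.1 ≠ 0 := by
    intro h8
    have h9 : x = 0 := Subtype.ext h8
    rw [h9, addOrderOf_zero] at hx
    norm_num at hx
  rcases h2 x.1 h6 with h8 | h8
  · exact h7 h8
  · rw [h8] at hQ
    exact h4 Q hQ

/-- **the group of the rational points** -/
theorem points_card (h : IsT W.toAffine a b) (hS : SelHyp a b) (hb : b < 0)
    (hnsq : ¬ IsSquare (a ^ 2 - 4 * b)) :
    Finite W.toAffine.Point ∧ ∃ m : ℕ, Odd m ∧ Nat.card W.toAffine.Point = 2 * m := by
  have hTT : (Point.some 0 0 h.ns0 : W.toAffine.Point) + Point.some 0 0 h.ns0 = 0 :=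
    (h.dbl_zero_iff h.ns0).2 rfl
  have hfin : Finite W.toAffine.Point :=
    fin_of_two (fg_points h) (Point.some 0 0 h.ns0) hTT (points_mod_two h hS)
  refine ⟨hfin, card_of_two (Point.some 0 0 h.ns0) (Point.some_ne_zero _) hTT ?_ ?_⟩
  · intro P hP
    rcases P with _ | ⟨x, y, hxy⟩
    · exact Or.inl rfl
    · right
      have hy : y = 0 := (h.dbl_zero_iff hxy).1 hP
      subst hy
      have he := h.nonsingular.1 hxy
      have hx : x = 0 := by
        by_contra hx
        apply hnsq
        have h1 : x ^ 2 + a * x + b = 0 := by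
          have h2 : x * (x ^ 2 + a * x + b) = 0 := by rw [← he]; ring
          exact (mul_eq_zero.1 h2).resolve_left hx
        exact ⟨2 * x + a, by linear_combination (-4) * h1⟩
      subst hx
      rfl
  · intro P hP
    rcases P with _ | ⟨x, y, hxy⟩
    · exact Point.some_ne_zero _ (by rw [← hP]; rfl)
    · by_cases hy : y = 0
      · rw [(h.dbl_zero_iff hxy).2 hy] at hP
        exact Point.some_ne_zero _ hP.symm
      · obtain ⟨hQ, hadd⟩ := h.dbl hxy hy
        rw [hadd] at hP
        have h1 : ((x ^ 2 - b) / (2 * y)) ^ 2 = 0 := (Point.some.inj hP).1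
        have h2 : (x ^ 2 - b) / (2 * y) = 0 := pow_eq_zero_iff (two_ne_zero) |>.1 h1
        rcases div_eq_zero_iff.1 h2 with h3 | h3
        · nlinarith [sq_nonneg x]
        · exact absurd h3 (mul_ne_zero two_ne_zero hy)

end Pool.Agent.Y695
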