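import Pool.Agent.Y695.Five

/-!
The power of two in the sums twisted by the character modulo five.
-/

set_option autoImplicit false
set_option linter.all false

open Finset

namespace Pool.Agent.Y695

open Pool.Agent.W97.TW
open Pool.Agent.W97.V20

/-- the integers `μ` of the symbol twisted modulo five -/
noncomputable def mu5 (S : Finset ℕ) : ℤ := mu pf5 J0 I1 S

/-- reciprocity -/
lemma jac_five {q : ℕ} (hq : Odd q) : jacobiSym 5 q = jacobiSym q 5 := by
  have := jacobiSym.quadratic_reciprocity_one_mod_four (a := 5) (b := q) (by norm_num) hq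
  exact_mod_cast this

lemma ch_five {R : Finset ℕ} (hR : Adm R) (h : ∀ q ∈ R, jacobiSym q 5 = -1) :
    ch R 5 = (-1) ^ R.card := by
  unfold ch
  rw [prod_congr rfl (g := fun _ => (-1 : ℤ)), prod_const]
  intro q hq
  rw [jac_five ((hR q hq).1.odd_of_ne_two (hR q hq).2.1), h q hq]

/-- the coefficients at the primes which are inert in `ℚ(√5)` -/
lemma four_dvd {q : ℕ} (hq : q.Prime) (h2 : q ≠ 2) (h5 : q ≠ 5) (hj : jacobiSym q 5 = -1) {e : ℤ}
    (he : e = 1 ∨ e = -1) : (4 : ℤ) ∣ A q - 2 * e ∧ (4 : ℤ) ∣ jacobiSym q 5 * A q - 2 * e := by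
  obtain ⟨k, hk⟩ := A_mod4 sym hq h2 h5
  rw [hj, if_neg (by norm_num)] at hk
  rw [hj]
  rcases he with rfl | rfl <;> constructor <;> omega

lemma ch_pm' {R : Finset ℕ} {q : ℕ} (hq : q.Prime) (hR : Adm R) (hqR : q ∉ R) :
    ch R q = 1 ∨ ch R q = -1 := ch_pm hq hR hqR

/-- products of multiples of four -/
lemma four_pow_dvd {ι : Type*} (s : Finset ι) (f : ι → ℤ) (h : ∀ i ∈ s, (4 : ℤ) ∣ f i) :
    (4 : ℤ) ^ s.card ∣ ∏ i ∈ s, f i := by
  classical
  induction s using Finset.induction_on with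
  | empty => simp
  | insert a s ha ih =>
    rw [prod_insert ha, card_insert_of_notMem ha, pow_succ, mul_comm]
    exact mul_dvd_mul (h a (mem_insert_self _ _)) (ih fun i hi => h i (mem_insert_of_mem hi))

lemma two_pow_dvd {a b : ℕ} (h : a ≤ b) : (2 : ℤ) ^ a ∣ 2 ^ b := pow_dvd_pow 2 h

lemma four_two {a b c : ℕ} (h : c ≤ 2 * a + b) {x y : ℤ} (hx : (4 : ℤ) ^ a ∣ x) (hy : (2 : ℤ) ^ b ∣ y) :
    (2 : ℤ) ^ c ∣ x * y := by
  have h1 : (2 : ℤ) ^ (2 * a + b) ∣ x * y := by
    rw [pow_add, pow_mul]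
    exact mul_dvd_mul (by norm_num; exact hx) hy
  exact (two_pow_dvd h).trans h1

/-- the subsets which occur -/
lemma ch_neg_even {R : Finset ℕ} (h : ∀ q ∈ R, q % 4 = 3) : ch R (-1) = 1 ↔ Even R.card := by
  rw [ch_neg_of h]
  constructor
  · intro h1
    rcases Nat.even_or_odd R.card with h2 | h2
    · exact h2
    · rw [h2.neg_one_pow] at h1
      norm_num at h1
  · intro h1
    exact h1.neg_one_pow

/-- **an even number of primes `3, 7` modulo `20`** -/
theorem mu5_even (S : Finset ℕ) (hS : Adm S) (hQ : ∀ q ∈ S, Qp q) (he : Even S.card) :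
    ∃ c : ℤ, Odd c ∧ mu5 S = 2 ^ (S.card + 1) * c := by
  classical
  induction S using Finset.strongInduction with
  | H S ih =>
  have h3 : ∀ q ∈ S, q % 4 = 3 := fun q hq => (hQ q hq).1
  obtain ⟨ν, n, Q, hν, hn, hQe, hνQ, -, -⟩ := nu5_data (NN_ten hS)
  have hid := symW5.main_id hS (Or.inl rfl : (1 : ℤ) = 1 ∨ (1 : ℤ) = -1) hν
  have hid0 := sym.toW.main_id hS (Or.inl rfl : (1 : ℤ) = 1 ∨ (1 : ℤ) = -1) (fun a ha => (hn a ha).1)
  have hc5 : (5 : ℕ).Coprime (NN S) := by
    have := NN_ten hS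
    exact (Nat.Coprime.coprime_dvd_right (by norm_num) this).symm
  have hid5 := sym.toW.main_id_coset hS (Or.inl rfl : (1 : ℤ) = 1 ∨ (1 : ℤ) = -1) hc5
    (fun a ha => (hn a ha).1)
  have hjS : jacobiSym (NN S) 5 = 1 := by
    rw [jac_NN, prod_congr rfl (fun q hq => (hQ q hq).2), prod_const, he.neg_one_pow]
  -- the sum of `n` over the coset
  have hcoset : ∑ a ∈ HH S, n (5 * a) = ∑ a ∈ HH S, n a := by
    have hpow : (2 : ℤ) ^ S.card ≠ 0 := by positivity
    apply mul_left_cancel₀ hpow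
    rw [← hid0, ← hid5]
    refine sum_congr rfl fun R hR => ?_
    rw [mem_powerset] at hR
    by_cases h1 : ch R (-1) = 1
    · have h2 := (ch_neg_even fun q hq => h3 q (hR hq)).1 h1
      have h4 : ch R ((5 : ℕ) : ℤ) = 1 := by
        have := ch_five (hS.mono hR) fun q hq => (hQ q (hR hq)).2
        push_cast
        rw [this, h2.neg_one_pow]
      rw [h4, one_mul]
    · rw [if_neg h1, mul_zero, mul_zero]
  have hodd : Odd (∑ a ∈ HH S, n a) := by
    have h1 : ((∑ a ∈ HH S, n a : ℤ) : ZMod 2) = (((HH S).card : ℤ) : ZMod 2) := by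
      push_cast
      rw [sum_congr rfl (g := fun _ => (1 : ZMod 2)), sum_const, nsmul_eq_mul, mul_one]
      intro a ha
      unfold HH at ha
      rw [mem_filter, mem_CC] at ha
      exact (odd_iff_z _).1 ((hn a ha.1.2).2.2 hjS)
    rw [odd_iff_z, h1, ← odd_iff_z, odd_HH hS]
    exact h3
  have hsum : ∑ a ∈ HH S, ν a = -(2 * ∑ a ∈ HH S, Q a + ∑ a ∈ HH S, n (5 * a) + ∑ a ∈ HH S, n a) := by
    rw [mul_sum, ← sum_add_distrib, ← sum_add_distrib, ← sum_neg_distrib]
    refine sum_congr rfl fun a ha => ?_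
    unfold HH at ha
    rw [mem_filter, mem_CC] at ha
    rw [hνQ a ha.1.2, hjS]
    ring
  have hQs : Even (∑ a ∈ HH S, Q a) := by
    apply even_sum
    intro a ha
    unfold HH at ha
    rw [mem_filter, mem_CC] at ha
    exact hQe a ha.1.2
  rw [hcoset] at hsum
  -- the other terms
  have hSS : S ∈ S.powerset := mem_powerset_self S
  rw [← add_sum_erase _ _ hSS] at hid
  have hrest : (2 : ℤ) ^ (S.card + 2) ∣ ∑ R ∈ S.powerset.erase S,
      (∏ q ∈ S \ R, (jacobiSym q 5 * A q - 2 * ch R q)) *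
        (if ch R (-1) = 1 then mu pf5 J0 I1 R else 0) := by
    apply dvd_sum
    intro R hR
    rw [mem_erase, mem_powerset] at hR
    by_cases h1 : ch R (-1) = 1
    · rw [if_pos h1]
      have hss : R ⊂ S := ssubset_of_subset_of_ne hR.2 hR.1
      have h2 := (ch_neg_even fun q hq => h3 q (hR.2 hq)).1 h1
      obtain ⟨c, -, hc⟩ := ih R hss (hS.mono hR.2) (fun q hq => hQ q (hR.2 hq)) h2
      have hcard : (S \ R).card + R.card = S.card := card_sdiff_add_card_eq_card hR.2
      have hpos : 1 ≤ (S \ R).card := by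
        rw [Nat.one_le_iff_ne_zero, Ne, card_eq_zero, sdiff_eq_empty_iff_subset]
        exact fun h => hR.1 (Subset.antisymm hR.2 h)
      refine four_two (a := (S \ R).card) (b := R.card + 1) (by omega) ?_ ?_
      · apply four_pow_dvd
        intro q hq
        rw [mem_sdiff] at hq
        have hqp := hS q hq.1
        exact (four_dvd hqp.1 hqp.2.1 hqp.2.2 (hQ q hq.1).2
          (ch_pm hqp.1 (hS.mono hR.2) hq.2)).2
      · have : mu pf5 J0 I1 R = 2 ^ (R.card + 1) * c := hc
        rw [this]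
        exact Dvd.intro _ rfl
    · rw [if_neg h1, mul_zero]; exact dvd_zero _
  obtain ⟨r, hr⟩ := hrest
  have hchS : ch S (-1) = 1 := (ch_neg_even h3).2 he
  rw [hr, if_pos hchS, sdiff_self, bot_eq_empty, prod_empty, one_mul, hsum] at hid
  obtain ⟨s, hs⟩ := hodd
  obtain ⟨t, ht⟩ := hQs
  refine ⟨-(2 * t + (2 * s + 1)) - 2 * r, ?_, ?_⟩
  · exact ⟨-t - s - r - 1, by ring⟩
  · show mu pf5 J0 I1 S = _
    rw [hs, ht] at hid
    rw [pow_succ]
    rw [pow_add] at hid
    linear_combination hid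

/-- the sum of `Q` -/
lemma sum_Q {I : Finset ℕ} {b : ℕ} (hS : Adm (insert b I)) (hbI : b ∉ I)
    (h3 : ∀ q ∈ I, q % 4 = 3) (hb4 : b % 4 = 1) {Q : ℕ → ℤ}
    (hQe : ∀ a : ℕ, a.Coprime (NN (insert b I)) → Even (Q a))
    (hQi : ∀ a a' : ℕ, a.Coprime (NN (insert b I)) → a'.Coprime (NN (insert b I)) →
      (NN (insert b I) : ℤ) ∣ 100 * (a * a') - 1 → Q a' = Q a)
    (hQf : ∀ a : ℕ, a.Coprime (NN (insert b I)) → (NN (insert b I) : ℤ) ∣ 100 * (a * a) - 1 →
      (4 : ℤ) ∣ Q a - 2) : (4 : ℤ) ∣ ∑ a ∈ HH (insert b I), Q a := by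
  classical
  set S := insert b I with hSdef
  have hN0 := NN_ne hS
  have hN10 := NN_ten hS
  have hk : IsCoprime (100 : ℤ) (NN S : ℤ) := by
    have : Nat.Coprime 100 (NN S) := by
      have e : 100 = 10 * 10 := by norm_num
      rw [e]
      exact Nat.Coprime.mul_left hN10.symm hN10.symm
    exact_mod_cast Nat.isCoprime_iff_coprime.2 this
  have hjk : ∀ q ∈ S, jacobiSym 100 q = 1 := by
    intro q hq
    have h1 : Int.gcd 10 q = 1 := by
      have h2 := Nat.Coprime.coprime_dvd_left (dvd_NN hq) hN10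
      exact_mod_cast h2.symm
    have e : (100 : ℤ) = 10 ^ 2 := by norm_num
    rw [e, jacobiSym.sq_one' h1]
  have hmem : ∀ a ∈ HH S, a < NN S ∧ a.Coprime (NN S) := fun a ha => by
    unfold HH at ha
    rw [mem_filter, mem_CC] at ha
    exact ha.1
  have hinv : ∀ a ∈ HH S, ivk 100 (NN S) (ivk 100 (NN S) a) = a := fun a ha =>
    ivk_ivk hN0 hk (hmem a ha).1 (hmem a ha).2
  have hQinv : ∀ a ∈ HH S, Q (ivk 100 (NN S) a) = Q a := by
    intro a ha
    obtain ⟨h1, h2, h3⟩ := ivk_spec hN0 hk (hmem a ha).2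
    exact hQi a _ (hmem a ha).2 h2 h3
  by_cases hex : ∃ a ∈ HH S, (NN S : ℤ) ∣ 100 * (a * a) - 1
  · obtain ⟨a, ha, hf⟩ := hex
    obtain ⟨a', ha', hf', hne, d1, d2, huniq⟩ := exists_other_k hS hbI hk h3 hb4 ha hf
    set s := ((HH S).erase a).erase a' with hsdef
    have hs1 : ∀ b ∈ s, b ∈ HH S ∧ b ≠ a ∧ b ≠ a' := by
      intro b hb
      rw [hsdef, mem_erase, mem_erase] at hb
      exact ⟨hb.2.2, hb.2.1, hb.1⟩
    have hfixa : ivk 100 (NN S) a = a := (ivk_fix hN0 hk (hmem a ha).1 (hmem a ha).2).2 hf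
    have hfixa' : ivk 100 (NN S) a' = a' := (ivk_fix hN0 hk (hmem a' ha').1 (hmem a' ha').2).2 hf'
    have e1 := sum_invol (s := s) Q (ivk 100 (NN S)) (by
        intro c hc
        obtain ⟨h1, h2, h4⟩ := hs1 c hc
        rw [hsdef, mem_erase, mem_erase]
        refine ⟨?_, ?_, ivk_HH hS hk hjk h1⟩
        · intro h
          apply h4
          rw [← hinv c h1, h, hfixa']
        · intro h
          apply h2
          rw [← hinv c h1, h, hfixa]) (fun c hc => hinv c (hs1 c hc).1) (by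
        intro c hc h
        obtain ⟨h1, h2, h4⟩ := hs1 c hc
        have h6 := (ivk_fix hN0 hk (hmem c h1).1 (hmem c h1).2).1 h
        rcases huniq c h1 h6 with h7 | h7
        · exact h2 h7
        · exact h4 h7) (fun c hc => hQinv c (hs1 c hc).1) 0 (fun c hc => by
        obtain ⟨t, ht⟩ := hQe c (hmem c (hs1 c hc).1).2
        exact ⟨t, by rw [ht]; ring⟩)
    have hmem' : a' ∈ (HH S).erase a := mem_erase.2 ⟨hne, ha'⟩
    have s1 : ∑ c ∈ HH S, Q c = Q a + (Q a' + ∑ c ∈ s, Q c) := by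
      rw [← add_sum_erase _ _ ha, ← add_sum_erase _ _ hmem']
    have f1 := hQf a (hmem a ha).2 hf
    have f2 := hQf a' (hmem a' ha').2 hf'
    rw [s1]
    omega
  · push Not at hex
    have e1 := sum_invol (s := HH S) Q (ivk 100 (NN S)) (fun a ha => ivk_HH hS hk hjk ha) hinv
      (fun a ha h => hex a ha ((ivk_fix hN0 hk (hmem a ha).1 (hmem a ha).2).1 h)) hQinv 0
      (fun c hc => by
        obtain ⟨t, ht⟩ := hQe c (hmem c hc).2
        exact ⟨t, by rw [ht]; ring⟩)
    omega

/-- **one more prime `13, 17` modulo `20`** -/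
theorem mu5_b (I : Finset ℕ) (b : ℕ) (hS : Adm (insert b I)) (hbI : b ∉ I) (hQ : ∀ q ∈ I, Qp q)
    (hb4 : b % 4 = 1) (hb5 : jacobiSym b 5 = -1) (he : Even I.card) :
    ∃ c : ℤ, Odd c ∧ mu5 (insert b I) = 2 ^ ((insert b I).card + 2) * c := by
  classical
  induction I using Finset.strongInduction with
  | H I ih =>
  have hI : Adm I := hS.mono (subset_insert _ _)
  have hbp := hS b (mem_insert_self _ _)
  have h3 : ∀ q ∈ I, q % 4 = 3 := fun q hq => (hQ q hq).1
  set S := insert b I with hSdef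
  have hcS : S.card = I.card + 1 := card_insert_of_notMem hbI
  have hj5 : ∀ q ∈ S, jacobiSym q 5 = -1 := by
    intro q hq
    rcases mem_insert.1 hq with rfl | h
    · exact hb5
    · exact (hQ q h).2
  have hjS : jacobiSym (NN S) 5 = -1 := by
    rw [jac_NN, prod_congr rfl hj5, prod_const, hcS]
    exact (he.add_one).neg_one_pow
  have hnegb : jacobiSym (-1) b = 1 := by
    rw [jacobiSym.at_neg_one (Nat.odd_iff.2 (by omega)), ZMod.χ₄_nat_one_mod_four hb4]
  obtain ⟨ν, n, Q, hν, hn, hQe, hνQ, hQi, hQf⟩ := nu5_data (NN_ten hS)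
  have hid := symW5.main_id hS (Or.inl rfl : (1 : ℤ) = 1 ∨ (1 : ℤ) = -1) hν
  have hid0 := sym.toW.main_id hS (Or.inl rfl : (1 : ℤ) = 1 ∨ (1 : ℤ) = -1) (fun a ha => (hn a ha).1)
  have hc5 : (5 : ℕ).Coprime (NN S) := by
    have := NN_ten hS
    exact (Nat.Coprime.coprime_dvd_right (by norm_num) this).symm
  have hid5 := sym.toW.main_id_coset hS (Or.inl rfl : (1 : ℤ) = 1 ∨ (1 : ℤ) = -1) hc5
    (fun a ha => (hn a ha).1)
  have hQ4 := sum_Q hS hbI h3 hb4 hQe (hQi hjS) (hQf hjS)
  have hsum : ∑ a ∈ HH S, ν a = 2 * ∑ a ∈ HH S, Q a + ∑ a ∈ HH S, n (5 * a) + ∑ a ∈ HH S, n a := by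
    rw [mul_sum, ← sum_add_distrib, ← sum_add_distrib]
    refine sum_congr rfl fun a ha => ?_
    unfold HH at ha
    rw [mem_filter, mem_CC] at ha
    rw [hνQ a ha.1.2, hjS]
    ring
  have hε := ch_pm hbp.1 hI hbI
  have hchI : ch I (-1) = 1 := (ch_neg_even h3).2 he
  have hchS : ch S (-1) = 1 := by
    rw [hSdef, ch_insert hbI, hnegb, hchI, one_mul]
  have hcardpos : ∀ R : Finset ℕ, R ⊆ I → R ≠ I → 1 ≤ (I \ R).card ∧ (I \ R).card + R.card = I.card := by
    intro R hR hne
    refine ⟨?_, card_sdiff_add_card_eq_card hR⟩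
    rw [Nat.one_le_iff_ne_zero, Ne, card_eq_zero, sdiff_eq_empty_iff_subset]
    exact fun h => hne (Subset.antisymm hR h)
  have hSS : S ∈ S.powerset := mem_powerset_self S
  have hne : I ≠ S := fun h => hbI (by rw [h]; exact mem_insert_self _ _)
  have hSI : I ∈ S.powerset.erase S := mem_erase.2 ⟨hne, mem_powerset.2 (subset_insert _ _)⟩
  have hSI' : I ∈ S.powerset := mem_powerset.2 (subset_insert _ _)
  have hsd : S \ I = {b} := by
    ext x
    rw [mem_sdiff, mem_singleton, hSdef, mem_insert]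
    constructor
    · rintro ⟨h | h, h'⟩
      · exact h
      · exact absurd h h'
    · rintro rfl
      exact ⟨Or.inl rfl, hbI⟩
  -- subsets with `b`
  have hwith : ∀ R : Finset ℕ, R ⊆ S → b ∈ R → ∃ I' : Finset ℕ, I' ⊆ I ∧ b ∉ I' ∧ R = insert b I' ∧
      S \ R = I \ I' := by
    intro R hR hbR
    refine ⟨R.erase b, ?_, notMem_erase _ _, (insert_erase hbR).symm, ?_⟩
    · intro x hx
      rw [mem_erase] at hx
      rcases mem_insert.1 (hR hx.2) with h | h
      · exact absurd h hx.1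
      · exact h
    · ext x
      rw [mem_sdiff, mem_sdiff, mem_erase, hSdef, mem_insert]
      constructor
      · rintro ⟨h | h, h'⟩
        · rw [h] at h'; exact absurd hbR h'
        · exact ⟨h, fun h1 => h' h1.2⟩
      · rintro ⟨h, h'⟩
        refine ⟨Or.inr h, fun h1 => h' ⟨?_, h1⟩⟩
        rintro rfl
        exact hbI h
  have hwithout : ∀ R : Finset ℕ, R ⊆ S → b ∉ R → R ⊆ I ∧ (S \ R).card = (I \ R).card + 1 := by
    intro R hR hbR
    have h1 : R ⊆ I := by
      intro x hx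
      rcases mem_insert.1 (hR hx) with h | h
      · rw [h] at hx; exact absurd hx hbR
      · exact h
    refine ⟨h1, ?_⟩
    have e1 : (S \ R).card + R.card = S.card := card_sdiff_add_card_eq_card hR
    have e2 : (I \ R).card + R.card = I.card := card_sdiff_add_card_eq_card h1
    omega
  -- the relation for the untwisted symbol
  obtain ⟨cI, hcI, hoI⟩ := mu_two sym I hI
  have hcIo : Odd cI := hoI.2 hQ
  have hadd : 2 ^ S.card * (∑ a ∈ HH S, n (5 * a) + ∑ a ∈ HH S, n a) =
      ∑ R ∈ S.powerset, (1 + ch R ((5 : ℕ) : ℤ)) * ((∏ q ∈ S \ R, (A q - 2 * ch R q)) *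
        (if ch R (-1) = 1 then mu (fun x => J (2 * x)) J0 I1 R else 0)) := by
    rw [mul_add, ← hid0, ← hid5, ← sum_add_distrib]
    exact sum_congr rfl fun R _ => by ring
  rw [← add_sum_erase _ _ hSI'] at hadd
  have hrest0 : (2 : ℤ) ^ (S.card + 3) ∣ ∑ R ∈ S.powerset.erase I, (1 + ch R ((5 : ℕ) : ℤ)) *
      ((∏ q ∈ S \ R, (A q - 2 * ch R q)) *
        (if ch R (-1) = 1 then mu (fun x => J (2 * x)) J0 I1 R else 0)) := by
    apply dvd_sum
    intro R hR
    rw [mem_erase, mem_powerset] at hR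
    obtain ⟨hne', hR⟩ := hR
    by_cases h1 : ch R (-1) = 1
    · rw [if_pos h1]
      by_cases hbR : b ∈ R
      · obtain ⟨I', hI', hbI', rfl, hsd'⟩ := hwith R hR hbR
        have h4 : ch I' (-1) = 1 := by
          rw [ch_insert hbI', hnegb, one_mul] at h1
          exact h1
        have h6 := (ch_neg_even fun q hq => h3 q (hI' hq)).1 h4
        have h7 : ch (insert b I') ((5 : ℕ) : ℤ) = -1 := by
          have := ch_five (hS.mono hR) fun q hq => hj5 q (hR hq)
          push_cast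
          rw [this, card_insert_of_notMem hbI']
          exact (h6.add_one).neg_one_pow
        rw [h7]
        norm_num
      · obtain ⟨hRI, hcard⟩ := hwithout R hR hbR
        obtain ⟨hp, hcard'⟩ := hcardpos R hRI hne'
        have h6 := (ch_neg_even fun q hq => h3 q (hRI hq)).1 h1
        have h7 : ch R ((5 : ℕ) : ℤ) = 1 := by
          have := ch_five (hS.mono hR) fun q hq => hj5 q (hR hq)
          push_cast
          rw [this]
          exact h6.neg_one_pow
        rw [h7]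
        obtain ⟨c, hc, -⟩ := mu_two sym R (hS.mono hR)
        have h8 : (2 : ℤ) ^ (S.card + 2) ∣ (∏ q ∈ S \ R, (A q - 2 * ch R q)) *
            mu (fun x => J (2 * x)) J0 I1 R := by
          refine four_two (a := (S \ R).card) (b := R.card) (by omega) ?_ ?_
          · apply four_pow_dvd
            intro q hq
            rw [mem_sdiff] at hq
            have hqp := hS q hq.1
            exact (four_dvd hqp.1 hqp.2.1 hqp.2.2 (hj5 q hq.1)
              (ch_pm hqp.1 (hS.mono hR) hq.2)).1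
          · rw [hc]; exact Dvd.intro _ rfl
        have e : S.card + 3 = (S.card + 2) + 1 := by ring
        rw [e, pow_succ, mul_comm ((2 : ℤ) ^ (S.card + 2))]
        exact mul_dvd_mul (by norm_num) h8
    · rw [if_neg h1, mul_zero, mul_zero]; exact dvd_zero _
  obtain ⟨r0, hr0⟩ := hrest0
  have h5I : ch I ((5 : ℕ) : ℤ) = 1 := by
    have := ch_five hI fun q hq => (hQ q hq).2
    push_cast
    rw [this]
    exact he.neg_one_pow
  rw [hr0, if_pos hchI, h5I, hsd, prod_singleton, hcI, hcS] at hadd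
  -- the relation for the twisted symbol
  rw [← add_sum_erase _ _ hSS, ← add_sum_erase _ _ hSI] at hid
  have hrest : (2 : ℤ) ^ (S.card + 3) ∣ ∑ R ∈ (S.powerset.erase S).erase I,
      (∏ q ∈ S \ R, (jacobiSym q 5 * A q - 2 * ch R q)) *
        (if ch R (-1) = 1 then mu pf5 J0 I1 R else 0) := by
    apply dvd_sum
    intro R hR
    rw [mem_erase, mem_erase, mem_powerset] at hR
    obtain ⟨hneI, hneS, hR⟩ := hR
    by_cases h1 : ch R (-1) = 1
    · rw [if_pos h1]
      by_cases hbR : b ∈ R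
      · obtain ⟨I', hI', hbI', hRe, hsd'⟩ := hwith R hR hbR
        have h4 : ch I' (-1) = 1 := by
          rw [hRe, ch_insert hbI', hnegb, one_mul] at h1
          exact h1
        have h6 := (ch_neg_even fun q hq => h3 q (hI' hq)).1 h4
        have hneI' : I' ≠ I := by
          rintro rfl
          exact hneS hRe
        obtain ⟨hp, hcard'⟩ := hcardpos I' hI' hneI'
        obtain ⟨c, -, hc⟩ := ih I' (ssubset_of_subset_of_ne hI' hneI')
          (by rw [← hRe]; exact hS.mono hR) hbI' (fun q hq => hQ q (hI' hq)) h6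
        rw [hsd']
        refine four_two (a := (I \ I').card) (b := (insert b I').card + 2) ?_ ?_ ?_
        · rw [card_insert_of_notMem hbI']
          omega
        · apply four_pow_dvd
          intro q hq
          have hq' : q ∈ S \ R := by rw [hsd']; exact hq
          rw [mem_sdiff] at hq'
          have hqp := hS q hq'.1
          exact (four_dvd hqp.1 hqp.2.1 hqp.2.2 (hj5 q hq'.1)
            (ch_pm hqp.1 (hS.mono hR) hq'.2)).2
        · have : mu pf5 J0 I1 R = 2 ^ ((insert b I').card + 2) * c := by rw [hRe]; exact hc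
          rw [this]
          exact Dvd.intro _ rfl
      · obtain ⟨hRI, hcard⟩ := hwithout R hR hbR
        obtain ⟨hp, hcard'⟩ := hcardpos R hRI hneI
        have h6 := (ch_neg_even fun q hq => h3 q (hRI hq)).1 h1
        obtain ⟨c, -, hc⟩ := mu5_even R (hS.mono hR) (fun q hq => hQ q (hRI hq)) h6
        refine four_two (a := (S \ R).card) (b := R.card + 1) (by omega) ?_ ?_
        · apply four_pow_dvd
          intro q hq
          rw [mem_sdiff] at hq
          have hqp := hS q hq.1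
          exact (four_dvd hqp.1 hqp.2.1 hqp.2.2 (hj5 q hq.1)
            (ch_pm hqp.1 (hS.mono hR) hq.2)).2
        · have : mu pf5 J0 I1 R = 2 ^ (R.card + 1) * c := hc
          rw [this]
          exact Dvd.intro _ rfl
    · rw [if_neg h1, mul_zero]; exact dvd_zero _
  obtain ⟨r, hr⟩ := hrest
  obtain ⟨c0, hc0o, hc0⟩ := mu5_even I hI hQ he
  have hc0' : mu pf5 J0 I1 I = 2 ^ (I.card + 1) * c0 := hc0
  rw [hr, if_pos hchS, if_pos hchI, sdiff_self, bot_eq_empty, prod_empty, one_mul, hsd,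
    prod_singleton, hc0', hb5, hsum, hcS] at hid
  obtain ⟨⟨b', hb'⟩, -⟩ := four_dvd hbp.1 hbp.2.1 hbp.2.2 hb5 hε
  obtain ⟨w, hw⟩ := hQ4
  rw [hw] at hid
  obtain ⟨x, hx⟩ := hcIo
  obtain ⟨y, hy⟩ := hc0o
  have hAb : A b = 4 * b' + 2 * ch I b := by linarith
  have hpow : (2 : ℤ) ^ I.card ≠ 0 := by positivity
  -- the final identity
  have key : mu pf5 J0 I1 S = 2 ^ (I.card + 1 + 2) *
      (2 * w + b' * cI + 2 * r0 + (b' + ch I b) * c0 - 2 * r) := by
    have e1 : (2 : ℤ) ^ (I.card + 1) * (∑ a ∈ HH S, n (5 * a) + ∑ a ∈ HH S, n a) =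
        2 ^ (I.card + 1) * (4 * b' * cI) + 2 ^ (I.card + 1 + 3) * r0 := by
      rw [hadd, hAb]
      rw [pow_succ 2 I.card]
      ring
    rw [hAb] at hid
    rw [pow_add 2 (I.card + 1) 3] at hid e1
    rw [pow_add 2 (I.card + 1) 2]
    linear_combination hid + e1
  rw [hcS]
  refine ⟨_, ?_, key⟩
  rw [hx, hy]
  rcases hε with hε | hε
  · rw [hε]
    exact ⟨w + b' * x + r0 + b' * y + y + b' - r, by ring⟩
  · rw [hε]
    exact ⟨w + b' * x + r0 + b' * y - y + b' - r - 1, by ring⟩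

end Pool.Agent.Y695
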