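import Pool.Agent.Y695.RChar

/-!
Twisted modular symbols and their Hecke relations.
-/

set_option autoImplicit false
set_option linter.all false

open Finset ZMod

namespace Pool.Agent.Y695

open Pool.Agent.W97.TW
open Pool.Agent.W97.V20
open Pool.Agent.W97.MT (ap)

/-- summation over the residues, by the Chinese remainder theorem -/
lemma crt_sum {M₁ M₂ : ℕ} (h₁ : 0 < M₁) (h₂ : 0 < M₂) (hc : M₁.Coprime M₂) {G : ℕ → ℂ}
    (hG : ∀ c, G (c % (M₁ * M₂)) = G c) :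
    ∑ c ∈ range (M₁ * M₂), G c = ∑ a ∈ range M₂, ∑ j ∈ range M₁, G (a * M₁ + j * M₂) := by
  rw [← Finset.sum_product']
  have hinj : Set.InjOn (fun x : ℕ × ℕ => (x.1 * M₁ + x.2 * M₂) % (M₁ * M₂))
      ((range M₂ ×ˢ range M₁ : Finset (ℕ × ℕ)) : Set (ℕ × ℕ)) := by
    intro x hx y hy h
    rw [mem_coe, mem_product, mem_range, mem_range] at hx hy
    have h3 : x.1 * M₁ + x.2 * M₂ ≡ y.1 * M₁ + y.2 * M₂ [MOD M₁ * M₂] := h
    have h4 : x.2 * M₂ ≡ y.2 * M₂ [MOD M₁] := by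
      have := h3.of_dvd (Dvd.intro _ rfl : M₁ ∣ M₁ * M₂)
      have e1 : x.1 * M₁ + x.2 * M₂ ≡ x.2 * M₂ [MOD M₁] := by
        rw [Nat.ModEq, add_comm, Nat.add_mul_mod_self_right]
      have e2 : y.1 * M₁ + y.2 * M₂ ≡ y.2 * M₂ [MOD M₁] := by
        rw [Nat.ModEq, add_comm, Nat.add_mul_mod_self_right]
      exact (e1.symm.trans this).trans e2
    have h5 : x.1 * M₁ ≡ y.1 * M₁ [MOD M₂] := by
      have := h3.of_dvd (Dvd.intro_left _ rfl : M₂ ∣ M₁ * M₂)
      have e1 : x.1 * M₁ + x.2 * M₂ ≡ x.1 * M₁ [MOD M₂] := by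
        rw [Nat.ModEq, Nat.add_mul_mod_self_right]
      have e2 : y.1 * M₁ + y.2 * M₂ ≡ y.1 * M₁ [MOD M₂] := by
        rw [Nat.ModEq, Nat.add_mul_mod_self_right]
      exact (e1.symm.trans this).trans e2
    have h6 : x.2 ≡ y.2 [MOD M₁] := Nat.ModEq.cancel_right_of_coprime hc h4
    have h7 : x.1 ≡ y.1 [MOD M₂] := Nat.ModEq.cancel_right_of_coprime hc.symm h5
    rw [Nat.ModEq, Nat.mod_eq_of_lt hx.2, Nat.mod_eq_of_lt hy.2] at h6
    rw [Nat.ModEq, Nat.mod_eq_of_lt hx.1, Nat.mod_eq_of_lt hy.1] at h7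
    exact Prod.ext h7 h6
  have himg : (range M₂ ×ˢ range M₁).image (fun x : ℕ × ℕ => (x.1 * M₁ + x.2 * M₂) % (M₁ * M₂)) =
      range (M₁ * M₂) := by
    apply Finset.eq_of_subset_of_card_le
    · intro c hc'
      rw [mem_image] at hc'
      obtain ⟨x, _, rfl⟩ := hc'
      rw [mem_range]
      exact Nat.mod_lt _ (Nat.mul_pos h₁ h₂)
    · rw [Finset.card_image_of_injOn hinj, card_product, card_range, card_range, card_range,
        mul_comm]
  rw [← himg, Finset.sum_image hinj]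
  exact sum_congr rfl fun x _ => hG _

/-- division with remainder -/
lemma div_sum {M₁ M₂ : ℕ} (h₁ : 0 < M₁) {G : ℕ → ℂ} :
    ∑ c ∈ range (M₁ * M₂), G c = ∑ b ∈ range M₂, ∑ j ∈ range M₁, G (b * M₁ + j) := by
  rw [← Finset.sum_product']
  symm
  refine Finset.sum_bij (fun x _ => x.1 * M₁ + x.2) ?_ ?_ ?_ ?_
  · intro x hx
    rw [mem_product, mem_range, mem_range] at hx
    rw [mem_range]
    have h1 : (x.1 + 1) * M₁ ≤ M₂ * M₁ := Nat.mul_le_mul_right M₁ hx.1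
    rw [add_mul, one_mul, mul_comm M₂] at h1
    omega
  · intro x hx y hy h
    rw [mem_product, mem_range, mem_range] at hx hy
    have h0 : x.1 * M₁ + x.2 = y.1 * M₁ + y.2 := h
    have h1 : (x.1 * M₁ + x.2) % M₁ = (y.1 * M₁ + y.2) % M₁ := by rw [h0]
    rw [Nat.mul_comm, Nat.mul_add_mod, Nat.mul_comm, Nat.mul_add_mod, Nat.mod_eq_of_lt hx.2,
      Nat.mod_eq_of_lt hy.2] at h1
    have h3 : x.1 * M₁ = y.1 * M₁ := by omega
    exact Prod.ext (Nat.eq_of_mul_eq_mul_right h₁ h3) h1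
  · intro c hc
    rw [mem_range] at hc
    refine ⟨(c / M₁, c % M₁), ?_, ?_⟩
    · rw [mem_product, mem_range, mem_range]
      exact ⟨Nat.div_lt_of_lt_mul hc, Nat.mod_lt _ h₁⟩
    · show c / M₁ * M₁ + c % M₁ = c
      rw [mul_comm, Nat.div_add_mod]
  · intro x _
    rfl

/-- the twisted symbol -/
noncomputable def pfx (M₁ : ℕ) (f : ℕ → ℤ) (F : ℚ → ℂ) (x : ℚ) : ℂ :=
  ∑ j ∈ range M₁, (f j : ℂ) * F (x + (j : ℚ) / M₁)

lemma pfx_per {M₁ : ℕ} {f : ℕ → ℤ} {F : ℚ → ℂ} (hF : ∀ x, F (x + 1) = F x) (x : ℚ) :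
    pfx M₁ f F (x + 1) = pfx M₁ f F x := by
  unfold pfx
  refine sum_congr rfl fun j _ => ?_
  rw [show x + 1 + (j : ℚ) / M₁ = (x + (j : ℚ) / M₁) + 1 by ring, hF]

/-- the Hecke relation -/
theorem pfx_hecke {M₁ : ℕ} {f : ℕ → ℤ} (h₁ : RC M₁ f) {F : ℚ → ℂ} (hF : ∀ x, F (x + 1) = F x)
    {q : ℕ} (hq : q.Prime) (hc : q.Coprime M₁) {A : ℂ}
    (hH : ∀ x : ℚ, A * F x = F (q * x) + ∑ b ∈ range q, F ((x + b) / q)) (x : ℚ) :
    (f q * A) * pfx M₁ f F x = pfx M₁ f F (q * x) + ∑ b ∈ range q, pfx M₁ f F ((x + b) / q) := by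
  have hM1 : (M₁ : ℚ) ≠ 0 := by exact_mod_cast h₁.pos.ne'
  have hqQ : (q : ℚ) ≠ 0 := by exact_mod_cast hq.ne_zero
  have hFn : ∀ (x : ℚ) (n : ℕ), F (x + n) = F x := fun x n => per_nat hF x n
  have hfq : (f q : ℂ) * f q = 1 := by
    have := h₁.sq q hc
    exact_mod_cast this
  haveI : NeZero M₁ := ⟨h₁.pos.ne'⟩
  -- multiplication of the residues by `q`
  have hmulq : ∀ G : ℕ → ℂ, (∀ a, G (a % M₁) = G a) →
      ∑ j ∈ range M₁, (f j : ℂ) * G (q * j) = f q * ∑ j ∈ range M₁, (f j : ℂ) * G j := by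
    intro G hG
    have e1 : ∀ G' : ℕ → ℂ, ∑ j ∈ range M₁, (f j : ℂ) * G' j = ∑ j ∈ CC M₁, (f j : ℂ) * G' j := by
      intro G'
      unfold CC
      rw [sum_filter]
      refine sum_congr rfl fun a _ => ?_
      split_ifs with h
      · rfl
      · rw [h₁.zero a h]; push_cast; ring
    rw [e1 (fun j => G (q * j)), e1 G]
    have h3 := sum_mulU (fun j => (f j : ℂ) * G j) (fun a => by
      show (f (a % M₁) : ℂ) * G (a % M₁) = f a * G a
      rw [h₁.mod, hG]) hc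
    rw [← h3, mul_sum]
    refine sum_congr rfl fun j _ => ?_
    rw [h₁.mul]
    push_cast
    linear_combination (-(f j : ℂ) * G (q * j)) * hfq
  have p1 : pfx M₁ f F (q * x) = f q * ∑ j ∈ range M₁, (f j : ℂ) * F (q * (x + (j : ℚ) / M₁)) := by
    unfold pfx
    have h3 := hmulq (fun j => F (q * x + (j : ℚ) / M₁)) (fun a => by
      have h4 : a % M₁ + a / M₁ * M₁ = a := by rw [mul_comm, Nat.mod_add_div]
      have h5 : (a : ℚ) = ((a % M₁ : ℕ) : ℚ) + ((a / M₁ : ℕ) : ℚ) * M₁ := by exact_mod_cast h4.symm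
      rw [← hFn (q * x + ((a % M₁ : ℕ) : ℚ) / M₁) (a / M₁)]
      congr 1
      rw [h5]
      field_simp
      ring)
    have h6 : ∑ j ∈ range M₁, (f j : ℂ) * F (q * x + ((q * j : ℕ) : ℚ) / M₁) =
        ∑ j ∈ range M₁, (f j : ℂ) * F (q * (x + (j : ℚ) / M₁)) := by
      refine sum_congr rfl fun j _ => ?_
      congr 2
      push_cast
      ring
    rw [h6] at h3
    rw [h3]
    linear_combination (-(∑ j ∈ range M₁, (f j : ℂ) * F (q * x + (j : ℚ) / M₁))) * hfq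
  have p2 : ∑ b ∈ range q, pfx M₁ f F ((x + b) / q) =
      f q * ∑ j ∈ range M₁, (f j : ℂ) * ∑ b ∈ range q, F ((x + (j : ℚ) / M₁ + b) / q) := by
    set G : ℕ → ℂ := fun r => (f r : ℂ) * F (x / q + (r : ℚ) / (M₁ * q : ℕ)) with hG
    have hGmod : ∀ c, G (c % (M₁ * q)) = G c := by
      intro c
      have h4 : c % (M₁ * q) + c / (M₁ * q) * (M₁ * q) = c := by
        rw [mul_comm (c / (M₁ * q)), Nat.mod_add_div]
      have e1 : f (c % (M₁ * q)) = f c := by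
        have : f c = f (c % (M₁ * q) + c / (M₁ * q) * q * M₁) := by
          congr 1
          nth_rw 1 [← h4]
          ring
        rw [this, h₁.per']
      have h5 : (((M₁ * q : ℕ)) : ℚ) ≠ 0 := by push_cast; exact mul_ne_zero hM1 hqQ
      have h6 : (c : ℚ) = ((c % (M₁ * q) : ℕ) : ℚ) + ((c / (M₁ * q) : ℕ) : ℚ) * ((M₁ * q : ℕ) : ℚ) := by
        exact_mod_cast h4.symm
      rw [hG]
      dsimp only
      rw [e1]
      congr 1
      rw [← hFn (x / q + ((c % (M₁ * q) : ℕ) : ℚ) / (M₁ * q : ℕ)) (c / (M₁ * q))]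
      congr 1
      rw [add_assoc, div_add' _ _ _ h5, ← h6]
    have c1 := crt_sum h₁.pos hq.pos hc.symm hGmod
    have c2 := div_sum (M₁ := M₁) (M₂ := q) h₁.pos (G := G)
    rw [c1] at c2
    have s1 : ∀ b j : ℕ, G (b * M₁ + j * q) = f q * ((f j : ℂ) * F ((x + b) / q + (j : ℚ) / M₁)) := by
      intro b j
      rw [hG]
      dsimp only
      rw [add_comm (b * M₁), h₁.per', h₁.mul]
      have e3 : x / q + (((j * q + b * M₁ : ℕ)) : ℚ) / ((M₁ * q : ℕ) : ℚ) = (x + b) / q + (j : ℚ) / M₁ := by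
        push_cast
        field_simp
        ring
      rw [e3]
      push_cast
      ring
    have s2 : ∀ b j : ℕ, G (b * M₁ + j) = (f j : ℂ) * F ((x + (j : ℚ) / M₁ + b) / q) := by
      intro b j
      rw [hG]
      dsimp only
      rw [add_comm (b * M₁), h₁.per']
      have e3 : x / q + (((j + b * M₁ : ℕ)) : ℚ) / ((M₁ * q : ℕ) : ℚ) = (x + (j : ℚ) / M₁ + b) / q := by
        push_cast
        field_simp
        ring
      rw [e3]
    have s3 : ∑ b ∈ range q, ∑ j ∈ range M₁, G (b * M₁ + j * q) =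
        f q * ∑ b ∈ range q, pfx M₁ f F ((x + b) / q) := by
      rw [mul_sum]
      refine sum_congr rfl fun b _ => ?_
      unfold pfx
      rw [mul_sum]
      exact sum_congr rfl fun j _ => s1 b j
    have s4 : ∑ b ∈ range q, ∑ j ∈ range M₁, G (b * M₁ + j) =
        ∑ j ∈ range M₁, (f j : ℂ) * ∑ b ∈ range q, F ((x + (j : ℚ) / M₁ + b) / q) := by
      rw [sum_comm]
      refine sum_congr rfl fun j _ => ?_
      rw [mul_sum]
      exact sum_congr rfl fun b _ => s2 b j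
    rw [s3, s4] at c2
    rw [← c2]
    linear_combination (-(∑ b ∈ range q, pfx M₁ f F ((x + b) / q))) * hfq
  rw [p1, p2, ← mul_add, ← sum_add_distrib]
  unfold pfx
  rw [mul_assoc, mul_sum]
  congr 1
  refine sum_congr rfl fun j _ => ?_
  rw [← mul_add, ← hH]
  ring

lemma per_J2 (x : ℚ) : J (2 * (x + 1)) = J (2 * x) := sym.per x

/-- **the value of the `L`-function at the centre** -/
theorem LLx_val {M₁ M₂ : ℕ} {f₁ f₂ : ℕ → ℤ} (h₁ : RC M₁ f₁) (h₂ : RC M₂ f₂) (hc : M₁.Coprime M₂)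
    [NeZero (M₁ * M₂)] : LLx (h₁.prod h₂ hc).chr 1 = (gsx (h₁.prod h₂ hc).chr)⁻¹ *
      (((f₁ M₂ * f₂ M₁ : ℤ) : ℂ) * TS (pfx M₁ f₁ (fun x => J (2 * x))) (fun a => (f₂ a : ℂ)) M₂) := by
  rw [LLx_one]
  have h := sum_crt h₁ h₂ hc (F := fun x => J (2 * x)) per_J2
  rw [h]
  rfl

/-- the coefficients of the twisted curves -/
theorem ap_ED {D : ℤ} {p : ℕ} (hp : p.Prime) (h2 : p ≠ 2) :
    ap (ED D) p = jacobiSym D p * W97.V20.A p := by
  have hF : Fact p.Prime := ⟨hp⟩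
  have hodd : Odd p := hp.odd_of_ne_two h2
  rw [W97.V20.A_eq hp]
  by_cases hpD : (p : ℤ) ∣ D
  · have h3 : jacobiSym D p = 0 := by
      rw [jacobiSym.eq_zero_iff_not_coprime]
      intro h
      have h4 : p ∣ D.gcd p := Nat.dvd_gcd (Int.natCast_dvd.1 hpD) (by simp)
      rw [h] at h4
      exact hp.one_lt.ne' (Nat.dvd_one.1 h4)
    rw [h3, zero_mul]
    unfold ED
    rw [Pool.Agent.W417.V20.TWIST.ap_eq _ _ p h2, neg_eq_zero]
    have hchar : ringChar (ZMod p) ≠ 2 := by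
      rw [ZMod.ringChar_zmod_n]
      exact h2
    have hD0 : ((D : ℤ) : ZMod p) = 0 := (ZMod.intCast_zmod_eq_zero_iff_dvd _ p).2 hpD
    rw [← quadraticChar_sum_zero hchar]
    refine sum_congr rfl fun x _ => ?_
    push_cast
    rw [hD0]
    have e : x ^ 3 + -11 * (0 : ZMod p) * x ^ 2 + -(0 : ZMod p) ^ 2 * x = x ^ 3 := by ring
    rw [e, map_pow]
    by_cases hx : x = 0
    · subst hx
      simp
    · rw [pow_succ, quadraticChar_sq_one hx, one_mul]
  have hDp : ((D : ℤ) : ZMod p) ≠ 0 := fun h => hpD ((ZMod.intCast_zmod_eq_zero_iff_dvd _ p).1 h)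
  have h3 : ap (ED D) p = quadraticChar (ZMod p) ((D : ℤ) : ZMod p) * ap W97.V20.E4 p := by
    unfold ED W97.V20.E4
    rw [Pool.Agent.W417.V20.TWIST.ap_eq _ _ p h2, Pool.Agent.W417.V20.TWIST.ap_eq _ _ p h2,
      mul_neg, mul_sum]
    congr 1
    symm
    refine Fintype.sum_equiv (Equiv.mulLeft₀ ((D : ℤ) : ZMod p) hDp) _ _ fun x => ?_
    have h4 : quadraticChar (ZMod p) ((D : ℤ) : ZMod p) =
        quadraticChar (ZMod p) (((D : ℤ) : ZMod p) ^ 3) := by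
      rw [pow_succ, map_mul, quadraticChar_sq_one' hDp, one_mul]
    rw [h4, ← map_mul, Equiv.mulLeft₀_apply]
    congr 1
    push_cast
    ring
  rw [h3]
  congr 1
  have h5 : quadraticChar (ZMod p) ((D : ℤ) : ZMod p) = legendreSym p D := rfl
  rw [h5, jacobiSym.legendreSym.to_jacobiSym]

end Pool.Agent.Y695
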