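import Pool.Agent.Y695.Tam

/-!
The Tamagawa number at two.
-/

set_option autoImplicit false
set_option linter.all false

open WeierstrassCurve WeierstrassCurve.Affine
open scoped Classical

namespace Pool.Agent.Y695.Two

lemma z2 : ∀ t : ZMod 2, t ≠ 0 → t = 1 := by decide

variable [hp : Fact (Nat.Prime 2)]

lemma n2 : ‖(2 : ℚ_[2])‖ = 1 / 2 := by
  have := Padic.norm_p (p := 2)
  norm_num at this ⊢
  exact this

lemma lt_half {x : ℚ_[2]} (h : ‖x‖ < 1) : ‖x‖ ≤ 1 / 2 := by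
  have := norm_lt_one_le h
  norm_num at this ⊢
  exact this

/-- units are congruent modulo two -/
lemma odd_sub {x y : ℚ_[2]} (hx : ‖x‖ = 1) (hy : ‖y‖ = 1) : ‖x - y‖ ≤ 1 / 2 := by
  apply lt_half
  set z : ℤ_[2] := ⟨x, hx.le⟩ with hz
  set w : ℤ_[2] := ⟨y, hy.le⟩ with hw
  have key : ∀ v : ℤ_[2], ‖(v : ℚ_[2])‖ = 1 → PadicInt.toZMod v = 1 := by
    intro v hv
    have h1 : PadicInt.toZMod v ≠ 0 := by
      intro h0
      have h2 : v ∈ RingHom.ker (PadicInt.toZMod (p := 2)) := h0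
      rw [PadicInt.ker_toZMod, IsLocalRing.mem_maximalIdeal, PadicInt.mem_nonunits,
        PadicInt.norm_def, hv] at h2
      exact lt_irrefl _ h2
    exact z2 _ h1
  have h1 : z - w ∈ RingHom.ker (PadicInt.toZMod (p := 2)) := by
    rw [RingHom.mem_ker, map_sub, key z hx, key w hy, sub_self]
  rw [PadicInt.ker_toZMod, IsLocalRing.mem_maximalIdeal, PadicInt.mem_nonunits,
    PadicInt.norm_def] at h1
  exact h1

lemma odd_add {x y : ℚ_[2]} (hx : ‖x‖ = 1) (hy : ‖y‖ = 1) : ‖x + y‖ ≤ 1 / 2 := by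
  have := odd_sub hx (y := -y) (by rw [norm_neg]; exact hy)
  rwa [sub_neg_eq_add] at this

variable {D : ℤ} (hD : ¬ (2 : ℤ) ∣ D)
include hD

lemma nD : ‖(D : ℚ_[2])‖ = 1 := norm_int_unit (p := 2) (by exact_mod_cast hD)

lemma mem_iff {x y : ℚ_[2]}
    (h : ((ED D).map (Int.castRingHom ℚ_[2])).toAffine.Nonsingular x y) :
    Point.some x y h ∈ nsRed (ED D) 2 ↔ ‖x‖ ≠ 1 := by
  have hD0 : D ≠ 0 := by
    rintro rfl
    exact hD (dvd_zero _)
  have hT := isT_ED D hD0 ℚ_[2]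
  have hE := hT.nonsingular.1 h
  have h1 := nD hD
  rw [mem_nsRed]
  constructor
  · intro h2 h3
    have h4 : ‖(x - D) * (x + D)‖ ≤ 1 / 2 := by
      rw [norm_mul]
      have a1 := odd_sub h3 h1
      have a2 := odd_add h3 h1
      nlinarith [norm_nonneg (x - D), norm_nonneg (x + D)]
    have hy : ‖y‖ = 1 := by
      have e1 : x ^ 2 + -11 * (D : ℚ_[2]) * x + -(D : ℚ_[2]) ^ 2 =
          -(11 * D * x) + (x - D) * (x + D) := by ring
      have h11 : ‖(11 : ℚ_[2])‖ = 1 := by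
        have := norm_int_unit (p := 2) (n := 11) (by norm_num)
        exact_mod_cast this
      have e2 : ‖-(11 * (D : ℚ_[2]) * x)‖ = 1 := by
        rw [norm_neg, norm_mul, norm_mul, h11, h1, h3]; norm_num
      have h5 : ‖y ^ 2‖ = 1 := by
        rw [hE, norm_mul, h3, e1, norm_add_eq, e2, one_mul]
        rw [e2]; linarith
      rw [norm_pow] at h5
      exact (pow_eq_one_iff_of_nonneg (norm_nonneg _) two_ne_zero).1 h5
    rcases h2 with h5 | h5 | h5
    · linarith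
    · have e1 : 3 * x ^ 2 - 22 * D * x - (D : ℚ_[2]) ^ 2 =
        3 * ((x - D) * (x + D)) + 2 * (D * (D - 11 * x)) := by ring
      have h6 : ‖3 * ((x - D) * (x + D)) + 2 * (D * (D - 11 * x))‖ ≤ 1 / 2 := by
        apply norm_add_le''
        · rw [norm_mul]
          have := norm_natc (p := 2) 3
          have h7 : ‖(3 : ℚ_[2])‖ ≤ 1 := by exact_mod_cast this
          nlinarith [norm_nonneg ((x - D) * (x + D)), norm_nonneg (3 : ℚ_[2])]
        · rw [norm_mul, n2]
          have h7 : ‖(D : ℚ_[2]) * (D - 11 * x)‖ ≤ 1 := by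
            rw [norm_mul, h1, one_mul]
            apply norm_sub_le' h1.le
            rw [norm_mul, h3, mul_one]
            exact norm_natc 11
          linarith
      rw [e1] at h5
      linarith
    · rw [norm_mul, n2, hy] at h5
      norm_num at h5
  · intro h2
    rcases lt_or_gt_of_ne h2 with h3 | h3
    · right; left
      have e1 : 3 * x ^ 2 - 22 * D * x - (D : ℚ_[2]) ^ 2 =
        -(D : ℚ_[2]) ^ 2 + x * (3 * x - 22 * D) := by ring
      have e2 : ‖-(D : ℚ_[2]) ^ 2‖ = 1 := by rw [norm_neg, norm_pow, h1, one_pow]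
      rw [e1, norm_add_eq, e2]
      rw [e2, norm_mul]
      calc ‖x‖ * ‖3 * x - 22 * D‖ ≤ ‖x‖ * 1 := by
            apply mul_le_mul_of_nonneg_left _ (norm_nonneg _)
            apply norm_sub_le'
            · rw [norm_mul]
              exact mul_le_one₀ (norm_natc 3) (norm_nonneg _) h3.le
            · rw [norm_mul, h1, mul_one]
              exact norm_natc 22
        _ < 1 := by rw [mul_one]; exact h3
    · exact Or.inl h3

lemma norm_y {x y : ℚ_[2]}
    (h : ((ED D).map (Int.castRingHom ℚ_[2])).toAffine.Nonsingular x y) (h3 : ‖x‖ = 1) :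
    ‖y‖ = 1 := by
  have hD0 : D ≠ 0 := by
    rintro rfl
    exact hD (dvd_zero _)
  have hT := isT_ED D hD0 ℚ_[2]
  have hE := hT.nonsingular.1 h
  have h1 := nD hD
  have h4 : ‖(x - D) * (x + D)‖ ≤ 1 / 2 := by
    rw [norm_mul]
    have a1 := odd_sub h3 h1
    have a2 := odd_add h3 h1
    nlinarith [norm_nonneg (x - D), norm_nonneg (x + D)]
  have e1 : x ^ 2 + -11 * (D : ℚ_[2]) * x + -(D : ℚ_[2]) ^ 2 =
      -(11 * D * x) + (x - D) * (x + D) := by ring
  have h11 : ‖(11 : ℚ_[2])‖ = 1 := by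
    have := norm_int_unit (p := 2) (n := 11) (by norm_num)
    exact_mod_cast this
  have e2 : ‖-(11 * (D : ℚ_[2]) * x)‖ = 1 := by
    rw [norm_neg, norm_mul, norm_mul, h11, h1, h3]; norm_num
  have h5 : ‖y ^ 2‖ = 1 := by
    rw [hE, norm_mul, h3, e1, norm_add_eq, e2, one_mul]
    rw [e2]; linarith
  rw [norm_pow] at h5
  exact (pow_eq_one_iff_of_nonneg (norm_nonneg _) two_ne_zero).1 h5

/-- points of the same class -/
lemma sub_mem {x₁ y₁ x₂ y₂ : ℚ_[2]}
    (h₁ : ((ED D).map (Int.castRingHom ℚ_[2])).toAffine.Nonsingular x₁ y₁)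
    (h₂ : ((ED D).map (Int.castRingHom ℚ_[2])).toAffine.Nonsingular x₂ y₂)
    (hx₁ : ‖x₁‖ = 1) (hx₂ : ‖x₂‖ = 1) (hy : ‖y₁ - y₂‖ ≤ 1 / 4) :
    Point.some x₁ y₁ h₁ - Point.some x₂ y₂ h₂ ∈ nsRed (ED D) 2 := by
  have hD0 : D ≠ 0 := by
    rintro rfl
    exact hD (dvd_zero _)
  have hT := isT_ED D hD0 ℚ_[2]
  have hE1 := hT.nonsingular.1 h₁
  have hE2 := hT.nonsingular.1 h₂
  have hy1 := norm_y hD h₁ hx₁
  have hy2 := norm_y hD h₂ hx₂
  have h2y : ‖2 * y₁‖ = 1 / 2 := by rw [norm_mul, n2, hy1, mul_one]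
  by_cases hx : x₁ = x₂
  · subst hx
    have h3 : (y₁ - y₂) * (y₁ + y₂) = 0 := by linear_combination hE1 - hE2
    have h4 : y₁ = y₂ := by
      rcases mul_eq_zero.1 h3 with h4 | h4
      · linear_combination h4
      · exfalso
        have : y₁ - y₂ = 2 * y₁ := by linear_combination -h4
        rw [this, h2y] at hy
        norm_num at hy
    subst h4
    rw [sub_self]
    exact zero_mem_nsRed D
  · obtain ⟨h₂', hneg⟩ := neg_pt hD0 h₂
    rw [sub_eq_add_neg, hneg]
    obtain ⟨hQ, hadd⟩ := hT.add h₁ h₂' hx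
    rw [hadd, mem_iff hD]
    set lam := (y₁ - -y₂) / (x₁ - x₂) with hlam
    have hxs : x₁ - x₂ ≠ 0 := sub_ne_zero.2 hx
    have a1 : ‖x₁ - x₂‖ ≤ 1 / 2 := odd_sub hx₁ hx₂
    have a2 : ‖y₁ - -y₂‖ = 1 / 2 := by
      have e1 : y₁ - -y₂ = 2 * y₁ + -(y₁ - y₂) := by ring
      rw [e1, norm_add_eq, h2y]
      rw [norm_neg, h2y]
      linarith
    have a3 : 1 ≤ ‖lam‖ := by
      rw [hlam, norm_div, a2, one_le_div (norm_pos_iff.2 hxs)]
      exact a1
    intro hX
    have h1 := nD hD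
    have h11 : ‖(11 : ℚ_[2])‖ = 1 := by
      have := norm_int_unit (p := 2) (n := 11) (by norm_num)
      exact_mod_cast this
    have h4 : ‖lam ^ 2‖ ≤ 1 / 2 := by
      have e1 : lam ^ 2 = ((lam ^ 2 - -11 * (D : ℚ_[2]) - x₁ - x₂) - 11 * D) + (x₁ + x₂) := by ring
      rw [e1]
      apply norm_add_le''
      · exact odd_sub hX (by rw [norm_mul, h11, h1, mul_one])
      · exact odd_add hx₁ hx₂
    rw [norm_pow] at h4
    nlinarith

/-- **the Tamagawa number at two is odd** -/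
theorem tam_two : Odd (tam (ED D) 2) := by
  have hD0 : D ≠ 0 := by
    rintro rfl
    exact hD (dvd_zero _)
  have hT := isT_ED D hD0 ℚ_[2]
  unfold tam
  rw [dif_pos Nat.prime_two]
  have h1 := nD hD
  apply odd_index
  · intro P Q hP hQ
    rcases P with _ | ⟨x₁, y₁, h₁⟩
    · exact absurd (zero_mem_nsRed D) hP
    rcases Q with _ | ⟨x₂, y₂, h₂⟩
    · exact absurd (zero_mem_nsRed D) hQ
    rw [mem_iff hD, not_not] at hP hQ
    have hy1 := norm_y hD h₁ hP
    have hy2 := norm_y hD h₂ hQ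
    have key : ‖y₁ - y₂‖ ≤ 1 / 4 ∨ ‖y₁ - -y₂‖ ≤ 1 / 4 := by
      have h2 : (2 : ℚ_[2]) ≠ 0 := two_ne_zero
      have b1 : ‖(y₁ - y₂) / 2‖ ≤ 1 := by
        rw [norm_div, n2, div_le_one (by norm_num)]
        exact odd_sub hy1 hy2
      have b2 : ‖(y₁ + y₂) / 2‖ ≤ 1 := by
        rw [norm_div, n2, div_le_one (by norm_num)]
        exact odd_add hy1 hy2
      rcases b1.lt_or_eq with h3 | h3
      · left
        have h4 := lt_half h3
        rw [norm_div, n2, div_le_iff₀ (by norm_num)] at h4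
        linarith
      · rcases b2.lt_or_eq with h5 | h5
        · right
          have h4 := lt_half h5
          rw [norm_div, n2, div_le_iff₀ (by norm_num)] at h4
          rw [sub_neg_eq_add]
          linarith
        · exfalso
          have h6 := odd_add h3 h5
          have e1 : (y₁ - y₂) / 2 + (y₁ + y₂) / 2 = y₁ := by ring
          rw [e1, hy1] at h6
          norm_num at h6
    rcases key with h3 | h3
    · left
      exact sub_mem hD h₁ h₂ hP hQ h3
    · right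
      obtain ⟨h₂', hneg⟩ := neg_pt hD0 h₂
      have h4 := sub_mem hD h₁ h₂' hP hQ h3
      rw [← hneg, sub_neg_eq_add] at h4
      exact h4
  · intro P hP
    rcases P with _ | ⟨x, y, h⟩
    · exact absurd (zero_mem_nsRed D) hP
    rw [mem_iff hD, not_not] at hP
    have hy1 := norm_y hD h hP
    have hy0 : y ≠ 0 := by
      rintro rfl
      rw [norm_zero] at hy1
      norm_num at hy1
    obtain ⟨hQ, hadd⟩ := hT.dbl h hy0
    rw [hadd]
    obtain ⟨h', hneg⟩ := neg_pt hD0 h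
    have hneg' : Point.some x y h = -Point.some x (-y) h' := by rw [← hneg, neg_neg]
    rw [hneg', ← sub_eq_add_neg]
    have a1 := odd_sub hP h1
    have a2 := odd_add hP h1
    have a3 : ‖(x - D) * (x + D)‖ ≤ 1 / 4 := by
      rw [norm_mul]
      nlinarith [norm_nonneg (x - D), norm_nonneg (x + D)]
    have h2y : ‖2 * y‖ = 1 / 2 := by rw [norm_mul, n2, hy1, mul_one]
    have a4 : ‖x ^ 2 - -(D : ℚ_[2]) ^ 2‖ = 1 / 2 := by
      have e1 : x ^ 2 - -(D : ℚ_[2]) ^ 2 = 2 * D ^ 2 + (x - D) * (x + D) := by ring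
      have e2 : ‖2 * (D : ℚ_[2]) ^ 2‖ = 1 / 2 := by rw [norm_mul, n2, norm_pow, h1]; norm_num
      rw [e1, norm_add_eq, e2]
      rw [e2]; linarith
    have hX : ‖((x ^ 2 - -(D : ℚ_[2]) ^ 2) / (2 * y)) ^ 2‖ = 1 := by
      rw [norm_pow, norm_div, a4, h2y]; norm_num
    apply sub_mem hD hQ h' hX hP
    have e1 : -(y + (3 * x ^ 2 + 2 * (-11 * (D : ℚ_[2])) * x + -(D : ℚ_[2]) ^ 2) / (2 * y) *
        (((x ^ 2 - -(D : ℚ_[2]) ^ 2) / (2 * y)) ^ 2 - x)) - -y =
        -((3 * ((x - D) * (x + D)) + 2 * (D * (D - 11 * x))) / (2 * y) *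
        (((x ^ 2 - -(D : ℚ_[2]) ^ 2) / (2 * y)) ^ 2 - x)) := by ring
    rw [e1, norm_neg, norm_mul, norm_div, h2y]
    have a5 : ‖3 * ((x - D) * (x + D)) + 2 * (D * (D - 11 * x))‖ ≤ 1 / 4 := by
      apply norm_add_le''
      · rw [norm_mul]
        have h7 : ‖(3 : ℚ_[2])‖ ≤ 1 := by
          have := norm_natc (p := 2) 3
          exact_mod_cast this
        nlinarith [norm_nonneg ((x - D) * (x + D)), norm_nonneg (3 : ℚ_[2])]
      · rw [norm_mul, n2]
        have h7 : ‖(D : ℚ_[2]) * (D - 11 * x)‖ ≤ 1 / 2 := by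
          rw [norm_mul, h1, one_mul]
          apply odd_sub h1
          have h11 : ‖(11 : ℚ_[2])‖ = 1 := by
            have := norm_int_unit (p := 2) (n := 11) (by norm_num)
            exact_mod_cast this
          rw [norm_mul, h11, hP, mul_one]
        linarith
    have a6 := odd_sub hX hP
    have a7 : 0 ≤ ‖((x ^ 2 - -(D : ℚ_[2]) ^ 2) / (2 * y)) ^ 2 - x‖ := norm_nonneg _
    have a8 : ‖3 * ((x - D) * (x + D)) + 2 * (D * (D - 11 * x))‖ / (1 / 2) ≤ 1 / 2 := by
      rw [div_le_iff₀ (by norm_num)]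
      linarith
    calc _ ≤ (1 / 2 : ℝ) * (1 / 2) := mul_le_mul a8 a6 a7 (by norm_num)
      _ = 1 / 4 := by norm_num

end Pool.Agent.Y695.Two
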