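import Pool.Agent.TH344.SH.Crv

/-!
The map `P ↦ x(P)` modulo squares on the curves `y ^ 2 = x ^ 3 + a x ^ 2 + b x`.
-/

set_option autoImplicit false
set_option linter.all false

open WeierstrassCurve WeierstrassCurve.Affine

namespace Pool.Agent.Y695

/-- The Weierstrass curve `y ^ 2 = x ^ 3 + a x ^ 2 + b x`. -/
structure IsT {F : Type*} [Field F] (W : Affine F) (a b : F) : Prop where
  a1 : W.a₁ = 0
  a2 : W.a₂ = a
  a3 : W.a₃ = 0
  a4 : W.a₄ = b
  a6 : W.a₆ = 0
  two : (2 : F) ≠ 0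
  nb : b ≠ 0
  nd : a ^ 2 - 4 * b ≠ 0

variable {F : Type*} [Field F] {W : Affine F} {a b : F}

theorem IsT.equation (h : IsT W a b) {x y : F} :
    W.Equation x y ↔ y ^ 2 = x * (x ^ 2 + a * x + b) := by
  rw [W.equation_iff, h.a1, h.a2, h.a3, h.a4, h.a6]
  constructor <;> intro h' <;> linear_combination h'

theorem IsT.nonsingular (h : IsT W a b) {x y : F} :
    W.Nonsingular x y ↔ y ^ 2 = x * (x ^ 2 + a * x + b) := by
  rw [W.nonsingular_iff, h.equation, h.a1, h.a2, h.a3, h.a4]
  refine ⟨fun h' => h'.1, fun h' => ⟨h', ?_⟩⟩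
  have n1 := h.nb
  have n2 := h.nd
  by_cases hy : y = 0
  · left
    subst hy
    have h0 : x * (x ^ 2 + a * x + b) = 0 := by rw [← h']; ring
    intro hd
    have hd' : 3 * x ^ 2 + 2 * a * x + b = 0 := by linear_combination -hd
    rcases mul_eq_zero.1 h0 with h1 | h1
    · rw [h1] at hd'
      apply n1
      linear_combination hd'
    · -- double root of x^2 + a x + b
      have h2 : x * (2 * x + a) = 0 := by linear_combination hd' - h1
      rcases mul_eq_zero.1 h2 with h3 | h3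
      · rw [h3] at h1
        apply n1
        linear_combination h1
      · apply n2
        linear_combination (2 * x + a) * h3 - 4 * h1
  · right
    intro hd
    have : (2 : F) * y = 0 := by linear_combination hd
    rcases mul_eq_zero.1 this with h2 | h2
    · exact h.two h2
    · exact hy h2

theorem IsT.negY (h : IsT W a b) (x y : F) : W.negY x y = -y := by
  simp [WeierstrassCurve.Affine.negY, h.a1, h.a3]

theorem IsT.ns0 (h : IsT W a b) : W.Nonsingular 0 0 := h.nonsingular.2 (by ring)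

open scoped Classical in
/-- `x(P)` modulo squares -/
noncomputable def al (b : F) : W.Point → F
  | .zero => 1
  | .some x _ _ => if x = 0 then b else x

theorem al_zero (b : F) : al b (0 : W.Point) = 1 := rfl

theorem al_some0 (b : F) {y : F} (h : W.Nonsingular 0 y) : al b (Point.some 0 y h) = b := by
  simp [al]

theorem al_some (b : F) {x y : F} (h : W.Nonsingular x y) (hx : x ≠ 0) :
    al b (Point.some x y h) = x := by
  simp [al, hx]

theorem al_ne (h : IsT W a b) (P : W.Point) : al b P ≠ 0 := by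
  rcases P with _ | ⟨x, y, hxy⟩
  · exact one_ne_zero
  · by_cases hx : x = 0
    · subst hx
      rw [al_some0]
      exact h.nb
    · rw [al_some b hxy hx]
      exact hx

variable [DecidableEq F]

/-- doubling -/
theorem IsT.dbl (h : IsT W a b) {x y : F} (hP : W.Nonsingular x y) (hy : y ≠ 0) :
    ∃ hQ, Point.some x y hP + Point.some x y hP =
      Point.some (((x ^ 2 - b) / (2 * y)) ^ 2)
        (-(y + (3 * x ^ 2 + 2 * a * x + b) / (2 * y) * (((x ^ 2 - b) / (2 * y)) ^ 2 - x))) hQ := by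
  have h2 := h.two
  have h2y : (2 : F) * y ≠ 0 := mul_ne_zero h.two hy
  have hne : y ≠ W.negY x y := by
    rw [h.negY]
    intro h1
    apply h2y
    linear_combination h1
  have hs : W.slope x x y y = (3 * x ^ 2 + 2 * a * x + b) / (2 * y) := by
    rw [slope_of_Y_ne rfl hne, h.negY, h.a1, h.a2, h.a4]
    congr 1 <;> ring
  have he := h.nonsingular.1 hP
  have hX : W.addX x x (W.slope x x y y) = ((x ^ 2 - b) / (2 * y)) ^ 2 := by
    rw [hs, addX, h.a1, h.a2]
    field_simp
    linear_combination (-4 * (a + 2 * x)) * he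
  have hY : W.addY x x y (W.slope x x y y) =
      -(y + (3 * x ^ 2 + 2 * a * x + b) / (2 * y) * (((x ^ 2 - b) / (2 * y)) ^ 2 - x)) := by
    rw [addY, negAddY, hX, h.negY, hs]
    ring
  have hh : W.Nonsingular (((x ^ 2 - b) / (2 * y)) ^ 2)
      (-(y + (3 * x ^ 2 + 2 * a * x + b) / (2 * y) * (((x ^ 2 - b) / (2 * y)) ^ 2 - x))) := by
    have h3 := nonsingular_add hP hP fun hxy => hne hxy.2
    rw [hX, hY] at h3
    exact h3
  refine ⟨hh, ?_⟩
  rw [Point.add_self_of_Y_ne hne]
  simp only [hX, hY]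

/-- adding two points with different `x` -/
theorem IsT.add (h : IsT W a b) {x₁ y₁ x₂ y₂ : F} (h₁ : W.Nonsingular x₁ y₁)
    (h₂ : W.Nonsingular x₂ y₂) (hx : x₁ ≠ x₂) :
    ∃ hQ, Point.some x₁ y₁ h₁ + Point.some x₂ y₂ h₂ =
      Point.some (((y₁ - y₂) / (x₁ - x₂)) ^ 2 - a - x₁ - x₂)
        (-(y₁ + (y₁ - y₂) / (x₁ - x₂) *
          ((((y₁ - y₂) / (x₁ - x₂)) ^ 2 - a - x₁ - x₂) - x₁))) hQ := by
  have hX : W.addX x₁ x₂ (W.slope x₁ x₂ y₁ y₂) = ((y₁ - y₂) / (x₁ - x₂)) ^ 2 - a - x₁ - x₂ := by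
    rw [slope_of_X_ne hx, addX, h.a1, h.a2]
    ring
  have hY : W.addY x₁ x₂ y₁ (W.slope x₁ x₂ y₁ y₂) = -(y₁ + (y₁ - y₂) / (x₁ - x₂) *
          ((((y₁ - y₂) / (x₁ - x₂)) ^ 2 - a - x₁ - x₂) - x₁)) := by
    rw [addY, negAddY, hX, slope_of_X_ne hx, h.negY]
    ring
  have hh : W.Nonsingular (((y₁ - y₂) / (x₁ - x₂)) ^ 2 - a - x₁ - x₂)
      (-(y₁ + (y₁ - y₂) / (x₁ - x₂) *
          ((((y₁ - y₂) / (x₁ - x₂)) ^ 2 - a - x₁ - x₂) - x₁))) := by
    have h3 := nonsingular_add h₁ h₂ fun hxy => hx hxy.1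
    rw [hX, hY] at h3
    exact h3
  refine ⟨hh, ?_⟩
  rw [Point.add_of_X_ne hx]
  simp only [hX, hY]

theorem IsT.add_neg (h : IsT W a b) {x y₁ y₂ : F} (h₁ : W.Nonsingular x y₁)
    (h₂ : W.Nonsingular x y₂) (hy : y₁ = -y₂) :
    Point.some x y₁ h₁ + Point.some x y₂ h₂ = 0 := by
  exact Point.add_of_Y_eq rfl (by rw [h.negY]; exact hy)

theorem IsT.dbl_zero_iff (h : IsT W a b) {x y : F} (hP : W.Nonsingular x y) :
    Point.some x y hP + Point.some x y hP = 0 ↔ y = 0 := by
  constructor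
  · intro h0
    by_contra hy
    obtain ⟨hQ, hadd⟩ := h.dbl hP hy
    rw [hadd] at h0
    exact Point.some_ne_zero _ h0
  · rintro rfl
    exact h.add_neg hP hP (by ring)

/-- `P ↦ x(P)` is a homomorphism modulo squares -/
theorem al_mul (h : IsT W a b) (P Q : W.Point) : IsSquare (al b P * al b Q * al b (P + Q)) := by
  rcases P with _ | ⟨x₁, y₁, h₁⟩
  · rw [← Point.zero_def, zero_add, al_zero, one_mul]
    exact ⟨_, rfl⟩
  rcases Q with _ | ⟨x₂, y₂, h₂⟩
  · rw [← Point.zero_def, add_zero, al_zero, mul_one]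
    exact ⟨_, rfl⟩
  have e1 := h.nonsingular.1 h₁
  have e2 := h.nonsingular.1 h₂
  have h22 := h.two
  by_cases hx : x₁ = x₂
  · subst hx
    have hy : (y₁ - y₂) * (y₁ + y₂) = 0 := by linear_combination e1 - e2
    by_cases hyy : y₁ = -y₂
    · rw [h.add_neg h₁ h₂ hyy, al_zero, mul_one]
      exact ⟨al b (Point.some x₁ y₁ h₁), rfl⟩
    · have hy1 : y₁ = y₂ := by
        rcases mul_eq_zero.1 hy with h3 | h3
        · linear_combination h3
        · exact absurd (by linear_combination h3) hyy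
      subst hy1
      have hy0 : y₁ ≠ 0 := by
        rintro rfl
        exact hyy (by ring)
      obtain ⟨hQ, hadd⟩ := h.dbl h₁ hy0
      rw [hadd]
      by_cases hz : ((x₁ ^ 2 - b) / (2 * y₁)) ^ 2 = 0
      · have hz2 : (x₁ ^ 2 - b) / (2 * y₁) = 0 := pow_eq_zero_iff (two_ne_zero) |>.1 hz
        have hb : b = x₁ ^ 2 := by
          rcases div_eq_zero_iff.1 hz2 with h3 | h3
          · linear_combination -h3
          · exact absurd h3 (mul_ne_zero h.two hy0)
        have hal : al b (Point.some _ _ hQ) = b := by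
          simp only [al, hz, if_true]
        rw [hal]
        exact ⟨al b (Point.some x₁ y₁ h₁) * x₁, by rw [hb]; ring⟩
      · rw [al_some b hQ hz]
        exact ⟨al b (Point.some x₁ y₁ h₁) * ((x₁ ^ 2 - b) / (2 * y₁)), by ring⟩
  · obtain ⟨hQ, hadd⟩ := h.add h₁ h₂ hx
    rw [hadd]
    have hxs : x₁ - x₂ ≠ 0 := sub_ne_zero.2 hx
    by_cases hx1 : x₁ = 0
    · subst hx1
      have hy1 : y₁ = 0 := by
        have : y₁ ^ 2 = 0 := by rw [e1]; ring
        exact pow_eq_zero_iff (two_ne_zero) |>.1 this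
      subst hy1
      have hx2 : x₂ ≠ 0 := Ne.symm hx
      have hX : (((0 : F) - y₂) / (0 - x₂)) ^ 2 - a - 0 - x₂ = b / x₂ := by
        rw [zero_sub, zero_sub, neg_div_neg_eq, div_pow, e2]
        field_simp
        ring
      have hbx : b / x₂ ≠ 0 := div_ne_zero h.nb hx2
      rw [al_some0, al_some b h₂ hx2, al_some b hQ (by rw [hX]; exact hbx), hX]
      exact ⟨b, by field_simp⟩
    · by_cases hx2 : x₂ = 0
      · subst hx2
        have hy2 : y₂ = 0 := by
          have : y₂ ^ 2 = 0 := by rw [e2]; ring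
          exact pow_eq_zero_iff (two_ne_zero) |>.1 this
        subst hy2
        have hX : ((y₁ - 0) / (x₁ - 0)) ^ 2 - a - x₁ - 0 = b / x₁ := by
          rw [sub_zero, sub_zero, div_pow, e1]
          field_simp
          ring
        have hbx : b / x₁ ≠ 0 := div_ne_zero h.nb hx1
        rw [al_some0, al_some b h₁ hx1, al_some b hQ (by rw [hX]; exact hbx), hX]
        exact ⟨b, by field_simp⟩
      · have key : x₁ * x₂ * (((y₁ - y₂) / (x₁ - x₂)) ^ 2 - a - x₁ - x₂) =
            ((x₁ * y₂ - x₂ * y₁) / (x₁ - x₂)) ^ 2 := by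
          field_simp
          linear_combination (x₂ * x₁ - x₂ ^ 2) * e1 + (x₁ * x₂ - x₁ ^ 2) * e2
        rw [al_some b h₁ hx1, al_some b h₂ hx2]
        by_cases hz : ((y₁ - y₂) / (x₁ - x₂)) ^ 2 - a - x₁ - x₂ = 0
        · have hal : al b (Point.some _ _ hQ) = b := by
            simp only [al, hz, if_true]
          rw [hal]
          rw [hz, mul_zero] at key
          have k2 : (x₁ * y₂ - x₂ * y₁) / (x₁ - x₂) = 0 :=
            pow_eq_zero_iff (two_ne_zero) |>.1 key.symm
          have k3 : x₁ * y₂ - x₂ * y₁ = 0 := by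
            rcases div_eq_zero_iff.1 k2 with h3 | h3
            · exact h3
            · exact absurd h3 hxs
          have k4 : x₁ * x₂ * (x₂ - x₁) * (x₁ * x₂ - b) = 0 := by
            have k5 : (x₁ * y₂) ^ 2 = (x₂ * y₁) ^ 2 := by
              have : x₁ * y₂ = x₂ * y₁ := by linear_combination k3
              rw [this]
            rw [mul_pow, mul_pow, e1, e2] at k5
            linear_combination k5
          have k6 : x₁ * x₂ = b := by
            have n1 : x₁ * x₂ * (x₂ - x₁) ≠ 0 :=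
              mul_ne_zero (mul_ne_zero hx1 hx2) (sub_ne_zero.2 (Ne.symm hx))
            have := (mul_eq_zero.1 k4).resolve_left n1
            linear_combination this
          exact ⟨b, by rw [k6]⟩
        · rw [al_some b hQ hz, key]
          exact ⟨(x₁ * y₂ - x₂ * y₁) / (x₁ - x₂), by ring⟩

end Pool.Agent.Y695
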