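import Pool.Agent.Y695.TamP

/-!
Global minimality of the curves `y² = x³ - 11 D x² - D² x`.
-/

set_option autoImplicit false
set_option linter.all false

namespace Pool.Agent.Y695

open Pool.Agent.W97.MT (IsGloballyMinimal)
open WeierstrassCurve

theorem min_of {W : WeierstrassCurve ℤ} {D : ℕ} (hD0 : D ≠ 0) (hD : |W.Δ| = D)
    (h12 : ∀ d : ℕ, d ^ 12 ∣ D → d = 1) : IsGloballyMinimal W := by
  have hne : W.Δ ≠ 0 := by
    intro h
    rw [h, abs_zero] at hD
    exact hD0 (by exact_mod_cast hD.symm)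
  refine ⟨hne, ?_⟩
  intro W' C h
  have h1 := congrArg WeierstrassCurve.Δ h
  rw [WeierstrassCurve.variableChange_Δ, WeierstrassCurve.map_Δ, WeierstrassCurve.map_Δ] at h1
  set r : ℚ := ((C.u⁻¹ : ℚˣ) : ℚ) with hr
  have hr0 : r ≠ 0 := Units.ne_zero _
  have h2 : r ^ 12 * (W.Δ : ℚ) = (W'.Δ : ℚ) := h1
  have h3 : (r.num : ℚ) ^ 12 * (W.Δ : ℚ) = (W'.Δ : ℚ) * (r.den : ℚ) ^ 12 := by
    have h5 : (r.num : ℚ) = r * r.den := by
      rw [eq_comm, Rat.mul_den_eq_num]
    rw [h5, ← h2]; ring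
  have h3' : r.num ^ 12 * W.Δ = W'.Δ * (r.den : ℤ) ^ 12 := by exact_mod_cast h3
  have hcop : IsCoprime ((r.den : ℤ) ^ 12) (r.num ^ 12) := by
    apply IsCoprime.pow
    rw [Int.isCoprime_iff_gcd_eq_one, Int.gcd_comm]
    have := r.reduced
    rwa [Int.gcd, Int.natAbs_natCast]
  have hdvd : ((r.den : ℤ) ^ 12) ∣ W.Δ := by
    apply hcop.dvd_of_dvd_mul_left
    rw [h3']
    exact Dvd.intro_left _ rfl
  have hdvd' : r.den ^ 12 ∣ D := by
    have h6 : ((r.den : ℤ) ^ 12) ∣ (D : ℤ) := by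
      rw [← hD]
      exact (dvd_abs _ _).2 hdvd
    have : ((r.den ^ 12 : ℕ) : ℤ) ∣ (D : ℤ) := by
      push_cast
      exact h6
    exact Int.natCast_dvd_natCast.1 this
  have hden : r.den = 1 := h12 _ hdvd'
  rw [hden] at h3'
  have h8 : W'.Δ = r.num ^ 12 * W.Δ := by rw [h3']; simp
  rw [h8, abs_mul, abs_pow]
  have hn : 1 ≤ |r.num| := Int.one_le_abs (Rat.num_ne_zero.2 hr0)
  have h9 : (1 : ℤ) ≤ |r.num| ^ 12 := one_le_pow₀ hn
  have h10 := abs_nonneg W.Δ
  nlinarith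

theorem min_ED {D : ℤ} (hD : Squarefree D) : IsGloballyMinimal (ED D) := by
  have hD0 : D.natAbs ≠ 0 := Int.natAbs_ne_zero.2 hD.ne_zero
  have hsq : Squarefree D.natAbs := Int.squarefree_natAbs.2 hD
  refine min_of (D := 2000 * D.natAbs ^ 6) (mul_ne_zero (by norm_num) (pow_ne_zero 6 hD0)) ?_ ?_
  · rw [disc_ED, abs_mul, abs_pow]
    push_cast
    rw [abs_of_pos (by norm_num : (0 : ℤ) < 2000)]
  · intro d hd
    by_contra h1
    obtain ⟨p, hp, hpd⟩ := Nat.exists_prime_and_dvd h1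
    haveI := Fact.mk hp
    have h2 : p ^ 12 ∣ 2000 * D.natAbs ^ 6 := (pow_dvd_pow_of_dvd hpd 12).trans hd
    have h3 : 12 ≤ padicValNat p (2000 * D.natAbs ^ 6) :=
      (padicValNat_dvd_iff_le (mul_ne_zero (by norm_num) (pow_ne_zero 6 hD0))).1 h2
    rw [padicValNat.mul (by norm_num) (pow_ne_zero 6 hD0), padicValNat.pow] at h3
    have h4 : padicValNat p D.natAbs ≤ 1 := by
      by_contra h5
      push Not at h5
      have h6 : p ^ 2 ∣ D.natAbs := (padicValNat_dvd_iff_le hD0).2 h5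
      rw [pow_two] at h6
      exact hp.one_lt.ne' (Nat.isUnit_iff.1 (hsq p h6))
    have h5 : padicValNat p 2000 ≤ 4 := by
      by_contra h5
      push Not at h5
      have h6 : p ^ 5 ∣ 2000 := (padicValNat_dvd_iff_le (by norm_num)).2 h5
      have h7 : p < 5 := by
        by_contra h8
        push Not at h8
        have h9 := Nat.le_of_dvd (by norm_num) h6
        have h10 : 5 ^ 5 ≤ p ^ 5 := Nat.pow_le_pow_left h8 5
        norm_num at h10
        omega
      have h8 := hp.two_le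
      interval_cases p <;> revert h6 <;> decide
    omega

end Pool.Agent.Y695
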