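import Pool.Agent.Y695.Rec4
import Pool.Agent.Y695.MinD
import Pool.Agent.W417.V20.TWIST
import Pool.Agent.W97.V20.Fin

/-!
Point counts of the quadratic twists.
-/

set_option autoImplicit false
set_option linter.all false

open Finset

namespace Pool.Agent.Y695

open Pool.Agent.W97.MT (affCount ap)
open Pool.Agent.W417.V20.TWIST (ap_eq affCount_eq)

/-- the discriminant `∏ ± q ≡ 1 mod 4` -/
def DD (S : Finset ℕ) : ℤ := ch S (-1) * NN S

lemma NN_odd {S : Finset ℕ} (hS : Adm S) : Odd (NN S) := by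
  have h1 := NN_ten hS
  have h2 : (NN S).Coprime 2 := Nat.Coprime.coprime_dvd_right (by norm_num) h1
  exact Nat.coprime_two_right.1 h2

lemma ch_chi4 {S : Finset ℕ} (hS : Adm S) : ch S (-1) = ZMod.χ₄ (NN S) := by
  classical
  induction S using Finset.induction_on with
  | empty =>
    rw [ch_empty]
    unfold NN
    simp
  | insert q S hq ih =>
    have hS' := hS.mono (subset_insert q S)
    have hqp := hS q (mem_insert_self _ _)
    have h2 : NN (insert q S) = q * NN S := by
      unfold NN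
      rw [prod_insert hq]
    have hodd : Odd q := hqp.1.odd_of_ne_two hqp.2.1
    rw [ch_insert hq, ih hS', h2, jacobiSym.at_neg_one hodd, Nat.cast_mul, map_mul]

lemma DD_natAbs {S : Finset ℕ} : (DD S).natAbs = NN S := by
  unfold DD
  rcases ch_neg_one S with h | h <;> rw [h] <;> simp

lemma DD_ne {S : Finset ℕ} (hS : Adm S) : DD S ≠ 0 := by
  rw [← Int.natAbs_ne_zero, DD_natAbs]
  exact NN_ne hS

lemma NN_squarefree {S : Finset ℕ} (hS : Adm S) : Squarefree (NN S) := by
  classical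
  induction S using Finset.induction_on with
  | empty =>
    unfold NN
    simp
  | insert q S hq ih =>
    have hS' := hS.mono (subset_insert q S)
    have hqp := hS q (mem_insert_self _ _)
    have h2 : NN (insert q S) = q * NN S := by
      unfold NN
      rw [prod_insert hq]
    rw [h2, Nat.squarefree_mul (NN_coprime hS' hqp.1 hq)]
    exact ⟨hqp.1.prime.squarefree, ih hS'⟩

lemma DD_squarefree {S : Finset ℕ} (hS : Adm S) : Squarefree (DD S) := by
  rw [← Int.squarefree_natAbs, DD_natAbs]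
  exact NN_squarefree hS

lemma dvd_DD {S : Finset ℕ} (hS : Adm S) {p : ℕ} (hp : p.Prime) : (p : ℤ) ∣ DD S ↔ p ∈ S := by
  rw [Int.natCast_dvd, DD_natAbs]
  constructor
  · intro h
    by_contra h1
    have h2 := NN_coprime hS hp h1
    rw [hp.coprime_iff_not_dvd] at h2
    exact h2 h
  · exact fun h => dvd_NN h

lemma primeFactors_DD {S : Finset ℕ} (hS : Adm S) : (DD S).natAbs.primeFactors = S := by
  ext p
  rw [Nat.mem_primeFactors, DD_natAbs]
  constructor
  · rintro ⟨hp, h, -⟩
    rw [← dvd_DD hS hp, Int.natCast_dvd, DD_natAbs]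
    exact h
  · intro h
    exact ⟨(hS p h).1, dvd_NN h, NN_ne hS⟩

lemma DD_mod4 {S : Finset ℕ} (hS : Adm S) : DD S % 4 = 1 := by
  unfold DD
  rw [ch_chi4 hS]
  have h1 : NN S % 4 = 1 ∨ NN S % 4 = 3 := by
    have := Nat.odd_iff.1 (NN_odd hS)
    omega
  rcases h1 with h | h
  · rw [ZMod.χ₄_nat_one_mod_four h]
    omega
  · rw [ZMod.χ₄_nat_three_mod_four h]
    omega

/-- reciprocity -/
lemma recip {S : Finset ℕ} (hS : Adm S) {p : ℕ} (hp : Odd p) :
    jacobiSym (DD S) p = ch S p := by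
  unfold DD
  have h0 : jacobiSym p (NN S) = ch S p := by
    classical
    clear hp
    induction S using Finset.induction_on with
    | empty =>
      unfold NN ch
      rw [prod_empty, prod_empty, jacobiSym.one_right]
    | insert q S hq ih =>
      have hS' := hS.mono (subset_insert q S)
      haveI : NeZero q := ⟨(hS q (mem_insert_self _ _)).1.ne_zero⟩
      haveI : NeZero (NN S) := ⟨NN_ne hS'⟩
      have h2 : NN (insert q S) = q * NN S := by
        unfold NN
        rw [prod_insert hq]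
      rw [h2, jacobiSym.mul_right, ih hS', ch_insert hq]
  rw [← h0, jacobiSym.quadratic_reciprocity' hp (NN_odd hS), jacobiSym.mul_left, ch_chi4 hS]
  rfl

theorem ap_two {D : ℤ} (hD : ¬ (2 : ℤ) ∣ D) : ap (ED D) 2 = 0 := by
  unfold ap ED
  rw [affCount_eq]
  have h1 : ((-11 * D : ℤ) : ZMod 2) = 1 := by
    have : Odd (-11 * D) := by
      rw [Int.odd_mul]
      exact ⟨by decide, Int.not_even_iff_odd.1 fun h => hD h.two_dvd⟩
    exact (odd_iff_z _).1 this
  have h2 : ((-D ^ 2 : ℤ) : ZMod 2) = 1 := by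
    have : Odd (-D ^ 2) := by
      rw [odd_neg]
      exact (Int.not_even_iff_odd.1 fun h => hD h.two_dvd).pow
    exact (odd_iff_z _).1 this
  rw [h1, h2]
  have : Fintype.card {P : ZMod 2 × ZMod 2 // P.2 ^ 2 = P.1 ^ 3 + (1 : ZMod 2) *
      P.1 ^ 2 + (1 : ZMod 2) * P.1} = 2 := by decide
  rw [this]
  norm_num

theorem ap_twist {S : Finset ℕ} (hS : Adm S) {p : ℕ} (hp : p.Prime) :
    ap (ED (DD S)) p = ch S p * W97.V20.A p := by
  have hF : Fact p.Prime := ⟨hp⟩
  have hD2 : ¬ (2 : ℤ) ∣ DD S := by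
    intro h
    have h1 : ((2 : ℕ) : ℤ) ∣ DD S := by exact_mod_cast h
    rw [dvd_DD hS Nat.prime_two] at h1
    exact (hS 2 h1).2.1 rfl
  by_cases h2 : p = 2
  · subst h2
    rw [ap_two hD2, W97.V20.A_two, mul_zero]
  have hodd : Odd p := hp.odd_of_ne_two h2
  rw [← recip hS hodd, W97.V20.A_eq hp]
  by_cases hpD : (p : ℤ) ∣ DD S
  · have h3 : jacobiSym (DD S) p = 0 := by
      rw [jacobiSym.eq_zero_iff_not_coprime]
      intro h
      have h4 : p ∣ (DD S).gcd p := Nat.dvd_gcd (Int.natCast_dvd.1 hpD) (by simp)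
      rw [h] at h4
      exact hp.one_lt.ne' (Nat.dvd_one.1 h4)
    rw [h3, zero_mul]
    unfold ED
    rw [ap_eq _ _ p h2, neg_eq_zero]
    have hchar : ringChar (ZMod p) ≠ 2 := by
      rw [ZMod.ringChar_zmod_n]
      exact h2
    have hD0 : ((DD S : ℤ) : ZMod p) = 0 := (ZMod.intCast_zmod_eq_zero_iff_dvd _ p).2 hpD
    rw [← quadraticChar_sum_zero hchar]
    refine sum_congr rfl fun x _ => ?_
    push_cast
    rw [hD0]
    have e : x ^ 3 + -11 * (0 : ZMod p) * x ^ 2 + -(0 : ZMod p) ^ 2 * x = x ^ 3 := by ring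
    rw [e, map_pow]
    by_cases hx : x = 0
    · subst hx
      simp
    · rw [pow_succ, quadraticChar_sq_one hx, one_mul]
  have hDp : ((DD S : ℤ) : ZMod p) ≠ 0 := fun h => hpD ((ZMod.intCast_zmod_eq_zero_iff_dvd _ p).1 h)
  have h3 : ap (ED (DD S)) p = quadraticChar (ZMod p) ((DD S : ℤ) : ZMod p) * ap W97.V20.E4 p := by
    unfold ED W97.V20.E4
    rw [ap_eq _ _ p h2, ap_eq _ _ p h2, mul_neg, mul_sum]
    congr 1
    symm
    refine Fintype.sum_equiv (Equiv.mulLeft₀ ((DD S : ℤ) : ZMod p) hDp) _ _ fun x => ?_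
    have h4 : quadraticChar (ZMod p) ((DD S : ℤ) : ZMod p) =
        quadraticChar (ZMod p) (((DD S : ℤ) : ZMod p) ^ 3) := by
      rw [pow_succ, map_mul, quadraticChar_sq_one' hDp, one_mul]
    rw [h4, ← map_mul, Equiv.mulLeft₀_apply]
    congr 1
    push_cast
    ring
  rw [h3]
  congr 1
  have h5 : quadraticChar (ZMod p) ((DD S : ℤ) : ZMod p) = legendreSym p (DD S) := rfl
  rw [h5, jacobiSym.legendreSym.to_jacobiSym]

end Pool.Agent.Y695
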