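import Pool.Agent.TH344.SH.Def
import Pool.Agent.W97.MT.Defs

/-!
The invariants of an elliptic curve over `ℚ` in the conjecture of Birch and Swinnerton-Dyer.
-/

set_option autoImplicit false

namespace Pool.Agent.Y695

open WeierstrassCurve WeierstrassCurve.Affine

/-- the points over `ℚ_p` with nonsingular reduction, for an integral Weierstrass equation: the point
at infinity, the points with `x ∉ ℤ_p` (they reduce to the point at infinity) and the points with
`x, y ∈ ℤ_p` for which one of the two partial derivatives of the equation at `(x, y)` is a unit -/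
def nsRed (W : WeierstrassCurve ℤ) (p : ℕ) [Fact p.Prime] :
    Set (W.map (Int.castRingHom ℚ_[p])).toAffine.Point :=
  {P | match P with
    | .zero => True
    | .some x y _ => 1 < ‖x‖ ∨
        ‖(W.a₁ : ℚ_[p]) * y - (3 * x ^ 2 + 2 * (W.a₂ : ℚ_[p]) * x + (W.a₄ : ℚ_[p]))‖ = 1 ∨
        ‖2 * y + (W.a₁ : ℚ_[p]) * x + (W.a₃ : ℚ_[p])‖ = 1}

open scoped Classical in
/-- the Tamagawa number `c_p = [E(ℚ_p) : E⁰(ℚ_p)]`; `E⁰(ℚ_p)` is the group generated by the points
with nonsingular reduction (which is the set of these points) -/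
noncomputable def tam (W : WeierstrassCurve ℤ) (p : ℕ) : ℕ :=
  if h : p.Prime then
    haveI := Fact.mk h
    (AddSubgroup.closure (nsRed W p)).index
  else 1

/-- the product of the Tamagawa numbers over the primes which divide the discriminant -/
noncomputable def tamProd (W : WeierstrassCurve ℤ) : ℕ := ∏ p ∈ W.Δ.natAbs.primeFactors, tam W p

/-- `(2y + a_1 x + a_3)² = 4x³ + b_2 x² + 2 b_4 x + b_6` -/
noncomputable def psi (W : WeierstrassCurve ℤ) (x : ℝ) : ℝ :=
  4 * x ^ 3 + W.b₂ * x ^ 2 + 2 * W.b₄ * x + W.b₆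

/-- the real period `Ω = ∫_{E(ℝ)} |ω|`, `ω = dx / (2y + a_1 x + a_3)`; each `x` with `ψ(x) > 0` is the
`x`-coordinate of two real points, so this is `2 ∫_{ψ(x) > 0} dx / √ψ(x)` -/
noncomputable def Om (W : WeierstrassCurve ℤ) : ℝ :=
  2 * ∫ x in {x : ℝ | 0 < psi W x}, (Real.sqrt (psi W x))⁻¹

/-- `Λ` is entire and equal to the `L`-series `∏_p (1 - a_p p^(-s) + [p ∤ Δ] p^(1-2s))⁻¹` of `E` for
`Re s > 3/2`, where `a_p = p + 1 - #E(𝔽_p)` for the reduction of the equation modulo `p` -/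
def IsLFun (W : WeierstrassCurve ℤ) (Λ : ℂ → ℂ) : Prop :=
  Differentiable ℂ Λ ∧ ∀ s : ℂ, 3 / 2 < s.re →
    HasProd (fun p : Nat.Primes => (1 - (W97.MT.ap W p : ℂ) * ((p : ℕ) : ℂ) ^ (-s) +
      (if ((p : ℕ) : ℤ) ∣ W.Δ then 0 else ((p : ℕ) : ℂ) ^ (1 - 2 * s)))⁻¹) (Λ s)

/-- the curve over `ℚ` -/
abbrev EQ (W : WeierstrassCurve ℤ) : WeierstrassCurve ℚ := W.map (Int.castRingHom ℚ)

/-- the curve `y² = x³ - 11 D x² - D² x`: the twist by `D` of a curve of conductor `20` -/
def ED (D : ℤ) : WeierstrassCurve ℤ := ⟨0, -11 * D, 0, -D ^ 2, 0⟩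

end Pool.Agent.Y695
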