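import Pool.Agent.Y695.Per1
import Pool.Agent.Y695.Defs

/-!
The real period of the curves `y² = x³ - 11 D x² - D² x` as an integral over a quartic.
-/

set_option autoImplicit false
set_option linter.all false

open MeasureTheory Set Filter

namespace Pool.Agent.Y695

noncomputable section

variable (c N : ℝ)

def XX (s : ℝ) : ℝ := (VV c s + s ^ 2 + c) / 2

lemma VV_sq (s : ℝ) : VV c s ^ 2 = (s ^ 2 + c) ^ 2 + 4 := Real.sq_sqrt (by positivity)

lemma XX_pos (s : ℝ) : 0 < XX c s := by
  unfold XX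
  have h1 := VV_pos c s
  have h2 := VV_sq c s
  have h3 : -(s ^ 2 + c) < VV c s := by
    by_contra h
    push Not at h
    nlinarith
  linarith

lemma XX_eq (s : ℝ) : XX c s ^ 2 = (s ^ 2 + c) * XX c s + 1 := by
  unfold XX
  have := VV_sq c s
  nlinarith

lemma VV_deriv (s : ℝ) : HasDerivAt (VV c) (2 * s * (s ^ 2 + c) / VV c s) s := by
  have h : HasDerivAt (fun s : ℝ => (s ^ 2 + c) ^ 2 + 4) (4 * s * (s ^ 2 + c)) s := by
    have h1 := (((hasDerivAt_pow 2 s).add_const c).pow 2).add_const 4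
    refine HasDerivAt.congr_deriv h1 ?_
    norm_num
    ring
  have h2 := h.sqrt (by positivity)
  have hv := VV_pos c s
  refine HasDerivAt.congr_deriv h2 ?_
  show (4 * s * (s ^ 2 + c)) / (2 * VV c s) = _
  field_simp
  ring

lemma XX_deriv (s : ℝ) : HasDerivAt (XX c) (2 * s * XX c s / VV c s) s := by
  have h := (((VV_deriv c s).add (hasDerivAt_pow 2 s)).add_const c).div_const 2
  have hv := VV_pos c s
  refine HasDerivAt.congr_deriv h ?_
  unfold XX
  field_simp
  norm_num
  ring

lemma g1_deriv (s : ℝ) : HasDerivAt (fun s => N * XX c s) (2 * N * s * XX c s / VV c s) s := by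
  have h := (XX_deriv c s).const_mul N
  refine HasDerivAt.congr_deriv h ?_
  ring

lemma g2_deriv (s : ℝ) : HasDerivAt (fun s => -N / XX c s) (2 * N * s / (VV c s * XX c s)) s := by
  have h := ((XX_deriv c s).inv (XX_pos c s).ne').const_mul (-N)
  have hx := XX_pos c s
  have hv := VV_pos c s
  refine HasDerivAt.congr_deriv (f := fun s => -N / XX c s) ?_ ?_
    (f' := -N * (-(2 * s * XX c s / VV c s) / XX c s ^ 2))
  · have e : (fun s => -N / XX c s) = fun s => -N * (XX c s)⁻¹ := by
      ext s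
      rw [div_eq_mul_inv]
    rw [e]
    exact h
  · field_simp

lemma XX_inj {s t : ℝ} (hs : 0 < s) (ht : 0 < t) (h : XX c s = XX c t) : s = t := by
  have h1 := XX_eq c s
  have h2 := XX_eq c t
  rw [← h] at h2
  have hx := XX_pos c s
  have h3 : (s ^ 2 - t ^ 2) * XX c s = 0 := by linarith
  have h4 : s ^ 2 - t ^ 2 = 0 := by
    rcases mul_eq_zero.mp h3 with h | h
    · exact h
    · exact absurd h hx.ne'
  nlinarith

lemma XX_surj (y : ℝ) (hy : 0 < y) (h : 0 < y ^ 2 - c * y - 1) : ∃ s, 0 < s ∧ XX c s = y := by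
  refine ⟨Real.sqrt ((y ^ 2 - c * y - 1) / y), Real.sqrt_pos.mpr (div_pos h hy), ?_⟩
  have e1 : Real.sqrt ((y ^ 2 - c * y - 1) / y) ^ 2 = (y ^ 2 - c * y - 1) / y :=
    Real.sq_sqrt (div_pos h hy).le
  have e2 : VV c (Real.sqrt ((y ^ 2 - c * y - 1) / y)) = y + 1 / y := by
    unfold VV
    rw [Real.sqrt_eq_iff_mul_self_eq_of_pos (by positivity), e1]
    field_simp
    ring
  unfold XX
  rw [e2, e1]
  field_simp
  ring

/-- the cubic -/
def pc (x : ℝ) : ℝ := 4 * x * (x ^ 2 - c * N * x - N ^ 2)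

lemma pc1 (s : ℝ) : pc c N (N * XX c s) = 4 * N ^ 3 * (s * XX c s) ^ 2 := by
  unfold pc
  linear_combination 4 * N ^ 3 * XX c s * XX_eq c s

lemma pc2 (s : ℝ) : pc c N (-N / XX c s) = 4 * N ^ 3 * (s / XX c s) ^ 2 := by
  unfold pc
  have hx := XX_pos c s
  field_simp
  linear_combination (N ^ 3) * XX_eq c s

lemma set_eq (hN : 0 < N) : {x : ℝ | 0 < pc c N x} =
    (fun s => N * XX c s) '' Ioi 0 ∪ (fun s => -N / XX c s) '' Ioi 0 := by
  ext x
  simp only [Set.mem_ofPred_eq, mem_union, mem_image, mem_Ioi]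
  constructor
  · intro hx
    unfold pc at hx
    rcases lt_trichotomy x 0 with h | h | h
    · right
      have h1 : x ^ 2 - c * N * x - N ^ 2 < 0 := by
        by_contra hc
        push Not at hc
        nlinarith [mul_nonneg_of_nonpos_of_nonpos h.le (neg_nonpos.mpr hc)]
      have hy : 0 < -N / x := div_pos_of_neg_of_neg (by linarith) h
      have hp : 0 < (-N / x) ^ 2 - c * (-N / x) - 1 := by
        have : (-N / x) ^ 2 - c * (-N / x) - 1 = -(x ^ 2 - c * N * x - N ^ 2) / x ^ 2 := by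
          have := h.ne
          field_simp
          ring
        rw [this]
        apply div_pos (by linarith)
        have := h.ne
        positivity
      obtain ⟨s, hs, hX⟩ := XX_surj c _ hy hp
      refine ⟨s, hs, ?_⟩
      rw [hX]
      have := h.ne
      field_simp
    · subst h
      norm_num at hx
    · left
      have h1 : 0 < x ^ 2 - c * N * x - N ^ 2 := by
        by_contra hc
        push Not at hc
        nlinarith [mul_nonneg h.le (neg_nonneg.mpr hc)]
      have hp : 0 < (x / N) ^ 2 - c * (x / N) - 1 := by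
        have : (x / N) ^ 2 - c * (x / N) - 1 = (x ^ 2 - c * N * x - N ^ 2) / N ^ 2 := by
          field_simp
        rw [this]
        positivity
      obtain ⟨s, hs, hX⟩ := XX_surj c (x / N) (by positivity) hp
      refine ⟨s, hs, ?_⟩
      rw [hX]
      field_simp
  · rintro (⟨s, hs, rfl⟩ | ⟨s, hs, rfl⟩)
    · have hx := XX_pos c s
      rw [pc1]
      positivity
    · have hx := XX_pos c s
      rw [pc2]
      positivity

lemma sqrt_N (hN : 0 < N) : Real.sqrt (4 * N ^ 3) = 2 * N * Real.sqrt N := by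
  have : 4 * N ^ 3 = (2 * N) ^ 2 * N := by ring
  rw [this, Real.sqrt_mul (by positivity), Real.sqrt_sq (by positivity)]

lemma jnt1 (hN : 0 < N) (s : ℝ) (hs : 0 < s) :
    |2 * N * s * XX c s / VV c s| • (Real.sqrt (pc c N (N * XX c s)))⁻¹ =
    (Real.sqrt N)⁻¹ * (VV c s)⁻¹ := by
  have hx := XX_pos c s
  have hv := VV_pos c s
  have h13 : 0 < Real.sqrt N := Real.sqrt_pos.mpr hN
  rw [pc1, Real.sqrt_mul (by positivity), Real.sqrt_sq (by positivity), sqrt_N N hN,
    abs_of_pos (by positivity), smul_eq_mul]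
  field_simp

lemma jnt2 (hN : 0 < N) (s : ℝ) (hs : 0 < s) :
    |2 * N * s / (VV c s * XX c s)| • (Real.sqrt (pc c N (-N / XX c s)))⁻¹ =
    (Real.sqrt N)⁻¹ * (VV c s)⁻¹ := by
  have hx := XX_pos c s
  have hv := VV_pos c s
  have h13 : 0 < Real.sqrt N := Real.sqrt_pos.mpr hN
  rw [pc2, Real.sqrt_mul (by positivity), Real.sqrt_sq (by positivity), sqrt_N N hN,
    abs_of_pos (by positivity), smul_eq_mul]
  field_simp

lemma VV_cont : Continuous (VV c) := by
  unfold VV
  fun_prop

lemma VV_int : IntegrableOn (fun s : ℝ => (VV c s)⁻¹) (Ioi 0) := by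
  have hci : Continuous fun s : ℝ => (VV c s)⁻¹ :=
    (VV_cont c).inv₀ fun s => (VV_pos c s).ne'
  set B : ℝ := 2 * |c| + 2 with hB
  have hB0 : 0 < B := by positivity
  rw [← Ioc_union_Ioi_eq_Ioi hB0.le]
  refine IntegrableOn.union ?_ ?_
  · exact (hci.integrableOn_Icc (a := 0) (b := B)).mono_set Ioc_subset_Icc_self
  · have h := (integrable_inv_one_add_sq.integrableOn (s := Ioi B)).const_mul 2
    refine Integrable.mono' h hci.aestronglyMeasurable ?_
    refine (ae_restrict_mem measurableSet_Ioi).mono fun s hs => ?_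
    have hs' : B < s := hs
    rw [Real.norm_eq_abs, abs_of_pos (inv_pos.mpr (VV_pos c s))]
    have h1 : (1 + s ^ 2) / 2 ≤ VV c s := by
      unfold VV
      apply Real.le_sqrt_of_sq_le
      have h2 : |c| ≤ s / 2 := by linarith
      have h3 : -|c| ≤ c := neg_abs_le c
      have h4 : 2 < s := by
        have := abs_nonneg c
        linarith
      have h5 : (1 + s ^ 2) / 2 ≤ s ^ 2 + c := by nlinarith
      nlinarith
    have h6 : (VV c s)⁻¹ ≤ ((1 + s ^ 2) / 2)⁻¹ := inv_anti₀ (by positivity) h1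
    refine h6.trans (le_of_eq ?_)
    field_simp

theorem pc_int (hN : 0 < N) : ∫ x in {x : ℝ | 0 < pc c N x}, (Real.sqrt (pc c N x))⁻¹ =
    2 / Real.sqrt N * ∫ s in Ioi (0 : ℝ), (VV c s)⁻¹ := by
  rw [set_eq c N hN]
  have inj1 : InjOn (fun s => N * XX c s) (Ioi 0) := by
    intro s hs t ht h
    exact XX_inj c hs ht (mul_left_cancel₀ hN.ne' h)
  have inj2 : InjOn (fun s => -N / XX c s) (Ioi 0) := by
    intro s hs t ht h
    have hx := XX_pos c s
    have hx' := XX_pos c t
    apply XX_inj c hs ht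
    simp only at h
    rw [div_eq_div_iff hx.ne' hx'.ne'] at h
    have : N * (XX c s - XX c t) = 0 := by linarith
    rcases mul_eq_zero.1 this with h | h
    · exact absurd h hN.ne'
    · linarith
  have d1 : ∀ s ∈ Ioi (0 : ℝ), HasDerivWithinAt (fun s => N * XX c s)
      (2 * N * s * XX c s / VV c s) (Ioi 0) s := fun s _ => (g1_deriv c N s).hasDerivWithinAt
  have d2 : ∀ s ∈ Ioi (0 : ℝ), HasDerivWithinAt (fun s => -N / XX c s)
      (2 * N * s / (VV c s * XX c s)) (Ioi 0) s := fun s _ => (g2_deriv c N s).hasDerivWithinAt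
  have cont : Continuous (XX c) := by
    rw [continuous_iff_continuousAt]
    exact fun s => (XX_deriv c s).continuousAt
  have i0 : IntegrableOn (fun s : ℝ => (Real.sqrt N)⁻¹ * (VV c s)⁻¹) (Ioi 0) :=
    (VV_int c).const_mul _
  have e1 : ∫ x in (fun s => N * XX c s) '' Ioi 0, (Real.sqrt (pc c N x))⁻¹ =
      ∫ s in Ioi (0 : ℝ), (Real.sqrt N)⁻¹ * (VV c s)⁻¹ := by
    rw [integral_image_eq_integral_abs_deriv_smul measurableSet_Ioi d1 inj1]
    exact setIntegral_congr_fun measurableSet_Ioi fun s hs => jnt1 c N hN s hs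
  have e2 : ∫ x in (fun s => -N / XX c s) '' Ioi 0, (Real.sqrt (pc c N x))⁻¹ =
      ∫ s in Ioi (0 : ℝ), (Real.sqrt N)⁻¹ * (VV c s)⁻¹ := by
    rw [integral_image_eq_integral_abs_deriv_smul measurableSet_Ioi d2 inj2]
    exact setIntegral_congr_fun measurableSet_Ioi fun s hs => jnt2 c N hN s hs
  have j1 : IntegrableOn (fun x => (Real.sqrt (pc c N x))⁻¹) ((fun s => N * XX c s) '' Ioi 0) := by
    rw [integrableOn_image_iff_integrableOn_abs_deriv_smul measurableSet_Ioi d1 inj1]
    exact (integrableOn_congr_fun (fun s hs => jnt1 c N hN s hs) measurableSet_Ioi).mpr i0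
  have j2 : IntegrableOn (fun x => (Real.sqrt (pc c N x))⁻¹) ((fun s => -N / XX c s) '' Ioi 0) := by
    rw [integrableOn_image_iff_integrableOn_abs_deriv_smul measurableSet_Ioi d2 inj2]
    exact (integrableOn_congr_fun (fun s hs => jnt2 c N hN s hs) measurableSet_Ioi).mpr i0
  have hdis : Disjoint ((fun s => N * XX c s) '' Ioi (0 : ℝ)) ((fun s => -N / XX c s) '' Ioi 0) := by
    rw [Set.disjoint_left]
    rintro x ⟨s, hs, rfl⟩ ⟨t, ht, h⟩
    have h1 : 0 < N * XX c s := mul_pos hN (XX_pos c s)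
    have h2 : -N / XX c t < 0 := div_neg_of_neg_of_pos (by linarith) (XX_pos c t)
    simp only at h
    linarith
  have hm : MeasurableSet ((fun s => -N / XX c s) '' Ioi (0 : ℝ)) := by
    apply MeasurableSet.image_of_continuousOn_injOn measurableSet_Ioi _ inj2
    apply Continuous.continuousOn
    exact continuous_const.div cont (fun s => (XX_pos c s).ne')
  rw [setIntegral_union hdis hm j1 j2, e1, e2, integral_const_mul]
  ring

lemma psi_ED (D : ℤ) (x : ℝ) : psi (ED D) x = 4 * x * (x ^ 2 - 11 * D * x - D ^ 2) := by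
  simp only [psi, ED, WeierstrassCurve.b₂, WeierstrassCurve.b₄, WeierstrassCurve.b₆]
  push_cast
  ring

/-- **the real period for `D > 0`** -/
theorem Om_pos {D : ℤ} (hD : 0 < D) : Om (ED D) = 4 * Pool.Agent.W97.V20.J0 / Real.sqrt |(D : ℝ)| := by
  have h1 : (0 : ℝ) < D := by exact_mod_cast hD
  have h2 : psi (ED D) = pc 11 D := by
    ext x
    rw [psi_ED]
    unfold pc
    ring
  unfold Om
  rw [h2, pc_int 11 D h1, J0_quartic, abs_of_pos h1]
  ring

/-- **the real period for `D < 0`** -/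
theorem Om_neg {D : ℤ} (hD : D < 0) : Om (ED D) = 4 * I1 / Real.sqrt |(D : ℝ)| := by
  have h1 : (0 : ℝ) < -(D : ℝ) := by
    have : (D : ℝ) < 0 := by exact_mod_cast hD
    linarith
  have h2 : psi (ED D) = pc (-11) (-(D : ℝ)) := by
    ext x
    rw [psi_ED]
    unfold pc
    ring
  unfold Om
  rw [h2, pc_int (-11) (-(D : ℝ)) h1, I1_quartic, abs_of_neg (by linarith)]
  ring

end

end Pool.Agent.Y695
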