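import Pool.Agent.Y695.Tam

/-!
The Tamagawa number at five.
-/

set_option autoImplicit false
set_option linter.all false

open WeierstrassCurve WeierstrassCurve.Affine
open scoped Classical

namespace Pool.Agent.Y695.Five

section alg

variable {F : Type*} [Field F] (h2 : (2 : F) ≠ 0)
include h2

lemma alg1 {x y D : F} (hE : y ^ 2 = x * ((x - 11 * D / 2) ^ 2 - 125 * D ^ 2 / 4))
    (h : x - 11 * D / 2 ≠ 0) : (y / (x - 11 * D / 2)) ^ 2 - 11 * D / 2 =
      (x - 11 * D / 2) - x * (125 * D ^ 2 / 4) / (x - 11 * D / 2) ^ 2 := by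
  obtain ⟨u, hu⟩ : ∃ u, u = x - 11 * D / 2 := ⟨_, rfl⟩
  have hx : x = u + 11 * D / 2 := by rw [hu]; ring
  rw [← hu] at hE h ⊢
  rw [div_pow, hE]
  have e : x * (u ^ 2 - 125 * D ^ 2 / 4) / u ^ 2 = x - x * (125 * D ^ 2 / 4) / u ^ 2 := by
    field_simp
  rw [e]
  nth_rw 1 [hx]
  ring

lemma alg2 {x y D s : F} (hs : s ≠ 0) (hy : y = s * (x - 11 * D / 2))
    (h : x - 11 * D / 2 ≠ 0) :
    (3 * x ^ 2 + 2 * (-11 * D) * x + -D ^ 2) / (2 * y) - s = ((11 * D / 2 - s ^ 2) +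
      (x - 11 * D / 2) + ((x - 11 * D / 2) - 125 * D ^ 2 / 4 / (x - 11 * D / 2)) / 2) / s := by
  obtain ⟨u, hu⟩ : ∃ u, u = x - 11 * D / 2 := ⟨_, rfl⟩
  have hx : x = u + 11 * D / 2 := by rw [hu]; ring
  rw [← hu] at hy h ⊢
  have h4 : (4 : F) ≠ 0 := by
    have : (4 : F) = 2 * 2 := by norm_num
    rw [this]; exact mul_ne_zero h2 h2
  rw [hy, hx]
  field_simp
  ring

lemma alg3 {x y D s lam X : F} (hy : y = s * (x - 11 * D / 2))
    (h : x - 11 * D / 2 ≠ 0) (hX : X - 11 * D / 2 ≠ 0) :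
    -(y + lam * (X - x)) / (X - 11 * D / 2) - -y / (x - 11 * D / 2) =
        -((lam - s) * (1 - (x - 11 * D / 2) / (X - 11 * D / 2))) := by
  obtain ⟨u, hu⟩ : ∃ u, u = x - 11 * D / 2 := ⟨_, rfl⟩
  have hx : x = u + 11 * D / 2 := by rw [hu]; ring
  obtain ⟨v, hv⟩ : ∃ v, v = X - 11 * D / 2 := ⟨_, rfl⟩
  have hx' : X = v + 11 * D / 2 := by rw [hv]; ring
  rw [← hu] at hy h ⊢
  rw [← hv] at hX ⊢
  rw [hy, hx, hx']
  field_simp
  ring

end alg

variable [hp : Fact (Nat.Prime 5)]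

lemma n5 : ‖(5 : ℚ_[5])‖ = 1 / 5 := by
  have := Padic.norm_p (p := 5)
  norm_num at this ⊢
  exact this

lemma lt_fifth {x : ℚ_[5]} (h : ‖x‖ < 1) : ‖x‖ ≤ 1 / 5 := by
  have := norm_lt_one_le h
  norm_num at this ⊢
  exact this

lemma nI (n : ℤ) (h : ¬ (5 : ℤ) ∣ n) : ‖(n : ℚ_[5])‖ = 1 :=
  norm_int_unit (p := 5) (by exact_mod_cast h)

lemma n2 : ‖(2 : ℚ_[5])‖ = 1 := by
  have := nI 2 (by norm_num)
  exact_mod_cast this

lemma n11 : ‖(11 : ℚ_[5])‖ = 1 := by
  have := nI 11 (by norm_num)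
  exact_mod_cast this

lemma n4 : ‖(4 : ℚ_[5])‖ = 1 := by
  have := nI 4 (by norm_num)
  exact_mod_cast this

lemma n3 : ‖(3 : ℚ_[5])‖ = 1 := by
  have := nI 3 (by norm_num)
  exact_mod_cast this

variable {D : ℤ} (hD : ¬ (5 : ℤ) ∣ D)
include hD

lemma nD : ‖(D : ℚ_[5])‖ = 1 := nI D hD

lemma nc : ‖125 * (D : ℚ_[5]) ^ 2 / 4‖ = 1 / 125 := by
  have e : 125 * (D : ℚ_[5]) ^ 2 / 4 = 5 * (5 * (5 * (D ^ 2 / 4))) := by ring
  rw [e, norm_mul, norm_mul, norm_mul, norm_div, norm_pow, nD hD, n4, n5]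
  norm_num

lemma nh : ‖11 * (D : ℚ_[5]) / 2‖ = 1 := by
  rw [norm_div, norm_mul, nD hD, n11, n2]
  norm_num

lemma hD0 : D ≠ 0 := by
  rintro rfl
  exact hD (dvd_zero _)

/-- the equation in terms of `ξ` -/
lemma eqn {x y : ℚ_[5]}
    (h : ((ED D).map (Int.castRingHom ℚ_[5])).toAffine.Nonsingular x y) :
    y ^ 2 = x * ((x - 11 * D / 2) ^ 2 - 125 * D ^ 2 / 4) := by
  have hT := isT_ED D (hD0 hD) ℚ_[5]
  have hE := hT.nonsingular.1 h
  rw [hE]; ring

lemma norm_x {x : ℚ_[5]} (hx : ‖x - 11 * D / 2‖ < 1) : ‖x‖ = 1 := by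
  have e : x = 11 * D / 2 + (x - 11 * D / 2) := by ring
  rw [e, norm_add_eq, nh hD]
  rw [nh hD]; exact hx

lemma mem_iff {x y : ℚ_[5]}
    (h : ((ED D).map (Int.castRingHom ℚ_[5])).toAffine.Nonsingular x y) :
    Point.some x y h ∈ nsRed (ED D) 5 ↔ ¬ ‖x - 11 * D / 2‖ < 1 := by
  have hE := eqn hD h
  have hc := nc hD
  have hh := nh hD
  rw [mem_nsRed]
  have e1 : 3 * x ^ 2 - 22 * D * x - (D : ℚ_[5]) ^ 2 =
      (x - 11 * D / 2) ^ 2 + (2 * x * (x - 11 * D / 2) - 125 * D ^ 2 / 4) := by ring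
  constructor
  · intro h2 h3
    have hx := norm_x hD h3
    rcases h2 with h5 | h5 | h5
    · linarith
    · rw [e1] at h5
      have h6 : ‖(x - 11 * D / 2) ^ 2 + (2 * x * (x - 11 * D / 2) - 125 * D ^ 2 / 4)‖ ≤ 1 / 5 := by
        have h7 := lt_fifth h3
        apply norm_add_le''
        · rw [norm_pow]
          nlinarith [norm_nonneg (x - 11 * D / 2)]
        · apply norm_sub_le'
          · rw [norm_mul, norm_mul, n2, hx]; linarith
          · rw [hc]; norm_num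
      rw [h5] at h6
      norm_num at h6
    · rw [norm_mul, n2, one_mul] at h5
      have h6 : ‖y ^ 2‖ ≤ 1 / 5 := by
        rw [hE, norm_mul, hx, one_mul]
        apply norm_sub_le'
        · rw [norm_pow]
          have h7 := lt_fifth h3
          nlinarith [norm_nonneg (x - 11 * D / 2)]
        · rw [hc]; norm_num
      rw [norm_pow, h5] at h6
      norm_num at h6
  · intro h2
    by_cases h3 : 1 < ‖x‖
    · exact Or.inl h3
    rw [not_lt] at h2 h3
    have h4 : ‖x - 11 * D / 2‖ = 1 := le_antisymm (norm_sub_le' h3 hh.le) h2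
    have h5 : ‖(x - 11 * D / 2) ^ 2‖ = 1 := by rw [norm_pow, h4, one_pow]
    rcases h3.lt_or_eq with h6 | h6
    · right; left
      rw [e1, norm_add_eq, h5]
      rw [h5]
      have h8 : ‖2 * x * (x - 11 * D / 2)‖ ≤ ‖x‖ := by
        rw [norm_mul, norm_mul, n2, h4]; linarith
      have h9 := lt_fifth h6
      have : ‖2 * x * (x - 11 * D / 2) - 125 * D ^ 2 / 4‖ ≤ 1 / 5 := by
        apply norm_sub_le'
        · linarith
        · rw [hc]; norm_num
      linarith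
    · right; right
      have h7 : ‖(x - 11 * D / 2) ^ 2 - 125 * D ^ 2 / 4‖ = 1 := by
        rw [sub_eq_add_neg, norm_add_eq, h5]
        rw [h5, norm_neg, hc]; norm_num
      have h8 : ‖y ^ 2‖ = 1 := by rw [hE, norm_mul, h7, h6, one_mul]
      rw [norm_pow] at h8
      rw [norm_mul, n2, one_mul]
      exact (pow_eq_one_iff_of_nonneg (norm_nonneg _) two_ne_zero).1 h8

/-- the valuation of `ξ` at a point of singular reduction is one -/
lemma norm_xi {x y : ℚ_[5]}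
    (h : ((ED D).map (Int.castRingHom ℚ_[5])).toAffine.Nonsingular x y)
    (h3 : ‖x - 11 * D / 2‖ < 1) : ‖x - 11 * D / 2‖ = 1 / 5 := by
  have hE := eqn hD h
  have hc := nc hD
  have hx := norm_x hD h3
  have h4 := lt_fifth h3
  by_contra hne
  have h5 : ‖x - 11 * D / 2‖ < (5 : ℕ) ^ (-1 : ℤ) := by
    have := lt_of_le_of_ne h4 hne
    norm_num
    norm_num at this
    exact this
  have h6 := norm_le_of_lt (p := 5) (-1) h5
  norm_num at h6
  have h7 : ‖(x - 11 * D / 2) ^ 2‖ < 1 / 125 := by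
    rw [norm_pow]
    have := norm_nonneg (x - 11 * D / 2)
    nlinarith
  have h8 : ‖y ^ 2‖ = 1 / 125 := by
    rw [hE, norm_mul, hx, one_mul, sub_eq_add_neg, add_comm, norm_add_eq, norm_neg, hc]
    rw [norm_neg, hc]; exact h7
  have hy0 : y ^ 2 ≠ 0 := by
    intro h0
    rw [h0, norm_zero] at h8
    norm_num at h8
  have h9 := even_of_sq' hy0 (rfl : y ^ 2 = y ^ 2)
  have h10 : (y ^ 2).valuation = 3 := by
    have h11 : ((5 : ℚ_[5]) ^ 3).valuation = 3 := by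
      have := Padic.valuation_p (p := 5)
      rw [Padic.valuation_pow]
      have h12 : (5 : ℚ_[5]).valuation = 1 := by exact_mod_cast this
      rw [h12]
      norm_num
    rw [← h11]
    apply val_of_norm hy0 (by norm_num)
    rw [h8, norm_pow, n5]
    norm_num
  rw [h10] at h9
  exact absurd h9 (by decide)

/-- the class of a point of singular reduction -/
lemma slope_sq {x y : ℚ_[5]}
    (h : ((ED D).map (Int.castRingHom ℚ_[5])).toAffine.Nonsingular x y)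
    (h3 : ‖x - 11 * D / 2‖ < 1) : ‖(y / (x - 11 * D / 2)) ^ 2 - 11 * D / 2‖ ≤ 1 / 5 ∧
      ‖y / (x - 11 * D / 2)‖ = 1 := by
  have hE := eqn hD h
  have hc := nc hD
  have hh := nh hD
  have hx := norm_x hD h3
  have h4 := norm_xi hD h h3
  have h5 : x - 11 * D / 2 ≠ 0 := by
    intro h0
    rw [h0, norm_zero] at h4
    norm_num at h4
  have e1 : (y / (x - 11 * D / 2)) ^ 2 - 11 * D / 2 =
      (x - 11 * D / 2) - x * (125 * D ^ 2 / 4) / (x - 11 * D / 2) ^ 2 := alg1 two_ne_zero hE h5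
  have h6 : ‖(y / (x - 11 * D / 2)) ^ 2 - 11 * D / 2‖ ≤ 1 / 5 := by
    rw [e1]
    apply norm_sub_le' h4.le
    rw [norm_div, norm_mul, hx, hc, norm_pow, h4]
    norm_num
  refine ⟨h6, ?_⟩
  have h7 : ‖(y / (x - 11 * D / 2)) ^ 2‖ = 1 := by
    have e2 : (y / (x - 11 * D / 2)) ^ 2 = 11 * D / 2 + ((y / (x - 11 * D / 2)) ^ 2 - 11 * D / 2) := by
      ring
    rw [e2, norm_add_eq, hh]
    rw [hh]; linarith
  rw [norm_pow] at h7
  exact (pow_eq_one_iff_of_nonneg (norm_nonneg _) two_ne_zero).1 h7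

/-- two of the classes agree up to sign -/
lemma dichotomy {s t u : ℚ_[5]} (hs : ‖s ^ 2 - u‖ ≤ 1 / 5) (ht : ‖t ^ 2 - u‖ ≤ 1 / 5)
    (hs1 : ‖s‖ = 1) : (‖s - t‖ < 1 ∧ ‖s + t‖ = 1) ∨ (‖s + t‖ < 1 ∧ ‖s - t‖ = 1) := by
  have h1 : ‖(s - t) * (s + t)‖ ≤ 1 / 5 := by
    have e : (s - t) * (s + t) = (s ^ 2 - u) - (t ^ 2 - u) := by ring
    rw [e]
    exact norm_sub_le' hs ht
  rw [norm_mul] at h1
  have h2s : ‖2 * s‖ = 1 := by rw [norm_mul, n2, hs1, one_mul]
  have h2 : ‖s - t‖ < 1 ∨ ‖s + t‖ < 1 := by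
    by_contra h3
    push Not at h3
    nlinarith [h3.1, h3.2]
  rcases h2 with h2 | h2
  · left
    refine ⟨h2, ?_⟩
    have e : s + t = 2 * s + -(s - t) := by ring
    rw [e, norm_add_eq, h2s]
    rw [norm_neg, h2s]; exact h2
  · right
    refine ⟨h2, ?_⟩
    have e : s - t = 2 * s + -(s + t) := by ring
    rw [e, norm_add_eq, h2s]
    rw [norm_neg, h2s]; exact h2

/-- points of the same class -/
lemma sub_mem {x₁ y₁ x₂ y₂ : ℚ_[5]}
    (h₁ : ((ED D).map (Int.castRingHom ℚ_[5])).toAffine.Nonsingular x₁ y₁)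
    (h₂ : ((ED D).map (Int.castRingHom ℚ_[5])).toAffine.Nonsingular x₂ y₂)
    (hx₁ : ‖x₁ - 11 * D / 2‖ < 1) (hx₂ : ‖x₂ - 11 * D / 2‖ < 1)
    (hy : ‖y₁ / (x₁ - 11 * D / 2) - y₂ / (x₂ - 11 * D / 2)‖ < 1) :
    Point.some x₁ y₁ h₁ - Point.some x₂ y₂ h₂ ∈ nsRed (ED D) 5 := by
  have hT := isT_ED D (hD0 hD) ℚ_[5]
  have hE1 := eqn hD h₁
  have hE2 := eqn hD h₂
  obtain ⟨a1, b1⟩ := slope_sq hD h₁ hx₁
  obtain ⟨a2, b2⟩ := slope_sq hD h₂ hx₂
  have c1 := norm_xi hD h₁ hx₁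
  have c2 := norm_xi hD h₂ hx₂
  have z1 : x₁ - 11 * D / 2 ≠ 0 := by
    intro h0
    rw [h0, norm_zero] at c1
    norm_num at c1
  have z2 : x₂ - 11 * D / 2 ≠ 0 := by
    intro h0
    rw [h0, norm_zero] at c2
    norm_num at c2
  set s₁ := y₁ / (x₁ - 11 * D / 2) with hs₁
  set s₂ := y₂ / (x₂ - 11 * D / 2) with hs₂
  have w1 : y₁ = s₁ * (x₁ - 11 * D / 2) := by rw [hs₁, div_mul_cancel₀ _ z1]
  have w2 : y₂ = s₂ * (x₂ - 11 * D / 2) := by rw [hs₂, div_mul_cancel₀ _ z2]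
  by_cases hx : x₁ = x₂
  · subst hx
    have h3 : (s₁ - s₂) * (s₁ + s₂) = 0 := by
      have h4 : (s₁ - s₂) * (s₁ + s₂) * (x₁ - 11 * D / 2) ^ 2 = 0 := by
        rw [w1] at hE1
        rw [w2] at hE2
        linear_combination hE1 - hE2
      rcases mul_eq_zero.1 h4 with h5 | h5
      · exact h5
      · exact absurd h5 (pow_ne_zero 2 z1)
    have h4 : y₁ = y₂ := by
      rcases mul_eq_zero.1 h3 with h4 | h4
      · rw [w1, w2, sub_eq_zero.1 h4]
      · exfalso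
        have : s₁ - s₂ = 2 * s₁ := by linear_combination -h4
        rw [this, norm_mul, n2, b1] at hy
        norm_num at hy
    subst h4
    rw [sub_self]
    exact zero_mem_nsRed D
  · obtain ⟨h₂', hneg⟩ := neg_pt (hD0 hD) h₂
    rw [sub_eq_add_neg, hneg]
    obtain ⟨hQ, hadd⟩ := hT.add h₁ h₂' hx
    rw [hadd, mem_iff hD]
    set lam := (y₁ - -y₂) / (x₁ - x₂) with hlam
    have hxs : x₁ - x₂ ≠ 0 := sub_ne_zero.2 hx
    intro hX
    have hX' := norm_x hD hX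
    have e1 : lam ^ 2 - 11 * D / 2 = (lam ^ 2 - -11 * (D : ℚ_[5]) - x₁ - x₂ - 11 * D / 2) +
        ((x₁ - 11 * D / 2) + (x₂ - 11 * D / 2)) := by ring
    have hl2 : ‖lam ^ 2 - 11 * D / 2‖ ≤ 1 / 5 := by
      rw [e1]
      exact norm_add_le'' (lt_fifth hX) (norm_add_le'' c1.le c2.le)
    have hrel : (s₁ - lam) * (x₁ - 11 * D / 2) = -((s₂ + lam) * (x₂ - 11 * D / 2)) := by
      have : lam * (x₁ - x₂) = y₁ + y₂ := by rw [hlam, div_mul_cancel₀ _ hxs]; ring
      rw [w1, w2] at this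
      linear_combination -this
    have hrel2 : ‖s₁ - lam‖ = ‖s₂ + lam‖ := by
      have h5 := congrArg norm hrel
      rw [norm_neg, norm_mul, norm_mul, c1, c2] at h5
      linarith
    rcases dichotomy hD a1 hl2 b1 with ⟨h5, h6⟩ | ⟨h5, h6⟩
    · have e2 : s₂ + lam = (s₁ + lam) + -(s₁ - s₂) := by ring
      have h7 : ‖s₂ + lam‖ = 1 := by
        rw [e2, norm_add_eq, h6]
        rw [norm_neg, h6]; exact hy
      linarith
    · have e2 : s₂ + lam = (s₁ + lam) - (s₁ - s₂) := by ring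
      have h7 : ‖s₂ + lam‖ ≤ 1 / 5 := by
        rw [e2]
        exact norm_sub_le' (lt_fifth h5) (lt_fifth hy)
      linarith

/-- **the Tamagawa number at five is odd** -/
theorem tam_five : Odd (tam (ED D) 5) := by
  have hT := isT_ED D (hD0 hD) ℚ_[5]
  unfold tam
  rw [dif_pos Nat.prime_five]
  have hc := nc hD
  apply odd_index
  · intro P Q hP hQ
    rcases P with _ | ⟨x₁, y₁, h₁⟩
    · exact absurd (zero_mem_nsRed D) hP
    rcases Q with _ | ⟨x₂, y₂, h₂⟩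
    · exact absurd (zero_mem_nsRed D) hQ
    rw [mem_iff hD, not_not] at hP hQ
    obtain ⟨a1, b1⟩ := slope_sq hD h₁ hP
    obtain ⟨a2, b2⟩ := slope_sq hD h₂ hQ
    rcases dichotomy hD a1 a2 b1 with ⟨h3, -⟩ | ⟨h3, -⟩
    · left
      exact sub_mem hD h₁ h₂ hP hQ h3
    · right
      obtain ⟨h₂', hneg⟩ := neg_pt (hD0 hD) h₂
      have h4 := sub_mem hD h₁ h₂' hP hQ (by rw [neg_div, sub_neg_eq_add]; exact h3)
      rw [← hneg, sub_neg_eq_add] at h4
      exact h4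
  · intro P hP
    rcases P with _ | ⟨x, y, h⟩
    · exact absurd (zero_mem_nsRed D) hP
    rw [mem_iff hD, not_not] at hP
    have hE := eqn hD h
    have hx1 := norm_x hD hP
    obtain ⟨a1, b1⟩ := slope_sq hD h hP
    have c1 := norm_xi hD h hP
    have z1 : x - 11 * D / 2 ≠ 0 := by
      intro h0
      rw [h0, norm_zero] at c1
      norm_num at c1
    set s := y / (x - 11 * D / 2) with hs
    have w1 : y = s * (x - 11 * D / 2) := by rw [hs, div_mul_cancel₀ _ z1]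
    have hy1 : ‖y‖ = 1 / 5 := by rw [w1, norm_mul, b1, c1, one_mul]
    have hy0 : y ≠ 0 := by
      rintro h0
      rw [h0, norm_zero] at hy1
      norm_num at hy1
    have hs0 : s ≠ 0 := by
      intro h0
      rw [h0, norm_zero] at b1
      norm_num at b1
    obtain ⟨hQ, hadd⟩ := hT.dbl h hy0
    rw [hadd]
    obtain ⟨h', hneg⟩ := neg_pt (hD0 hD) h
    have hneg' : Point.some x y h = -Point.some x (-y) h' := by rw [← hneg, neg_neg]
    rw [hneg', ← sub_eq_add_neg]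
    set lam := (3 * x ^ 2 + 2 * (-11 * (D : ℚ_[5])) * x + -(D : ℚ_[5]) ^ 2) / (2 * y) with hlam
    set X := ((x ^ 2 - -(D : ℚ_[5]) ^ 2) / (2 * y)) ^ 2 with hX
    -- the abscissa through the slope
    have hXl : X = lam ^ 2 + 11 * D - 2 * x := by
      rw [hX, hlam, div_pow, div_pow]
      field_simp
      have hE0 := hT.nonsingular.1 h
      linear_combination (4 : ℚ_[5]) * (11 * D - 2 * x) * (-1) * hE0
    have hls : ‖lam - s‖ ≤ 1 / 5 := by
      have e1 : lam - s = ((11 * D / 2 - s ^ 2) + (x - 11 * D / 2) +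
          ((x - 11 * D / 2) - 125 * D ^ 2 / 4 / (x - 11 * D / 2)) / 2) / s :=
        alg2 two_ne_zero hs0 w1 z1
      rw [e1, norm_div, b1, div_one]
      apply norm_add_le''
      · apply norm_add_le'' _ c1.le
        rw [norm_sub_rev]; exact a1
      · rw [norm_div, n2, div_one]
        apply norm_sub_le' c1.le
        rw [norm_div, hc, c1]
        norm_num
    have hXs : ‖X - 11 * D / 2‖ < 1 := by
      have e1 : X - 11 * D / 2 = (s ^ 2 - 11 * D / 2) + (lam - s) * (lam + s) -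
          2 * (x - 11 * D / 2) := by rw [hXl]; ring
      have h6 : ‖lam + s‖ ≤ 1 := by
        have e2 : lam + s = (lam - s) + 2 * s := by ring
        rw [e2]
        apply norm_add_le'' (by linarith)
        rw [norm_mul, n2, b1, one_mul]
      have h7 : ‖X - 11 * D / 2‖ ≤ 1 / 5 := by
        rw [e1]
        apply norm_sub_le' (norm_add_le'' a1 _)
        · rw [norm_mul, n2, c1]; norm_num
        · rw [norm_mul]
          nlinarith [norm_nonneg (lam - s), norm_nonneg (lam + s)]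
      linarith
    have hXn := norm_xi hD hQ hXs
    have zX : X - 11 * D / 2 ≠ 0 := by
      intro h0
      rw [h0, norm_zero] at hXn
      norm_num at hXn
    apply sub_mem hD hQ h' hXs hP
    have e1 : -(y + lam * (X - x)) / (X - 11 * D / 2) - -y / (x - 11 * D / 2) =
        -((lam - s) * (1 - (x - 11 * D / 2) / (X - 11 * D / 2))) := alg3 two_ne_zero w1 z1 zX
    rw [e1, norm_neg, norm_mul]
    have h8 : ‖1 - (x - 11 * D / 2) / (X - 11 * D / 2)‖ ≤ 1 := by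
      apply norm_sub_le'
      · rw [norm_one]
      · rw [norm_div, c1, hXn]; norm_num
    nlinarith [norm_nonneg (lam - s), norm_nonneg (1 - (x - 11 * D / 2) / (X - 11 * D / 2))]

end Pool.Agent.Y695.Five
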