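import Pool.Agent.Y695.Tam1
import Pool.Agent.Y695.Tam2
import Pool.Agent.Y695.Tam5

/-!
The product of the Tamagawa numbers.
-/

set_option autoImplicit false
set_option linter.all false

open WeierstrassCurve WeierstrassCurve.Affine

namespace Pool.Agent.Y695

lemma disc_ED (D : ℤ) : (ED D).Δ = 2000 * D ^ 6 := by
  simp only [WeierstrassCurve.Δ, WeierstrassCurve.b₂, WeierstrassCurve.b₄, WeierstrassCurve.b₆,
    WeierstrassCurve.b₈, ED]
  ring

lemma primeFactors_ED {D : ℤ} (hD : D ≠ 0) :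
    (ED D).Δ.natAbs.primeFactors = {2, 5} ∪ D.natAbs.primeFactors := by
  rw [disc_ED, Int.natAbs_mul, Int.natAbs_pow,
    Nat.primeFactors_mul (by norm_num) (pow_ne_zero 6 (Int.natAbs_ne_zero.2 hD)),
    Nat.primeFactors_pow _ (by norm_num)]
  congr 1
  have : (2000 : ℤ).natAbs = 2 ^ 4 * 5 ^ 3 := by norm_num
  rw [this, Nat.primeFactors_mul (by norm_num) (by norm_num), Nat.primeFactors_pow _ (by norm_num),
    Nat.primeFactors_pow _ (by norm_num), Nat.Prime.primeFactors Nat.prime_two,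
    Nat.Prime.primeFactors Nat.prime_five]
  rfl

theorem tamProd_ED {D : ℤ} (hD : Squarefree D) (hodd : ¬ (2 : ℤ) ∣ D) (h5 : ¬ (5 : ℤ) ∣ D)
    (h : ∀ p : ℕ, p.Prime → (p : ℤ) ∣ D → ¬ IsSquare (5 : ZMod p) ∧ ¬ IsSquare (-1 : ZMod p)) :
    ∃ m, Odd m ∧ tamProd (ED D) = 2 ^ D.natAbs.primeFactors.card * m := by
  have hD0 : D ≠ 0 := hD.ne_zero
  unfold tamProd
  rw [primeFactors_ED hD0]
  have hdisj : Disjoint ({2, 5} : Finset ℕ) D.natAbs.primeFactors := by
    rw [Finset.disjoint_left]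
    intro a ha hb
    rw [Finset.mem_insert, Finset.mem_singleton] at ha
    have h1 : (a : ℤ) ∣ D := Int.natCast_dvd.2 (Nat.dvd_of_mem_primeFactors hb)
    rcases ha with rfl | rfl
    · exact hodd (by exact_mod_cast h1)
    · exact h5 (by exact_mod_cast h1)
  rw [Finset.prod_union hdisj]
  have h2 : ∏ p ∈ D.natAbs.primeFactors, tam (ED D) p = 2 ^ D.natAbs.primeFactors.card := by
    rw [Finset.prod_congr rfl (g := fun _ => 2), Finset.prod_const]
    intro p hp
    have hpp := Nat.prime_of_mem_primeFactors hp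
    haveI := Fact.mk hpp
    have h1 : (p : ℤ) ∣ D := Int.natCast_dvd.2 (Nat.dvd_of_mem_primeFactors hp)
    refine tam_q hD h1 ?_ ?_ (h p hpp h1).1 (h p hpp h1).2
    · rintro rfl
      exact hodd (by exact_mod_cast h1)
    · rintro rfl
      exact h5 (by exact_mod_cast h1)
  haveI : Fact (Nat.Prime 2) := ⟨Nat.prime_two⟩
  haveI : Fact (Nat.Prime 5) := ⟨Nat.prime_five⟩
  refine ⟨tam (ED D) 2 * tam (ED D) 5, (Two.tam_two hodd).mul (Five.tam_five h5), ?_⟩
  rw [h2, Finset.prod_pair (by norm_num)]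
  ring

end Pool.Agent.Y695
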