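import Pool.Agent.Y695.Rec6

/-!
The involutions `a ↦ 1/(k a)`.
-/

set_option autoImplicit false
set_option linter.all false

open Finset

namespace Pool.Agent.Y695

/-- the involution `a ↦ 1/(k a)` modulo `N` -/
def ivk (k : ℤ) (N a : ℕ) : ℕ := (((k : ZMod N) * (a : ZMod N))⁻¹ : ZMod N).val

lemma ivk_spec {k : ℤ} {N a : ℕ} (hN0 : N ≠ 0) (hk : IsCoprime k (N : ℤ)) (ha : a.Coprime N) :
    ivk k N a < N ∧ (ivk k N a).Coprime N ∧ (N : ℤ) ∣ k * (a * ivk k N a) - 1 := by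
  haveI : NeZero N := ⟨hN0⟩
  have hu : IsUnit ((k : ZMod N) * (a : ZMod N)) := by
    have h1 : IsUnit (k : ZMod N) := by
      obtain ⟨u, v, huv⟩ := hk
      refine IsUnit.of_mul_eq_one (u : ZMod N) ?_
      have := congrArg (Int.cast : ℤ → ZMod N) huv
      push_cast at this
      rw [ZMod.natCast_self, mul_zero, add_zero] at this
      rw [mul_comm]; exact this
    have h2 := (ZMod.isUnit_iff_coprime a N).2 ha
    exact h1.mul h2
  have hd : (N : ℤ) ∣ k * (a * ivk k N a) - 1 := by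
    rw [← ZMod.intCast_zmod_eq_zero_iff_dvd]
    push_cast
    unfold ivk
    rw [ZMod.natCast_zmod_val]
    have h3 : ((k : ZMod N) * (a : ZMod N)) * ((k : ZMod N) * (a : ZMod N))⁻¹ = 1 :=
      ZMod.mul_inv_of_unit _ hu
    linear_combination h3
  refine ⟨ZMod.val_lt _, ?_, hd⟩
  obtain ⟨t, ht⟩ := hd
  have h5 : IsCoprime ((ivk k N a : ℕ) : ℤ) (N : ℤ) := ⟨k * a, -t, by linear_combination ht⟩
  exact Nat.isCoprime_iff_coprime.1 h5

lemma ivk_unique {k : ℤ} {N a b c : ℕ} (hk : IsCoprime k (N : ℤ)) (ha : a.Coprime N) (hb : b < N)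
    (hc : c < N) (h1 : (N : ℤ) ∣ k * (a * b) - 1) (h2 : (N : ℤ) ∣ k * (a * c) - 1) : b = c := by
  have h3 : (N : ℤ) ∣ (k * a : ℤ) * (b - c) := by
    have := dvd_sub h1 h2
    have e : (k * (a * b) - 1 : ℤ) - (k * (a * c) - 1) = (k * a : ℤ) * (b - c) := by ring
    rwa [e] at this
  have hcop : IsCoprime (N : ℤ) (k * a : ℤ) := by
    have h4 : IsCoprime (a : ℤ) (N : ℤ) := Nat.isCoprime_iff_coprime.2 ha
    exact (hk.mul_left h4).symm
  exact eq_of_dvd_sub hb hc (hcop.dvd_of_dvd_mul_left h3)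

lemma ivk_ivk {k : ℤ} {N a : ℕ} (hN0 : N ≠ 0) (hk : IsCoprime k (N : ℤ)) (haN : a < N)
    (ha : a.Coprime N) : ivk k N (ivk k N a) = a := by
  obtain ⟨h1, h2, h3⟩ := ivk_spec hN0 hk ha
  obtain ⟨h4, h5, h6⟩ := ivk_spec hN0 hk h2
  exact ivk_unique hk h2 h4 haN h6 (by rwa [mul_comm (ivk k N a : ℤ) a])

lemma ivk_fix {k : ℤ} {N a : ℕ} (hN0 : N ≠ 0) (hk : IsCoprime k (N : ℤ)) (haN : a < N)
    (ha : a.Coprime N) : ivk k N a = a ↔ (N : ℤ) ∣ k * (a * a) - 1 := by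
  obtain ⟨h1, h2, h3⟩ := ivk_spec hN0 hk ha
  constructor
  · intro h
    rwa [h] at h3
  · intro h
    exact ivk_unique hk ha h1 haN h3 h

/-- the involution preserves the subgroup -/
lemma ivk_HH {k : ℤ} {S : Finset ℕ} (hS : Adm S) (hk : IsCoprime k (NN S : ℤ))
    (h5 : ∀ q ∈ S, jacobiSym k q = 1) {a : ℕ} (ha : a ∈ HH S) : ivk k (NN S) a ∈ HH S := by
  unfold HH at ha ⊢
  rw [mem_filter, mem_CC] at ha ⊢
  obtain ⟨⟨ha1, ha2⟩, ha3⟩ := ha
  obtain ⟨h1, h2, h3⟩ := ivk_spec (NN_ne hS) hk ha2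
  refine ⟨⟨h1, h2⟩, fun q hq => ?_⟩
  have h4 : (q : ℤ) ∣ k * (a * ivk k (NN S) a) - 1 :=
    (Int.natCast_dvd_natCast.2 (dvd_NN hq)).trans h3
  have h6 : jacobiSym (k * (a * ivk k (NN S) a)) q = jacobiSym 1 q := jac_of_dvd_sub h4
  rw [jacobiSym.mul_left, jacobiSym.mul_left, h5 q hq, ha3 q hq, one_mul, one_mul,
    jacobiSym.one_left] at h6
  exact h6

/-- the two fixed points -/
lemma exists_other_k {k : ℤ} {S0 : Finset ℕ} {p : ℕ} (hS : Adm (insert p S0)) (hpS : p ∉ S0)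
    (hk : IsCoprime k (NN (insert p S0) : ℤ))
    (h3 : ∀ q ∈ S0, q % 4 = 3) (hp4 : p % 4 = 1) {a : ℕ} (ha : a ∈ HH (insert p S0))
    (hf : (NN (insert p S0) : ℤ) ∣ k * (a * a) - 1) :
    ∃ a' : ℕ, a' ∈ HH (insert p S0) ∧ (NN (insert p S0) : ℤ) ∣ k * (a' * a') - 1 ∧ a' ≠ a ∧
      (NN S0 : ℤ) ∣ (a' : ℤ) - a ∧ (p : ℤ) ∣ (a' : ℤ) + a ∧
      ∀ b ∈ HH (insert p S0), (NN (insert p S0) : ℤ) ∣ k * (b * b) - 1 → b = a ∨ b = a' := by
  classical
  have hS0 : Adm S0 := hS.mono (subset_insert _ _)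
  have hp := (hS p (mem_insert_self _ _)).1
  have hcop : (NN S0).Coprime p := (NN_coprime hS0 hp hpS).symm
  have hNp : NN S0 * p ≠ 0 := mul_ne_zero (NN_ne hS0) hp.ne_zero
  have hNN : NN (insert p S0) = NN S0 * p := by rw [NN_insert hpS, mul_comm]
  unfold HH at ha
  rw [mem_filter, mem_CC] at ha
  obtain ⟨⟨ha1, ha2⟩, ha3⟩ := ha
  obtain ⟨x, hx1, hx2⟩ := Nat.chineseRemainder hcop a ((p - 1) * a)
  set a' := x % (NN S0 * p) with ha'
  have hlt : a' < NN S0 * p := Nat.mod_lt _ (Nat.pos_of_ne_zero hNp)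
  have d1 : (NN S0 : ℤ) ∣ (a' : ℤ) - a := by
    have h1 : a' ≡ a [MOD NN S0] := by
      have : a' ≡ x [MOD NN S0] := (Nat.mod_modEq x (NN S0 * p)).of_dvd (Dvd.intro _ rfl)
      exact this.trans hx1
    exact (Nat.modEq_iff_dvd.1 h1.symm)
  have d2 : (p : ℤ) ∣ (a' : ℤ) + a := by
    have h1 : a' ≡ (p - 1) * a [MOD p] := by
      have : a' ≡ x [MOD p] := (Nat.mod_modEq x (NN S0 * p)).of_dvd (Dvd.intro_left _ rfl)
      exact this.trans hx2
    have h2 := Nat.modEq_iff_dvd.1 h1.symm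
    rw [Nat.cast_mul, Nat.cast_sub hp.one_le] at h2
    have e : (a' : ℤ) + a = ((a' : ℤ) - ((p : ℤ) - (1 : ℕ)) * a) + p * a := by push_cast; ring
    rw [e]
    exact dvd_add h2 (Dvd.intro _ rfl)
  have hfZ : ∀ b : ℕ, (NN (insert p S0) : ℤ) ∣ k * (b * b) - 1 → ∀ q ∈ insert p S0,
      (q : ℤ) ∣ k * (b * b) - 1 := by
    intro b hb q hq
    exact (Int.natCast_dvd_natCast.2 (dvd_NN hq)).trans hb
  have hsq : (NN (insert p S0) : ℤ) ∣ k * (a' * a') - 1 := by
    apply NN_dvd_int hS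
    intro q hq
    have h2 := hfZ a hf q hq
    rcases mem_insert.1 hq with rfl | hq0
    · have e : (k * ((a' : ℤ) * a') - 1 : ℤ) = k * (a * a) - 1 + k * (a' - a) * (a' + a) := by ring
      rw [e]
      exact dvd_add h2 (d2.mul_left _)
    · have e : (k * ((a' : ℤ) * a') - 1 : ℤ) = k * (a * a) - 1 + (a' - a) * (k * (a' + a)) := by ring
      rw [e]
      exact dvd_add h2 (((Int.natCast_dvd_natCast.2 (dvd_NN hq0)).trans d1).mul_right _)
  have hneg : ∀ q : ℕ, q % 4 = 3 → jacobiSym (-1) q = -1 := fun q h1 => by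
    rw [jacobiSym.at_neg_one (Nat.odd_iff.2 (by omega)), ZMod.χ₄_nat_three_mod_four h1]
  have hnegp : jacobiSym (-1) p = 1 := by
    rw [jacobiSym.at_neg_one (Nat.odd_iff.2 (by omega)), ZMod.χ₄_nat_one_mod_four hp4]
  refine ⟨a', ?_, hsq, ?_, d1, d2, ?_⟩
  · unfold HH
    rw [mem_filter, mem_CC, hNN]
    refine ⟨⟨hlt, ?_⟩, fun q hq => ?_⟩
    · obtain ⟨t, ht⟩ := hsq
      have h5 : IsCoprime (a' : ℤ) ((NN (insert p S0) : ℕ) : ℤ) :=
        ⟨k * a', -t, by linear_combination ht⟩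
      rw [hNN] at h5
      exact Nat.isCoprime_iff_coprime.1 h5
    · rcases mem_insert.1 hq with rfl | hq0
      · rw [jac_of_dvd_sub (b := -1 * (a : ℤ)) (by
          have e : (a' : ℤ) - -1 * a = a' + a := by ring
          rw [e]; exact d2), jacobiSym.mul_left, hnegp, ha3 q hq, one_mul]
      · rw [jac_of_dvd_sub ((Int.natCast_dvd_natCast.2 (dvd_NN hq0)).trans d1), ha3 q hq]
  · intro h
    rw [h] at d2
    have h2 := hfZ a hf p (mem_insert_self _ _)
    have hpp : Prime (p : ℤ) := Nat.prime_iff_prime_int.1 hp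
    have h5 : (p : ℤ) ∣ a := by
      have e : (a : ℤ) + a = 2 * a := by ring
      rw [e] at d2
      rcases hpp.dvd_or_dvd d2 with h6 | h6
      · exfalso
        have h7 : p ∣ 2 := by exact_mod_cast h6
        have := Nat.le_of_dvd (by norm_num) h7
        have := hp.two_le
        omega
      · exact h6
    have h6 : (p : ℤ) ∣ 1 := by
      have e : (1 : ℤ) = a * (k * a) - (k * (a * a) - 1) := by ring
      rw [e]
      exact dvd_sub (h5.mul_right _) h2
    exact hpp.not_unit (isUnit_of_dvd_one h6)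
  · intro b hb hfb
    unfold HH at hb
    rw [mem_filter, mem_CC] at hb
    obtain ⟨⟨hb1, hb2⟩, hb3⟩ := hb
    have hcase : ∀ q ∈ insert p S0, (q : ℤ) ∣ (b : ℤ) - a ∨ (q : ℤ) ∣ (b : ℤ) + a := by
      intro q hq
      have hqp : Prime (q : ℤ) := Nat.prime_iff_prime_int.1 (hS q hq).1
      have e1 := hfZ a hf q hq
      have e2 := hfZ b hfb q hq
      have e3 : (q : ℤ) ∣ k * (((b : ℤ) - a) * (b + a)) := by
        have := dvd_sub e2 e1
        have e : (k * (b * b) - 1 : ℤ) - (k * (a * a) - 1) = k * (((b : ℤ) - a) * (b + a)) := by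
          ring
        rwa [e] at this
      have e4 : IsCoprime (q : ℤ) k :=
        (hk.symm.of_isCoprime_of_dvd_left (Int.natCast_dvd_natCast.2 (dvd_NN hq)))
      exact hqp.dvd_or_dvd (e4.dvd_of_dvd_mul_left e3)
    have hN0 : (NN S0 : ℤ) ∣ (b : ℤ) - a := by
      apply NN_dvd_int hS0
      intro q hq
      rcases hcase q (mem_insert_of_mem hq) with h | h
      · exact h
      · exfalso
        have h1 := jac_of_dvd_sub (a := (b : ℤ)) (b := -1 * (a : ℤ)) (q := q) (by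
          have e : (b : ℤ) - -1 * a = b + a := by ring
          rw [e]; exact h)
        rw [jacobiSym.mul_left, hneg q (h3 q hq), ha3 q (mem_insert_of_mem hq),
          hb3 q (mem_insert_of_mem hq)] at h1
        norm_num at h1
    have hcopZ : IsCoprime (NN S0 : ℤ) (p : ℤ) := Nat.isCoprime_iff_coprime.2 hcop
    rcases hcase p (mem_insert_self _ _) with h | h
    · left
      rw [hNN] at ha1 hb1
      apply eq_of_dvd_sub hb1 ha1
      push_cast
      exact hcopZ.mul_dvd hN0 h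
    · right
      rw [hNN] at hb1
      apply eq_of_dvd_sub hb1 hlt
      push_cast
      refine hcopZ.mul_dvd ?_ ?_
      · have e : (b : ℤ) - a' = (b - a) - (a' - a) := by ring
        rw [e]
        exact dvd_sub hN0 d1
      · have e : (b : ℤ) - a' = (b + a) - (a' + a) := by ring
        rw [e]
        exact dvd_sub h d2

end Pool.Agent.Y695
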