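import Pool.Agent.Y695.Rec6

/-!
The relations between the twisted sums, for symbols of which only the integrality is known.
-/

set_option autoImplicit false
set_option linter.all false

open Finset

namespace Pool.Agent.Y695

/-- **the sum over the subsets** -/
theorem sum_TSW (pf : ℚ → ℂ) {S : Finset ℕ} (hS : Adm S) :
    ∑ R ∈ S.powerset, TS pf (cf R) (NN S) =
      2 ^ S.card * ∑ a ∈ HH S, pf ((a : ℚ) / NN S) := by
  unfold TS
  rw [sum_comm, HH, sum_filter, mul_sum]
  refine sum_congr rfl fun a ha => ?_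
  rw [mem_CC] at ha
  rw [← sum_mul]
  have h1 := sum_ch S (coprime_iff.1 ha.2)
  have h2 : ∑ R ∈ S.powerset, cf R a = (((∑ R ∈ S.powerset, ch R a : ℤ)) : ℂ) := by
    unfold cf
    push_cast
    rfl
  rw [h2, h1]
  split_ifs
  · push_cast
    ring
  · push_cast
    ring

section

variable {pf : ℚ → ℂ} {A : ℕ → ℤ} {J0 I1 : ℝ}

/-- a symbol with integral values -/
structure SymW (pf : ℚ → ℂ) (A : ℕ → ℤ) (J0 I1 : ℝ) : Prop where
  J0_pos : 0 < J0
  I1_pos : 0 < I1
  per : ∀ x, pf (x + 1) = pf x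
  conj : ∀ x, pf (-x) = starRingEnd ℂ (pf x)
  hecke : ∀ q : ℕ, q.Prime → q ≠ 2 → q ≠ 5 → ∀ x : ℚ,
    (A q : ℂ) * pf x = pf (q * x) + ∑ b ∈ range q, pf ((x + b) / q)
  ints : ∀ N a : ℕ, N.Coprime 10 → a.Coprime N → ∃ n m : ℤ,
    pf ((a : ℚ) / N) = n * J0 + m * I1 * Complex.I

theorem Sym.toW (h : Sym pf A J0 I1) : SymW pf A J0 I1 where
  J0_pos := h.J0_pos
  I1_pos := h.I1_pos
  per := h.per
  conj := h.conj
  hecke := h.hecke
  ints N a hN ha := by
    obtain ⟨n, m, h1, -, -⟩ := h.vals N a hN ha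
    exact ⟨n, m, h1⟩

namespace SymW

/-- **change of level** -/
theorem TS_prod (hs : SymW pf A J0 I1) {R S : Finset ℕ} (hS : Adm S) (hRS : R ⊆ S) :
    TS pf (cf R) (NN S) = (∏ q ∈ S \ R, ((A q - 2 * ch R q : ℤ) : ℂ)) * MR pf R := by
  classical
  have key : ∀ U : Finset ℕ, Disjoint U R → Adm (U ∪ R) →
      TS pf (cf R) (NN (U ∪ R)) = (∏ q ∈ U, ((A q - 2 * ch R q : ℤ) : ℂ)) * MR pf R := by
    intro U
    induction U using Finset.induction_on with
    | empty =>
      intro _ _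
      rw [empty_union, prod_empty, one_mul]
      rfl
    | insert q U hq ih =>
      intro hd hA
      rw [disjoint_insert_left] at hd
      rw [insert_union] at hA
      have hA' : Adm (U ∪ R) := hA.mono (subset_insert _ _)
      have hqS : q ∉ U ∪ R := by
        rw [mem_union, not_or]
        exact ⟨hq, hd.1⟩
      have hqp := hA q (mem_insert_self _ _)
      have h1 := ih hd.2 hA'
      rw [insert_union]
      have h2 : NN (insert q (U ∪ R)) = q * NN (U ∪ R) := by
        unfold NN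
        rw [prod_insert hqS]
      have hcop : ∀ r ∈ R, q.Coprime r := fun r hr =>
        (Nat.coprime_primes hqp.1 (hA' r (mem_union_right _ hr)).1).2 fun e => hd.1 (e ▸ hr)
      rw [h2, TS_step hs.per hqp.1 (hs.hecke q hqp.1 hqp.2.1 hqp.2.2) (NN_ne hA')
        (NN_coprime hA' hqp.1 hqS) (cf_add subset_union_right) (fun a => cf_mul R q a)
        (cf_sq hcop), h1, prod_insert hq]
      unfold cf
      push_cast
      ring
  have h1 := key (S \ R) sdiff_disjoint (by rw [sdiff_union_of_subset hRS]; exact hS)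
  rwa [sdiff_union_of_subset hRS] at h1

/-- complex conjugation -/
theorem conj_MR (hs : SymW pf A J0 I1) {R : Finset ℕ} (hR : Adm R) :
    starRingEnd ℂ (MR pf R) = ch R (-1) * MR pf R := by
  have hN := NN_ne hR
  haveI : NeZero (NN R) := ⟨hN⟩
  have hNQ : (NN R : ℚ) ≠ 0 := by exact_mod_cast hN
  have hpos : 1 ≤ NN R := Nat.pos_of_ne_zero hN
  set N := NN R with hNdef
  have hcop : (N - 1).Coprime N := by
    have h1 : N = (N - 1) + 1 := by omega
    nth_rw 2 [h1]
    exact (Nat.coprime_self_add_right).2 (Nat.coprime_one_right _)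
  have hG : ∀ a, (fun a : ℕ => cf R a * pf ((a : ℚ) / N)) (a % N) =
      (fun a : ℕ => cf R a * pf ((a : ℚ) / N)) a := by
    intro a
    dsimp only
    have h1 : a % N + a / N * N = a := by rw [mul_comm, Nat.mod_add_div]
    have h2 : cf R (a % N) = cf R a := by
      unfold cf
      rw [ch_congr (N := N) (fun q hq => dvd_NN hq) (b := (a : ℤ))]
      refine ⟨-((a / N : ℕ) : ℤ), ?_⟩
      have : (a : ℤ) = ((a % N : ℕ) : ℤ) + ((a / N : ℕ) : ℤ) * N := by exact_mod_cast h1.symm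
      linarith
    have h4 : (a : ℚ) / N = ((a % N : ℕ) : ℚ) / N + ((a / N : ℕ) : ℚ) := by
      have : (a : ℚ) = ((a % N : ℕ) : ℚ) + ((a / N : ℕ) : ℚ) * N := by exact_mod_cast h1.symm
      rw [this]
      field_simp
    rw [h2, h4, per_nat hs.per]
  have h5 := sum_mulU (fun a : ℕ => cf R a * pf ((a : ℚ) / N)) hG hcop
  have h6 : cf R (N - 1) = ch R (-1) := by
    unfold cf
    rw [ch_congr (N := N) (fun q hq => dvd_NN hq) (b := (-1 : ℤ))]
    refine ⟨1, ?_⟩
    push_cast [Nat.cast_sub hpos]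
    ring
  have h7 : (ch R (-1) : ℂ) * ch R (-1) = 1 := by
    rcases ch_neg_one R with h | h <;> rw [h] <;> norm_num
  unfold MR TS
  rw [← hNdef, map_sum]
  calc ∑ a ∈ CC N, starRingEnd ℂ (cf R a * pf ((a : ℚ) / N))
      = ∑ a ∈ CC N, ch R (-1) * (cf R ((N - 1) * a) * pf ((((N - 1) * a : ℕ) : ℚ) / N)) := by
        refine sum_congr rfl fun a _ => ?_
        rw [map_mul, ← hs.conj]
        have e1 : starRingEnd ℂ (cf R a) = cf R a := by
          unfold cf
          exact map_intCast (starRingEnd ℂ) _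
        have e2 : (((N - 1) * a : ℕ) : ℚ) / N = -((a : ℚ) / N) + (a : ℕ) := by
          push_cast [Nat.cast_sub hpos]
          field_simp
          ring
        rw [e1, e2, per_nat hs.per, cf_mul, h6]
        linear_combination (-(cf R a * pf (-((a : ℚ) / N)))) * h7
    _ = ch R (-1) * ∑ a ∈ CC N, cf R a * pf ((a : ℚ) / N) := by
        rw [← mul_sum, h5]

/-- the values -/
theorem exists_nu (hs : SymW pf A J0 I1) {N : ℕ} (hN : N.Coprime 10) {e : ℤ} (he : e = 1 ∨ e = -1) :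
    ∃ ν : ℕ → ℤ, ∀ a : ℕ, a.Coprime N → pt J0 I1 e (pf ((a : ℚ) / N)) = ν a := by
  have h1 : ∀ a : ℕ, ∃ k : ℤ, a.Coprime N → pt J0 I1 e (pf ((a : ℚ) / N)) = k := by
    intro a
    by_cases ha : a.Coprime N
    · obtain ⟨n, m, h1⟩ := hs.ints N a hN ha
      refine ⟨if e = 1 then n else m, fun _ => ?_⟩
      rw [h1, pt_val hs.J0_pos hs.I1_pos n m he]
    · exact ⟨0, fun h => absurd h ha⟩
  choose ν hν using h1
  exact ⟨ν, hν⟩

/-- the integer `μ_R` -/
theorem exists_mu (hs : SymW pf A J0 I1) {R : Finset ℕ} (hR : Adm R) : ∃ μ : ℤ, ∀ e : ℤ,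
    (e = 1 ∨ e = -1) → pt J0 I1 e (MR pf R) = if e = ch R (-1) then (μ : ℝ) else 0 := by
  have hN10 := NN_ten hR
  have hc := conj_MR hs hR
  have key : ∀ e : ℤ, (e = 1 ∨ e = -1) → ∃ k : ℤ, pt J0 I1 e (MR pf R) = k := by
    intro e he
    obtain ⟨ν, hν⟩ := exists_nu hs hN10 he
    refine ⟨∑ a ∈ CC (NN R), ch R a * ν a, ?_⟩
    unfold MR TS
    rw [map_sum]
    push_cast
    refine sum_congr rfl fun a ha => ?_
    unfold cf
    rw [pt_int, (hν a (mem_CC.1 ha).2)]
  obtain ⟨k1, hk1⟩ := key 1 (Or.inl rfl)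
  obtain ⟨k2, hk2⟩ := key (-1) (Or.inr rfl)
  have h0 := hs.J0_pos
  have h1 := hs.I1_pos
  rcases ch_neg_one R with h | h
  · refine ⟨k1, fun e he => ?_⟩
    rw [h]
    rcases he with rfl | rfl
    · rw [if_pos rfl]; exact hk1
    · rw [if_neg (by norm_num), pt_neg]
      rw [h, Int.cast_one, one_mul] at hc
      have h2 : (MR pf R).im = 0 := by
        have := congrArg Complex.im hc
        rw [Complex.conj_im] at this
        linarith
      rw [h2, zero_div]
  · refine ⟨k2, fun e he => ?_⟩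
    rw [h]
    rcases he with rfl | rfl
    · rw [if_neg (by norm_num), pt_one]
      rw [h] at hc
      have h2 : (MR pf R).re = 0 := by
        have := congrArg Complex.re hc
        rw [Complex.conj_re] at this
        push_cast at this
        rw [neg_one_mul, Complex.neg_re] at this
        linarith
      rw [h2, zero_div]
    · rw [if_pos rfl]; exact hk2

lemma mu_spec (hs : SymW pf A J0 I1) {R : Finset ℕ} (hR : Adm R) (e : ℤ) (he : e = 1 ∨ e = -1) :
    pt J0 I1 e (MR pf R) = if e = ch R (-1) then (mu pf J0 I1 R : ℝ) else 0 := by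
  have h := exists_mu hs hR
  unfold mu
  rw [dif_pos h]
  exact h.choose_spec e he

/-- **the relation, for both signs** -/
theorem main_id (hs : SymW pf A J0 I1) {S : Finset ℕ} (hS : Adm S) {e : ℤ} (he : e = 1 ∨ e = -1)
    {ν : ℕ → ℤ} (hν : ∀ a : ℕ, a.Coprime (NN S) → pt J0 I1 e (pf ((a : ℚ) / NN S)) = ν a) :
      ∑ R ∈ S.powerset, (∏ q ∈ S \ R, (A q - 2 * ch R q)) *
        (if ch R (-1) = e then mu pf J0 I1 R else 0) = 2 ^ S.card * ∑ a ∈ HH S, ν a := by
  have h1 := congrArg (pt J0 I1 e) (sum_TSW pf hS)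
  have h2 : (2 ^ S.card * ∑ a ∈ HH S, pf ((a : ℚ) / NN S) : ℂ) =
      ((2 ^ S.card : ℤ) : ℂ) * ∑ a ∈ HH S, pf ((a : ℚ) / NN S) := by push_cast; rfl
  rw [h2, pt_int, map_sum, map_sum] at h1
  have h3 : ∑ a ∈ HH S, pt J0 I1 e (pf ((a : ℚ) / NN S)) = ∑ a ∈ HH S, (ν a : ℝ) := by
    refine sum_congr rfl fun a ha => ?_
    unfold HH at ha
    rw [mem_filter, mem_CC] at ha
    exact hν a ha.1.2
  have h4 : ∀ R ∈ S.powerset, pt J0 I1 e (TS pf (cf R) (NN S)) =
      (((∏ q ∈ S \ R, (A q - 2 * ch R q)) *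
        (if ch R (-1) = e then mu pf J0 I1 R else 0) : ℤ) : ℝ) := by
    intro R hR
    rw [mem_powerset] at hR
    rw [TS_prod hs hS hR]
    have h5 : (∏ q ∈ S \ R, ((A q - 2 * ch R q : ℤ) : ℂ)) =
        ((∏ q ∈ S \ R, (A q - 2 * ch R q) : ℤ) : ℂ) := by push_cast; rfl
    rw [h5, pt_int, mu_spec hs (hS.mono hR) _ he]
    by_cases h6 : ch R (-1) = e
    · rw [if_pos h6.symm, if_pos h6]
      push_cast
      ring
    · rw [if_neg (fun h => h6 h.symm), if_neg h6]
      push_cast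
      ring
  rw [sum_congr rfl h4, h3] at h1
  exact_mod_cast h1

/-- **the relation on a coset** -/
theorem main_id_coset (hs : SymW pf A J0 I1) {S : Finset ℕ} (hS : Adm S) {e : ℤ}
    (he : e = 1 ∨ e = -1) {k : ℕ} (hk : k.Coprime (NN S))
    {ν : ℕ → ℤ} (hν : ∀ a : ℕ, a.Coprime (NN S) → pt J0 I1 e (pf ((a : ℚ) / NN S)) = ν a) :
      ∑ R ∈ S.powerset, ch R k * ((∏ q ∈ S \ R, (A q - 2 * ch R q)) *
        (if ch R (-1) = e then mu pf J0 I1 R else 0)) = 2 ^ S.card * ∑ a ∈ HH S, ν (k * a) := by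
  haveI : NeZero (NN S) := ⟨NN_ne hS⟩
  have hNQ : (NN S : ℚ) ≠ 0 := by exact_mod_cast NN_ne hS
  have h1 := congrArg (pt J0 I1 e) (sum_TSW (fun x => pf (k * x)) hS)
  have h2 : (2 ^ S.card * ∑ a ∈ HH S, pf (k * ((a : ℚ) / NN S)) : ℂ) =
      ((2 ^ S.card : ℤ) : ℂ) * ∑ a ∈ HH S, pf (k * ((a : ℚ) / NN S)) := by push_cast; rfl
  rw [h2, pt_int, map_sum, map_sum] at h1
  have h3 : ∑ a ∈ HH S, pt J0 I1 e (pf (k * ((a : ℚ) / NN S))) = ∑ a ∈ HH S, (ν (k * a) : ℝ) := by
    refine sum_congr rfl fun a ha => ?_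
    unfold HH at ha
    rw [mem_filter, mem_CC] at ha
    rw [← hν (k * a) (Nat.Coprime.mul_left hk ha.1.2)]
    congr 2
    push_cast
    ring
  have hT : ∀ R ⊆ S, TS (fun x => pf (k * x)) (cf R) (NN S) = ch R k * TS pf (cf R) (NN S) := by
    intro R hR
    have hG : ∀ a, (fun a : ℕ => cf R a * pf ((a : ℚ) / NN S)) (a % NN S) =
        (fun a : ℕ => cf R a * pf ((a : ℚ) / NN S)) a := by
      intro a
      dsimp only
      have h1 : a % NN S + a / NN S * NN S = a := by rw [mul_comm, Nat.mod_add_div]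
      have h2 : cf R (a % NN S) = cf R a := by
        unfold cf
        rw [ch_congr (N := NN S) (fun q hq => dvd_NN (hR hq)) (b := (a : ℤ))]
        refine ⟨-((a / NN S : ℕ) : ℤ), ?_⟩
        have : (a : ℤ) = ((a % NN S : ℕ) : ℤ) + ((a / NN S : ℕ) : ℤ) * NN S := by
          exact_mod_cast h1.symm
        linarith
      have h4 : (a : ℚ) / NN S = ((a % NN S : ℕ) : ℚ) / NN S + ((a / NN S : ℕ) : ℚ) := by
        have : (a : ℚ) = ((a % NN S : ℕ) : ℚ) + ((a / NN S : ℕ) : ℚ) * NN S := by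
          exact_mod_cast h1.symm
        rw [this]
        field_simp
      rw [h2, h4, per_nat hs.per]
    have h5 := sum_mulU (fun a : ℕ => cf R a * pf ((a : ℚ) / NN S)) hG hk
    have h7 : (ch R k : ℂ) * ch R k = 1 := by
      have := ch_sq (R := R) (a := (k : ℤ)) fun q hq => by
        rw [Int.gcd_natCast_natCast]; exact coprime_iff.1 hk q (hR hq)
      exact_mod_cast this
    unfold TS
    rw [← h5, mul_sum]
    refine sum_congr rfl fun a _ => ?_
    have e2 : (((k * a : ℕ)) : ℚ) / NN S = k * ((a : ℚ) / NN S) := by push_cast; ring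
    rw [e2, cf_mul]
    have e3 : cf R k = ch R k := rfl
    rw [e3]
    linear_combination (-(cf R a * pf (k * ((a : ℚ) / NN S)))) * h7
  have h4 : ∀ R ∈ S.powerset, pt J0 I1 e (TS (fun x => pf (k * x)) (cf R) (NN S)) =
      ((ch R k * ((∏ q ∈ S \ R, (A q - 2 * ch R q)) *
        (if ch R (-1) = e then mu pf J0 I1 R else 0)) : ℤ) : ℝ) := by
    intro R hR
    rw [mem_powerset] at hR
    rw [hT R hR, pt_int, TS_prod hs hS hR]
    have h5 : (∏ q ∈ S \ R, ((A q - 2 * ch R q : ℤ) : ℂ)) =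
        ((∏ q ∈ S \ R, (A q - 2 * ch R q) : ℤ) : ℂ) := by push_cast; rfl
    rw [h5, pt_int, mu_spec hs (hS.mono hR) _ he]
    by_cases h6 : ch R (-1) = e
    · rw [if_pos h6.symm, if_pos h6]
      push_cast
      ring
    · rw [if_neg (fun h => h6 h.symm), if_neg h6]
      push_cast
      ring
  rw [sum_congr rfl h4, h3] at h1
  exact_mod_cast h1

/-- the value of the sum -/
theorem MR_eq (hs : SymW pf A J0 I1) {R : Finset ℕ} (hR : Adm R) :
    (ch R (-1) = 1 → MR pf R = mu pf J0 I1 R * J0) ∧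
    (ch R (-1) = -1 → MR pf R = mu pf J0 I1 R * I1 * Complex.I) := by
  have h1 := mu_spec hs hR 1 (Or.inl rfl)
  have h2 := mu_spec hs hR (-1) (Or.inr rfl)
  rw [pt_one] at h1
  rw [pt_neg] at h2
  have h0 := hs.J0_pos
  have h3 := hs.I1_pos
  constructor
  · intro h
    rw [h, if_pos rfl, div_eq_iff h0.ne'] at h1
    rw [h, if_neg (by norm_num), div_eq_zero_iff] at h2
    have h4 : (MR pf R).im = 0 := h2.resolve_right h3.ne'
    apply Complex.ext
    · rw [h1]; simp
    · rw [h4]; simp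
  · intro h
    rw [h, if_neg (by norm_num), div_eq_zero_iff] at h1
    rw [h, if_pos rfl, div_eq_iff h3.ne'] at h2
    have h4 : (MR pf R).re = 0 := h1.resolve_right h0.ne'
    apply Complex.ext
    · rw [h4]; simp
    · rw [h2]; simp

end SymW

end

end Pool.Agent.Y695
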