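import Pool.Agent.Y695.Val5
import Pool.Agent.Y695.WRec
import Pool.Agent.Y695.Inv
import Pool.Agent.Y695.Pfx

/-!
The modular symbol twisted by the quadratic character modulo five.
-/

set_option autoImplicit false
set_option linter.all false

open Finset

namespace Pool.Agent.Y695

open Pool.Agent.W97.TW
open Pool.Agent.W97.V20

/-- the twisted symbol modulo five -/
noncomputable def pf5 : ℚ → ℂ := pfx 5 (fun a => jacobiSym a 5) (fun x => J (2 * x))

lemma pf5_eq (x : ℚ) : pf5 x = J (2 * (x + 1 / 5)) - J (2 * (x + 2 / 5)) - J (2 * (x + 3 / 5)) +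
    J (2 * (x + 4 / 5)) := by
  unfold pf5 pfx
  rw [sum_range_succ, sum_range_succ, sum_range_succ, sum_range_succ, sum_range_succ, sum_range_zero]
  have h0 : jacobiSym ((0 : ℕ) : ℤ) 5 = 0 := by norm_num
  have h1 : jacobiSym ((1 : ℕ) : ℤ) 5 = 1 := by norm_num
  have h2 : jacobiSym ((2 : ℕ) : ℤ) 5 = -1 := by norm_num
  have h3 : jacobiSym ((3 : ℕ) : ℤ) 5 = -1 := by norm_num
  have h4 : jacobiSym ((4 : ℕ) : ℤ) 5 = 1 := by norm_num
  dsimp only
  rw [h0, h1, h2, h3, h4]
  push_cast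
  ring

lemma frac5 {N a j : ℕ} (hN : N ≠ 0) : (a : ℚ) / N + (j : ℚ) / 5 =
    ((5 * a + j * N : ℕ) : ℚ) / ((5 * N : ℕ) : ℚ) := by
  have : (N : ℚ) ≠ 0 := by exact_mod_cast hN
  push_cast
  field_simp

lemma cop5 {N a j : ℕ} (hN : N.Coprime 10) (ha : a.Coprime N) (hj : ¬ 5 ∣ j) :
    (5 * a + j * N).Coprime (5 * N) := by
  have h5 : N.Coprime 5 := Nat.Coprime.coprime_dvd_right (by norm_num) hN
  rw [Nat.coprime_mul_iff_right]
  constructor
  · have h1 : (j * N).Coprime 5 := by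
      refine Nat.Coprime.mul_left ?_ h5
      rw [Nat.coprime_comm, (by norm_num : Nat.Prime 5).coprime_iff_not_dvd]
      exact hj
    have h2 : 5 * a + j * N = j * N + a * 5 := by ring
    rw [h2, Nat.coprime_add_mul_right_left]
    exact h1
  · rw [Nat.coprime_add_mul_right_left]
    exact Nat.Coprime.mul_left h5.symm ha

/-- the integers attached to the cusps with denominator `5 N` -/
lemma exists_k {N : ℕ} (hN : N.Coprime 10) : ∃ k : ℕ → ℤ, ∀ c : ℕ, c.Coprime (5 * N) →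
    pt J0 I1 1 (J (2 * ((c : ℚ) / (5 * N : ℕ)))) = k c ∧ (Odd (k c) ↔ jacobiSym c 5 = 1) := by
  have h1 : ∀ c : ℕ, ∃ k : ℤ, c.Coprime (5 * N) →
      pt J0 I1 1 (J (2 * ((c : ℚ) / (5 * N : ℕ)))) = k ∧ (Odd k ↔ jacobiSym c 5 = 1) := by
    intro c
    by_cases hc : c.Coprime (5 * N)
    · obtain ⟨n, m, h1, h2, h3⟩ := vals5 hN hc
      refine ⟨n, fun _ => ⟨?_, h3⟩⟩
      rw [h1, pt_val sym.J0_pos sym.I1_pos n m (Or.inl rfl), if_pos rfl]
    · exact ⟨0, fun h => absurd h hc⟩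
  choose k hk using h1
  exact ⟨k, hk⟩

/-- the twisted symbol is integral -/
theorem symW5 : SymW pf5 (fun q => jacobiSym q 5 * A q) J0 I1 where
  J0_pos := sym.J0_pos
  I1_pos := sym.I1_pos
  per := fun x => pfx_per per_J2 x
  conj := fun x => by
    rw [pf5_eq, pf5_eq, map_add, map_sub, map_sub]
    have h : ∀ y : ℚ, starRingEnd ℂ (J (2 * y)) = J (2 * (-y + 1)) := by
      intro y
      rw [per_J2, mul_neg, J_conj]
    rw [h, h, h, h]
    have e1 : -(x + 1 / 5) + 1 = -x + 4 / 5 := by ring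
    have e2 : -(x + 2 / 5) + 1 = -x + 3 / 5 := by ring
    have e3 : -(x + 3 / 5) + 1 = -x + 2 / 5 := by ring
    have e4 : -(x + 4 / 5) + 1 = -x + 1 / 5 := by ring
    rw [e1, e2, e3, e4]
    ring
  hecke := fun q hq h2 h5 x => by
    have h1 := pfx_hecke rc_five per_J2 hq ((Nat.coprime_primes hq (by norm_num)).2 h5)
      (sym.hecke q hq h2 h5) x
    push_cast at h1 ⊢
    exact h1
  ints := fun N a hN ha => by
    have hN0 : N ≠ 0 := by
      rintro rfl
      norm_num at hN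
    have key : ∀ j : ℕ, ¬ 5 ∣ j → ∃ n m : ℤ, J (2 * ((a : ℚ) / N + (j : ℚ) / 5)) =
        n * J0 + m * I1 * Complex.I := by
      intro j hj
      rw [frac5 hN0]
      obtain ⟨n, m, h1, -, -⟩ := vals5 hN (cop5 hN ha hj)
      exact ⟨n, m, h1⟩
    obtain ⟨n1, m1, h1⟩ := key 1 (by norm_num)
    obtain ⟨n2, m2, h2⟩ := key 2 (by norm_num)
    obtain ⟨n3, m3, h3⟩ := key 3 (by norm_num)
    obtain ⟨n4, m4, h4⟩ := key 4 (by norm_num)
    refine ⟨n1 - n2 - n3 + n4, m1 - m2 - m3 + m4, ?_⟩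
    rw [pf5_eq]
    push_cast at h1 h2 h3 h4 ⊢
    rw [h1, h2, h3, h4]
    ring

/-- the structure of the values -/
theorem nu5_data {N : ℕ} (hN : N.Coprime 10) : ∃ ν n Q : ℕ → ℤ,
    (∀ a : ℕ, a.Coprime N → pt J0 I1 1 (pf5 ((a : ℚ) / N)) = ν a) ∧
    (∀ a : ℕ, a.Coprime N → pt J0 I1 1 (J (2 * ((a : ℚ) / N))) = n a ∧
      (Odd (n a) ↔ jacobiSym N 5 = 1)) ∧
    (∀ a : ℕ, a.Coprime N → Even (Q a)) ∧
    (∀ a : ℕ, a.Coprime N → ν a = -jacobiSym N 5 * (2 * Q a + n (5 * a) + n a)) ∧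
    (jacobiSym N 5 = -1 → ∀ a a' : ℕ, a.Coprime N → a'.Coprime N →
      (N : ℤ) ∣ 100 * (a * a') - 1 → Q a' = Q a) ∧
    (jacobiSym N 5 = -1 → ∀ a : ℕ, a.Coprime N → (N : ℤ) ∣ 100 * (a * a) - 1 →
      (4 : ℤ) ∣ Q a - 2) := by
  have hN0 : N ≠ 0 := by
    rintro rfl
    norm_num at hN
  have hNQ : (N : ℚ) ≠ 0 := by exact_mod_cast hN0
  have hN5 : N.Coprime 5 := Nat.Coprime.coprime_dvd_right (by norm_num) hN
  have hN2 : ¬ (2 : ℤ) ∣ (N : ℤ) := by
    intro h
    have h1 : 2 ∣ N := by exact_mod_cast h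
    have h2 := Nat.dvd_gcd h1 (by norm_num : 2 ∣ 10)
    rw [hN] at h2
    norm_num at h2
  obtain ⟨k, hk⟩ := exists_k hN
  obtain ⟨n, hn⟩ := exists_nu sym hN (Or.inl rfl : (1 : ℤ) = 1 ∨ (1 : ℤ) = -1)
  -- the symmetries of `k`
  have conj1 : ∀ z : ℂ, pt J0 I1 1 (starRingEnd ℂ z) = pt J0 I1 1 z := by
    intro z
    rw [pt_one, pt_one, Complex.conj_re]
  have K1 : ∀ c c' : ℕ, c.Coprime (5 * N) → c'.Coprime (5 * N) →
      (5 * (N : ℤ)) ∣ 4 * (c * c') + 1 → k c = k c' := by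
    intro c c' hc hc' h
    have h1 := J_four (N := (N : ℤ)) (c := (c : ℤ)) (c' := (c' : ℤ)) (by exact_mod_cast hN0) h
    have e1 := (hk c hc).1
    have e2 := (hk c' hc').1
    push_cast at e1 e2 h1
    rw [h1, e2] at e1
    exact_mod_cast e1.symm
  have K2 : ∀ c c' : ℕ, c.Coprime (5 * N) → c'.Coprime (5 * N) →
      (5 * (N : ℤ)) ∣ (c : ℤ) + c' → k c = k c' := by
    intro c c' hc hc' h
    have e1 := (hk c hc).1
    have e2 := (hk c' hc').1
    obtain ⟨t, ht⟩ := h
    have ht0 : 0 ≤ t := by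
      by_contra hneg
      push Not at hneg
      have : (0 : ℤ) < 5 * N := by
        have := Nat.pos_of_ne_zero hN0
        positivity
      have : (5 * (N : ℤ)) * t < 0 := mul_neg_of_pos_of_neg this hneg
      omega
    obtain ⟨t', rfl⟩ := Int.eq_ofNat_of_zero_le ht0
    have e3 : ((c' : ℚ) / (5 * N : ℕ)) = -((c : ℚ) / (5 * N : ℕ)) + (t' : ℕ) := by
      have : (c : ℚ) + c' = 5 * N * t' := by exact_mod_cast ht
      have e4 : (c' : ℚ) = 5 * N * t' - c := by linarith
      rw [e4]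
      push_cast
      field_simp
      ring
    have e4 : J (2 * ((c' : ℚ) / (5 * N : ℕ))) = starRingEnd ℂ (J (2 * ((c : ℚ) / (5 * N : ℕ)))) := by
      rw [e3]
      have := per_nat (pf := fun x => J (2 * x)) per_J2 (-((c : ℚ) / (5 * N : ℕ))) t'
      rw [this, mul_neg, J_conj]
    rw [e4, conj1, e1] at e2
    exact_mod_cast e2
  have K3 : ∀ c c' : ℕ, c.Coprime (5 * N) → c'.Coprime (5 * N) →
      (5 * (N : ℤ)) ∣ 4 * (c * c') - 1 → k c = k c' := by
    intro c c' hc hc' h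
    set M := 5 * N with hM
    have hM0 : 1 ≤ M := by
      have := Nat.pos_of_ne_zero hN0
      omega
    have hc1 : (M - 1).Coprime M := by
      have h1 : M = (M - 1) + 1 := by omega
      nth_rw 2 [h1]
      exact (Nat.coprime_self_add_right).2 (Nat.coprime_one_right _)
    have hc'' : ((M - 1) * c').Coprime M := Nat.Coprime.mul_left hc1 hc'
    have hMZ : (M : ℤ) = 5 * (N : ℤ) := by rw [hM]; push_cast; ring
    rw [← hMZ] at h
    have a1 := K2 c' ((M - 1) * c') hc' hc'' (by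
      rw [← hMZ]
      refine ⟨c', ?_⟩
      push_cast [Nat.cast_sub hM0]
      ring)
    have a2 := K1 c ((M - 1) * c') hc hc'' (by
      rw [← hMZ]
      obtain ⟨t, ht⟩ := h
      refine ⟨4 * (c * c') - t, ?_⟩
      push_cast [Nat.cast_sub hM0]
      linear_combination -ht)
    rw [a2, a1]
  -- the relation at five
  have hcj : ∀ a : ℕ, a.Coprime N → ∀ j : ℕ, ¬ 5 ∣ j → (5 * a + j * N).Coprime (5 * N) :=
    fun a ha j hj => cop5 hN ha hj
  have hkj : ∀ a : ℕ, a.Coprime N → ∀ j : ℕ, ¬ 5 ∣ j →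
      pt J0 I1 1 (J (2 * ((a : ℚ) / N + (j : ℚ) / 5))) = k (5 * a + j * N) ∧
      (Odd (k (5 * a + j * N)) ↔ jacobiSym (j * N : ℕ) 5 = 1) := by
    intro a ha j hj
    have h1 := hk _ (hcj a ha j hj)
    rw [frac5 hN0]
    refine ⟨h1.1, ?_⟩
    rw [h1.2]
    have : jacobiSym ((5 * a + j * N : ℕ) : ℤ) 5 = jacobiSym ((j * N : ℕ) : ℤ) 5 := by
      apply jac_of_dvd_sub
      push_cast
      exact ⟨a, by ring⟩
    rw [this]
  have hU : ∀ a : ℕ, a.Coprime N → k (5 * a + 1 * N) + k (5 * a + 2 * N) + k (5 * a + 3 * N) +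
      k (5 * a + 4 * N) = -(n (5 * a) + n a) := by
    intro a ha
    have h1 := congrArg (pt J0 I1 1) (J_U5 ((a : ℚ) / N))
    rw [map_neg, map_sum, sum_range_succ, sum_range_succ, sum_range_succ, sum_range_succ,
      sum_range_succ, sum_range_zero] at h1
    have e0 : (a : ℚ) / N + ((0 : ℕ) : ℚ) / 5 = (a : ℚ) / N := by norm_num
    have e5 : 5 * ((a : ℚ) / N) = ((5 * a : ℕ) : ℚ) / N := by push_cast; ring
    rw [e0, e5, (hkj a ha 1 (by norm_num)).1, (hkj a ha 2 (by norm_num)).1,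
      (hkj a ha 3 (by norm_num)).1, (hkj a ha 4 (by norm_num)).1] at h1
    have h2 := (hn a ha).1
    have h3 := (hn (5 * a) (Nat.Coprime.mul_left hN5.symm ha)).1
    rw [h2, h3] at h1
    have h4 : -(n (5 * a)) = 0 + n a + k (5 * a + 1 * N) + k (5 * a + 2 * N) + k (5 * a + 3 * N) +
      k (5 * a + 4 * N) := by exact_mod_cast h1
    linarith
  have hval : ∀ a : ℕ, a.Coprime N → pt J0 I1 1 (pf5 ((a : ℚ) / N)) =
      ((k (5 * a + 1 * N) - k (5 * a + 2 * N) - k (5 * a + 3 * N) + k (5 * a + 4 * N) : ℤ) : ℝ) := by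
    intro a ha
    rw [pf5_eq, map_add, map_sub, map_sub]
    have h1 := (hkj a ha 1 (by norm_num)).1
    have h2 := (hkj a ha 2 (by norm_num)).1
    have h3 := (hkj a ha 3 (by norm_num)).1
    have h4 := (hkj a ha 4 (by norm_num)).1
    push_cast at h1 h2 h3 h4 ⊢
    rw [h1, h2, h3, h4]
  have hj1 : jacobiSym ((1 : ℕ) : ℤ) 5 = 1 := by norm_num
  have hj2 : jacobiSym ((2 : ℕ) : ℤ) 5 = -1 := by norm_num
  have hj3 : jacobiSym ((3 : ℕ) : ℤ) 5 = -1 := by norm_num
  have hj4 : jacobiSym ((4 : ℕ) : ℤ) 5 = 1 := by norm_num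
  have hmulj : ∀ j : ℕ, jacobiSym ((j * N : ℕ) : ℤ) 5 = jacobiSym (j : ℤ) 5 * jacobiSym (N : ℤ) 5 := by
    intro j
    rw [Nat.cast_mul, jacobiSym.mul_left]
  rcases jac5 hN with hj | hj
  · refine ⟨fun a => k (5 * a + 1 * N) - k (5 * a + 2 * N) - k (5 * a + 3 * N) + k (5 * a + 4 * N), n,
      fun a => k (5 * a + 2 * N) + k (5 * a + 3 * N), hval, hn, ?_, ?_, ?_, ?_⟩
    · intro a ha
      have h2 := (hkj a ha 2 (by norm_num)).2
      have h3 := (hkj a ha 3 (by norm_num)).2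
      rw [hmulj, hj2, hj] at h2
      rw [hmulj, hj3, hj] at h3
      norm_num at h2 h3
      exact h2.add h3
    · intro a ha
      dsimp only
      rw [hj]
      have := hU a ha
      linarith
    · intro h; rw [hj] at h; norm_num at h
    · intro h; rw [hj] at h; norm_num at h
  · refine ⟨fun a => k (5 * a + 1 * N) - k (5 * a + 2 * N) - k (5 * a + 3 * N) + k (5 * a + 4 * N), n,
      fun a => k (5 * a + 1 * N) + k (5 * a + 4 * N), hval, hn, ?_, ?_, ?_, ?_⟩
    · intro a ha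
      have h2 := (hkj a ha 1 (by norm_num)).2
      have h3 := (hkj a ha 4 (by norm_num)).2
      rw [hmulj, hj1, hj] at h2
      rw [hmulj, hj4, hj] at h3
      have h2' : Even (k (5 * a + 1 * N)) := by
        rw [← Int.not_odd_iff_even, h2]; norm_num
      have h3' : Even (k (5 * a + 4 * N)) := by
        rw [← Int.not_odd_iff_even, h3]; norm_num
      exact h2'.add h3'
    · intro a ha
      dsimp only
      rw [hj]
      have := hU a ha
      linarith
    · -- the involution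
      intro _ a a' ha ha' hd
      dsimp only
      have hNsq : (5 : ℤ) ∣ (N : ℤ) ^ 2 + 1 := by
        have h5 : N % 5 < 5 := Nat.mod_lt _ (by norm_num)
        have h6 : jacobiSym ((N % 5 : ℕ) : ℤ) 5 = -1 := by
          rw [← hj]
          apply jac_of_dvd_sub
          push_cast
          omega
        have h7 : ∀ x < 5, jacobiSym ((x : ℕ) : ℤ) 5 = -1 → x = 2 ∨ x = 3 := by
          intro x hx h
          interval_cases x
          · norm_num at h
          · norm_num at h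
          · exact Or.inl rfl
          · exact Or.inr rfl
          · norm_num at h
        have h8 := h7 _ h5 h6
        obtain ⟨t, ht⟩ : ∃ t : ℤ, (N : ℤ) = 5 * t + 2 ∨ (N : ℤ) = 5 * t + 3 := ⟨N / 5, by omega⟩
        rcases ht with ht | ht
        · exact ⟨5 * t ^ 2 + 4 * t + 1, by rw [ht]; ring⟩
        · exact ⟨5 * t ^ 2 + 6 * t + 2, by rw [ht]; ring⟩
      have h5N : IsCoprime (5 : ℤ) (N : ℤ) := (Nat.isCoprime_iff_coprime.2 hN5).symm
      have gen : ∀ j : ℕ, ¬ 5 ∣ j → (5 : ℤ) ∣ (j : ℤ) ^ 2 - 1 →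
          k (5 * a' + j * N) = k (5 * a + j * N) := by
        intro j hj5 hj1
        apply K3 _ _ (hcj a' ha' j hj5) (hcj a ha j hj5)
        apply h5N.mul_dvd
        · obtain ⟨u, hu⟩ := hNsq
          obtain ⟨v, hv⟩ := hj1
          refine ⟨4 * (5 * a * a' + j * N * (a + a')) + 4 * j ^ 2 * u - 4 * v - 1, ?_⟩
          push_cast
          linear_combination (4 * (j : ℤ) ^ 2) * hu - 4 * hv
        · obtain ⟨u, hu⟩ := hd
          refine ⟨u + 4 * (5 * j * (a + a') + j ^ 2 * N), ?_⟩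
          push_cast
          linear_combination hu
      rw [gen 1 (by norm_num) (by norm_num), gen 4 (by norm_num) (by norm_num)]
    · -- the fixed points
      intro _ a ha hd
      dsimp only
      have hNsq : (5 : ℤ) ∣ (N : ℤ) ^ 2 + 1 := by
        have h5 : N % 5 < 5 := Nat.mod_lt _ (by norm_num)
        have h6 : jacobiSym ((N % 5 : ℕ) : ℤ) 5 = -1 := by
          rw [← hj]
          apply jac_of_dvd_sub
          push_cast
          omega
        have h7 : ∀ x < 5, jacobiSym ((x : ℕ) : ℤ) 5 = -1 → x = 2 ∨ x = 3 := by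
          intro x hx h
          interval_cases x
          · norm_num at h
          · norm_num at h
          · exact Or.inl rfl
          · exact Or.inr rfl
          · norm_num at h
        have h8 := h7 _ h5 h6
        obtain ⟨t, ht⟩ : ∃ t : ℤ, (N : ℤ) = 5 * t + 2 ∨ (N : ℤ) = 5 * t + 3 := ⟨N / 5, by omega⟩
        rcases ht with ht | ht
        · exact ⟨5 * t ^ 2 + 4 * t + 1, by rw [ht]; ring⟩
        · exact ⟨5 * t ^ 2 + 6 * t + 2, by rw [ht]; ring⟩
      have h5N : IsCoprime (5 : ℤ) (N : ℤ) := (Nat.isCoprime_iff_coprime.2 hN5).symm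
      have h23 : k (5 * a + 2 * N) = k (5 * a + 3 * N) := by
        apply K3 _ _ (hcj a ha 2 (by norm_num)) (hcj a ha 3 (by norm_num))
        apply h5N.mul_dvd
        · obtain ⟨u, hu⟩ := hNsq
          refine ⟨4 * (5 * a * a + 5 * a * N) + 24 * u - 5, ?_⟩
          push_cast
          linear_combination 24 * hu
        · obtain ⟨u, hu⟩ := hd
          refine ⟨u + 100 * a + 24 * N, ?_⟩
          push_cast
          linear_combination hu
      have hodd : Odd (k (5 * a + 2 * N)) := by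
        have h2 := (hkj a ha 2 (by norm_num)).2
        rw [hmulj, hj2, hj] at h2
        norm_num at h2
        exact h2
      -- the values at `5 a` and `a`
      have hnn : n (5 * a) = n a := by
        have h5a : (5 * a).Coprime N := Nat.Coprime.mul_left hN5.symm ha
        have hN1 : 1 ≤ N := Nat.pos_of_ne_zero hN0
        have h1 := (hn (5 * a) h5a).1
        have h2 := (hn a ha).1
        have h3 := J_fricke N a ((N - 1) * (5 * a)) hN0 (by
          have : ((N : ℕ) : ℤ) ∣ ((20 * (a * ((N - 1) * (5 * a))) + 1 : ℕ) : ℤ) := by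
            obtain ⟨u, hu⟩ := hd
            refine ⟨100 * (a * a) - u, ?_⟩
            push_cast [Nat.cast_sub hN1]
            linear_combination -hu
          exact_mod_cast this)
        have e3 : ((((N - 1) * (5 * a) : ℕ)) : ℚ) / N = -(((5 * a : ℕ) : ℚ) / N) + ((5 * a : ℕ) : ℚ) := by
          push_cast [Nat.cast_sub hN1]
          field_simp
          ring
        rw [e3] at h3
        have h4 := per_nat (pf := fun x => J (2 * x)) per_J2 (-(((5 * a : ℕ) : ℚ) / N)) (5 * a)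
        rw [h4, mul_neg, J_conj] at h3
        rw [h3, conj1, h1] at h2
        exact_mod_cast h2
      have hna : Even (n a) := by
        rw [← Int.not_odd_iff_even, (hn a ha).2, hj]
        norm_num
      have hu := hU a ha
      rw [← h23, hnn] at hu
      obtain ⟨s, hs⟩ := hodd
      obtain ⟨t, ht⟩ := hna
      refine ⟨-(s + t + 1), ?_⟩
      rw [hs, ht] at hu
      linarith

end Pool.Agent.Y695
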