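import Pool.Agent.Y695.Alp
import Pool.Agent.TH344.SH.Gal

/-!
Functions on the curves `y ^ 2 = x ^ 3 + a x ^ 2 + b x` with good behaviour under translations by the
points of order two.
-/

set_option autoImplicit false
set_option linter.all false

open WeierstrassCurve WeierstrassCurve.Affine
open scoped Classical
open Pool.Agent.W309.TD (Pt act act_zero act_some act_inj act_act two_act rs incl rs_apply
  rs_act_incl exists_root compare au au_apply)

namespace Pool.Agent.Y695

open Pool.Agent.TH344.SH (IsR sg sg_add sg_sq sg_ne sg_act tor_ext root_of_tor add_tor halve_sep)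

section one

variable {F : Type*} [Field F] {W : Affine F} {a b : F}

theorem IsT.isR (h : IsT W a b) {e e' : F} (h1 : e + e' = -a) (h2 : e * e' = b) :
    IsR W 0 e e' := by
  have nb := h.nb
  have nd := h.nd
  refine ⟨h.a1, ?_, h.a3, ?_, ?_, h.two, ?_, ?_, ?_⟩
  · rw [h.a2]; linear_combination h1
  · rw [h.a4]; linear_combination -h2
  · rw [h.a6]; ring
  · rintro rfl
    exact nb (by rw [← h2]; ring)
  · rintro rfl
    exact nb (by rw [← h2]; ring)
  · rintro rfl
    apply nd
    have : a = -(e + e) := by rw [h1]; ring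
    rw [this, ← h2]
    ring

theorem IsT.roots [IsAlgClosed F] (h : IsT W a b) : ∃ e e' : F, e + e' = -a ∧ e * e' = b := by
  obtain ⟨s, hs⟩ := IsAlgClosed.exists_pow_nat_eq (a ^ 2 - 4 * b) (n := 2) (by norm_num)
  have h2 := h.two
  refine ⟨(-a + s) / 2, (-a - s) / 2, by field_simp; ring, ?_⟩
  have h4 : (4 : F) ≠ 0 := by
    have : (4 : F) = 2 * 2 := by norm_num
    rw [this]
    exact mul_ne_zero h2 h2
  field_simp
  linear_combination -hs

/-- the function `P ↦ √(x(2P))` -/
noncomputable def hh (b : F) : W.Point → F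
  | .zero => 1
  | .some x y _ => if y = 0 then 1 else if x ^ 2 = b then x else (x ^ 2 - b) / (2 * y)

theorem IsT.x_ne (h : IsT W a b) {x y : F} (hP : W.Nonsingular x y) (hy : y ≠ 0) : x ≠ 0 := by
  rintro rfl
  apply hy
  have := h.nonsingular.1 hP
  rw [zero_mul] at this
  exact pow_eq_zero_iff (two_ne_zero) |>.1 this

theorem hh_sq (h : IsT W a b) (P : W.Point) : hh b P ^ 2 = al b (P + P) := by
  rcases P with _ | ⟨x, y, hxy⟩
  · rw [← Point.zero_def, add_zero, al_zero]
    simp [hh, Point.zero_def]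
  · by_cases hy : y = 0
    · rw [(h.dbl_zero_iff hxy).2 hy, al_zero]
      simp [hh, hy]
    · obtain ⟨hQ, hadd⟩ := h.dbl hxy hy
      rw [hadd]
      by_cases hx : x ^ 2 = b
      · have hz : ((x ^ 2 - b) / (2 * y)) ^ 2 = 0 := by rw [hx]; simp
        simp only [hh, hy, if_false, hx, if_true, al]
        simp
      · have hz : ((x ^ 2 - b) / (2 * y)) ^ 2 ≠ 0 :=
          pow_ne_zero 2 (div_ne_zero (sub_ne_zero.2 hx) (mul_ne_zero h.two hy))
        rw [al_some b hQ hz]
        simp [hh, hy, hx]

theorem hh_ne (h : IsT W a b) (P : W.Point) : hh b P ≠ 0 := by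
  intro h0
  have h1 := hh_sq h P
  rw [h0] at h1
  exact al_ne h (P + P) (by rw [← h1]; ring)

/-- translation -/
theorem hh_tr (h : IsT W a b) {e e' : F} (h1 : e + e' = -a) (h2 : e * e' = b) {P S : W.Point}
    (hS : S + S = 0) (hPS : P + P = 0 → sg 0 S = 1) : hh b (P + S) = sg 0 S * hh b P := by
  have hR := h.isR h1 h2
  rcases S with _ | ⟨t, s, hts⟩
  · rw [← Point.zero_def, add_zero]
    simp [sg, Point.zero_def]
  have hs : s = 0 := (h.dbl_zero_iff hts).1 hS
  subst hs
  rcases P with _ | ⟨x, y, hxy⟩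
  · have h3 := hPS (add_zero _)
    rw [h3, one_mul, ← Point.zero_def, zero_add]
    simp [hh, Point.zero_def]
  by_cases hy : y = 0
  · have h3 := hPS ((h.dbl_zero_iff hxy).2 hy)
    rw [h3, one_mul]
    have h4 : (Point.some x y hxy + Point.some t 0 hts) + (Point.some x y hxy + Point.some t 0 hts)
        = 0 := by
      rw [add_add_add_comm, (h.dbl_zero_iff hxy).2 hy, hS, add_zero]
    have h5 : ∀ Q : W.Point, Q + Q = 0 → hh b Q = 1 := by
      intro Q hQ
      rcases Q with _ | ⟨x', y', hxy'⟩
      · rfl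
      · have := (h.dbl_zero_iff hxy').1 hQ
        simp [hh, this]
    rw [h5 _ h4, h5 _ ((h.dbl_zero_iff hxy).2 hy)]
  -- the generic case
  have hx := h.x_ne hxy hy
  have he := h.nonsingular.1 hxy
  have n2 := h.two
  have key : ∀ {u v w : F} (hR : IsR W u v w) (ht : W.Nonsingular u 0),
      x - u ≠ 0 ∧ ∃ hQ, Point.some x y hxy + Point.some u 0 ht =
      Point.some (u + (u - v) * (u - w) / (x - u))
        (-((u - v) * (u - w) * y) / (x - u) ^ 2) hQ :=
    fun hR ht => add_tor hR hxy hy ht
  rcases root_of_tor hR hts rfl with rfl | rfl | rfl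
  · obtain ⟨hxa, hQ, hadd⟩ := key hR hts
    rw [hadd]
    have e1 : sg (0 : F) (Point.some 0 (0 : F) hts) = 1 := by simp [sg]
    rw [e1, one_mul]
    have hb := h.nb
    have e2 : (0 : F) + (0 - e) * (0 - e') / (x - 0) = b / x := by
      rw [← h2]; ring
    have e3 : -((0 - e) * (0 - e') * y) / (x - 0) ^ 2 = -(b * y) / x ^ 2 := by
      rw [← h2]; ring
    have hy' : -(b * y) / x ^ 2 ≠ 0 := div_ne_zero (neg_ne_zero.2 (mul_ne_zero hb hy))
      (pow_ne_zero 2 hx)
    have hsq : ((b / x) ^ 2 = b) ↔ (x ^ 2 = b) := by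
      constructor
      · intro h3
        field_simp at h3
        linear_combination -h3
      · intro h3
        rw [div_pow, h3, pow_two]
        field_simp
    simp only [hh, e2, e3, hy', if_false, hy, hsq]
    split_ifs with h3
    · rw [← h3]; field_simp
    · field_simp
      ring
  · obtain ⟨hxa, hQ, hadd⟩ := key hR.swap hts
    rw [hadd]
    have ht0 : t ≠ 0 := hR.nab.symm
    have e1 : sg (0 : F) (Point.some t (0 : F) hts) = -1 := by simp [sg, ht0]
    rw [e1]
    have hy' : -((t - 0) * (t - e') * y) / (x - t) ^ 2 ≠ 0 :=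
      div_ne_zero (neg_ne_zero.2 (mul_ne_zero (mul_ne_zero (by rwa [sub_zero])
        (sub_ne_zero.2 hR.nbc)) hy)) (pow_ne_zero 2 hxa)
    have hx' : t + (t - 0) * (t - e') / (x - t) = (t * x - b) / (x - t) := by
      rw [← h2]; field_simp; ring
    have hsq : ((t + (t - 0) * (t - e') / (x - t)) ^ 2 = b) ↔ (x ^ 2 = b) := by
      rw [hx']
      have h4 : (t * x - b) ^ 2 - b * (x - t) ^ 2 = t * (t - e') * (x ^ 2 - b) := by
        rw [← h2]; ring
      constructor
      · intro h3
        rw [div_pow, div_eq_iff (pow_ne_zero 2 hxa)] at h3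
        have h5 : t * (t - e') * (x ^ 2 - b) = 0 := by rw [← h4, h3]; ring
        have h6 := (mul_eq_zero.1 h5).resolve_left (mul_ne_zero ht0 (sub_ne_zero.2 hR.nbc))
        linear_combination h6
      · intro h3
        rw [div_pow, div_eq_iff (pow_ne_zero 2 hxa)]
        linear_combination h4 + t * (t - e') * h3
    simp only [hh, hy', if_false, hy, hsq]
    split_ifs with h3
    · rw [hx', div_eq_iff hxa, ← h3]; ring
    · have n3 := hR.nbc
      have n4 := sub_ne_zero.2 n3
      rw [hx', ← h2]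
      field_simp
      ring
  · obtain ⟨hxa, hQ, hadd⟩ := key hR.rot hts
    rw [hadd]
    have ht0 : t ≠ 0 := hR.nac.symm
    have e1 : sg (0 : F) (Point.some t (0 : F) hts) = -1 := by simp [sg, ht0]
    rw [e1]
    have hy' : -((t - 0) * (t - e) * y) / (x - t) ^ 2 ≠ 0 :=
      div_ne_zero (neg_ne_zero.2 (mul_ne_zero (mul_ne_zero (by rwa [sub_zero])
        (sub_ne_zero.2 hR.nbc.symm)) hy)) (pow_ne_zero 2 hxa)
    have hx' : t + (t - 0) * (t - e) / (x - t) = (t * x - b) / (x - t) := by
      rw [← h2]; field_simp; ring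
    have hsq : ((t + (t - 0) * (t - e) / (x - t)) ^ 2 = b) ↔ (x ^ 2 = b) := by
      rw [hx']
      have h4 : (t * x - b) ^ 2 - b * (x - t) ^ 2 = t * (t - e) * (x ^ 2 - b) := by
        rw [← h2]; ring
      constructor
      · intro h3
        rw [div_pow, div_eq_iff (pow_ne_zero 2 hxa)] at h3
        have h5 : t * (t - e) * (x ^ 2 - b) = 0 := by rw [← h4, h3]; ring
        have h6 := (mul_eq_zero.1 h5).resolve_left (mul_ne_zero ht0 (sub_ne_zero.2 hR.nbc.symm))
        linear_combination h6
      · intro h3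
        rw [div_pow, div_eq_iff (pow_ne_zero 2 hxa)]
        linear_combination h4 + t * (t - e) * h3
    simp only [hh, hy', if_false, hy, hsq]
    split_ifs with h3
    · rw [hx', div_eq_iff hxa, ← h3]; ring
    · have n3 := hR.nbc
      have n4 := sub_ne_zero.2 n3.symm
      rw [hx', ← h2]
      field_simp
      ring

/-- the function `P ↦ √(x(φ(P)))` -/
noncomputable def kk (b : F) : W.Point → F
  | .zero => 1
  | .some x y _ => if x = 0 then 1 else if y = 0 then x - b / x else y / x

theorem kk_ne (h : IsT W a b) (P : W.Point) : kk b P ≠ 0 := by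
  rcases P with _ | ⟨x, y, hxy⟩
  · exact one_ne_zero
  · simp only [kk]
    have he := h.nonsingular.1 hxy
    split_ifs with h1 h2
    · exact one_ne_zero
    · intro h3
      rw [h2] at he
      have h4 : x ^ 2 + a * x + b = 0 := by
        have h5 : x * (x ^ 2 + a * x + b) = 0 := by rw [← he]; ring
        exact (mul_eq_zero.1 h5).resolve_left h1
      have h6 : x ^ 2 = b := by
        field_simp at h3
        linear_combination h3
      apply h.nd
      have h7 : (a * x) ^ 2 = 4 * b * x ^ 2 := by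
        have : a * x = -2 * b := by linear_combination h4 - h6
        rw [this]
        linear_combination (-4 * b) * h6
      have h8 : (a ^ 2 - 4 * b) * x ^ 2 = 0 := by linear_combination h7
      exact (mul_eq_zero.1 h8).resolve_right (pow_ne_zero 2 h1)
    · exact div_ne_zero h2 h1

/-- the translation by the rational point of order two -/
theorem kk_tr (h : IsT W a b) {e e' : F} (h1 : e + e' = -a) (h2 : e * e' = b) {P T : W.Point}
    (hT : ∃ hT0, T = Point.some 0 0 hT0) (hP : P ≠ 0) (hPT : P ≠ T) :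
    kk b (P + T) = -kk b P := by
  obtain ⟨hT0, rfl⟩ := hT
  have hR := h.isR h1 h2
  rcases P with _ | ⟨x, y, hxy⟩
  · exact absurd rfl hP
  have he := h.nonsingular.1 hxy
  have hx : x ≠ 0 := by
    rintro rfl
    have hy : y = 0 := by
      rw [zero_mul] at he
      exact pow_eq_zero_iff (two_ne_zero) |>.1 he
    subst hy
    exact hPT rfl
  have hb := h.nb
  obtain ⟨hQ, hadd⟩ := h.add hxy hT0 hx
  rw [hadd]
  have e2 : ((y - 0) / (x - 0)) ^ 2 - a - x - 0 = b / x := by
    rw [sub_zero, sub_zero, div_pow, he]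
    field_simp
    ring
  have e3 : -(y + (y - 0) / (x - 0) * ((((y - 0) / (x - 0)) ^ 2 - a - x - 0) - x)) =
      -(b * y) / x ^ 2 := by
    rw [e2]
    field_simp
    ring
  have hbx : b / x ≠ 0 := div_ne_zero hb hx
  have hyy : (-(b * y) / x ^ 2 = 0) ↔ y = 0 := by
    rw [div_eq_zero_iff]
    constructor
    · rintro (h3 | h3)
      · exact (mul_eq_zero.1 (neg_eq_zero.1 h3)).resolve_left hb
      · exact absurd h3 (pow_ne_zero 2 hx)
    · intro h3
      left
      rw [h3]; ring
  have hk : ∀ (X Y : F) (h : W.Nonsingular X Y), kk b (Point.some X Y h) =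
      if X = 0 then 1 else if Y = 0 then X - b / X else Y / X := fun _ _ _ => rfl
  rw [hk, hk, e3, e2]
  simp only [hbx, if_false, hx, hyy]
  split_ifs with h3
  · field_simp
    ring
  · field_simp

end one

universe u

section action

variable {K Ω Ω' : Type u} [Field K] [Field Ω] [Field Ω'] [Algebra K Ω] [Algebra K Ω']
  (W : WeierstrassCurve K)

theorem hh_act (φ : Ω →ₐ[K] Ω') (b : Ω) (P : Pt W Ω) : hh (φ b) (act W φ P) = φ (hh b P) := by
  rcases P with _ | ⟨x, y, hxy⟩
  · rw [act_zero]; simp [hh]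
  · obtain ⟨h, h1⟩ := act_some W φ hxy
    rw [h1]
    have e : φ x ^ 2 = φ b ↔ x ^ 2 = b := by
      rw [← map_pow]
      exact φ.injective.eq_iff
    simp only [hh, map_eq_zero, e]
    split_ifs
    · simp
    · rfl
    · rw [map_div₀, map_sub, map_pow, map_mul, map_ofNat]

theorem kk_act (φ : Ω →ₐ[K] Ω') (b : Ω) (P : Pt W Ω) : kk (φ b) (act W φ P) = φ (kk b P) := by
  rcases P with _ | ⟨x, y, hxy⟩
  · rw [act_zero]; simp [kk]
  · obtain ⟨h, h1⟩ := act_some W φ hxy
    rw [h1]
    simp only [kk, map_eq_zero]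
    split_ifs <;> simp

theorem al_act (φ : Ω →ₐ[K] Ω') (b : Ω) (P : Pt W Ω) : al (φ b) (act W φ P) = φ (al b P) := by
  rcases P with _ | ⟨x, y, hxy⟩
  · rw [act_zero]; simp [al]
  · obtain ⟨h, h1⟩ := act_some W φ hxy
    rw [h1]
    simp only [al, map_eq_zero]
    split_ifs <;> simp

end action

end Pool.Agent.Y695
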