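import Pool.Agent.Y695.Rec4
import Pool.Agent.W378.CY.AFE0

/-!
The quadratic character and its Gauss sum.
-/

set_option autoImplicit false
set_option linter.all false

open Finset ZMod

namespace Pool.Agent.Y695

/-- the Jacobi symbol modulo `M` as a Dirichlet character -/
noncomputable def jc (M : ℕ) [NeZero M] : DirichletCharacter ℂ M where
  toFun a := ((jacobiSym (a.val : ℤ) M : ℤ) : ℂ)
  map_one' := by
    have h : ((1 : ZMod M).val : ℤ) = (1 % M : ℕ) := by
      rw [ZMod.val_one_eq_one_mod]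
    rw [h]
    push_cast
    rw [← jacobiSym.mod_left, jacobiSym.one_left]
    norm_num
  map_mul' a b := by
    rw [ZMod.val_mul]
    push_cast
    rw [← jacobiSym.mod_left, jacobiSym.mul_left]
    push_cast
    rfl
  map_nonunit' a ha := by
    have h1 : jacobiSym (a.val : ℤ) M = 0 := by
      rw [jacobiSym.eq_zero_iff_not_coprime]
      intro h
      apply ha
      have h2 : Nat.Coprime a.val M := by
        rw [Nat.Coprime]
        have := h
        rwa [Int.gcd_natCast_natCast] at this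
      have h3 := (ZMod.isUnit_iff_coprime a.val M).mpr h2
      rwa [ZMod.natCast_zmod_val] at h3
    rw [h1]
    norm_num

lemma jc_apply (M : ℕ) [NeZero M] (n : ℕ) :
    jc M (n : ZMod M) = ((jacobiSym (n : ℤ) M : ℤ) : ℂ) := by
  have : jc M (n : ZMod M) = ((jacobiSym (((n : ZMod M).val : ℕ) : ℤ) M : ℤ) : ℂ) := rfl
  rw [this, ZMod.val_natCast]
  push_cast
  rw [← jacobiSym.mod_left]

lemma jac_prod {S : Finset ℕ} (hS : Adm S) (a : ℤ) : jacobiSym a (NN S) = ch S a := by
  classical
  induction S using Finset.induction_on with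
  | empty =>
    unfold NN ch
    rw [prod_empty, prod_empty, jacobiSym.one_right]
  | insert q S hq ih =>
    have hS' := hS.mono (subset_insert q S)
    haveI : NeZero q := ⟨(hS q (mem_insert_self _ _)).1.ne_zero⟩
    haveI : NeZero (NN S) := ⟨NN_ne hS'⟩
    have h2 : NN (insert q S) = q * NN S := by
      unfold NN
      rw [prod_insert hq]
    rw [h2, jacobiSym.mul_right, ih hS', ch_insert hq]

/-- an element with prescribed symbols -/
lemma exists_unit {S : Finset ℕ} (hS : Adm S) {q : ℕ} (hq : q ∈ S) : ∃ u : ℕ, u.Coprime (NN S) ∧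
    u ≡ 1 [MOD NN (S.erase q)] ∧ ch S u = -1 := by
  classical
  have hqp := hS q hq
  haveI : Fact q.Prime := ⟨hqp.1⟩
  obtain ⟨t, ht⟩ := quadraticChar_exists_neg_one (F := ZMod q) (by
    rw [ZMod.ringChar_zmod_n]; exact hqp.2.1)
  have hcop : q.Coprime (NN (S.erase q)) :=
    NN_coprime (hS.mono (erase_subset _ _)) hqp.1 (notMem_erase _ _)
  obtain ⟨u, hu1, hu2⟩ := Nat.chineseRemainder hcop t.val 1
  have hjq : jacobiSym u q = -1 := by
    rw [← jacobiSym.legendreSym.to_jacobiSym, legendreSym]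
    have : (((u : ℕ) : ℤ) : ZMod q) = t := by
      have h1 := (ZMod.natCast_eq_natCast_iff _ _ _).2 hu1
      rw [ZMod.natCast_zmod_val] at h1
      exact_mod_cast h1
    rw [this, ht]
  have hjr : ∀ r ∈ S, r ≠ q → ((u : ℕ) : ℤ) % r = 1 % r := by
    intro r hr hrq
    have h1 : r ∣ NN (S.erase q) := dvd_NN (mem_erase.2 ⟨hrq, hr⟩)
    have h2 : u ≡ 1 [MOD r] := hu2.of_dvd h1
    exact Int.natCast_modEq_iff.2 h2
  refine ⟨u, ?_, hu2, ?_⟩
  · rw [coprime_iff]
    intro r hr
    by_cases hrq : r = q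
    · subst hrq
      by_contra h
      have : jacobiSym u r = 0 := jacobiSym.eq_zero_iff_not_coprime.2 (by
        rw [Int.gcd_natCast_natCast]; exact h)
      rw [this] at hjq
      norm_num at hjq
    · have h1 : r ∣ NN (S.erase q) := dvd_NN (mem_erase.2 ⟨hrq, hr⟩)
      have h2 : u ≡ 1 [MOD r] := hu2.of_dvd h1
      have h3 := h2.gcd_eq
      rw [Nat.gcd_one_left] at h3
      exact h3
  · unfold ch
    rw [← Finset.mul_prod_erase S _ hq, hjq, prod_eq_one, mul_one]
    intro r hr
    rw [mem_erase] at hr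
    rw [jacobiSym.mod_left, hjr r hr.2 hr.1, ← jacobiSym.mod_left, jacobiSym.one_left]

/-- the character is primitive -/
theorem jc_prim {S : Finset ℕ} (hS : Adm S) [NeZero (NN S)] : (jc (NN S)).IsPrimitive := by
  classical
  rw [DirichletCharacter.isPrimitive_def]
  have hd := (jc (NN S)).conductor_dvd_level
  apply Nat.dvd_antisymm hd
  unfold NN
  apply Finset.prod_primes_dvd
  · intro q hq
    exact (hS q hq).1.prime
  · intro q hq
    by_contra hqc
    obtain ⟨u, hu1, hu2, hu3⟩ := exists_unit hS hq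
    have hN : NN S = q * NN (S.erase q) := by
      exact (Finset.mul_prod_erase S (fun q => q) hq).symm
    have h4 : (jc (NN S)).conductor ∣ NN (S.erase q) := by
      refine Nat.Coprime.dvd_of_dvd_mul_left ?_ (hd.trans (dvd_of_eq hN))
      rw [Nat.coprime_comm, (hS q hq).1.coprime_iff_not_dvd]
      exact hqc
    have h5 : IsCoprime (u : ℤ) ((NN S : ℕ) : ℤ) := Nat.isCoprime_iff_coprime.mpr hu1
    have h6 := (jc (NN S)).primitiveCharacter_apply_of_isCoprime h5
    rw [Int.cast_natCast, Int.cast_natCast] at h6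
    have h7 : (u : ZMod (jc (NN S)).conductor) = 1 := by
      have := (ZMod.natCast_eq_natCast_iff u 1 (jc (NN S)).conductor).mpr (hu2.of_dvd h4)
      rw [this, Nat.cast_one]
    rw [h7, map_one, jc_apply, jac_prod hS, hu3] at h6
    norm_num at h6

lemma jc_cf {S : Finset ℕ} (hS : Adm S) [NeZero (NN S)] (n : ℕ) :
    jc (NN S) (n : ZMod (NN S)) = cf S n := by
  rw [jc_apply, jac_prod hS]
  rfl

/-- the character is real -/
lemma jc_inv {S : Finset ℕ} (hS : Adm S) [NeZero (NN S)] : (jc (NN S))⁻¹ = jc (NN S) := by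
  rw [inv_eq_iff_mul_eq_one]
  ext u
  rw [MulChar.mul_apply, MulChar.one_apply_coe]
  have h1 : ((u : ZMod (NN S))) = (((u : ZMod (NN S)).val : ℕ) : ZMod (NN S)) := by
    rw [ZMod.natCast_zmod_val]
  rw [h1, jc_cf hS]
  exact cf_sq (coprime_iff.1 (ZMod.val_coe_unit_coprime u))

/-- the Gauss sum -/
noncomputable def gs (S : Finset ℕ) [NeZero (NN S)] : ℂ :=
  gaussSum (jc (NN S)) (stdAddChar (N := NN S))

theorem gs_sq {S : Finset ℕ} (hS : Adm S) [NeZero (NN S)] :
    gs S ^ 2 = ch S (-1) * (NN S : ℂ) := by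
  have h1 := Pool.Agent.W378.CY.gauss_prod (NN S) (jc (NN S)) (jc_prim hS)
  rw [jc_inv hS] at h1
  have hpos : 1 ≤ NN S := Nat.pos_of_ne_zero (NN_ne hS)
  have h2 : jc (NN S) (-1 : ZMod (NN S)) = ch S (-1) := by
    have h3 : (-1 : ZMod (NN S)) = ((NN S - 1 : ℕ) : ZMod (NN S)) := by
      rw [Nat.cast_sub hpos, ZMod.natCast_self]
      ring
    rw [h3, jc_cf hS]
    unfold cf
    rw [ch_congr (N := NN S) (fun q hq => dvd_NN hq) (b := (-1 : ℤ))]
    refine ⟨1, ?_⟩
    push_cast [Nat.cast_sub hpos]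
    ring
  rw [h2] at h1
  have h7 : (ch S (-1) : ℂ) * ch S (-1) = 1 := by
    rcases ch_neg_one S with h | h <;> rw [h] <;> norm_num
  unfold gs
  linear_combination (ch S (-1) : ℂ) * h1 -
    (gaussSum (jc (NN S)) (stdAddChar (N := NN S))) ^ 2 * h7

lemma gs_ne {S : Finset ℕ} (hS : Adm S) [NeZero (NN S)] : gs S ≠ 0 := by
  intro h
  have h1 := gs_sq hS
  rw [h] at h1
  have h2 : (NN S : ℂ) ≠ 0 := by exact_mod_cast NN_ne hS
  rcases ch_neg_one S with h3 | h3 <;> rw [h3] at h1
  · apply h2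
    linear_combination -h1
  · apply h2
    push_cast at h1
    linear_combination h1

/-- the twist by additive characters -/
theorem gs_twist {S : Finset ℕ} (hS : Adm S) [NeZero (NN S)] (n : ℕ) :
    ∑ u ∈ CC (NN S), cf S u * Complex.exp (2 * Real.pi * Complex.I * (u * n) / NN S) =
      gs S * cf S n := by
  rw [← sum_units (fun u => cf S u * Complex.exp (2 * Real.pi * Complex.I * (u * n) / NN S))]
  have h2 := gaussSum_mulShift_of_isPrimitive (stdAddChar (N := NN S)) (jc_prim hS) (n : ZMod (NN S))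
  rw [jc_inv hS, jc_cf hS] at h2
  have h3 : gaussSum (jc (NN S)) (stdAddChar.mulShift (n : ZMod (NN S))) =
      ∑ u : (ZMod (NN S))ˣ, jc (NN S) (u : ZMod (NN S)) *
        stdAddChar ((n : ZMod (NN S)) * (u : ZMod (NN S))) := by
    unfold gaussSum
    simp only [AddChar.mulShift_apply]
    symm
    apply Finset.sum_of_injOn (fun u : (ZMod (NN S))ˣ => (u : ZMod (NN S)))
    · intro a _ b _ hab
      exact Units.ext hab
    · intro a _
      simp
    · intro a _ ha
      rw [MulChar.map_nonunit _ (fun hu => ha ⟨hu.unit, by simp, by simp⟩), zero_mul]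
    · intro a _
      rfl
  rw [h3] at h2
  unfold gs
  rw [mul_comm (gaussSum _ _), ← h2]
  refine Finset.sum_congr rfl fun u _ => ?_
  have h4 : jc (NN S) (u : ZMod (NN S)) = cf S (u : ZMod (NN S)).val := by
    rw [← jc_cf hS, ZMod.natCast_zmod_val]
  have h5 : ((n : ZMod (NN S)) * (u : ZMod (NN S))) =
      ((((u : ZMod (NN S)).val : ℤ) * (n : ℤ) : ℤ) : ZMod (NN S)) := by
    push_cast
    rw [ZMod.natCast_zmod_val]
    ring
  rw [h4, h5, stdAddChar_coe]
  push_cast
  rfl

end Pool.Agent.Y695
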