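import Pool.Agent.Y695.Sel

/-!
The descent: locally trivial cocycles killed by two are coboundaries.
-/

set_option autoImplicit false
set_option linter.all false

open WeierstrassCurve WeierstrassCurve.Affine
open scoped Classical
open Pool.Agent.W309.TD (Pt act act_zero act_some act_inj act_act two_act rs incl rs_apply
  rs_act_incl exists_root compare au au_apply exists_restrict)

namespace Pool.Agent.Y695

open Pool.Agent.TH344.SH

/-- squarefree representatives -/
lemma exists_rep (x : ℚ) (hx : x ≠ 0) : ∃ e : ℤ, Squarefree e ∧ ∃ r : ℚ, r ≠ 0 ∧ x = r ^ 2 * e := by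
  have hnum : x.num ≠ 0 := Rat.num_ne_zero.mpr hx
  have hden : (x.den : ℚ) ≠ 0 := by exact_mod_cast x.den_nz
  set n : ℤ := x.num * x.den with hn
  have hn0 : n ≠ 0 := mul_ne_zero hnum (by exact_mod_cast x.den_nz)
  obtain ⟨a, k, hak, ha⟩ := Nat.sq_mul_squarefree n.natAbs
  have hxn : x * (x.den : ℚ) ^ 2 = n := by
    have h1 : x * x.den = x.num := Rat.mul_den_eq_num x
    rw [hn]
    push_cast
    rw [pow_two, ← mul_assoc, h1]
  have hk : (k : ℚ) ≠ 0 := by
    intro h0
    have : k = 0 := by exact_mod_cast h0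
    rw [this] at hak
    have h1 : n.natAbs = 0 := by rw [← hak]; ring
    exact hn0 (Int.natAbs_eq_zero.1 h1)
  refine ⟨n.sign * a, ?_, (k : ℚ) / x.den, div_ne_zero hk hden, ?_⟩
  · have h1 : Squarefree (a : ℤ) := Int.squarefree_natCast.mpr ha
    rcases lt_or_gt_of_ne hn0 with h | h
    · rw [Int.sign_eq_neg_one_of_neg h, neg_one_mul]
      rw [← Int.squarefree_natAbs] at h1 ⊢
      rwa [Int.natAbs_neg]
    · rw [Int.sign_eq_one_of_pos h, one_mul]; exact h1
  · have h2 : (n : ℚ) = (k : ℚ) ^ 2 * ((n.sign * a : ℤ) : ℚ) := by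
      have h3 : n = n.sign * n.natAbs := (Int.sign_mul_natAbs n).symm
      have h4 : n = k ^ 2 * (n.sign * a) := by
        conv_lhs => rw [h3, ← hak]
        push_cast
        ring
      exact_mod_cast h4
    rw [div_pow, div_mul_eq_mul_div, ← h2, ← hxn]
    field_simp

/-- coboundaries are trivial at all places -/
lemma cob_sha (W : WeierstrassCurve ℚ) (R : Points W QB) :
    IsShaCocycle W (fun σ => pmap W σ.toAlgHom R - R) := by
  haveI := galQB
  have hloc : ∀ (K : Type) [Field K] [Algebra ℚ K],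
      LocallyTrivial W K (fun σ => pmap W σ.toAlgHom R - R) := by
    intro K _ _ ι
    refine ⟨pmap W ι R, fun τ σ hc => ?_⟩
    have h4 : act W ι (act W σ.toAlgHom R) =
        act W (τ.toAlgHom.restrictScalars ℚ) (act W ι R) := by
      rw [act_act, act_act, ← hc]
    show act W ι (act W σ.toAlgHom R - R) = _
    rw [map_sub, h4]
    rfl
  refine ⟨?_, fun p _ => hloc _, hloc _⟩
  have := Pool.Agent.W309.TD.cob_isCoc (K := ℚ) (Ω := QB) W R
  exact ⟨this.lc, this.mul⟩

/-- the local conditions determine the two square classes -/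
structure SelHyp (a b : ℚ) : Prop where
  s1 : ∀ d : ℤ, Squarefree d → LocA ℝ (algebraMap ℚ ℝ a) (algebraMap ℚ ℝ b) (algebraMap ℚ ℝ d) →
    (∀ (p : ℕ) [Fact p.Prime], LocA ℚ_[p] (algebraMap ℚ ℚ_[p] a) (algebraMap ℚ ℚ_[p] b)
      (algebraMap ℚ ℚ_[p] d)) → ∃ c : ℚ, (d : ℚ) = c ^ 2 ∨ (d : ℚ) = c ^ 2 * b
  s2 : ∀ d : ℤ, Squarefree d → LocA ℝ (algebraMap ℚ ℝ (-2 * a)) (algebraMap ℚ ℝ (a ^ 2 - 4 * b))
      (algebraMap ℚ ℝ d) →
    (∀ (p : ℕ) [Fact p.Prime], LocA ℚ_[p] (algebraMap ℚ ℚ_[p] (-2 * a))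
      (algebraMap ℚ ℚ_[p] (a ^ 2 - 4 * b)) (algebraMap ℚ ℚ_[p] d)) →
    ∃ c : ℚ, (d : ℚ) = c ^ 2 ∨ (d : ℚ) = c ^ 2 * (a ^ 2 - 4 * b)

/-- a point of order two with the trivial sign at zero -/
lemma tor_cases {F : Type*} [Field F] {W : Affine F} {a b : F} (h : IsT W a b) {S : W.Point}
    (hS : S + S = 0) (hs : sg 0 S = 1) : S = 0 ∨ ∃ hn, S = Point.some 0 0 hn := by
  rcases S with _ | ⟨x, y, hxy⟩
  · exact Or.inl rfl
  · right
    have hy : y = 0 := (h.dbl_zero_iff hxy).1 hS
    subst hy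
    have h11 : (1 : F) ≠ -1 := by
      intro h'
      exact h.two (by linear_combination h')
    have hx : x = 0 := by
      by_contra hx
      simp only [sg, hx, if_false] at hs
      exact h11 hs.symm
    subst hx
    exact ⟨hxy, rfl⟩

lemma sq_unit {K : Type*} [Field K] {x y c : K} (h : x ^ 2 = (c * y) ^ 2) :
    x = c * y ∨ x = -(c * y) := sq_eq_sq_iff_eq_or_eq_neg.1 h

variable {W : WeierstrassCurve ℚ} {a b : ℚ}

/-- the first step of the descent -/
lemma step1 (h : IsT W.toAffine a b) (hS : SelHyp a b) {f : GQ → Points W QB}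
    (hf : IsShaCocycle W f) (hf2 : ∀ σ, f σ + f σ = 0) :
    ∃ R : Points W QB, (R + R = 0 ∨ ∃ hn, R + R = Point.some 0 0 hn) ∧
      (∀ σ, (f σ - (pmap W σ.toAlgHom R - R)) + (f σ - (pmap W σ.toAlgHom R - R)) = 0) ∧
      ∀ σ, sg 0 (f σ - (pmap W σ.toAlgHom R - R)) = 1 := by
  haveI := galQB
  have hT := isT_base h QB
  obtain ⟨e, e', he1, he2⟩ := hT.roots
  have hR := hT.isR he1 he2
  have hsgact : ∀ (σ : GQ) (P : Points W QB), sg 0 (act W σ.toAlgHom P) = sg 0 P := by
    intro σ P
    have h1 := sg_act W σ.toAlgHom 0 P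
    rw [map_zero] at h1
    rw [h1]
    rcases sg_sq (0 : QB) P with h3 | h3 <;> rw [h3] <;> simp
  obtain ⟨t, d0, ht0, ht, hσ⟩ := exists_root (K := ℚ) (Ω := QB) two_ne_zero
    (fun σ => sg 0 (f σ)) (fun σ => sg_sq _ _) (fun σ τ => by
      show sg _ (f (σ * τ)) = sg _ (f σ) * sg _ (f τ)
      rw [hf.1.2]
      have h2 : pmap W σ.toAlgHom (f τ) = act W σ.toAlgHom (f τ) := rfl
      rw [h2, sg_add hR (hf2 σ) ((two_act W _ _).2 (hf2 τ)), hsgact]) (hf.1.1.comp (sg 0))
  have hd0 : d0 ≠ 0 := by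
    rintro rfl
    rw [map_zero] at ht
    exact pow_ne_zero 2 ht0 ht
  obtain ⟨d, hdsq, r, hr, hdr⟩ := exists_rep d0 hd0
  -- the root of the squarefree representative
  set t' : QB := t / algebraMap ℚ QB r with ht'
  have hr' : algebraMap ℚ QB r ≠ 0 := (map_ne_zero _).2 hr
  have ht'0 : t' ≠ 0 := div_ne_zero ht0 hr'
  have ht'2 : t' ^ 2 = algebraMap ℚ QB d := by
    rw [ht', div_pow, ht, hdr, map_mul, map_pow]
    field_simp
  have hσ' : ∀ σ : GQ, σ t' = sg 0 (f σ) * t' := by
    intro σ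
    rw [ht', map_div₀, hσ, σ.commutes]
    ring
  obtain ⟨c, hc⟩ := hS.s1 d hdsq (loc1 h hf2 ht'0 ht'2 hσ' ℝ hf.2.2)
    (fun p _ => loc1 h hf2 ht'0 ht'2 hσ' ℚ_[p] (hf.2.1 p))
  rcases hc with hc | hc
  · -- the trivial class
    refine ⟨0, Or.inl (add_zero _), fun σ => ?_, fun σ => ?_⟩
    · rw [map_zero, sub_zero, sub_zero, hf2]
    · rw [map_zero, sub_zero, sub_zero]
      have h1 : t' ^ 2 = (algebraMap ℚ QB c * 1) ^ 2 := by
        rw [ht'2, mul_one, ← map_pow, ← hc]
      have h2 : σ t' = t' := by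
        rcases sq_unit h1 with h3 | h3
        · rw [h3, mul_one, σ.commutes]
        · rw [h3, mul_one, map_neg, σ.commutes]
      have h3 := hσ' σ
      rw [h2] at h3
      have h4 : (sg 0 (f σ) - 1) * t' = 0 := by linear_combination -h3
      have h5 := (mul_eq_zero.1 h4).resolve_right ht'0
      linear_combination h5
  · -- the class of the rational point of order two
    obtain ⟨H, hH⟩ := halve_sep hR (Point.some 0 0 hT.ns0)
    have hH0 : H + H ≠ 0 := by rw [hH]; exact Point.some_ne_zero _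
    have hS2 : ∀ σ : GQ, (pmap W σ.toAlgHom H - H) + (pmap W σ.toAlgHom H - H) = 0 := by
      intro σ
      rw [sub_add_sub_comm, ← map_add, hH]
      obtain ⟨h1, h2⟩ := act_some W σ.toAlgHom hT.ns0
      have h3 : pmap W σ.toAlgHom (Point.some 0 0 hT.ns0) = Point.some 0 0 hT.ns0 := by
        refine h2.trans ?_
        simp only [map_zero]
      rw [h3, sub_self]
    have hneg : ∀ S : Points W QB, S + S = 0 → -S = S := by
      intro S h1
      rw [neg_eq_iff_add_eq_zero, h1]
    have hsub : ∀ σ : GQ, f σ - (pmap W σ.toAlgHom H - H) =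
        f σ + (pmap W σ.toAlgHom H - H) := by
      intro σ
      rw [sub_eq_add_neg (f σ), hneg _ (hS2 σ)]
    refine ⟨H, Or.inr ⟨hT.ns0, hH⟩, fun σ => ?_, fun σ => ?_⟩
    · rw [hsub, add_add_add_comm, hf2, hS2, add_zero]
    · rw [hsub, sg_add hR (hf2 σ) (hS2 σ)]
      have h1 : σ (hh (algebraMap ℚ QB b) H) =
          sg 0 (pmap W σ.toAlgHom H - H) * hh (algebraMap ℚ QB b) H := by
        have h2 := hh_act W σ.toAlgHom (algebraMap ℚ QB b) H
        have h3 : act W σ.toAlgHom H = H + (pmap W σ.toAlgHom H - H) := by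
          show pmap W σ.toAlgHom H = _
          abel
        have h4 : σ.toAlgHom (algebraMap ℚ QB b) = algebraMap ℚ QB b := σ.commutes b
        rw [h4, h3, hh_tr hT he1 he2 (hS2 σ) (fun h0 => absurd h0 hH0)] at h2
        exact h2.symm
      have h2 : hh (algebraMap ℚ QB b) H ^ 2 = algebraMap ℚ QB b := by
        rw [hh_sq hT, hH, al_some0]
      have h3 : t' ^ 2 = (algebraMap ℚ QB c * hh (algebraMap ℚ QB b) H) ^ 2 := by
        rw [mul_pow, h2, ht'2, ← map_pow, ← map_mul, ← hc]
      have h4 : σ t' = sg 0 (pmap W σ.toAlgHom H - H) * t' := by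
        rcases sq_unit h3 with h5 | h5
        · rw [h5, map_mul, σ.commutes, h1]; ring
        · rw [h5, map_neg, map_mul, σ.commutes, h1]; ring
      have h5 := hσ' σ
      rw [h4] at h5
      have h6 := mul_right_cancel₀ ht'0 h5
      rw [← h6]
      rcases sg_sq (0 : QB) (pmap W σ.toAlgHom H - H) with h7 | h7 <;> rw [h7] <;> ring

/-- the second step of the descent -/
lemma step2 (h : IsT W.toAffine a b) (hS : SelHyp a b) {f : GQ → Points W QB}
    (hf : IsShaCocycle W f) (hf2 : ∀ σ, f σ + f σ = 0) (hf1 : ∀ σ, sg 0 (f σ) = 1) :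
    ∃ R : Points W QB, R + R = 0 ∧ ∀ σ, f σ = pmap W σ.toAlgHom R - R := by
  haveI := galQB
  have hT := isT_base h QB
  obtain ⟨e, e', he1, he2⟩ := hT.roots
  have hR := hT.isR he1 he2
  have hcase : ∀ σ, f σ = 0 ∨ f σ = Point.some 0 0 hT.ns0 := by
    intro σ
    rcases tor_cases hT (hf2 σ) (hf1 σ) with h1 | ⟨hn, h1⟩
    · exact Or.inl h1
    · exact Or.inr h1
  have hT0 : (Point.some 0 0 hT.ns0 : Points W QB) ≠ 0 := Point.some_ne_zero _
  have hTT : (Point.some 0 0 hT.ns0 : Points W QB) + Point.some 0 0 hT.ns0 = 0 :=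
    (hT.dbl_zero_iff hT.ns0).2 rfl
  have hfix : ∀ σ : GQ, ∀ τ : GQ, pmap W σ.toAlgHom (f τ) = f τ := by
    intro σ τ
    rcases hcase τ with h1 | h1
    · rw [h1, map_zero]
    · rw [h1]
      obtain ⟨h1, h2⟩ := act_some W σ.toAlgHom hT.ns0
      refine h2.trans ?_
      simp only [map_zero]
  have h11 : (1 : QB) ≠ -1 := by
    intro h'
    exact hT.two (by linear_combination h')
  obtain ⟨t, d0, ht0, ht, hσ⟩ := exists_root (K := ℚ) (Ω := QB) two_ne_zero
    (fun σ => if f σ = 0 then 1 else -1) (fun σ => by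
      by_cases h1 : f σ = 0
      · left; simp [h1]
      · right; simp [h1]) (fun σ τ => by
      show (if f (σ * τ) = 0 then (1 : QB) else -1) =
        (if f σ = 0 then 1 else -1) * (if f τ = 0 then 1 else -1)
      rw [hf.1.2, hfix]
      rcases hcase σ with h1 | h1 <;> rcases hcase τ with h2 | h2 <;> rw [h1, h2]
      · simp
      · rw [zero_add, if_neg hT0]; simp
      · rw [add_zero, if_neg hT0]; simp
      · rw [hTT, if_neg hT0]; simp) (hf.1.1.comp (fun P => if P = 0 then (1 : QB) else -1))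
  have hd0 : d0 ≠ 0 := by
    rintro rfl
    rw [map_zero] at ht
    exact pow_ne_zero 2 ht0 ht
  obtain ⟨d, hdsq, r, hr, hdr⟩ := exists_rep d0 hd0
  set t' : QB := t / algebraMap ℚ QB r with ht'
  have hr' : algebraMap ℚ QB r ≠ 0 := (map_ne_zero _).2 hr
  have ht'0 : t' ≠ 0 := div_ne_zero ht0 hr'
  have ht'2 : t' ^ 2 = algebraMap ℚ QB d := by
    rw [ht', div_pow, ht, hdr, map_mul, map_pow]
    field_simp
  have hσ' : ∀ σ : GQ, σ t' = (if f σ = 0 then 1 else -1) * t' := by
    intro σ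
    rw [ht', map_div₀, hσ, σ.commutes]
    ring
  have hσ2 : ∀ σ : GQ, (f σ = 0 → σ t' = t') ∧ (f σ ≠ 0 → σ t' = -t') := by
    intro σ
    constructor
    · intro h1
      rw [hσ', if_pos h1, one_mul]
    · intro h1
      rw [hσ', if_neg h1, neg_one_mul]
  have hff : ∀ σ, f σ = 0 ∨ sg 0 (f σ) = 1 ∧ f σ ≠ 0 ∧ f σ + f σ = 0 := by
    intro σ
    by_cases h1 : f σ = 0
    · exact Or.inl h1
    · exact Or.inr ⟨hf1 σ, h1, hf2 σ⟩
  obtain ⟨c, hc⟩ := hS.s2 d hdsq (loc2 h hff ht'0 ht'2 hσ2 ℝ hf.2.2)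
    (fun p _ => loc2 h hff ht'0 ht'2 hσ2 ℚ_[p] (hf.2.1 p))
  rcases hc with hc | hc
  · refine ⟨0, add_zero _, fun σ => ?_⟩
    rw [map_zero, sub_zero]
    by_contra h1
    have h2 := (hσ2 σ).2 h1
    have h3 : t' ^ 2 = (algebraMap ℚ QB c * 1) ^ 2 := by
      rw [ht'2, mul_one, ← map_pow, ← hc]
    have h4 : σ t' = t' := by
      rcases sq_unit h3 with h5 | h5
      · rw [h5, mul_one, σ.commutes]
      · rw [h5, mul_one, map_neg, σ.commutes]
    rw [h4] at h2
    have h5 : (2 : QB) * t' = 0 := by linear_combination h2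
    rcases mul_eq_zero.1 h5 with h6 | h6
    · exact hT.two h6
    · exact ht'0 h6
  · -- the point of order two with coordinate `e`
    have hne : e ≠ e' := hR.nbc
    have hen : (W.baseChange QB).toAffine.Nonsingular e 0 := by
      rw [hT.nonsingular]
      have : e ^ 2 + algebraMap ℚ QB a * e + algebraMap ℚ QB b = 0 := by
        rw [← he2]; linear_combination e * he1
      rw [this]; ring
    refine ⟨Point.some e 0 hen, (hT.dbl_zero_iff hen).2 rfl, fun σ => ?_⟩
    obtain ⟨h1, h2⟩ := act_some W σ.toAlgHom hen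
    have h2' : pmap W σ.toAlgHom (Point.some e 0 hen) = Point.some (σ e) 0 (by
        have := h1
        rw [map_zero] at this
        exact this) := by
      refine h2.trans ?_
      congr 1
      simp only [map_zero]
    have hd2 : (e - e') ^ 2 = algebraMap ℚ QB (a ^ 2 - 4 * b) := by
      rw [map_sub, map_pow, map_mul, map_ofNat, ← he2]
      linear_combination (-(algebraMap ℚ QB a) + (e + e')) * he1
    have h3 : t' ^ 2 = (algebraMap ℚ QB c * (e - e')) ^ 2 := by
      rw [mul_pow, hd2, ht'2, ← map_pow, ← map_mul, ← hc]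
    have hc0 : algebraMap ℚ QB c ≠ 0 := by
      intro h0
      rw [h0, zero_mul] at h3
      exact ht'0 (pow_eq_zero_iff (two_ne_zero) |>.1 (by rw [h3]; ring))
    have hsum : σ e + σ e' = e + e' := by
      rw [← map_add, he1, map_neg, σ.commutes]
    have key : σ (e - e') = (if f σ = 0 then 1 else -1) * (e - e') := by
      have h4 := hσ' σ
      rcases sq_unit h3 with h5 | h5
      · rw [h5, map_mul, σ.commutes] at h4
        apply mul_left_cancel₀ hc0
        linear_combination h4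
      · rw [h5, map_neg, map_mul, σ.commutes] at h4
        apply mul_left_cancel₀ hc0
        linear_combination -h4
    rw [map_sub] at key
    have h2e := hT.two
    rcases hcase σ with h4 | h4
    · rw [if_pos h4, one_mul] at key
      have h5 : σ e = e := by
        have : (2 : QB) * (σ e - e) = 0 := by linear_combination hsum + key
        have := (mul_eq_zero.1 this).resolve_left h2e
        linear_combination this
      rw [h4, h2']
      have h6 : (Point.some (σ e) 0 (by
        have := h1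
        rw [map_zero] at this
        exact this) : Points W QB) = Point.some e 0 hen := by
        simp only [h5]
      rw [h6, sub_self]
    · rw [if_neg (by rw [h4]; exact hT0)] at key
      have h5 : σ e = e' := by
        have : (2 : QB) * (σ e - e') = 0 := by linear_combination hsum + key
        have := (mul_eq_zero.1 this).resolve_left h2e
        linear_combination this
      have hen' : (W.baseChange QB).toAffine.Nonsingular e' 0 := by
        rw [← h5]
        have := h1
        rw [map_zero] at this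
        exact this
      rw [h4, h2']
      have h6 : (Point.some (σ e) 0 (by
        have := h1
        rw [map_zero] at this
        exact this) : Points W QB) = Point.some e' 0 hen' := by
        simp only [h5]
      rw [h6, eq_sub_iff_add_eq]
      obtain ⟨hQ, hadd⟩ := hT.add hT.ns0 hen hR.nab
      rw [hadd]
      have he0 : e ≠ 0 := hR.nab.symm
      have e1 : (((0 : QB) - 0) / (0 - e)) ^ 2 - algebraMap ℚ QB a - 0 - e = e' := by
        rw [sub_self, zero_div]
        linear_combination -he1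
      have e2 : -((0 : QB) + (0 - 0) / (0 - e) * (e' - 0)) = 0 := by
        rw [sub_self, zero_div]; ring
      simp only [e1, e2]

/-- **the descent** -/
theorem key (h : IsT W.toAffine a b) (hS : SelHyp a b) {f : GQ → Points W QB}
    (hf : IsShaCocycle W f) (hf2 : ∀ σ, f σ + f σ = 0) :
    ∃ R : Points W QB, (R + R = 0 ∨ ∃ hn, R + R = Point.some 0 0 hn) ∧
      ∀ σ, f σ = pmap W σ.toAlgHom R - R := by
  obtain ⟨R1, h1, h2, h3⟩ := step1 h hS hf hf2
  have hf' : IsShaCocycle W (f - fun σ => pmap W σ.toAlgHom R1 - R1) :=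
    (shaCocycles W).sub_mem hf (cob_sha W R1)
  obtain ⟨R2, h4, h5⟩ := step2 h hS hf' h2 h3
  refine ⟨R1 + R2, ?_, fun σ => ?_⟩
  · have : R1 + R2 + (R1 + R2) = R1 + R1 := by
      rw [add_add_add_comm, h4, add_zero]
    rw [this]
    exact h1
  · have h6 := h5 σ
    simp only [Pi.sub_apply] at h6
    rw [map_add]
    have h7 : f σ = (pmap W σ.toAlgHom R2 - R2) + (pmap W σ.toAlgHom R1 - R1) := by
      rw [← h6]; abel
    rw [h7]
    abel

/-- there is no element of order two in the Tate-Shafarevich group -/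
theorem sha_two (h : IsT W.toAffine a b) (hS : SelHyp a b) (c : Sha W) (hc : 2 • c = 0) :
    c = 0 := by
  have hT := isT_base h QB
  obtain ⟨e, e', he1, he2⟩ := hT.roots
  have hR := hT.isR he1 he2
  obtain ⟨f0, rfl⟩ := QuotientAddGroup.mk_surjective c
  have h1 : 2 • f0 ∈ (coboundaries W).addSubgroupOf (shaCocycles W) := by
    rw [← QuotientAddGroup.eq_zero_iff]
    exact hc
  rw [AddSubgroup.mem_addSubgroupOf] at h1
  obtain ⟨Q, hQ⟩ := h1
  obtain ⟨R, hR2⟩ := halve_sep hR Q
  have hcob := cob_sha W R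
  have hg : IsShaCocycle W (f0.1 - fun σ => pmap W σ.toAlgHom R - R) :=
    (shaCocycles W).sub_mem f0.2 hcob
  obtain ⟨R', -, hR'⟩ := key h hS hg (fun σ => by
    have h2 := hQ σ
    show (f0.1 σ - (pmap W σ.toAlgHom R - R)) + (f0.1 σ - (pmap W σ.toAlgHom R - R)) = 0
    have h3 : f0.1 σ + f0.1 σ = pmap W σ.toAlgHom Q - Q := by
      rw [← h2, ← two_nsmul]; rfl
    have h4 : (f0.1 σ - (pmap W σ.toAlgHom R - R)) +
        (f0.1 σ - (pmap W σ.toAlgHom R - R)) =
        (f0.1 σ + f0.1 σ) - (pmap W σ.toAlgHom (R + R) - (R + R)) := by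
      rw [map_add]; abel
    rw [h4, hR2, h3, sub_self])
  rw [QuotientAddGroup.eq_zero_iff, AddSubgroup.mem_addSubgroupOf]
  refine ⟨R' + R, fun σ => ?_⟩
  have h3 := hR' σ
  simp only [Pi.sub_apply] at h3
  show f0.1 σ = _
  rw [map_add]
  have h4 : f0.1 σ = (pmap W σ.toAlgHom R' - R') + (pmap W σ.toAlgHom R - R) := by
    rw [← h3]; abel
  rw [h4]
  abel

/-- the 2-primary part of the Tate-Shafarevich group is trivial -/
theorem sha_two_pow (h : IsT W.toAffine a b) (hS : SelHyp a b) (n : ℕ) (c : Sha W)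
    (hc : 2 ^ n • c = 0) : c = 0 := by
  induction n with
  | zero => simpa using hc
  | succ n ih =>
    apply ih
    apply sha_two h hS
    rw [smul_smul, ← pow_succ']
    exact hc

/-- the inclusion of the rational points -/
noncomputable def inc (W : WeierstrassCurve ℚ) : W.toAffine.Point →+ Points W QB :=
  WeierstrassCurve.Affine.Point.map (W' := W) (Algebra.ofId ℚ QB)

lemma inc_some (W : WeierstrassCurve ℚ) {x y : ℚ} (hxy : W.toAffine.Nonsingular x y) :
    ∃ h, inc W (Point.some x y hxy) = Point.some (algebraMap ℚ QB x) (algebraMap ℚ QB y) h :=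
  ⟨_, rfl⟩

lemma inc_inj (W : WeierstrassCurve ℚ) : Function.Injective (inc W) :=
  Point.map_injective (W' := W) (Algebra.ofId ℚ QB)

lemma inc_fix (W : WeierstrassCurve ℚ) (σ : GQ) (P : W.toAffine.Point) :
    pmap W σ.toAlgHom (inc W P) = inc W P := by
  rcases P with _ | ⟨x, y, hxy⟩
  · rfl
  · obtain ⟨h, hh⟩ := inc_some W hxy
    rw [hh]
    obtain ⟨h', hh'⟩ := act_some W σ.toAlgHom h
    refine hh'.trans ?_
    have e1 : σ.toAlgHom (algebraMap ℚ QB x) = algebraMap ℚ QB x := σ.commutes x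
    have e2 : σ.toAlgHom (algebraMap ℚ QB y) = algebraMap ℚ QB y := σ.commutes y
    simp only [e1, e2]

lemma exists_inc (W : WeierstrassCurve ℚ) (Q : Points W QB)
    (hQ : ∀ σ : GQ, pmap W σ.toAlgHom Q = Q) : ∃ P, inc W P = Q := by
  haveI := galQB
  rcases Q with _ | ⟨x, y, hxy⟩
  · exact ⟨0, map_zero _⟩
  · have hx : x ∈ Set.range (algebraMap ℚ QB) := by
      rw [InfiniteGalois.mem_range_algebraMap_iff_fixed]
      intro τ
      obtain ⟨h, hh⟩ := act_some W τ.toAlgHom hxy
      have := hh.symm.trans (hQ τ)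
      exact (Point.some.inj this).1
    have hy : y ∈ Set.range (algebraMap ℚ QB) := by
      rw [InfiniteGalois.mem_range_algebraMap_iff_fixed]
      intro τ
      obtain ⟨h, hh⟩ := act_some W τ.toAlgHom hxy
      have := hh.symm.trans (hQ τ)
      exact (Point.some.inj this).2
    obtain ⟨x', rfl⟩ := hx
    obtain ⟨y', rfl⟩ := hy
    have hxy' : W.toAffine.Nonsingular x' y' := by
      have := (W.toAffine.baseChange_nonsingular (Algebra.ofId ℚ QB).injective x' y').1 hxy
      exact this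
    exact ⟨Point.some x' y' hxy', rfl⟩

/-- the rational points modulo two -/
theorem points_mod_two (h : IsT W.toAffine a b) (hS : SelHyp a b) (P : W.toAffine.Point) :
    ∃ Q : W.toAffine.Point, P = Q + Q ∨ P = Q + Q + Point.some 0 0 h.ns0 := by
  have hT := isT_base h QB
  obtain ⟨e, e', he1, he2⟩ := hT.roots
  have hR := hT.isR he1 he2
  obtain ⟨H, hH⟩ := halve_sep hR (inc W P)
  obtain ⟨R, hR1, hR2⟩ := key h hS (cob_sha W H) (fun σ => by
    show (pmap W σ.toAlgHom H - H) + (pmap W σ.toAlgHom H - H) = 0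
    rw [sub_add_sub_comm, ← map_add, hH, inc_fix, sub_self])
  have hfix : ∀ σ : GQ, pmap W σ.toAlgHom (H - R) = H - R := by
    intro σ
    have h1 : pmap W σ.toAlgHom H - H = pmap W σ.toAlgHom R - R := hR2 σ
    rw [map_sub]
    have h2 : pmap W σ.toAlgHom H = (pmap W σ.toAlgHom R - R) + H := by rw [← h1]; abel
    rw [h2]; abel
  obtain ⟨Q, hQ⟩ := exists_inc W _ hfix
  have hQ2 : inc W (Q + Q) = inc W P - (R + R) := by
    rw [map_add, hQ, ← hH]; abel
  refine ⟨Q, ?_⟩
  rcases hR1 with h1 | ⟨hn, h1⟩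
  · left
    apply inc_inj W
    rw [hQ2, h1, sub_zero]
  · right
    apply inc_inj W
    have h2 : inc W (Point.some 0 0 h.ns0) = Point.some 0 0 hn := by
      obtain ⟨h3, h4⟩ := inc_some W h.ns0
      rw [h4]
      simp only [map_zero]
    rw [map_add, hQ2, h1, h2]
    abel

end Pool.Agent.Y695
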