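import Pool.Agent.W97.V20.Fin
import Pool.Agent.W388.TW.Good

/-!
The form of level `20` is a newform.
-/

set_option autoImplicit false
set_option linter.all false

open UpperHalfPlane MatrixGroups CongruenceSubgroup

namespace Pool.Agent.Y695

open Pool.Agent.W97.TW
open Pool.Agent.W97.V20

lemma A_rec {p : ℕ} (hp : p.Prime) (m : ℕ) : A (p * m) = A p * A m -
    (if p ∣ 20 then 0 else (p : ℤ)) * (if p ∣ m then A (m / p) else 0) := by
  have := (hecke_f20 hp).2 m
  linarith

lemma A_rec_pow (p : ℕ) (hp : p.Prime) (m : ℕ) (hm : ¬ p ∣ m) (j : ℕ) :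
    A (p ^ j * m) = A (p ^ j) * A m := by
  induction j using Nat.strong_induction_on with
  | _ j ih =>
    match j with
    | 0 => rw [pow_zero, one_mul, A_one, one_mul]
    | 1 =>
      rw [pow_one, A_rec hp m, if_neg hm]
      ring
    | j + 2 =>
      have e1 : p ^ (j + 2) * m = p * (p ^ (j + 1) * m) := by ring
      have e2 : p ^ (j + 2) = p * p ^ (j + 1) := by ring
      have d1 : p ∣ p ^ (j + 1) * m := Dvd.dvd.mul_right (dvd_pow_self p (by omega)) m
      have d2 : p ∣ p ^ (j + 1) := dvd_pow_self p (by omega)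
      have q1 : p ^ (j + 1) * m / p = p ^ j * m := by
        rw [show p ^ (j + 1) * m = p * (p ^ j * m) by ring, Nat.mul_div_cancel_left _ hp.pos]
      have q2 : p ^ (j + 1) / p = p ^ j := by
        rw [show p ^ (j + 1) = p * p ^ j by ring, Nat.mul_div_cancel_left _ hp.pos]
      rw [e1, e2, A_rec hp (p ^ (j + 1) * m), A_rec hp (p ^ (j + 1)), if_pos d1, if_pos d2, q1, q2,
        ih (j + 1) (by omega), ih j (by omega)]
      split_ifs <;> ring

theorem A_mul (m n : ℕ) (h : Nat.Coprime m n) : A (m * n) = A m * A n := by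
  induction m using Nat.strong_induction_on generalizing n with
  | _ m ih =>
    rcases Nat.eq_zero_or_pos m with rfl | hm
    · have hn : n = 1 := by simpa using h
      subst hn
      rw [mul_one, A_one, mul_one]
    by_cases hm1 : m = 1
    · subst hm1
      rw [one_mul, A_one, one_mul]
    set p := m.minFac with hp
    have hpp : p.Prime := Nat.minFac_prime hm1
    obtain ⟨j, m', hm', he⟩ := Nat.exists_eq_pow_mul_and_not_dvd hm.ne' p hpp.ne_one
    have hj : j ≠ 0 := by
      rintro rfl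
      rw [pow_zero, one_mul] at he
      exact hm' (he ▸ Nat.minFac_dvd m)
    have hpn : ¬ p ∣ n := by
      intro hd
      have := Nat.dvd_gcd (Nat.minFac_dvd m) hd
      rw [h] at this
      exact hpp.one_lt.ne' (Nat.dvd_one.1 this)
    have hm'0 : 0 < m' := Nat.pos_of_ne_zero fun h0 => hm' (h0 ▸ dvd_zero p)
    have hlt : m' < m := by
      rw [he]
      have : 1 < p ^ j := Nat.one_lt_pow hj hpp.one_lt
      nlinarith
    have hc : Nat.Coprime m' n := Nat.Coprime.coprime_dvd_left (he ▸ Dvd.intro_left _ rfl) h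
    have hnd : ¬ p ∣ m' * n := by
      intro hd
      rcases (Nat.Prime.dvd_mul hpp).1 hd with h2 | h2
      · exact hm' h2
      · exact hpn h2
    rw [he, mul_assoc, A_rec_pow p hpp (m' * n) hnd j, A_rec_pow p hpp m' hm' j, ih m' hlt n hc]
    ring

theorem A_pow (p j : ℕ) (hp : p.Prime) : A (p ^ (j + 2)) =
    A p * A (p ^ (j + 1)) - (if p ∣ 20 then 0 else (p : ℤ) * A (p ^ j)) := by
  have e2 : p ^ (j + 2) = p * p ^ (j + 1) := by ring
  have d2 : p ∣ p ^ (j + 1) := dvd_pow_self p (by omega)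
  have q2 : p ^ (j + 1) / p = p ^ j := by
    rw [show p ^ (j + 1) = p * p ^ j by ring, Nat.mul_div_cancel_left _ hp.pos]
  rw [e2, A_rec hp (p ^ (j + 1)), if_pos d2, q2]
  split_ifs <;> ring

theorem isNewf20 : W388.IsNewf 20 2 f20 1 where
  one := by rw [coeff_f20, A_one]; norm_num
  real n := by
    rw [coeff_f20]
    exact Complex.intCast_im _
  mul m n h := by
    rw [coeff_f20, coeff_f20, coeff_f20, A_mul m n h]
    push_cast
    rfl
  pow p j hp := by
    rw [coeff_f20, coeff_f20, coeff_f20, coeff_f20, A_pow p j hp]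
    have e : (p : ℂ) ^ ((2 : ℤ) - 1) = p := by norm_num
    rw [e]
    split_ifs
    · push_cast; ring
    · push_cast; ring
  sign := Or.inl rfl
  fricke τ τ' h := by
    have h0 : (τ : ℂ) ≠ 0 := Pool.Agent.W97.MT.z_ne τ.im_pos
    have h2 : 0 < (2 * (τ : ℂ)).im := by
      have := τ.im_pos
      simpa using this
    have e1 : 2 * (τ' : ℂ) = -1 / (5 * (2 * τ)) := by
      rw [eq_div_iff (mul_ne_zero (by norm_num) (mul_ne_zero two_ne_zero h0))]
      push_cast at h
      linear_combination h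
    rw [f20_apply, f20_apply, e1, gg_W h2]
    have hsq : ((Real.sqrt ((20 : ℕ) : ℝ) : ℝ) : ℂ) ^ 2 = 20 := by
      have h1 : (Real.sqrt ((20 : ℕ) : ℝ)) ^ 2 = ((20 : ℕ) : ℝ) := Real.sq_sqrt (by positivity)
      have h3 := congrArg (fun x : ℝ => (x : ℂ)) h1
      push_cast at h3 ⊢
      exact h3
    have hX : (((Real.sqrt ((20 : ℕ) : ℝ) : ℝ) : ℂ) * (τ : ℂ) / Complex.I) ^ (2 : ℤ) =
        -(20 * (τ : ℂ) ^ 2) := by
      rw [zpow_ofNat, div_pow, mul_pow, hsq, Complex.I_sq]
      ring
    rw [hX]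
    push_cast
    ring

end Pool.Agent.Y695
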