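import Pool.Agent.Y695.SymJ
import Pool.Agent.Y695.JChar
import Pool.Agent.Y695.Newf
import Pool.Agent.TH940.Per

/-!
The `L`-function of the twist as a Mellin transform.
-/

set_option autoImplicit false
set_option linter.all false

open Filter Topology MeasureTheory Set Asymptotics

namespace Pool.Agent.Y695

open Pool.Agent.W97.TW
open Pool.Agent.W97.V20
open Pool.Agent.W97.MT (qq qq_ne norm_qq norm_qq_lt iI iI_pos iI_eventually line_im line_re
  tendsto_qq)

/-- rapid decay at the rational points -/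
lemma gg_small (x : ℚ) : ∃ K B : ℝ, 0 < K ∧ 0 ≤ B ∧ ∀ t : ℝ, 0 < t → t ≤ 1 / K →
    ‖gg ((x : ℂ) + t * Complex.I)‖ ≤ K * (1 / (K * t)) ^ 2 * (B * Real.exp (-Real.pi * (1 / (K * t)))) := by
  obtain ⟨L, a, b, c, d, ε, h, hc, ha, hL⟩ := exists_lim x
  have hcR : (c : ℝ) ≠ 0 := by exact_mod_cast hc
  have hcC : (c : ℂ) ≠ 0 := by exact_mod_cast hc
  have hD : (0 : ℝ) < (a * d - b * c : ℤ) := by exact_mod_cast h.det
  set D : ℝ := ((a * d - b * c : ℤ) : ℝ) with hDdef
  have hDC : (((a * d - b * c : ℤ) : ℂ)) = (D : ℂ) := by rw [hDdef]; norm_cast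
  have hDC' : (D : ℂ) = a * d - b * c := by rw [← hDC]; push_cast; ring
  set K : ℝ := (c : ℝ) ^ 2 / D with hKdef
  have hK : 0 < K := by positivity
  have haC : (a : ℂ) = x * c := by exact_mod_cast congrArg (fun r : ℚ => (r : ℂ)) ha
  set x0 : ℝ := -(d : ℝ) / c with hx0
  have hx0C : (x0 : ℂ) = -(d : ℂ) / c := by rw [hx0]; push_cast; ring
  have hden : ∀ s : ℝ, (c : ℂ) * (x0 + s * Complex.I) + d = c * s * Complex.I := by
    intro s
    rw [hx0C]
    field_simp
    ring
  have hKC : (K : ℂ) = (c : ℂ) ^ 2 / D := by rw [hKdef]; push_cast; ring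
  have hDne : (D : ℂ) ≠ 0 := by exact_mod_cast hD.ne'
  have hI := Complex.I_ne_zero
  have he : ∀ s : ℝ, 0 < s → (a * ((x0 : ℂ) + s * Complex.I) + b) / (c * (x0 + s * Complex.I) + d) =
      x + ((K * s)⁻¹ : ℝ) * Complex.I := by
    intro s hs
    have hsC : (s : ℂ) ≠ 0 := by exact_mod_cast hs.ne'
    have e1 : (((K * s)⁻¹ : ℝ) : ℂ) = D / (c ^ 2 * s) := by
      push_cast
      rw [hKC]
      field_simp
    rw [hden s, e1, div_eq_iff (mul_ne_zero (mul_ne_zero hcC hsC) hI), hx0C]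
    have e2 : (D : ℂ) / (c ^ 2 * s) * Complex.I * (c * s * Complex.I) = -(D / c) := by
      field_simp
      rw [Complex.I_sq]
    have e3 : (x : ℂ) * (c * s * Complex.I) = a * s * Complex.I := by rw [haC]; ring
    rw [add_mul, e2, e3, hDC']
    field_simp
    ring
  have hgg : ∀ s : ℝ, 0 < s → ‖gg (x + ((K * s)⁻¹ : ℝ) * Complex.I)‖ =
      K * s ^ 2 * ‖gg (x0 + s * Complex.I)‖ := by
    intro s hs
    have him : 0 < ((x0 : ℂ) + s * Complex.I).im := by simpa using hs
    have h1 := h.gg' _ him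
    rw [he s hs, hden s, hDC] at h1
    have hsC : (s : ℂ) ≠ 0 := by exact_mod_cast hs.ne'
    have h2 : gg (x + ((K * s)⁻¹ : ℝ) * Complex.I) =
        -(((K * s ^ 2 : ℝ) : ℂ) * (ε * gg (x0 + s * Complex.I))) := by
      rw [← h1]
      push_cast
      rw [hKC]
      field_simp
      rw [Complex.I_sq]
      ring
    rw [h2, norm_neg, norm_mul, norm_mul, Complex.norm_real, Real.norm_of_nonneg (by positivity)]
    rcases h.eps with rfl | rfl <;> simp
  obtain ⟨B, hB0, hB⟩ := gg_bound (one_pos : (0 : ℝ) < 1)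
  refine ⟨K, B, hK, hB0, fun t ht htK => ?_⟩
  set s : ℝ := 1 / (K * t) with hs
  have hs0 : 0 < s := by positivity
  have hs1 : 1 ≤ s := by
    rw [hs, le_div_iff₀ (by positivity), one_mul]
    rw [le_div_iff₀ hK] at htK
    linarith
  have h1 := hgg s hs0
  have h2 : (K * s)⁻¹ = t := by
    rw [hs]; field_simp
  rw [h2] at h1
  rw [h1]
  have h3 := hB (x0 + s * Complex.I) (by simpa using hs1)
  have h4 : ((x0 : ℂ) + s * Complex.I).im = s := by simp
  rw [h4] at h3
  exact mul_le_mul_of_nonneg_left h3 (by positivity)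

/-- at the rational points the form is smaller than every power -/
lemma gg_isBigO (x : ℚ) (b : ℝ) :
    (fun t : ℝ => gg ((x : ℂ) + t * Complex.I)) =O[𝓝[>] 0] (fun t : ℝ => t ^ (-b)) := by
  obtain ⟨K, B, hK, hB, h⟩ := gg_small x
  have h1 : Tendsto (fun t : ℝ => 1 / (K * t)) (𝓝[>] 0) atTop := by
    have h2 : Tendsto (fun t : ℝ => K⁻¹ * t⁻¹) (𝓝[>] 0) atTop :=
      tendsto_inv_nhdsGT_zero.const_mul_atTop (inv_pos.2 hK)
    refine h2.congr fun t => ?_
    rw [one_div, mul_inv]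
  have h3 := (isLittleO_exp_neg_mul_rpow_atTop Real.pi_pos (b - 2)).isBigO.comp_tendsto h1
  have h4 : (fun t : ℝ => gg ((x : ℂ) + t * Complex.I)) =O[𝓝[>] 0]
      (fun t : ℝ => (1 / (K * t)) ^ 2 * Real.exp (-Real.pi * (1 / (K * t)))) := by
    refine IsBigO.of_bound (K * B) ?_
    have h5 : ∀ᶠ t : ℝ in 𝓝[>] 0, t ≤ 1 / K :=
      mem_nhdsWithin_of_mem_nhds (Iic_mem_nhds (by positivity))
    filter_upwards [self_mem_nhdsWithin, h5] with t ht ht2
    have ht' : 0 < t := ht
    refine (h t ht' ht2).trans (le_of_eq ?_)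
    rw [Real.norm_of_nonneg (by positivity)]
    ring
  have h6 : (fun t : ℝ => (1 / (K * t)) ^ 2 * Real.exp (-Real.pi * (1 / (K * t)))) =O[𝓝[>] 0]
      (fun t : ℝ => (1 / (K * t)) ^ 2 * (1 / (K * t)) ^ (b - 2)) :=
    (isBigO_refl _ _).mul h3
  refine (h4.trans h6).trans ?_
  refine IsBigO.of_bound ((1 / K) ^ b) ?_
  filter_upwards [self_mem_nhdsWithin] with t ht
  have ht' : 0 < t := ht
  have e1 : (1 / (K * t)) ^ 2 * (1 / (K * t)) ^ (b - 2) = (1 / (K * t)) ^ b := by
    rw [← Real.rpow_natCast, ← Real.rpow_add (by positivity)]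
    congr 1
    push_cast
    ring
  rw [e1, Real.norm_of_nonneg (by positivity), Real.norm_of_nonneg (by positivity)]
  have e2 : (1 / (K * t)) = (1 / K) * t⁻¹ := by field_simp
  rw [e2, Real.mul_rpow (by positivity) (by positivity), Real.inv_rpow ht'.le, Real.rpow_neg ht'.le]

lemma gg_isBigO_top (x : ℚ) :
    (fun t : ℝ => gg ((x : ℂ) + t * Complex.I)) =O[atTop] (fun t : ℝ => Real.exp (-Real.pi * t)) := by
  obtain ⟨C, hC0, hC⟩ := gg_bound (one_pos : (0 : ℝ) < 1)
  refine IsBigO.of_bound C ?_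
  filter_upwards [eventually_ge_atTop 1] with t ht
  have h1 := hC ((x : ℂ) + t * Complex.I) (by simpa using ht)
  have h4 : ((x : ℂ) + t * Complex.I).im = t := by simp
  rw [h4] at h1
  rw [Real.norm_of_nonneg (Real.exp_pos _).le]
  exact h1

section

variable {S : Finset ℕ} (hS : Adm S) [NeZero (NN S)]

/-- the twisted form on the imaginary axis -/
noncomputable def phi (S : Finset ℕ) [NeZero (NN S)] (t : ℝ) : ℂ :=
  (gs S)⁻¹ * ∑ u ∈ CC (NN S), cf S u *
    gg (((2 * ((u : ℚ) / NN S) : ℚ) : ℂ) + ((2 * t : ℝ) : ℂ) * Complex.I)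

include hS in
lemma phi_hasSum {t : ℝ} (ht : 0 < t) : HasSum (fun n : ℕ => (cf S n * (A n : ℂ)) *
    Real.exp (-(2 * Real.pi * n) * t)) (phi S t) := by
  have hg := gs_ne hS
  have hN : (NN S : ℂ) ≠ 0 := by exact_mod_cast NN_ne hS
  have h1 : ∀ u : ℕ, HasSum (fun n : ℕ => (gs S)⁻¹ * (cf S u * ((A n : ℂ) *
      qq ((u : ℂ) / NN S + t * Complex.I) ^ n)))
      ((gs S)⁻¹ * (cf S u * gg (((2 * ((u : ℚ) / NN S) : ℚ) : ℂ) +
        ((2 * t : ℝ) : ℂ) * Complex.I))) := by
    intro u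
    have hz : 0 < ((u : ℂ) / NN S + t * Complex.I).im := by
      have : ((u : ℂ) / NN S + t * Complex.I) = (((u : ℝ) / NN S : ℝ) : ℂ) + t * Complex.I := by
        push_cast; rfl
      rw [this]
      simpa using ht
    have h2 := hasSum_A hz
    have e : 2 * ((u : ℂ) / NN S + t * Complex.I) =
        ((2 * ((u : ℚ) / NN S) : ℚ) : ℂ) + ((2 * t : ℝ) : ℂ) * Complex.I := by
      push_cast; ring
    rw [e] at h2
    exact (h2.mul_left _).mul_left _
  have h3 := hasSum_sum (s := CC (NN S)) (fun u _ => h1 u)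
  rw [← Finset.mul_sum] at h3
  refine h3.congr_fun ?_ |> fun x => x
  intro n
  rw [← Finset.mul_sum]
  have h4 : ∀ u : ℕ, cf S u * ((A n : ℂ) * qq ((u : ℂ) / NN S + t * Complex.I) ^ n) =
      ((A n : ℂ) * Real.exp (-(2 * Real.pi * n) * t)) *
      (cf S u * Complex.exp (2 * Real.pi * Complex.I * (u * n) / NN S)) := by
    intro u
    have h5 : qq ((u : ℂ) / NN S + t * Complex.I) ^ n =
        Real.exp (-(2 * Real.pi * n) * t) * Complex.exp (2 * Real.pi * Complex.I * (u * n) / NN S) := by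
      unfold qq
      rw [← Complex.exp_nat_mul, Complex.ofReal_exp, ← Complex.exp_add]
      congr 1
      push_cast
      field_simp
      linear_combination (n * t * NN S : ℂ) * Complex.I_mul_I
    rw [h5]
    ring
  rw [Finset.sum_congr rfl fun u _ => h4 u, ← Finset.mul_sum, gs_twist hS]
  field_simp

lemma phi_cont : ContinuousOn (phi S) (Ioi 0) := by
  unfold phi
  refine continuousOn_const.mul (continuousOn_finset_sum _ fun u _ => continuousOn_const.mul ?_)
  refine gg_cont.comp (by fun_prop) ?_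
  intro t ht
  have ht' : 0 < t := ht
  show 0 < (((2 * ((u : ℚ) / NN S) : ℚ) : ℂ) + ((2 * t : ℝ) : ℂ) * Complex.I).im
  rw [line_im]
  simp
  exact ht'

lemma phi_zero (b : ℝ) : (phi S) =O[𝓝[>] 0] (fun t : ℝ => t ^ (-b)) := by
  unfold phi
  refine IsBigO.const_mul_left (IsBigO.fun_sum fun u _ => IsBigO.const_mul_left ?_ _) _
  have h1 : Tendsto (fun t : ℝ => 2 * t) (𝓝[>] 0) (𝓝[>] 0) := by
    refine tendsto_nhdsWithin_iff.2 ⟨?_, ?_⟩
    · have : Tendsto (fun t : ℝ => 2 * t) (𝓝 0) (𝓝 (2 * 0)) := tendsto_id.const_mul 2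
      rw [mul_zero] at this
      exact this.mono_left nhdsWithin_le_nhds
    · filter_upwards [self_mem_nhdsWithin] with t ht
      have ht' : 0 < t := ht
      show 0 < 2 * t
      linarith
  have h2 := (gg_isBigO (2 * ((u : ℚ) / NN S)) b).comp_tendsto h1
  refine h2.trans ?_
  refine IsBigO.of_bound (2 ^ (-b)) ?_
  filter_upwards [self_mem_nhdsWithin] with t ht
  have ht' : 0 < t := ht
  simp only [Function.comp_apply]
  rw [Real.mul_rpow (by norm_num) ht'.le, norm_mul, Real.norm_of_nonneg (by positivity)]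

lemma phi_top : (phi S) =O[atTop] (fun t : ℝ => Real.exp (-(2 * Real.pi) * t)) := by
  unfold phi
  refine IsBigO.const_mul_left (IsBigO.fun_sum fun u _ => IsBigO.const_mul_left ?_ _) _
  have h1 : Tendsto (fun t : ℝ => 2 * t) atTop atTop := tendsto_id.const_mul_atTop two_pos
  have h2 := (gg_isBigO_top (2 * ((u : ℚ) / NN S))).comp_tendsto h1
  refine h2.congr_right fun t => ?_
  simp only [Function.comp_apply]
  congr 1
  ring

/-- the `L`-function -/
noncomputable def LL (S : Finset ℕ) [NeZero (NN S)] (s : ℂ) : ℂ :=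
  ((2 * Real.pi : ℝ) : ℂ) ^ s * (Complex.Gamma s)⁻¹ * mellin (phi S) s

theorem LL_diff : Differentiable ℂ (LL S) := by
  intro s
  have hpi := Real.pi_pos
  have h1 : DifferentiableAt ℂ (mellin (phi S)) s :=
    mellin_differentiableAt_of_isBigO_rpow_exp (a := 2 * Real.pi) (b := s.re - 1) (by positivity)
      (phi_cont.locallyIntegrableOn measurableSet_Ioi) phi_top (phi_zero _) (by linarith)
  have h2 : DifferentiableAt ℂ (fun s : ℂ => ((2 * Real.pi : ℝ) : ℂ) ^ s) s := by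
    have h3 : (((2 * Real.pi : ℝ) : ℂ)) ≠ 0 := by
      exact_mod_cast (by positivity : (2 * Real.pi) ≠ 0)
    exact (differentiableAt_id).const_cpow (Or.inl h3)
  exact (h2.mul (Complex.differentiable_one_div_Gamma s)).mul h1

/-- the value at the centre -/
theorem LL_one (hS : Adm S) : LL S 1 = (gs S)⁻¹ * MR (fun x => J (2 * x)) S := by
  have hpi := Real.pi_pos
  have hpiC : (Real.pi : ℂ) ≠ 0 := by exact_mod_cast hpi.ne'
  unfold LL
  rw [Complex.cpow_one, Complex.Gamma_one, inv_one, mul_one]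
  have h1 : mellin (phi S) 1 = ∫ t in Ioi (0 : ℝ), phi S t := by
    rw [mellin]
    refine setIntegral_congr_fun measurableSet_Ioi fun t ht => ?_
    simp
  have hint : ∀ u : ℕ, IntegrableOn (fun t : ℝ => gg (((2 * ((u : ℚ) / NN S) : ℚ) : ℂ) +
      ((2 * t : ℝ) : ℂ) * Complex.I)) (Ioi 0) ∧
      ∫ t in Ioi (0 : ℝ), gg (((2 * ((u : ℚ) / NN S) : ℚ) : ℂ) + ((2 * t : ℝ) : ℂ) * Complex.I) =
        J (2 * ((u : ℚ) / NN S)) / (2 * Real.pi) := by
    intro u
    obtain ⟨L, hL⟩ := exists_lim (2 * ((u : ℚ) / NN S))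
    have h2 := lim_int hL
    constructor
    · have h3 := integrableOn_Ioi_comp_mul_left_iff
        (fun t : ℝ => gg (((2 * ((u : ℚ) / NN S) : ℚ) : ℂ) + (t : ℂ) * Complex.I)) 0
        (two_pos : (0 : ℝ) < 2)
      rw [mul_zero] at h3
      exact h3.2 h2.1
    · have h3 := integral_comp_mul_left_Ioi
        (fun t : ℝ => gg (((2 * ((u : ℚ) / NN S) : ℚ) : ℂ) + (t : ℂ) * Complex.I)) 0
        (two_pos : (0 : ℝ) < 2)
      rw [h3, mul_zero, Complex.real_smul]
      unfold J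
      generalize (∫ t in Ioi (0 : ℝ), gg (((2 * ((u : ℚ) / NN S) : ℚ) : ℂ) + (t : ℂ) * Complex.I)) = X
      push_cast
      field_simp
  rw [h1]
  unfold phi MR TS
  rw [integral_const_mul, integral_finset_sum _ (fun u _ => (hint u).1.const_mul _)]
  have h4 : ∀ u ∈ CC (NN S), ∫ t in Ioi (0 : ℝ), cf S u *
      gg (((2 * ((u : ℚ) / NN S) : ℚ) : ℂ) + ((2 * t : ℝ) : ℂ) * Complex.I) =
      (cf S u * J (2 * ((u : ℚ) / NN S))) / (2 * Real.pi) := by
    intro u _
    rw [integral_const_mul, (hint u).2]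
    ring
  rw [Finset.sum_congr rfl h4, ← Finset.sum_div]
  push_cast
  field_simp

/-- the Dirichlet series -/
theorem LL_series (hS : Adm S) {s : ℂ} (hs : 2 < s.re) :
    LL S s = ∑' n : ℕ, (cf S n * (A n : ℂ)) * (n : ℂ) ^ (-s) := by
  have hpi := Real.pi_pos
  obtain ⟨C, hC0, hC⟩ := Pool.Agent.TH940.coeff_bd f20
  have hs0 : 0 < s.re := by linarith
  have hp : ∀ n : ℕ, cf S n * (A n : ℂ) = 0 ∨ 0 < 2 * Real.pi * n := by
    intro n
    rcases Nat.eq_zero_or_pos n with rfl | hn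
    · left
      rw [W97.V20.A_zero]; simp
    · right
      have : (0 : ℝ) < n := by exact_mod_cast hn
      positivity
  have hsum : Summable fun n : ℕ => ‖cf S n * (A n : ℂ)‖ / (2 * Real.pi * n) ^ s.re := by
    have h1 : Summable fun n : ℕ => (C * ((2 * Real.pi) ^ s.re)⁻¹) * (n : ℝ) ^ (1 - s.re) :=
      (Real.summable_nat_rpow.2 (by linarith)).mul_left _
    refine Summable.of_nonneg_of_le (fun n => by positivity) (fun n => ?_) h1
    rcases Nat.eq_zero_or_pos n with rfl | hn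
    · rw [W97.V20.A_zero]
      simp
      positivity
    · have hn' : (0 : ℝ) < n := by exact_mod_cast hn
      have h2 := hC n hn
      rw [coeff_f20, Real.rpow_one] at h2
      have h3 : ‖cf S n‖ ≤ 1 := by
        rw [← jc_cf hS]
        exact DirichletCharacter.norm_le_one _ _
      rw [norm_mul, Real.mul_rpow (by positivity) hn'.le, div_le_iff₀ (by positivity)]
      have e : (C * ((2 * Real.pi) ^ s.re)⁻¹) * (n : ℝ) ^ (1 - s.re) *
          ((2 * Real.pi) ^ s.re * (n : ℝ) ^ s.re) = C * n := by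
        rw [Real.rpow_sub hn', Real.rpow_one]
        field_simp
      rw [e]
      calc ‖cf S n‖ * ‖(A n : ℂ)‖ ≤ 1 * (C * n) :=
            mul_le_mul h3 h2 (norm_nonneg _) zero_le_one
        _ = C * n := one_mul _
  have h5 := hasSum_mellin (a := fun n : ℕ => cf S n * (A n : ℂ)) (p := fun n : ℕ => 2 * Real.pi * n)
    (F := phi S) (s := s) hp hs0 (fun t ht => by
      have h6 := phi_hasSum hS (t := t) ht
      exact h6) hsum
  unfold LL
  have hG : Complex.Gamma s ≠ 0 := Complex.Gamma_ne_zero_of_re_pos hs0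
  have h2pi : (((2 * Real.pi : ℝ) : ℂ)) ≠ 0 := by
    exact_mod_cast (by positivity : (2 * Real.pi) ≠ 0)
  rw [← h5.tsum_eq, ← tsum_mul_left]
  refine tsum_congr fun n => ?_
  rcases Nat.eq_zero_or_pos n with rfl | hn
  · rw [W97.V20.A_zero]; simp
  · have hn' : (0 : ℝ) < n := by exact_mod_cast hn
    have hnC : (n : ℂ) ≠ 0 := by exact_mod_cast hn'.ne'
    have e1 : (((2 * Real.pi * n : ℝ) : ℂ)) ^ s = ((2 * Real.pi : ℝ) : ℂ) ^ s * (n : ℂ) ^ s := by
      rw [Complex.ofReal_mul, Complex.mul_cpow_ofReal_nonneg (by positivity) hn'.le]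
      push_cast
      rfl
    rw [e1, Complex.cpow_neg]
    have h7 : ((2 * Real.pi : ℝ) : ℂ) ^ s ≠ 0 := by
      rw [Ne, Complex.cpow_eq_zero_iff]
      exact fun h => h2pi h.1
    have h8 : (n : ℂ) ^ s ≠ 0 := by
      rw [Ne, Complex.cpow_eq_zero_iff]
      exact fun h => hnC h.1
    field_simp

end

end Pool.Agent.Y695
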