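import Pool.Agent.Y695.Lfun
import Pool.Agent.Y695.Twist
import Pool.Agent.W388.TW.Parts

/-!
The Euler product of the `L`-function of the twist.
-/

set_option autoImplicit false
set_option linter.all false

open Filter Topology MeasureTheory Set UpperHalfPlane MatrixGroups CongruenceSubgroup

namespace Pool.Agent.Y695

open Pool.Agent.W97.V20 (f20 coeff_f20)

lemma lam_mul (n : ℕ) (hn : n ≠ 0) (s : ℂ) :
    (W388.lamf f20 n : ℂ) * (n : ℂ) ^ (-s) = (W97.V20.A n : ℂ) * (n : ℂ) ^ (-(s + 1 / 2)) := by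
  have hn' : (n : ℂ) ≠ 0 := by exact_mod_cast hn
  rw [← coeff_f20, W388.lamf_eq isNewf20 n hn]
  have e : ((((2 : ℤ) : ℂ) - 1) / 2) = 1 / 2 := by push_cast; norm_num
  rw [e, show (-(s + 1 / 2) : ℂ) = -s + -(1 / 2) by ring, Complex.cpow_add _ _ hn',
    Complex.cpow_neg (n : ℂ) (1 / 2)]
  have hne : (n : ℂ) ^ (1 / 2 : ℂ) ≠ 0 := by
    rw [Ne, Complex.cpow_eq_zero_iff]
    exact fun h => hn' h.1
  field_simp

/-- the Euler product -/
theorem LL_prod {S : Finset ℕ} (hS : Adm S) [NeZero (NN S)] {s : ℂ} (hs : 3 / 2 < s.re) :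
    HasProd (fun p : Nat.Primes => (1 - (cf S p * (W97.V20.A p : ℂ)) * ((p : ℕ) : ℂ) ^ (-s) +
      (if (p : ℕ) ∣ 20 then 0 else cf S p ^ 2 * ((p : ℕ) : ℂ) ^ (1 - 2 * s)))⁻¹) (LL S s) := by
  have hH := W388.heckeSeq_lamf isNewf20
  have hR := W388.p_rs 20 2 (by norm_num) f20 1 isNewf20
  obtain ⟨C, hC, d1, d2, d3⟩ := W388.p_dir 20 (by norm_num) (W388.lamf f20) hH hR
  set G : ℂ → ℂ := fun z => LL S (z + 1 / 2) with hG
  have hGd : Differentiable ℂ G := by
    have h1 : Differentiable ℂ (fun z : ℂ => z + 1 / 2) := by fun_prop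
    exact (LL_diff (S := S)).comp h1
  have hl0 : (W388.lamf f20 0 : ℂ) = 0 := by rw [hH.zero]; simp
  have hsum : ∀ s : ℂ, 1 < s.re → Summable (fun n : ℕ =>
      ‖jc (NN S) (n : ZMod (NN S)) * (W388.lamf f20 n : ℂ) * (n : ℂ) ^ (-s)‖) :=
    fun s hs => (d3 (NN S) (jc (NN S)) (fun s => ∑' n : ℕ, jc (NN S) (n : ZMod (NN S)) *
      (W388.lamf f20 n : ℂ) * (n : ℂ) ^ (-s)) (fun _ _ => rfl)).1 s hs
  have hser : ∀ z : ℂ, 1 < z.re → G z = ∑' n : ℕ, jc (NN S) (n : ZMod (NN S)) *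
      (W388.lamf f20 n : ℂ) * (n : ℂ) ^ (-z) := by
    intro z hz
    refine W388.ext_series G hGd (fun n => jc (NN S) (n : ZMod (NN S)) * (W388.lamf f20 n : ℂ))
      (by simp only [hl0, mul_zero]) hsum 2 (fun w hw => ?_) z hz
    have h1 : 2 < (w + 1 / 2).re := by
      rw [Complex.add_re]
      have : (1 / 2 : ℂ).re = 1 / 2 := by norm_num
      rw [this]
      linarith
    show LL S (w + 1 / 2) = _
    rw [LL_series hS h1]
    refine tsum_congr fun n => ?_
    rcases Nat.eq_zero_or_pos n with rfl | hn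
    · rw [W97.V20.A_zero, hl0]; simp
    · rw [jc_cf hS, mul_assoc (cf S n) (W388.lamf f20 n : ℂ), lam_mul n hn.ne']
      ring
  obtain ⟨-, -, -, -, -, e6⟩ := d3 (NN S) (jc (NN S)) G hser
  have h1 : 1 < (s - 1 / 2).re := by
    rw [Complex.sub_re]
    have : (1 / 2 : ℂ).re = 1 / 2 := by norm_num
    rw [this]
    linarith
  have h2 := e6 (s - 1 / 2) h1
  have h3 : G (s - 1 / 2) = LL S s := by
    show LL S (s - 1 / 2 + 1 / 2) = LL S s
    rw [sub_add_cancel]
  rw [h3] at h2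
  refine h2.congr_fun ?_ |> fun x => x
  intro p
  have hp0 : (p : ℕ) ≠ 0 := p.2.ne_zero
  congr 2
  · rw [jc_cf hS, mul_assoc (cf S p) (W388.lamf f20 p : ℂ), lam_mul (p : ℕ) hp0]
    have e : (-(s - 1 / 2 + 1 / 2) : ℂ) = -s := by ring
    rw [e]
    ring
  · by_cases h20 : (p : ℕ) ∣ 20
    · rw [if_pos h20, if_pos h20]
    · rw [if_neg h20, if_neg h20, jc_cf hS]
      have e : (-2 * (s - 1 / 2) : ℂ) = 1 - 2 * s := by ring
      rw [e]

/-- **the `L`-function of the curve** -/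
theorem LL_isLFun {S : Finset ℕ} (hS : Adm S) [NeZero (NN S)] : IsLFun (ED (DD S)) (LL S) := by
  refine ⟨LL_diff, fun s hs => ?_⟩
  refine (LL_prod hS hs).congr_fun ?_ |> fun x => x
  intro p
  have hp := p.2
  congr 2
  · rw [ap_twist hS hp]
    unfold cf
    push_cast
    rfl
  · have hdisc : (((p : ℕ) : ℤ) ∣ (ED (DD S)).Δ) ↔ ((p : ℕ) ∣ 20 ∨ (p : ℕ) ∈ S) := by
      have h1 : ((p : ℕ) ∈ (ED (DD S)).Δ.natAbs.primeFactors) ↔
          (((p : ℕ) : ℤ) ∣ (ED (DD S)).Δ) := by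
        rw [Nat.mem_primeFactors, Int.natCast_dvd]
        have h2 : (ED (DD S)).Δ.natAbs ≠ 0 := by
          rw [disc_ED, Int.natAbs_ne_zero]
          exact mul_ne_zero (by norm_num) (pow_ne_zero 6 (DD_ne hS))
        exact ⟨fun h => h.2.1, fun h => ⟨hp, h, h2⟩⟩
      rw [← h1, primeFactors_ED (DD_ne hS), primeFactors_DD hS, Finset.mem_union]
      constructor
      · rintro (h | h)
        · left
          rw [Finset.mem_insert, Finset.mem_singleton] at h
          rcases h with h | h <;> rw [h] <;> norm_num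
        · exact Or.inr h
      · rintro (h | h)
        · left
          rw [Finset.mem_insert, Finset.mem_singleton]
          by_contra h3
          rw [not_or] at h3
          exact W97.V20.dvd_20 hp h3.1 h3.2 h
        · exact Or.inr h
    by_cases h20 : (p : ℕ) ∣ 20
    · rw [if_pos h20, if_pos (hdisc.2 (Or.inl h20))]
    · rw [if_neg h20]
      by_cases hpS : (p : ℕ) ∈ S
      · rw [if_pos (hdisc.2 (Or.inr hpS))]
        have h1 : cf S p = 0 := by
          unfold cf ch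
          rw [Finset.prod_eq_zero hpS, Int.cast_zero]
          haveI : NeZero (p : ℕ) := ⟨hp.ne_zero⟩
          rw [jacobiSym.eq_zero_iff_not_coprime, Int.gcd_natCast_natCast]
          rw [Nat.gcd_self]
          exact hp.one_lt.ne'
        rw [h1]
        ring
      · rw [if_neg (fun h => (hdisc.1 h).elim h20 hpS)]
        have h1 : cf S p ^ 2 = 1 := by
          rw [pow_two]
          apply cf_sq
          intro r hr
          exact (Nat.coprime_primes hp (hS r hr).1).2 fun e => hpS (e ▸ hr)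
        rw [h1, one_mul]

end Pool.Agent.Y695
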