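import Pool.Agent.Y695.Lfun
import Pool.Agent.Y695.Twist
import Pool.Agent.W388.TW.Parts
import Pool.Agent.Y695.Lfun2

/-!
The `L`-functions of the twists by primitive real characters.
-/

set_option autoImplicit false
set_option linter.all false

open Filter Topology MeasureTheory Set Asymptotics ZMod

namespace Pool.Agent.Y695

open Pool.Agent.W97.TW
open Pool.Agent.W97.V20
open Pool.Agent.W97.MT (qq qq_ne norm_qq norm_qq_lt iI iI_pos iI_eventually line_im line_re
  tendsto_qq)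

section

variable {M : ℕ} [NeZero M] (χ : DirichletCharacter ℂ M)

/-- the Gauss sum -/
noncomputable def gsx : ℂ := gaussSum χ (stdAddChar (N := M))

variable {χ}

theorem gsx_sq (hp : χ.IsPrimitive) (hr : χ⁻¹ = χ) : gsx χ ^ 2 = χ (-1) * (M : ℂ) := by
  have h1 := Pool.Agent.W378.CY.gauss_prod M χ hp
  rw [hr] at h1
  have h7 : χ (-1) * χ (-1) = 1 := by
    rw [← map_mul, neg_one_mul, neg_neg, map_one]
  unfold gsx
  linear_combination (χ (-1)) * h1 - (gaussSum χ (stdAddChar (N := M))) ^ 2 * h7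

lemma gsx_ne (hp : χ.IsPrimitive) (hr : χ⁻¹ = χ) : gsx χ ≠ 0 := by
  intro h
  have h1 := gsx_sq hp hr
  rw [h] at h1
  have h2 : (M : ℂ) ≠ 0 := by exact_mod_cast NeZero.ne M
  have h7 : χ (-1) * χ (-1) = 1 := by
    rw [← map_mul, neg_one_mul, neg_neg, map_one]
  have h3 : χ (-1) ≠ 0 := by
    intro h4
    rw [h4] at h7
    norm_num at h7
  have h4 := mul_ne_zero h3 h2
  rw [← h1] at h4
  norm_num at h4

/-- the twist by additive characters -/
theorem gsx_twist (hp : χ.IsPrimitive) (hr : χ⁻¹ = χ) (n : ℕ) :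
    ∑ u : ZMod M, χ u * Complex.exp (2 * Real.pi * Complex.I * ((u.val : ℂ) * n) / M) =
      gsx χ * χ (n : ZMod M) := by
  have h2 := gaussSum_mulShift_of_isPrimitive (stdAddChar (N := M)) hp (n : ZMod M)
  rw [hr] at h2
  unfold gsx
  rw [mul_comm (gaussSum _ _), ← h2]
  unfold gaussSum
  refine Finset.sum_congr rfl fun u _ => ?_
  rw [AddChar.mulShift_apply]
  have h5 : ((n : ZMod M) * u) = (((u.val : ℤ) * (n : ℤ) : ℤ) : ZMod M) := by
    push_cast
    rw [ZMod.natCast_zmod_val]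
    ring
  rw [h5, stdAddChar_coe]
  push_cast
  rfl

variable (χ)

/-- the twisted form on the imaginary axis -/
noncomputable def phx (t : ℝ) : ℂ :=
  (gsx χ)⁻¹ * ∑ u : ZMod M, χ u *
    gg (((2 * ((u.val : ℚ) / M) : ℚ) : ℂ) + ((2 * t : ℝ) : ℂ) * Complex.I)

variable {χ}

lemma phx_hasSum (hp : χ.IsPrimitive) (hr : χ⁻¹ = χ) {t : ℝ} (ht : 0 < t) :
    HasSum (fun n : ℕ => (χ (n : ZMod M) * (A n : ℂ)) *
    Real.exp (-(2 * Real.pi * n) * t)) (phx χ t) := by
  have hg := gsx_ne hp hr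
  have hN : (M : ℂ) ≠ 0 := by exact_mod_cast NeZero.ne M
  have h1 : ∀ u : ZMod M, HasSum (fun n : ℕ => (gsx χ)⁻¹ * (χ u * ((A n : ℂ) *
      qq ((u.val : ℂ) / M + t * Complex.I) ^ n)))
      ((gsx χ)⁻¹ * (χ u * gg (((2 * ((u.val : ℚ) / M) : ℚ) : ℂ) +
        ((2 * t : ℝ) : ℂ) * Complex.I))) := by
    intro u
    have hz : 0 < ((u.val : ℂ) / M + t * Complex.I).im := by
      have : ((u.val : ℂ) / M + t * Complex.I) = (((u.val : ℝ) / M : ℝ) : ℂ) + t * Complex.I := by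
        push_cast; rfl
      rw [this]
      simpa using ht
    have h2 := hasSum_A hz
    have e : 2 * ((u.val : ℂ) / M + t * Complex.I) =
        ((2 * ((u.val : ℚ) / M) : ℚ) : ℂ) + ((2 * t : ℝ) : ℂ) * Complex.I := by
      push_cast; ring
    rw [e] at h2
    exact (h2.mul_left _).mul_left _
  have h3 := hasSum_sum (s := Finset.univ) (fun (u : ZMod M) _ => h1 u)
  rw [← Finset.mul_sum] at h3
  refine h3.congr_fun ?_ |> fun x => x
  intro n
  rw [← Finset.mul_sum]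
  have h4 : ∀ u : ZMod M, χ u * ((A n : ℂ) * qq ((u.val : ℂ) / M + t * Complex.I) ^ n) =
      ((A n : ℂ) * Real.exp (-(2 * Real.pi * n) * t)) *
      (χ u * Complex.exp (2 * Real.pi * Complex.I * ((u.val : ℂ) * n) / M)) := by
    intro u
    have h5 : qq ((u.val : ℂ) / M + t * Complex.I) ^ n =
        Real.exp (-(2 * Real.pi * n) * t) *
          Complex.exp (2 * Real.pi * Complex.I * ((u.val : ℂ) * n) / M) := by
      unfold qq
      rw [← Complex.exp_nat_mul, Complex.ofReal_exp, ← Complex.exp_add]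
      congr 1
      push_cast
      field_simp
      linear_combination (n * t * M : ℂ) * Complex.I_mul_I
    rw [h5]
    ring
  rw [Finset.sum_congr rfl fun u _ => h4 u, ← Finset.mul_sum, gsx_twist hp hr]
  field_simp

lemma phx_cont : ContinuousOn (phx χ) (Ioi 0) := by
  unfold phx
  refine continuousOn_const.mul (continuousOn_finset_sum _ fun u _ => continuousOn_const.mul ?_)
  refine gg_cont.comp (by fun_prop) ?_
  intro t ht
  have ht' : 0 < t := ht
  show 0 < (((2 * ((u.val : ℚ) / M) : ℚ) : ℂ) + ((2 * t : ℝ) : ℂ) * Complex.I).im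
  rw [line_im]
  simp
  exact ht'

lemma phx_zero (b : ℝ) : (phx χ) =O[𝓝[>] 0] (fun t : ℝ => t ^ (-b)) := by
  unfold phx
  refine IsBigO.const_mul_left (IsBigO.fun_sum fun u _ => IsBigO.const_mul_left ?_ _) _
  have h1 : Tendsto (fun t : ℝ => 2 * t) (𝓝[>] 0) (𝓝[>] 0) := by
    refine tendsto_nhdsWithin_iff.2 ⟨?_, ?_⟩
    · have : Tendsto (fun t : ℝ => 2 * t) (𝓝 0) (𝓝 (2 * 0)) := tendsto_id.const_mul 2
      rw [mul_zero] at this
      exact this.mono_left nhdsWithin_le_nhds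
    · filter_upwards [self_mem_nhdsWithin] with t ht
      have ht' : 0 < t := ht
      show 0 < 2 * t
      linarith
  have h2 := (gg_isBigO (2 * ((u.val : ℚ) / M)) b).comp_tendsto h1
  refine h2.trans ?_
  refine IsBigO.of_bound (2 ^ (-b)) ?_
  filter_upwards [self_mem_nhdsWithin] with t ht
  have ht' : 0 < t := ht
  simp only [Function.comp_apply]
  rw [Real.mul_rpow (by norm_num) ht'.le, norm_mul, Real.norm_of_nonneg (by positivity)]

lemma phx_top : (phx χ) =O[atTop] (fun t : ℝ => Real.exp (-(2 * Real.pi) * t)) := by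
  unfold phx
  refine IsBigO.const_mul_left (IsBigO.fun_sum fun u _ => IsBigO.const_mul_left ?_ _) _
  have h1 : Tendsto (fun t : ℝ => 2 * t) atTop atTop := tendsto_id.const_mul_atTop two_pos
  have h2 := (gg_isBigO_top (2 * ((u.val : ℚ) / M))).comp_tendsto h1
  refine h2.congr_right fun t => ?_
  simp only [Function.comp_apply]
  congr 1
  ring

variable (χ) in
/-- the `L`-function -/
noncomputable def LLx (s : ℂ) : ℂ :=
  ((2 * Real.pi : ℝ) : ℂ) ^ s * (Complex.Gamma s)⁻¹ * mellin (phx χ) s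

theorem LLx_diff : Differentiable ℂ (LLx χ) := by
  intro s
  have hpi := Real.pi_pos
  have h1 : DifferentiableAt ℂ (mellin (phx χ)) s :=
    mellin_differentiableAt_of_isBigO_rpow_exp (a := 2 * Real.pi) (b := s.re - 1) (by positivity)
      (phx_cont.locallyIntegrableOn measurableSet_Ioi) phx_top (phx_zero _) (by linarith)
  have h2 : DifferentiableAt ℂ (fun s : ℂ => ((2 * Real.pi : ℝ) : ℂ) ^ s) s := by
    have h3 : (((2 * Real.pi : ℝ) : ℂ)) ≠ 0 := by
      exact_mod_cast (by positivity : (2 * Real.pi) ≠ 0)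
    exact (differentiableAt_id).const_cpow (Or.inl h3)
  exact (h2.mul (Complex.differentiable_one_div_Gamma s)).mul h1

/-- the value at the centre -/
theorem LLx_one : LLx χ 1 = (gsx χ)⁻¹ * ∑ u : ZMod M, χ u * J (2 * ((u.val : ℚ) / M)) := by
  have hpi := Real.pi_pos
  have hpiC : (Real.pi : ℂ) ≠ 0 := by exact_mod_cast hpi.ne'
  unfold LLx
  rw [Complex.cpow_one, Complex.Gamma_one, inv_one, mul_one]
  have h1 : mellin (phx χ) 1 = ∫ t in Ioi (0 : ℝ), phx χ t := by
    rw [mellin]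
    refine setIntegral_congr_fun measurableSet_Ioi fun t ht => ?_
    simp
  have hint : ∀ u : ZMod M, IntegrableOn (fun t : ℝ => gg (((2 * ((u.val : ℚ) / M) : ℚ) : ℂ) +
      ((2 * t : ℝ) : ℂ) * Complex.I)) (Ioi 0) ∧
      ∫ t in Ioi (0 : ℝ), gg (((2 * ((u.val : ℚ) / M) : ℚ) : ℂ) + ((2 * t : ℝ) : ℂ) * Complex.I) =
        J (2 * ((u.val : ℚ) / M)) / (2 * Real.pi) := by
    intro u
    obtain ⟨L, hL⟩ := exists_lim (2 * ((u.val : ℚ) / M))
    have h2 := lim_int hL
    constructor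
    · have h3 := integrableOn_Ioi_comp_mul_left_iff
        (fun t : ℝ => gg (((2 * ((u.val : ℚ) / M) : ℚ) : ℂ) + (t : ℂ) * Complex.I)) 0
        (two_pos : (0 : ℝ) < 2)
      rw [mul_zero] at h3
      exact h3.2 h2.1
    · have h3 := integral_comp_mul_left_Ioi
        (fun t : ℝ => gg (((2 * ((u.val : ℚ) / M) : ℚ) : ℂ) + (t : ℂ) * Complex.I)) 0
        (two_pos : (0 : ℝ) < 2)
      rw [h3, mul_zero, Complex.real_smul]
      unfold J
      generalize (∫ t in Ioi (0 : ℝ), gg (((2 * ((u.val : ℚ) / M) : ℚ) : ℂ) + (t : ℂ) * Complex.I)) = X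
      push_cast
      field_simp
  rw [h1]
  unfold phx
  rw [integral_const_mul, integral_finset_sum _ (fun u _ => (hint u).1.const_mul _)]
  have h4 : ∀ u ∈ (Finset.univ : Finset (ZMod M)), ∫ t in Ioi (0 : ℝ), χ u *
      gg (((2 * ((u.val : ℚ) / M) : ℚ) : ℂ) + ((2 * t : ℝ) : ℂ) * Complex.I) =
      (χ u * J (2 * ((u.val : ℚ) / M))) / (2 * Real.pi) := by
    intro u _
    rw [integral_const_mul, (hint u).2]
    ring
  rw [Finset.sum_congr rfl h4, ← Finset.sum_div]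
  push_cast
  field_simp

/-- the Dirichlet series -/
theorem LLx_series (hpr : χ.IsPrimitive) (hr : χ⁻¹ = χ) {s : ℂ} (hs : 2 < s.re) :
    LLx χ s = ∑' n : ℕ, (χ (n : ZMod M) * (A n : ℂ)) * (n : ℂ) ^ (-s) := by
  have hpi := Real.pi_pos
  obtain ⟨C, hC0, hC⟩ := Pool.Agent.TH940.coeff_bd f20
  have hs0 : 0 < s.re := by linarith
  have hp : ∀ n : ℕ, χ (n : ZMod M) * (A n : ℂ) = 0 ∨ 0 < 2 * Real.pi * n := by
    intro n
    rcases Nat.eq_zero_or_pos n with rfl | hn
    · left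
      rw [W97.V20.A_zero]; simp
    · right
      have : (0 : ℝ) < n := by exact_mod_cast hn
      positivity
  have hsum : Summable fun n : ℕ => ‖χ (n : ZMod M) * (A n : ℂ)‖ / (2 * Real.pi * n) ^ s.re := by
    have h1 : Summable fun n : ℕ => (C * ((2 * Real.pi) ^ s.re)⁻¹) * (n : ℝ) ^ (1 - s.re) :=
      (Real.summable_nat_rpow.2 (by linarith)).mul_left _
    refine Summable.of_nonneg_of_le (fun n => by positivity) (fun n => ?_) h1
    rcases Nat.eq_zero_or_pos n with rfl | hn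
    · rw [W97.V20.A_zero]
      simp
      positivity
    · have hn' : (0 : ℝ) < n := by exact_mod_cast hn
      have h2 := hC n hn
      rw [coeff_f20, Real.rpow_one] at h2
      have h3 : ‖χ (n : ZMod M)‖ ≤ 1 := DirichletCharacter.norm_le_one _ _
      rw [norm_mul, Real.mul_rpow (by positivity) hn'.le, div_le_iff₀ (by positivity)]
      have e : (C * ((2 * Real.pi) ^ s.re)⁻¹) * (n : ℝ) ^ (1 - s.re) *
          ((2 * Real.pi) ^ s.re * (n : ℝ) ^ s.re) = C * n := by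
        rw [Real.rpow_sub hn', Real.rpow_one]
        field_simp
      rw [e]
      calc ‖χ (n : ZMod M)‖ * ‖(A n : ℂ)‖ ≤ 1 * (C * n) :=
            mul_le_mul h3 h2 (norm_nonneg _) zero_le_one
        _ = C * n := one_mul _
  have h5 := hasSum_mellin (a := fun n : ℕ => χ (n : ZMod M) * (A n : ℂ))
    (p := fun n : ℕ => 2 * Real.pi * n)
    (F := phx χ) (s := s) hp hs0 (fun t ht => by
      have h6 := phx_hasSum hpr hr (t := t) ht
      exact h6) hsum
  unfold LLx
  have hG : Complex.Gamma s ≠ 0 := Complex.Gamma_ne_zero_of_re_pos hs0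
  have h2pi : (((2 * Real.pi : ℝ) : ℂ)) ≠ 0 := by
    exact_mod_cast (by positivity : (2 * Real.pi) ≠ 0)
  rw [← h5.tsum_eq, ← tsum_mul_left]
  refine tsum_congr fun n => ?_
  rcases Nat.eq_zero_or_pos n with rfl | hn
  · rw [W97.V20.A_zero]; simp
  · have hn' : (0 : ℝ) < n := by exact_mod_cast hn
    have hnC : (n : ℂ) ≠ 0 := by exact_mod_cast hn'.ne'
    have e1 : (((2 * Real.pi * n : ℝ) : ℂ)) ^ s = ((2 * Real.pi : ℝ) : ℂ) ^ s * (n : ℂ) ^ s := by
      rw [Complex.ofReal_mul, Complex.mul_cpow_ofReal_nonneg (by positivity) hn'.le]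
      push_cast
      rfl
    rw [e1, Complex.cpow_neg]
    have h7 : ((2 * Real.pi : ℝ) : ℂ) ^ s ≠ 0 := by
      rw [Ne, Complex.cpow_eq_zero_iff]
      exact fun h => h2pi h.1
    have h8 : (n : ℂ) ^ s ≠ 0 := by
      rw [Ne, Complex.cpow_eq_zero_iff]
      exact fun h => hnC h.1
    field_simp

open Pool.Agent.W97.MT (ap)

/-- the Euler product -/
theorem LLx_prod (hpr : χ.IsPrimitive) (hr : χ⁻¹ = χ) {s : ℂ} (hs : 3 / 2 < s.re) :
    HasProd (fun p : Nat.Primes => (1 - (χ ((p : ℕ) : ZMod M) * (A p : ℂ)) * ((p : ℕ) : ℂ) ^ (-s) +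
      (if (p : ℕ) ∣ 20 then 0 else χ ((p : ℕ) : ZMod M) ^ 2 * ((p : ℕ) : ℂ) ^ (1 - 2 * s)))⁻¹)
      (LLx χ s) := by
  have hH := W388.heckeSeq_lamf isNewf20
  have hR := W388.p_rs 20 2 (by norm_num) f20 1 isNewf20
  obtain ⟨C, hC, d1, d2, d3⟩ := W388.p_dir 20 (by norm_num) (W388.lamf f20) hH hR
  set G : ℂ → ℂ := fun z => LLx χ (z + 1 / 2) with hG
  have hGd : Differentiable ℂ G := by
    have h1 : Differentiable ℂ (fun z : ℂ => z + 1 / 2) := by fun_prop
    exact (LLx_diff (χ := χ)).comp h1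
  have hl0 : (W388.lamf f20 0 : ℂ) = 0 := by rw [hH.zero]; simp
  have hsum : ∀ s : ℂ, 1 < s.re → Summable (fun n : ℕ =>
      ‖χ (n : ZMod M) * (W388.lamf f20 n : ℂ) * (n : ℂ) ^ (-s)‖) :=
    fun s hs => (d3 M χ (fun s => ∑' n : ℕ, χ (n : ZMod M) *
      (W388.lamf f20 n : ℂ) * (n : ℂ) ^ (-s)) (fun _ _ => rfl)).1 s hs
  have hser : ∀ z : ℂ, 1 < z.re → G z = ∑' n : ℕ, χ (n : ZMod M) *
      (W388.lamf f20 n : ℂ) * (n : ℂ) ^ (-z) := by
    intro z hz
    refine W388.ext_series G hGd (fun n => χ (n : ZMod M) * (W388.lamf f20 n : ℂ))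
      (by simp only [hl0, mul_zero]) hsum 2 (fun w hw => ?_) z hz
    have h1 : 2 < (w + 1 / 2).re := by
      rw [Complex.add_re]
      have : (1 / 2 : ℂ).re = 1 / 2 := by norm_num
      rw [this]
      linarith
    show LLx χ (w + 1 / 2) = _
    rw [LLx_series hpr hr h1]
    refine tsum_congr fun n => ?_
    rcases Nat.eq_zero_or_pos n with rfl | hn
    · rw [W97.V20.A_zero, hl0]; simp
    · rw [mul_assoc (χ (n : ZMod M)) (W388.lamf f20 n : ℂ), lam_mul n hn.ne']
      ring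
  obtain ⟨-, -, -, -, -, e6⟩ := d3 M χ G hser
  have h1 : 1 < (s - 1 / 2).re := by
    rw [Complex.sub_re]
    have : (1 / 2 : ℂ).re = 1 / 2 := by norm_num
    rw [this]
    linarith
  have h2 := e6 (s - 1 / 2) h1
  have h3 : G (s - 1 / 2) = LLx χ s := by
    show LLx χ (s - 1 / 2 + 1 / 2) = LLx χ s
    rw [sub_add_cancel]
  rw [h3] at h2
  refine h2.congr_fun ?_ |> fun x => x
  intro p
  have hp0 : (p : ℕ) ≠ 0 := p.2.ne_zero
  congr 2
  · rw [mul_assoc (χ ((p : ℕ) : ZMod M)) (W388.lamf f20 p : ℂ), lam_mul (p : ℕ) hp0]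
    have e : (-(s - 1 / 2 + 1 / 2) : ℂ) = -s := by ring
    rw [e]
    ring
  · by_cases h20 : (p : ℕ) ∣ 20
    · rw [if_pos h20, if_pos h20]
    · rw [if_neg h20, if_neg h20]
      have e : (-2 * (s - 1 / 2) : ℂ) = 1 - 2 * s := by ring
      rw [e]

/-- **the `L`-function of the curve** -/
theorem LLx_isLFun (hpr : χ.IsPrimitive) (hr : χ⁻¹ = χ) {D : ℤ} (hD : D ≠ 0)
    (h1 : ∀ p : ℕ, p.Prime → (ap (ED D) p : ℂ) = χ (p : ZMod M) * A p)
    (h2 : ∀ p : ℕ, p.Prime → ¬ p ∣ 20 → ((p : ℤ) ∣ D ∧ χ (p : ZMod M) = 0) ∨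
      (¬ (p : ℤ) ∣ D ∧ χ (p : ZMod M) ^ 2 = 1)) : IsLFun (ED D) (LLx χ) := by
  refine ⟨LLx_diff, fun s hs => ?_⟩
  refine (LLx_prod hpr hr hs).congr_fun ?_ |> fun x => x
  intro p
  have hp := p.2
  congr 2
  · rw [h1 p hp]
  · have hdisc : (((p : ℕ) : ℤ) ∣ (ED D).Δ) ↔ ((p : ℕ) ∣ 20 ∨ ((p : ℕ) : ℤ) ∣ D) := by
      have h1 : ((p : ℕ) ∈ (ED D).Δ.natAbs.primeFactors) ↔
          (((p : ℕ) : ℤ) ∣ (ED D).Δ) := by
        rw [Nat.mem_primeFactors, Int.natCast_dvd]
        have h2 : (ED D).Δ.natAbs ≠ 0 := by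
          rw [disc_ED, Int.natAbs_ne_zero]
          exact mul_ne_zero (by norm_num) (pow_ne_zero 6 hD)
        exact ⟨fun h => h.2.1, fun h => ⟨hp, h, h2⟩⟩
      rw [← h1, primeFactors_ED hD, Finset.mem_union]
      constructor
      · rintro (h | h)
        · left
          rw [Finset.mem_insert, Finset.mem_singleton] at h
          rcases h with h | h <;> rw [h] <;> norm_num
        · exact Or.inr (Int.natCast_dvd.2 (Nat.dvd_of_mem_primeFactors h))
      · rintro (h | h)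
        · left
          rw [Finset.mem_insert, Finset.mem_singleton]
          by_contra h3
          rw [not_or] at h3
          exact W97.V20.dvd_20 hp h3.1 h3.2 h
        · exact Or.inr (Nat.mem_primeFactors.2 ⟨hp, Int.natCast_dvd.1 h, Int.natAbs_ne_zero.2 hD⟩)
    by_cases h20 : (p : ℕ) ∣ 20
    · rw [if_pos h20, if_pos (hdisc.2 (Or.inl h20))]
    · rw [if_neg h20]
      rcases h2 p hp h20 with ⟨h3, h4⟩ | ⟨h3, h4⟩
      · rw [if_pos (hdisc.2 (Or.inr h3)), h4]
        ring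
      · rw [if_neg (fun h => (hdisc.1 h).elim h20 h3), h4, one_mul]

end

end Pool.Agent.Y695
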