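import Pool.Agent.Y695.Key

/-!
The local conditions for the curves `y ^ 2 = x ^ 3 + A D x ^ 2 + B D ^ 2 x`.
-/

set_option autoImplicit false
set_option linter.all false

namespace Pool.Agent.Y695

section padic

variable {p : ℕ} [hp : Fact p.Prime]

lemma norm_unit_of_zmod (z : ℤ_[p]) (h : PadicInt.toZMod z ≠ 0) : ‖(z : ℚ_[p])‖ = 1 := by
  have h1 : ¬ z ∈ IsLocalRing.maximalIdeal ℤ_[p] := by
    rw [← PadicInt.ker_toZMod]
    exact h
  have h2 : IsUnit z := by
    by_contra h3
    exact h1 ((IsLocalRing.mem_maximalIdeal z).2 h3)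
  exact PadicInt.isUnit_iff.1 h2

lemma norm_poly_one (A B : ℤ) (x : ℚ_[p]) (hx : ‖x‖ ≤ 1)
    (hr : ∀ z : ZMod p, z ^ 2 + A * z + B ≠ 0) : ‖x ^ 2 + A * x + B‖ = 1 := by
  set z : ℤ_[p] := ⟨x, hx⟩ with hz
  have h1 := norm_unit_of_zmod (z ^ 2 + (A : ℤ_[p]) * z + (B : ℤ_[p])) (by
    rw [map_add, map_add, map_pow, map_mul, map_intCast, map_intCast]
    exact hr _)
  push_cast at h1
  exact h1

lemma norm_poly_small (A B : ℤ) (x : ℚ_[p]) (hx : ‖x‖ < 1) (hB : ¬ (p : ℤ) ∣ B) :
    ‖x ^ 2 + A * x + B‖ = 1 := by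
  set z : ℤ_[p] := ⟨x, hx.le⟩ with hz
  have hz0 : PadicInt.toZMod z = 0 := by
    have h1 : z ∈ IsLocalRing.maximalIdeal ℤ_[p] := by
      rw [IsLocalRing.mem_maximalIdeal]
      exact PadicInt.mem_nonunits.2 hx
    rw [← PadicInt.ker_toZMod] at h1
    exact h1
  have h1 := norm_unit_of_zmod (z ^ 2 + (A : ℤ_[p]) * z + (B : ℤ_[p])) (by
    rw [map_add, map_add, map_pow, map_mul, map_intCast, map_intCast, hz0]
    intro h2
    apply hB
    rw [← ZMod.intCast_zmod_eq_zero_iff_dvd]
    rw [← h2]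
    ring)
  push_cast at h1
  exact h1

lemma norm_poly_big (A B : ℤ) (x : ℚ_[p]) (hx : 1 < ‖x‖) :
    ‖x ^ 2 + A * x + B‖ = ‖x‖ ^ 2 := by
  have hA : ‖(A : ℚ_[p])‖ ≤ 1 := by
    have := (A : ℤ_[p]).2
    simpa using this
  have hB : ‖(B : ℚ_[p])‖ ≤ 1 := by
    have := (B : ℤ_[p]).2
    simpa using this
  have h1 : ‖(A : ℚ_[p]) * x + B‖ ≤ ‖x‖ := by
    refine (Padic.nonarchimedean _ _).trans (max_le ?_ (hB.trans hx.le))
    rw [norm_mul]
    exact mul_le_of_le_one_left (norm_nonneg _) hA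
  have h2 : ‖x‖ < ‖x‖ ^ 2 := by nlinarith
  have h3 : ‖x ^ 2‖ = ‖x‖ ^ 2 := norm_pow _ _
  have h4 : ‖x ^ 2‖ ≠ ‖(A : ℚ_[p]) * x + B‖ := by
    rw [h3]
    exact (lt_of_le_of_lt h1 h2).ne'
  rw [add_assoc, Padic.add_eq_max_of_ne h4, h3, max_eq_left (h1.trans h2.le)]

lemma val_of_norm {x y : ℚ_[p]} (hx : x ≠ 0) (hy : y ≠ 0) (h : ‖x‖ = ‖y‖) :
    x.valuation = y.valuation := by
  rw [Padic.norm_eq_zpow_neg_valuation hx, Padic.norm_eq_zpow_neg_valuation hy] at h
  have hp1 : (1 : ℝ) < p := by exact_mod_cast hp.out.one_lt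
  have := zpow_right_injective₀ (by linarith : (0 : ℝ) < p) hp1.ne' h
  linarith

lemma even_of_sq {x : ℚ_[p]} (hx : x ≠ 0) (h : IsSquare x) : Even x.valuation := by
  obtain ⟨c, rfl⟩ := h
  have hc : c ≠ 0 := left_ne_zero_of_mul hx
  rw [Padic.valuation_mul hc hc]
  exact ⟨_, rfl⟩

lemma even_of_sq' {x y : ℚ_[p]} (hx : x ≠ 0) (h : y ^ 2 = x) : Even x.valuation :=
  even_of_sq hx ⟨y, by rw [← h, pow_two]⟩

lemma val_squarefree {d : ℤ} (hd : Squarefree d) (h : (p : ℤ) ∣ d) :
    ((d : ℚ_[p])).valuation = 1 := by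
  rw [Padic.valuation_intCast]
  have hd0 : d ≠ 0 := hd.ne_zero
  have h1 : padicValInt p d = 1 := by
    unfold padicValInt
    have h2 : p ∣ d.natAbs := Int.natCast_dvd.1 h
    have h3 : Squarefree d.natAbs := Int.squarefree_natAbs.2 hd
    have h4 : d.natAbs ≠ 0 := Int.natAbs_ne_zero.2 hd0
    rw [← Nat.factorization_def _ hp.out]
    have h5 := h3.natFactorization_le_one p
    have h6 := (hp.out.dvd_iff_one_le_factorization h4).1 h2
    omega
  rw [h1]
  rfl

/-- **the local analysis** -/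
theorem locA_dvd (A B D d : ℤ) (hD : D ≠ 0) (hd : Squarefree d) (hB : ¬ (p : ℤ) ∣ B)
    (hr : (p : ℤ) ∣ D → ∀ z : ZMod p, z ^ 2 + A * z + B ≠ 0)
    (h : LocA ℚ_[p] ((A : ℚ_[p]) * D) ((B : ℚ_[p]) * D ^ 2) (d : ℚ_[p])) : ¬ (p : ℤ) ∣ d := by
  intro hpd
  have hv := val_squarefree hd hpd
  have hd0 : (d : ℚ_[p]) ≠ 0 := by exact_mod_cast hd.ne_zero
  have hD0 : (D : ℚ_[p]) ≠ 0 := by exact_mod_cast hD
  have hB1 : ‖(B : ℚ_[p])‖ = 1 := by
    have h1 := norm_unit_of_zmod (p := p) (B : ℤ_[p]) (by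
      rw [map_intCast]
      intro h2
      exact hB ((ZMod.intCast_zmod_eq_zero_iff_dvd _ _).1 h2))
    push_cast at h1
    exact h1
  have hB0 : (B : ℚ_[p]) ≠ 0 := by
    intro h0
    rw [h0, norm_zero] at hB1
    norm_num at hB1
  have hvB : ((B : ℚ_[p])).valuation = 0 := by
    have := val_of_norm hB0 one_ne_zero (by rw [hB1, norm_one])
    rw [this, Padic.valuation_one]
  rcases h with h | h | ⟨X, Y, hX, hY, hs⟩
  · have := even_of_sq hd0 h
    rw [hv] at this
    exact absurd this (by decide)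
  · have h1 := even_of_sq (mul_ne_zero (mul_ne_zero hB0 (pow_ne_zero 2 hD0)) hd0) h
    rw [Padic.valuation_mul (mul_ne_zero hB0 (pow_ne_zero 2 hD0)) hd0,
      Padic.valuation_mul hB0 (pow_ne_zero 2 hD0), Padic.valuation_pow, hv, hvB] at h1
    rw [Int.even_iff] at h1
    push_cast at h1
    omega
  · have h1 := even_of_sq (mul_ne_zero hX hd0) hs
    rw [Padic.valuation_mul hX hd0, hv] at h1
    set x := X / D with hx
    have hx0 : x ≠ 0 := div_ne_zero hX hD0
    have hXx : X = x * D := by rw [hx]; field_simp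
    have hvX : X.valuation = x.valuation + ((D : ℚ_[p])).valuation := by
      rw [hXx, Padic.valuation_mul hx0 hD0]
    have e1 : X ^ 2 + (A : ℚ_[p]) * D * X + (B : ℚ_[p]) * D ^ 2 = D ^ 2 * (x ^ 2 + A * x + B) := by
      rw [hXx]; ring
    rw [e1] at hY
    obtain ⟨hne, hev⟩ : x ^ 2 + A * x + B ≠ 0 ∧ Even (x ^ 2 + A * x + B).valuation := by
      have hone : ‖x ^ 2 + A * x + B‖ = 1 → x ^ 2 + A * x + B ≠ 0 ∧
          Even (x ^ 2 + A * x + B).valuation := by
        intro h2
        have h3 : x ^ 2 + A * x + B ≠ 0 := by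
          intro h0
          rw [h0, norm_zero] at h2
          norm_num at h2
        refine ⟨h3, ?_⟩
        rw [val_of_norm h3 one_ne_zero (by rw [h2, norm_one]), Padic.valuation_one]
        exact Even.zero
      rcases lt_or_ge 1 ‖x‖ with h2 | h2
      · have h3 := norm_poly_big A B x h2
        have h4 : x ^ 2 + A * x + B ≠ 0 := by
          intro h0
          rw [h0, norm_zero] at h3
          nlinarith
        refine ⟨h4, ?_⟩
        rw [val_of_norm h4 (pow_ne_zero 2 hx0) (by rw [h3, norm_pow]), Padic.valuation_pow]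
        exact ⟨x.valuation, by push_cast; ring⟩
      · by_cases hpD : (p : ℤ) ∣ D
        · exact hone (norm_poly_one A B x h2 (hr hpD))
        · apply hone
          apply norm_poly_small A B x _ hB
          -- the valuation of x is odd
          have h3 : ((D : ℚ_[p])).valuation = 0 := by
            rw [Padic.valuation_intCast]
            exact_mod_cast padicValInt.eq_zero_of_not_dvd hpD
          rw [h3, add_zero] at hvX
          rw [hvX] at h1
          refine lt_of_le_of_ne h2 fun h4 => ?_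
          have h5 := val_of_norm hx0 one_ne_zero (by rw [h4, norm_one])
          rw [h5, Padic.valuation_one] at h1
          exact absurd h1 (by decide)
    have h2 := even_of_sq' (mul_ne_zero hX (mul_ne_zero (pow_ne_zero 2 hD0) hne)) hY
    rw [Padic.valuation_mul hX (mul_ne_zero (pow_ne_zero 2 hD0) hne),
      Padic.valuation_mul (pow_ne_zero 2 hD0) hne, Padic.valuation_pow] at h2
    rw [Int.even_iff] at h1 h2 hev
    push_cast at h2
    omega

end padic

/-- no root of `x² - 11 x - 1` -/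
lemma no_root1 {p : ℕ} [Fact p.Prime] (h5 : p ≠ 5) (h : ¬ IsSquare (5 : ZMod p)) (z : ZMod p) :
    z ^ 2 + ((-11 : ℤ) : ZMod p) * z + ((-1 : ℤ) : ZMod p) ≠ 0 := by
  intro h0
  apply h
  have n5 : (5 : ZMod p) ≠ 0 := by
    intro h1
    have : ((5 : ℕ) : ZMod p) = 0 := by exact_mod_cast h1
    rw [ZMod.natCast_eq_zero_iff] at this
    exact h5 ((Nat.prime_dvd_prime_iff_eq (Fact.out : p.Prime) (by norm_num)).1 this)
  refine ⟨(2 * z - 11) / 5, ?_⟩
  push_cast at h0
  field_simp
  linear_combination -4 * h0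

/-- no root of `x² + 22 x + 125` -/
lemma no_root2 {p : ℕ} [Fact p.Prime] (h2 : p ≠ 2) (h : ¬ IsSquare (-1 : ZMod p)) (z : ZMod p) :
    z ^ 2 + ((22 : ℤ) : ZMod p) * z + ((125 : ℤ) : ZMod p) ≠ 0 := by
  intro h0
  apply h
  have n2 : (2 : ZMod p) ≠ 0 := by
    intro h1
    have : ((2 : ℕ) : ZMod p) = 0 := by exact_mod_cast h1
    rw [ZMod.natCast_eq_zero_iff] at this
    exact h2 ((Nat.prime_dvd_prime_iff_eq (Fact.out : p.Prime) (by norm_num)).1 this)
  refine ⟨(z + 11) / 2, ?_⟩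
  push_cast at h0
  field_simp
  linear_combination -h0

/-- squarefree integers without odd prime factors different from five -/
lemma sqf_one {d : ℤ} (h : ∀ p : ℕ, p.Prime → ¬ (p : ℤ) ∣ d) : d = 1 ∨ d = -1 := by
  have h1 : d.natAbs = 1 := by
    by_contra h2
    obtain ⟨p, hp, hpd⟩ := Nat.exists_prime_and_dvd h2
    exact h p hp (Int.natCast_dvd.2 hpd)
  rcases Int.natAbs_eq d with h2 | h2
  · left; rw [h2, h1]; rfl
  · right; rw [h2, h1]; rfl

lemma sqf_five {d : ℤ} (hd : Squarefree d) (h : ∀ p : ℕ, p.Prime → p ≠ 5 → ¬ (p : ℤ) ∣ d)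
    (hpos : 0 < d) : d = 1 ∨ d = 5 := by
  by_cases h5 : (5 : ℤ) ∣ d
  · right
    obtain ⟨e, rfl⟩ := h5
    have h1 : e = 1 ∨ e = -1 := by
      apply sqf_one
      intro p hp hpe
      by_cases hp5 : p = 5
      · subst hp5
        have h2 := hd 5 (mul_dvd_mul_left 5 (by exact_mod_cast hpe))
        rw [Int.isUnit_iff] at h2
        omega
      · exact h p hp hp5 (Dvd.dvd.mul_left hpe 5)
    rcases h1 with rfl | rfl
    · rfl
    · omega
  · left
    have h1 : d = 1 ∨ d = -1 := by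
      apply sqf_one
      intro p hp hpe
      by_cases hp5 : p = 5
      · subst hp5
        exact h5 (by exact_mod_cast hpe)
      · exact h p hp hp5 hpe
    rcases h1 with rfl | rfl
    · rfl
    · omega

/-- **the two Selmer groups are as small as possible** -/
theorem selHyp {D : ℤ} (hD : D ≠ 0) (hodd : ¬ (2 : ℤ) ∣ D) (h5 : ¬ (5 : ℤ) ∣ D)
    (h : ∀ p : ℕ, ∀ hp : p.Prime, (p : ℤ) ∣ D →
      (haveI := Fact.mk hp; ¬ IsSquare (5 : ZMod p) ∧ ¬ IsSquare (-1 : ZMod p))) :
    SelHyp (((-11 * D : ℤ)) : ℚ) (((-D ^ 2 : ℤ)) : ℚ) := by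
  have hDq : (D : ℚ) ≠ 0 := by exact_mod_cast hD
  constructor
  · intro d hd hR hp
    have h1 : d = 1 ∨ d = -1 := by
      apply sqf_one
      intro p hpp
      haveI := Fact.mk hpp
      have h2 := hp p
      apply locA_dvd (p := p) (-11) (-1) D d hD hd
      · intro h3
        have h4 : (p : ℤ) ∣ 1 := (dvd_neg).1 h3
        have := hpp.one_lt
        have h5 := Int.le_of_dvd one_pos h4
        omega
      · intro h3
        apply no_root1 _ (h p hpp h3).1
        rintro rfl
        exact h5 (by exact_mod_cast h3)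
      · convert h2 using 1
        · rw [eq_ratCast]; push_cast; ring
        · rw [eq_ratCast]; push_cast; ring
        · rw [eq_ratCast]; push_cast; rfl
    rcases h1 with rfl | rfl
    · exact ⟨1, Or.inl (by norm_num)⟩
    · refine ⟨1 / D, Or.inr ?_⟩
      push_cast
      field_simp
  · intro d hd hR hp
    have hpos : 0 < d := by
      have hd0 := hd.ne_zero
      have hDr : (D : ℝ) ≠ 0 := by exact_mod_cast hD
      have e1 : algebraMap ℚ ℝ ((((-11 * D : ℤ)) : ℚ) ^ 2 - 4 * (((-D ^ 2 : ℤ)) : ℚ)) =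
          125 * (D : ℝ) ^ 2 := by
        rw [eq_ratCast]; push_cast; ring
      have e2 : algebraMap ℚ ℝ (-2 * (((-11 * D : ℤ)) : ℚ)) = 22 * (D : ℝ) := by
        rw [eq_ratCast]; push_cast; ring
      have e3 : algebraMap ℚ ℝ ((d : ℤ) : ℚ) = (d : ℝ) := by
        rw [eq_ratCast]; push_cast; rfl
      rw [e1, e2, e3] at hR
      have hDD : 0 < (D : ℝ) ^ 2 := by positivity
      have hd0r : (d : ℝ) ≠ 0 := by exact_mod_cast hd0
      have key : 0 ≤ (d : ℝ) := by
        rcases hR with h1 | h1 | ⟨X, Y, hX, hY, h1⟩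
        · exact h1.nonneg
        · have h2 := h1.nonneg
          by_contra h3
          push Not at h3
          have h4 : 125 * (D : ℝ) ^ 2 * d < 0 := mul_neg_of_pos_of_neg (by positivity) h3
          linarith
        · have h2 := h1.nonneg
          have h3 : 0 < X ^ 2 + 22 * (D : ℝ) * X + 125 * (D : ℝ) ^ 2 := by
            nlinarith [sq_nonneg (X + 11 * D)]
          have hX0 : 0 ≤ X := by
            by_contra h4
            push Not at h4
            have h5 : X * (X ^ 2 + 22 * (D : ℝ) * X + 125 * (D : ℝ) ^ 2) < 0 :=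
              mul_neg_of_neg_of_pos h4 h3
            rw [← hY] at h5
            nlinarith [sq_nonneg Y]
          have hXp : 0 < X := lt_of_le_of_ne hX0 (Ne.symm hX)
          by_contra h4
          push Not at h4
          have h5 : X * (d : ℝ) < 0 := mul_neg_of_pos_of_neg hXp h4
          linarith
      have : (0 : ℝ) < d := lt_of_le_of_ne key (Ne.symm hd0r)
      exact_mod_cast this
    have h1 : d = 1 ∨ d = 5 := by
      apply sqf_five hd _ hpos
      intro p hpp hp5
      haveI := Fact.mk hpp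
      have h2 := hp p
      apply locA_dvd (p := p) 22 125 D d hD hd
      · intro h3
        have h4 : p ∣ 5 ^ 3 := by
          have : (p : ℤ) ∣ ((5 ^ 3 : ℕ) : ℤ) := by
            norm_num
            exact h3
          exact_mod_cast this
        exact hp5 ((Nat.prime_dvd_prime_iff_eq hpp (by norm_num)).1 (hpp.dvd_of_dvd_pow h4))
      · intro h3
        apply no_root2 _ (h p hpp h3).2
        rintro rfl
        exact hodd (by exact_mod_cast h3)
      · convert h2 using 1
        · rw [eq_ratCast]; push_cast; ring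
        · rw [eq_ratCast]; push_cast; ring
        · rw [eq_ratCast]; push_cast; rfl
    rcases h1 with rfl | rfl
    · exact ⟨1, Or.inl (by norm_num)⟩
    · refine ⟨1 / (5 * D), Or.inr ?_⟩
      push_cast
      field_simp
      ring

end Pool.Agent.Y695
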