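import Pool.Agent.Y695.Val

/-!
The second period: the integral along `Re w = 1/2`.
-/

set_option autoImplicit false
set_option linter.all false

open Filter Topology MeasureTheory Set

namespace Pool.Agent.Y695

open Pool.Agent.W97.TW
open Pool.Agent.W97.V20
open Pool.Agent.W97.MT (S_QEXP qq qq_ne norm_qq norm_qq_lt iI iI_pos QV H_open)

/-- substitution -/
theorem subst_gen (V σ γ : ℝ → ℝ) (hV : ∀ s, 0 < V s) (hσ : ∀ u : ℝ, 0 < u → 0 < σ u)
    (hγ : ∀ u : ℝ, 0 < u → 0 < γ u)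
    (hd : ∀ u : ℝ, 0 < u → HasDerivAt σ (γ u * V (σ u)) u)
    (h0 : Tendsto σ (𝓝[>] 0) (𝓝 0)) (h1 : Tendsto σ atTop atTop) :
    ∫ s in Set.Ioi (0 : ℝ), (V s)⁻¹ = ∫ u in Set.Ioi (0 : ℝ), γ u := by
  have hcont : ContinuousOn σ (Ioi 0) := fun u hu => (hd u hu).continuousAt.continuousWithinAt
  have hmono : StrictMonoOn σ (Ioi 0) := by
    apply strictMonoOn_of_deriv_pos (convex_Ioi 0) hcont
    intro u hu
    rw [interior_Ioi] at hu
    rw [(hd u hu).deriv]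
    exact mul_pos (hγ u hu) (hV _)
  have himg : σ '' Ioi 0 = Ioi 0 := by
    apply Subset.antisymm
    · rintro _ ⟨u, hu, rfl⟩
      exact hσ u hu
    · intro s hs
      have hs' : 0 < s := hs
      have e1 : ∀ᶠ u in 𝓝[>] (0 : ℝ), σ u < s := h0.eventually (gt_mem_nhds hs')
      have e2 : ∀ᶠ u in 𝓝[>] (0 : ℝ), u ∈ Ioi (0 : ℝ) := self_mem_nhdsWithin
      obtain ⟨a, ha, ha0⟩ := (e1.and e2).exists
      have e3 : ∀ᶠ u in atTop, s < σ u := h1.eventually (eventually_gt_atTop s)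
      obtain ⟨b, hb, hb0⟩ := (e3.and (eventually_gt_atTop a)).exists
      have hsub : Icc a b ⊆ Ioi (0 : ℝ) := fun x hx => lt_of_lt_of_le ha0 hx.1
      have h2 := intermediate_value_Icc hb0.le (hcont.mono hsub)
      obtain ⟨u, hu, hus⟩ := h2 ⟨ha.le, hb.le⟩
      exact ⟨u, hsub hu, hus⟩
  have h2 := integral_image_eq_integral_abs_deriv_smul (s := Ioi (0 : ℝ)) (f := σ)
    (f' := fun u => γ u * V (σ u)) measurableSet_Ioi
    (fun u hu => (hd u hu).hasDerivWithinAt) hmono.injOn (fun s => (V s)⁻¹)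
  rw [himg] at h2
  rw [h2]
  apply setIntegral_congr_fun measurableSet_Ioi
  intro u hu
  have h3 := hV (σ u)
  have h4 := hγ u hu
  simp only [smul_eq_mul]
  rw [abs_of_pos (by positivity), mul_assoc, mul_inv_cancel₀ h3.ne', mul_one]

/-- `Q` is positive on `(-1, 1)` -/
lemma Q_posN {x : ℝ} (h0 : 0 ≤ x) (h1 : x < 1) : ∃ y : ℝ, 0 < y ∧ Q ((-x : ℝ) : ℂ) = y := by
  have hre : ∀ t : ℝ, 0 ≤ t → t < 1 → Q ((-t : ℝ) : ℂ) = ((Q ((-t : ℝ) : ℂ)).re : ℂ) := by
    intro t ht0 ht1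
    have h2 : ‖((-t : ℝ) : ℂ)‖ < 1 := by
      rw [Complex.norm_real, norm_neg, Real.norm_of_nonneg ht0]; exact ht1
    have h3 := Q_conj h2
    rw [Complex.conj_ofReal] at h3
    exact (Complex.conj_eq_iff_re.1 h3.symm).symm
  refine ⟨(Q ((-x : ℝ) : ℂ)).re, ?_, hre x h0 h1⟩
  by_contra hneg
  push Not at hneg
  have hcont : ContinuousOn (fun t : ℝ => (Q ((-t : ℝ) : ℂ)).re) (Icc 0 x) := by
    refine Complex.continuous_re.comp_continuousOn ?_
    refine Q_diff.continuousOn.comp (by fun_prop) ?_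
    intro t ht
    rw [Metric.mem_ball, dist_zero_right, Complex.norm_real, norm_neg, Real.norm_of_nonneg ht.1]
    exact lt_of_le_of_lt ht.2 h1
  have h2 : (0 : ℝ) ∈ Icc ((Q ((-x : ℝ) : ℂ)).re) ((Q ((-0 : ℝ) : ℂ)).re) := by
    refine ⟨hneg, ?_⟩
    rw [neg_zero, Complex.ofReal_zero, Q_zero]
    norm_num
  obtain ⟨t, ht, ht2⟩ := intermediate_value_Icc' h0 hcont h2
  have h3 := hre t ht.1 (lt_of_le_of_lt ht.2 h1)
  dsimp only at ht2
  rw [ht2] at h3
  have h4 : ‖((-t : ℝ) : ℂ)‖ < 1 := by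
    rw [Complex.norm_real, norm_neg, Real.norm_of_nonneg ht.1]; exact lt_of_le_of_lt ht.2 h1
  exact Pool.Agent.W97.MT.Q_ne h4 (by rw [h3]; norm_num)

lemma hI_im {u : ℝ} (hu : 0 < u) : 0 < ((1 / 2 : ℂ) + (u : ℂ) * Complex.I).im := by
  simpa using hu

lemma qq_quarter (u : ℝ) : qq (((1 / 2 : ℂ) + (u : ℂ) * Complex.I) / 2) =
    (Real.exp (-Real.pi * u) : ℝ) * Complex.I := by
  unfold qq
  have e : 2 * (Real.pi : ℂ) * Complex.I * (((1 / 2 : ℂ) + (u : ℂ) * Complex.I) / 2) =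
      ((-Real.pi * u : ℝ) : ℂ) + Real.pi / 2 * Complex.I := by
    push_cast
    linear_combination (Real.pi * u) * Complex.I_mul_I
  rw [e, Complex.exp_add, ← Complex.ofReal_exp]
  congr 1
  have := Complex.exp_pi_mul_I
  rw [Complex.exp_mul_I, Complex.cos_pi_div_two, Complex.sin_pi_div_two]
  ring

lemma qq_halfN (u : ℝ) : qq ((1 / 2 : ℂ) + (u : ℂ) * Complex.I) =
    ((-Real.exp (-2 * Real.pi * u) : ℝ) : ℂ) := by
  unfold qq
  have e : 2 * (Real.pi : ℂ) * Complex.I * ((1 / 2 : ℂ) + (u : ℂ) * Complex.I) =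
      ((-2 * Real.pi * u : ℝ) : ℂ) + Real.pi * Complex.I := by
    push_cast
    linear_combination (2 * Real.pi * u) * Complex.I_mul_I
  rw [e, Complex.exp_add, ← Complex.ofReal_exp, Complex.exp_pi_mul_I]
  push_cast
  ring

/-- the form on the line -/
lemma gg_posN {u : ℝ} (hu : 0 < u) : ∃ y : ℝ, 0 < y ∧
    gg ((1 / 2 : ℂ) + u * Complex.I) = y * Complex.I := by
  set x : ℝ := Real.exp (-Real.pi * u) with hx
  have hx0 : 0 < x := Real.exp_pos _
  have hx1 : x < 1 := by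
    rw [hx, Real.exp_lt_one_iff]
    nlinarith [mul_pos Real.pi_pos hu]
  obtain ⟨y2, hy2, e2⟩ := Q_posN (x := x ^ 2) (by positivity) (pow_lt_one₀ hx0.le hx1 (by norm_num))
  obtain ⟨y10, hy10, e10⟩ := Q_posN (x := x ^ 10) (by positivity)
    (pow_lt_one₀ hx0.le hx1 (by norm_num))
  refine ⟨x * (y2 ^ 2 * y10 ^ 2), by positivity, ?_⟩
  rw [gg_q, qq_quarter, ← hx]
  unfold phi2
  have i2 : ((x : ℂ) * Complex.I) ^ 2 = ((-x ^ 2 : ℝ) : ℂ) := by
    rw [mul_pow, Complex.I_sq]; push_cast; ring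
  have i10 : ((x : ℂ) * Complex.I) ^ 10 = ((-x ^ 10 : ℝ) : ℂ) := by
    have : Complex.I ^ 10 = -1 := by
      rw [show (10 : ℕ) = 2 * 5 by norm_num, pow_mul, Complex.I_sq]; norm_num
    rw [mul_pow, this]; push_cast; ring
  rw [i2, i10, e2, e10]
  push_cast
  ring

/-- the integrand on the line -/
noncomputable def gam1 (u : ℝ) : ℝ := Real.pi * (gg ((1 / 2 : ℂ) + u * Complex.I)).im

lemma gam1_pos {u : ℝ} (hu : 0 < u) : 0 < gam1 u := by
  obtain ⟨y, hy, e⟩ := gg_posN hu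
  unfold gam1
  rw [e, Complex.mul_im, Complex.ofReal_re, Complex.I_im, Complex.ofReal_im, Complex.I_re]
  have := mul_pos Real.pi_pos hy
  linarith

lemma gam1_eq {u : ℝ} (hu : 0 < u) :
    (gam1 u : ℂ) * Complex.I = Real.pi * gg ((1 / 2 : ℂ) + u * Complex.I) := by
  obtain ⟨y, hy, e⟩ := gg_posN hu
  unfold gam1
  rw [e, Complex.mul_im, Complex.ofReal_re, Complex.I_im, Complex.ofReal_im, Complex.I_re]
  push_cast
  ring

lemma I1_eq : I1 = ∫ u in Ioi (0 : ℝ), gam1 u := by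
  have h1 := J_half
  unfold J at h1
  rw [← integral_const_mul] at h1
  have h2 : ∫ t in Ioi (0 : ℝ), (Real.pi : ℂ) * gg (((1 / 2 : ℚ) : ℂ) + t * Complex.I) =
      ∫ t in Ioi (0 : ℝ), (gam1 t : ℂ) * Complex.I := by
    refine setIntegral_congr_fun measurableSet_Ioi fun t ht => ?_
    rw [gam1_eq ht]
    push_cast
    rfl
  rw [h2, integral_mul_const, integral_complex_ofReal] at h1
  have h3 := mul_right_cancel₀ Complex.I_ne_zero h1
  exact_mod_cast h3.symm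

lemma gam1_int : IntegrableOn gam1 (Ioi 0) := by
  obtain ⟨n, ⟨L, m, hL, -, -⟩, -⟩ := hdesc CP closedC (1 / 2)
  have h1 := ((lim_int hL).1.const_mul (-(Real.pi : ℂ) * Complex.I)).re
  refine IntegrableOn.congr_fun (f := fun t : ℝ => RCLike.re (-(Real.pi : ℂ) * Complex.I *
    gg (((1 / 2 : ℚ) : ℂ) + t * Complex.I))) h1 ?_ measurableSet_Ioi
  intro t ht
  have h2 := gam1_eq (u := t) ht
  have h3 : (((1 / 2 : ℚ) : ℂ) + t * Complex.I) = (1 / 2 : ℂ) + t * Complex.I := by push_cast; ring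
  show RCLike.re (-(Real.pi : ℂ) * Complex.I * gg (((1 / 2 : ℚ) : ℂ) + t * Complex.I)) = gam1 t
  have h4 : -(Real.pi : ℂ) * Complex.I * gg (((1 / 2 : ℚ) : ℂ) + t * Complex.I) = (gam1 t : ℂ) := by
    rw [h3]
    linear_combination Complex.I * h2 - (gam1 t : ℂ) * Complex.I_mul_I
  rw [h4]
  exact Complex.ofReal_re _

lemma I1_pos : 0 < I1 := by
  rw [I1_eq, setIntegral_pos_iff_support_of_nonneg_ae]
  · have h1 : Function.support gam1 ∩ Ioi 0 = Ioi 0 := by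
      ext u
      simp only [mem_inter_iff, Function.mem_support, and_iff_right_iff_imp]
      intro hu
      exact (gam1_pos hu).ne'
    rw [h1]
    simp
  · refine (ae_restrict_mem measurableSet_Ioi).mono fun t ht => ?_
    exact (gam1_pos ht).le
  · exact gam1_int

lemma tf_posN {u : ℝ} (hu : 0 < u) : ∃ y : ℝ, 0 < y ∧
    tf ((1 / 2 : ℂ) + u * Complex.I) = ((-y : ℝ) : ℂ) := by
  set x : ℝ := Real.exp (-2 * Real.pi * u) with hx
  have hx0 : 0 < x := Real.exp_pos _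
  have hx1 : x < 1 := by
    rw [hx, Real.exp_lt_one_iff]
    nlinarith [mul_pos Real.pi_pos hu]
  obtain ⟨y1, hy1, e1⟩ := Q_posN hx0.le hx1
  obtain ⟨y5, hy5, e5⟩ := Q_posN (x := x ^ 5) (by positivity)
    (pow_lt_one₀ hx0.le hx1 (by norm_num))
  refine ⟨(y1 ^ 3 * (y5 ^ 3)⁻¹) ^ 2 / x, by positivity, ?_⟩
  have h := tf_q (hI_im hu)
  rw [qq_halfN, ← hx] at h
  unfold kk at h
  have i5 : ((-x : ℝ) : ℂ) ^ 5 = ((-x ^ 5 : ℝ) : ℂ) := by push_cast; ring
  rw [i5, e1, e5] at h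
  have hxC : (x : ℂ) ≠ 0 := by exact_mod_cast hx0.ne'
  push_cast at h ⊢
  rw [← h]
  field_simp

/-- `-t` on the line -/
noncomputable def TN (u : ℝ) : ℝ := -(tf ((1 / 2 : ℂ) + u * Complex.I)).re

lemma TN_pos {u : ℝ} (hu : 0 < u) : 0 < TN u := by
  obtain ⟨y, hy, e⟩ := tf_posN hu
  unfold TN
  rw [e, Complex.ofReal_re, neg_neg]
  exact hy

lemma TN_eq {u : ℝ} (hu : 0 < u) : tf ((1 / 2 : ℂ) + u * Complex.I) = -TN u := by
  obtain ⟨y, hy, e⟩ := tf_posN hu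
  unfold TN
  rw [e, Complex.ofReal_re]
  push_cast
  ring

lemma tf_lineN {u : ℝ} (hu : 0 < u) : HasDerivAt (fun v : ℝ => tf ((1 / 2 : ℂ) + v * Complex.I))
    (Complex.I * deriv tf ((1 / 2 : ℂ) + u * Complex.I)) u := by
  have h1 : HasDerivAt (fun v : ℝ => (1 / 2 : ℂ) + (v : ℂ) * Complex.I) Complex.I u := by
    have := ((Complex.ofRealCLM.hasDerivAt (x := u)).mul_const Complex.I).const_add (1 / 2 : ℂ)
    simpa using this
  have h2 : HasDerivAt tf (deriv tf ((1 / 2 : ℂ) + u * Complex.I)) ((1 / 2 : ℂ) + (u : ℂ) * Complex.I) :=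
    (tf_diff (hI_im hu)).hasDerivAt
  refine (h2.comp u h1).congr_deriv ?_
  ring

lemma TN_deriv {u : ℝ} (hu : 0 < u) : ∃ d : ℝ, HasDerivAt TN d u ∧
    Complex.I * deriv tf ((1 / 2 : ℂ) + u * Complex.I) = ((-d : ℝ) : ℂ) := by
  have h1 := tf_lineN hu
  have h2 : HasDerivAt (fun v : ℝ => (tf ((1 / 2 : ℂ) + v * Complex.I)).re)
      (Complex.I * deriv tf ((1 / 2 : ℂ) + u * Complex.I)).re u :=
    Complex.reCLM.hasFDerivAt.comp_hasDerivAt u h1
  have h3 : HasDerivAt (fun v : ℝ => (tf ((1 / 2 : ℂ) + v * Complex.I)).im)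
      (Complex.I * deriv tf ((1 / 2 : ℂ) + u * Complex.I)).im u :=
    Complex.imCLM.hasFDerivAt.comp_hasDerivAt u h1
  have h4 : (fun v : ℝ => (tf ((1 / 2 : ℂ) + v * Complex.I)).im) =ᶠ[𝓝 u] fun _ => (0 : ℝ) := by
    filter_upwards [isOpen_Ioi.mem_nhds (show u ∈ Ioi (0 : ℝ) from hu)] with v hv
    rw [TN_eq hv, Complex.neg_im, Complex.ofReal_im, neg_zero]
  have h5 := (h3.congr_of_eventuallyEq h4.symm).unique (hasDerivAt_const u (0 : ℝ))
  refine ⟨_, h2.neg, ?_⟩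
  apply Complex.ext
  · rw [Complex.ofReal_re, neg_neg]
  · rw [Complex.ofReal_im, h5]

lemma TN_sq {u d : ℝ} (hu : 0 < u)
    (hd : Complex.I * deriv tf ((1 / 2 : ℂ) + u * Complex.I) = ((-d : ℝ) : ℂ)) :
    d ^ 2 = (2 * gam1 u) ^ 2 * (TN u ^ 3 - 22 * TN u ^ 2 + 125 * TN u) := by
  have h1 := c5_zero hcp5 hqe _ (hI_im hu)
  have h2 := gam1_eq hu
  have h3 := gg_ne (hI_im hu)
  unfold c5 R5 at h1
  rw [TN_eq hu] at h1
  have hI := Complex.I_ne_zero
  have hpi : (Real.pi : ℂ) ≠ 0 := by exact_mod_cast Real.pi_ne_zero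
  set g := gg ((1 / 2 : ℂ) + u * Complex.I) with hg
  set e := deriv tf ((1 / 2 : ℂ) + u * Complex.I) with he
  have h5 : e ^ 2 = (2 * Real.pi * Complex.I * g) ^ 2 * ((-(TN u : ℂ)) ^ 3 + 22 * (-(TN u : ℂ)) ^ 2 +
      125 * (-(TN u : ℂ))) := by
    have h6 : (2 * Real.pi * Complex.I * g) ≠ 0 :=
      mul_ne_zero (mul_ne_zero (mul_ne_zero two_ne_zero hpi) hI) h3
    rw [div_pow, sub_eq_zero, div_eq_iff (pow_ne_zero 2 h6)] at h1
    rw [h1]; ring
  have h7 : ((d : ℂ)) ^ 2 = (2 * gam1 u) ^ 2 * (TN u ^ 3 - 22 * TN u ^ 2 + 125 * TN u) := by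
    have h8 : (d : ℂ) ^ 2 = -e ^ 2 := by
      have : (d : ℂ) = -(Complex.I * e) := by rw [hd]; push_cast; ring
      rw [this, neg_sq, mul_pow, Complex.I_sq]; ring
    have h9 : (2 * Real.pi * Complex.I * g) ^ 2 = (2 * (gam1 u : ℂ)) ^ 2 := by
      have : 2 * Real.pi * Complex.I * g = 2 * (Complex.I * (Real.pi * g)) := by ring
      rw [this, ← h2]
      have : Complex.I * ((gam1 u : ℂ) * Complex.I) = -(gam1 u : ℂ) := by
        linear_combination (gam1 u : ℂ) * Complex.I_mul_I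
      rw [this]; ring
    rw [h8, h5, h9]
    ring
  exact_mod_cast h7

lemma TN_cubic_pos {t : ℝ} (ht : 0 < t) : 0 < t ^ 3 - 22 * t ^ 2 + 125 * t := by
  have : t ^ 3 - 22 * t ^ 2 + 125 * t = t * ((t - 11) ^ 2 + 4) := by ring
  rw [this]
  positivity

lemma TN_atTop : Tendsto TN atTop atTop := by
  have h1 : Tendsto (fun u : ℝ => (1 / 2 : ℂ) + (u : ℂ) * Complex.I) atTop iI := by
    unfold iI
    rw [tendsto_comap_iff]
    have : Complex.im ∘ (fun u : ℝ => (1 / 2 : ℂ) + (u : ℂ) * Complex.I) = fun u => u := by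
      ext u; simp
    rw [this]
    exact tendsto_id
  have h2 : Tendsto (fun u : ℝ => (kk (qq ((1 / 2 : ℂ) + u * Complex.I)) ^ 2).re) atTop (𝓝 1) := by
    have h3 := ((QV_kk.pow 2).tendsto).comp h1
    have h4 := (Complex.continuous_re.tendsto _).comp h3
    have e : ((1 : ℂ) ^ 2).re = 1 := by norm_num
    rw [e] at h4
    exact h4
  have h3 : Tendsto (fun u : ℝ => (Real.exp (-2 * Real.pi * u))⁻¹) atTop atTop :=
    tendsto_inv_nhdsGT_zero.comp tendsto_exp_neg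
  have h4 := h2.pos_mul_atTop one_pos h3
  refine h4.congr' ?_
  filter_upwards [eventually_gt_atTop 0] with u hu
  have h5 := tf_q (hI_im hu)
  rw [TN_eq hu] at h5
  rw [← h5, qq_halfN]
  have h6 : (((-Real.exp (-2 * Real.pi * u) : ℝ) : ℂ) * -(TN u : ℂ)) =
      ((Real.exp (-2 * Real.pi * u) * TN u : ℝ) : ℂ) := by push_cast; ring
  rw [h6, Complex.ofReal_re]
  have := Real.exp_pos (-2 * Real.pi * u)
  field_simp

lemma TN_W {u : ℝ} (hu : 0 < u) : TN (1 / (20 * u)) = 125 / TN u := by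
  set w : ℂ := (1 / 2 : ℂ) + u * Complex.I with hw
  have hwi : 0 < w.im := hI_im hu
  have huC : (u : ℂ) ≠ 0 := by exact_mod_cast hu.ne'
  have hI := Complex.I_ne_zero
  have h1 := tf_gamma (a := 2) (b := -1) (c := 1) (d := -2) (by norm_num) hwi
  have h1i := (mv_im (a := 2) (b := -1) (c := 5) (d := -2) (by norm_num) hwi)
  push_cast at h1 h1i
  have e1 : (5 : ℂ) * 1 * w + -2 = 5 * w + -2 := by ring
  rw [e1] at h1
  set v : ℂ := (2 * w + -1) / (5 * w + -2) with hv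
  have h2 := tf_W h1i.2
  have h2i := W_pos h1i.2
  have h3 := tf_gamma (a := 1) (b := 1) (c := 0) (d := 1) (by norm_num) h2i
  push_cast at h3
  have e2 : (1 * (-1 / (5 * v)) + 1) / (5 * 0 * (-1 / (5 * v)) + 1) =
      (1 / 2 : ℂ) + ((1 / (20 * u) : ℝ) : ℂ) * Complex.I := by
    have hden : (5 * w + -2 : ℂ) ≠ 0 := h1i.1
    have hnum : (2 * w + -1 : ℂ) = 2 * u * Complex.I := by rw [hw]; ring
    have hnum0 : (2 * u * Complex.I : ℂ) ≠ 0 := mul_ne_zero (mul_ne_zero two_ne_zero huC) hI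
    have hv' : v = 2 * u * Complex.I / (5 * w + -2) := by rw [hv, hnum]
    have e3 : (-1 / (5 * v) : ℂ) = -(5 * w + -2) / (5 * (2 * u * Complex.I)) := by
      rw [hv']
      field_simp
    rw [e3, hw]
    push_cast
    field_simp
    ring_nf
    rw [Complex.I_sq]
    ring
  rw [e2, TN_eq (by positivity : (0 : ℝ) < 1 / (20 * u)), h2, h1, TN_eq hu] at h3
  have hT := TN_pos hu
  have hTC : (TN u : ℂ) ≠ 0 := by exact_mod_cast hT.ne'
  have h4 : (TN (1 / (20 * u)) : ℂ) = 125 / TN u := by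
    have : (125 : ℂ) / -(TN u : ℂ) = -(125 / TN u) := by rw [div_neg]
    rw [this] at h3
    exact neg_inj.1 h3
  exact_mod_cast h4

lemma TN_zero : Tendsto TN (𝓝[>] 0) (𝓝 0) := by
  have h1 : Tendsto (fun u : ℝ => 1 / (20 * u)) (𝓝[>] 0) atTop := by
    have h2 : Tendsto (fun u : ℝ => (1 / 20) * u⁻¹) (𝓝[>] 0) atTop :=
      tendsto_inv_nhdsGT_zero.const_mul_atTop (by norm_num)
    refine h2.congr fun u => ?_
    ring
  have h3 := (tendsto_inv_atTop_zero.comp (TN_atTop.comp h1)).const_mul 125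
  rw [mul_zero] at h3
  refine h3.congr' ?_
  filter_upwards [self_mem_nhdsWithin] with u hu
  have hu' : (0 : ℝ) < u := hu
  simp only [Function.comp_apply]
  rw [TN_W hu']
  have := TN_pos hu'
  field_simp

theorem TN_hasDeriv {u : ℝ} (hu : 0 < u) :
    HasDerivAt TN (2 * gam1 u * Real.sqrt (TN u ^ 3 - 22 * TN u ^ 2 + 125 * TN u)) u := by
  choose! d hd1 hd2 using fun (u : ℝ) (hu : 0 < u) => TN_deriv hu
  have hne : ∀ x ∈ Ioi (0 : ℝ), d x ≠ 0 := by
    intro x hx h0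
    have h1 := TN_sq hx (hd2 x hx)
    rw [h0] at h1
    have h2 := mul_pos (pow_pos (mul_pos two_pos (gam1_pos hx)) 2) (TN_cubic_pos (TN_pos hx))
    rw [← h1] at h2
    norm_num at h2
  have hpos : ∀ x ∈ Ioi (0 : ℝ), 0 < d x := by
    rcases hasDerivWithinAt_forall_lt_or_forall_gt_of_forall_ne (convex_Ioi (0 : ℝ))
      (fun x hx => (hd1 x hx).hasDerivWithinAt) hne with h | h
    · exfalso
      have hanti : StrictAntiOn TN (Ioi 0) := by
        refine strictAntiOn_of_deriv_neg (convex_Ioi 0)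
          (fun x hx => (hd1 x hx).continuousAt.continuousWithinAt) fun x hx => ?_
        rw [interior_Ioi] at hx
        rw [(hd1 x hx).deriv]
        exact h x hx
      have h1 := (TN_atTop.eventually (eventually_gt_atTop (TN 1))).and (eventually_gt_atTop 1)
      obtain ⟨v, hv1, hv2⟩ := h1.exists
      have h2 := hanti (show (1 : ℝ) ∈ Ioi (0 : ℝ) by norm_num)
        (show v ∈ Ioi (0 : ℝ) by exact lt_trans one_pos hv2) hv2
      linarith
    · exact h
  have h1 := TN_sq hu (hd2 u hu)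
  have h2 : d u = 2 * gam1 u * Real.sqrt (TN u ^ 3 - 22 * TN u ^ 2 + 125 * TN u) := by
    have h3 : (2 * gam1 u * Real.sqrt (TN u ^ 3 - 22 * TN u ^ 2 + 125 * TN u)) ^ 2 = d u ^ 2 := by
      rw [mul_pow, Real.sq_sqrt (TN_cubic_pos (TN_pos hu)).le, h1]
    have h4 : 0 ≤ 2 * gam1 u * Real.sqrt (TN u ^ 3 - 22 * TN u ^ 2 + 125 * TN u) :=
      mul_nonneg (mul_pos two_pos (gam1_pos hu)).le (Real.sqrt_nonneg _)
    exact ((sq_eq_sq₀ h4 (hpos u hu).le).1 h3).symm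
  rw [← h2]
  exact hd1 u hu

/-- the quartic -/
noncomputable def VV (c s : ℝ) : ℝ := Real.sqrt ((s ^ 2 + c) ^ 2 + 4)

lemma VV_pos (c s : ℝ) : 0 < VV c s := Real.sqrt_pos.2 (by positivity)

/-- **the second period is an elliptic integral** -/
theorem I1_quartic : ∫ s in Ioi (0 : ℝ), (VV (-11) s)⁻¹ = I1 := by
  rw [I1_eq]
  refine subst_gen (VV (-11)) (fun u => Real.sqrt (TN u)) gam1 (VV_pos _)
    (fun u hu => Real.sqrt_pos.2 (TN_pos hu)) (fun u hu => gam1_pos hu) (fun u hu => ?_) ?_ ?_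
  · have h1 := (TN_hasDeriv hu).sqrt (TN_pos hu).ne'
    refine h1.congr_deriv ?_
    have hT := TN_pos hu
    have e1 : Real.sqrt (TN u) ^ 2 = TN u := Real.sq_sqrt hT.le
    unfold VV
    rw [e1]
    have e3 : TN u ^ 3 - 22 * TN u ^ 2 + 125 * TN u = TN u * ((TN u + -11) ^ 2 + 4) := by
      ring
    rw [e3, Real.sqrt_mul hT.le]
    have := Real.sqrt_pos.2 hT
    field_simp
  · have := (Real.continuous_sqrt.tendsto 0).comp TN_zero
    rw [Real.sqrt_zero] at this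
    exact this
  · exact Real.tendsto_sqrt_atTop.comp TN_atTop

/-- **the first period is an elliptic integral** -/
theorem J0_quartic : ∫ s in Ioi (0 : ℝ), (VV 11 s)⁻¹ = J0 := by
  unfold J0
  refine subst_gen (VV 11) (fun u => Real.sqrt (TT u)) gam (VV_pos _)
    (fun u hu => Real.sqrt_pos.2 (TT_pos hu)) (fun u hu => gam_pos hu) (fun u hu => ?_) ?_ ?_
  · have h1 := (TT_hasDeriv hcp5 hqe hu).sqrt (TT_pos hu).ne'
    refine h1.congr_deriv ?_
    have hT := TT_pos hu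
    have e1 : Real.sqrt (TT u) ^ 2 = TT u := Real.sq_sqrt hT.le
    unfold VV
    rw [e1]
    have e3 : TT u ^ 3 + 22 * TT u ^ 2 + 125 * TT u = TT u * ((TT u + 11) ^ 2 + 4) := by
      ring
    rw [e3, Real.sqrt_mul hT.le]
    have := Real.sqrt_pos.2 hT
    field_simp
  · have := (Real.continuous_sqrt.tendsto 0).comp TT_zero
    rw [Real.sqrt_zero] at this
    exact this
  · exact Real.tendsto_sqrt_atTop.comp TT_atTop

end Pool.Agent.Y695
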