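import Pool.Agent.Y695.Rec4

/-!
The involution and one more prime.
-/

set_option autoImplicit false
set_option linter.all false

open Finset

namespace Pool.Agent.Y695

/-- the involution `a ↦ -1/(20 a)` modulo `N` -/
def iot (N a : ℕ) : ℕ := ((-(20 * (a : ZMod N)))⁻¹ : ZMod N).val

lemma cop20 {N : ℕ} (hN : N.Coprime 10) : Nat.Coprime 20 N := by
  rw [Nat.coprime_comm]
  have h2 : N.Coprime 2 := Nat.Coprime.coprime_dvd_right (by norm_num) hN
  have h5 : N.Coprime 5 := Nat.Coprime.coprime_dvd_right (by norm_num) hN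
  have e : 20 = 2 * (2 * 5) := by norm_num
  rw [e]
  exact Nat.Coprime.mul_right h2 (Nat.Coprime.mul_right h2 h5)

lemma iot_spec {N a : ℕ} (hN0 : N ≠ 0) (hN : N.Coprime 10) (ha : a.Coprime N) :
    iot N a < N ∧ (iot N a).Coprime N ∧ N ∣ 20 * (a * iot N a) + 1 := by
  haveI : NeZero N := ⟨hN0⟩
  have hu : IsUnit (20 * (a : ZMod N)) := by
    have h1 := (ZMod.isUnit_iff_coprime 20 N).2 (cop20 hN)
    have h2 := (ZMod.isUnit_iff_coprime a N).2 ha
    exact_mod_cast h1.mul h2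
  have hd : N ∣ 20 * (a * iot N a) + 1 := by
    rw [← ZMod.natCast_eq_zero_iff]
    push_cast
    unfold iot
    rw [ZMod.natCast_zmod_val]
    have h3 : -(20 * (a : ZMod N)) * (-(20 * (a : ZMod N)))⁻¹ = 1 :=
      ZMod.mul_inv_of_unit _ hu.neg
    linear_combination (-1 : ZMod N) * h3
  refine ⟨ZMod.val_lt _, ?_, hd⟩
  obtain ⟨k, hk⟩ := hd
  have h4 : Nat.Coprime (20 * (a * iot N a)) (20 * (a * iot N a) + 1) :=
    (Nat.coprime_self_add_right).2 (Nat.coprime_one_right _)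
  rw [hk] at h4
  have h5 : Nat.Coprime (20 * (a * iot N a)) N := Nat.Coprime.coprime_dvd_right (Dvd.intro _ rfl) h4
  exact Nat.Coprime.coprime_dvd_left ⟨20 * a, by ring⟩ h5

lemma iot_unique {N a b c : ℕ} (hN : N.Coprime 10) (ha : a.Coprime N) (hb : b < N) (hc : c < N)
    (h1 : N ∣ 20 * (a * b) + 1) (h2 : N ∣ 20 * (a * c) + 1) : b = c := by
  have h3 : (N : ℤ) ∣ (20 * a : ℤ) * (b - c) := by
    have e1 : (N : ℤ) ∣ 20 * (a * b) + 1 := by exact_mod_cast Int.natCast_dvd_natCast.2 h1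
    have e2 : (N : ℤ) ∣ 20 * (a * c) + 1 := by exact_mod_cast Int.natCast_dvd_natCast.2 h2
    have := dvd_sub e1 e2
    have e : (20 * (a * b) + 1 : ℤ) - (20 * (a * c) + 1) = (20 * a : ℤ) * (b - c) := by ring
    rwa [e] at this
  have hcop : IsCoprime (N : ℤ) (20 * a : ℤ) := by
    have := Nat.Coprime.mul_left (cop20 hN) ha
    exact_mod_cast (Nat.isCoprime_iff_coprime.2 this).symm
  have h4 := hcop.dvd_of_dvd_mul_left h3
  obtain ⟨k, hk⟩ := h4
  have hk0 : k = 0 := by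
    by_contra h
    have : 1 ≤ |k| := Int.one_le_abs h
    have h5 : |((b : ℤ) - c)| = N * |k| := by rw [hk, abs_mul, Nat.abs_cast]
    have h6 : |((b : ℤ) - c)| < N := by
      rw [abs_lt]; constructor <;> omega
    nlinarith
  rw [hk0, mul_zero] at hk
  omega

lemma iot_iot {N a : ℕ} (hN0 : N ≠ 0) (hN : N.Coprime 10) (haN : a < N) (ha : a.Coprime N) :
    iot N (iot N a) = a := by
  obtain ⟨h1, h2, h3⟩ := iot_spec hN0 hN ha
  obtain ⟨h4, h5, h6⟩ := iot_spec hN0 hN h2
  exact iot_unique hN h2 h4 haN h6 (by rwa [mul_comm (iot N a) a])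

lemma iot_fix {N a : ℕ} (hN0 : N ≠ 0) (hN : N.Coprime 10) (haN : a < N) (ha : a.Coprime N) :
    iot N a = a ↔ N ∣ 20 * (a * a) + 1 := by
  obtain ⟨h1, h2, h3⟩ := iot_spec hN0 hN ha
  constructor
  · intro h
    rwa [h] at h3
  · intro h
    exact iot_unique hN ha h1 haN h3 h

/-- the involution preserves the subgroup -/
lemma iot_HH {S : Finset ℕ} (hS : Adm S) (h5 : ∀ q ∈ S, jacobiSym (-5) q = 1) {a : ℕ}
    (ha : a ∈ HH S) : iot (NN S) a ∈ HH S := by
  unfold HH at ha ⊢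
  rw [mem_filter, mem_CC] at ha ⊢
  obtain ⟨⟨ha1, ha2⟩, ha3⟩ := ha
  obtain ⟨h1, h2, h3⟩ := iot_spec (NN_ne hS) (NN_ten hS) ha2
  refine ⟨⟨h1, h2⟩, fun q hq => ?_⟩
  have h4 : (q : ℤ) ∣ 20 * (a * iot (NN S) a) + 1 := by
    exact_mod_cast Int.natCast_dvd_natCast.2 ((dvd_NN hq).trans h3)
  have h6 : jacobiSym (20 * (a * iot (NN S) a)) q = jacobiSym (-1) q := by
    apply jacobiSym.mod_left'
    apply Int.emod_eq_emod_iff_emod_sub_eq_zero.2
    apply Int.emod_eq_zero_of_dvd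
    rwa [sub_neg_eq_add]
  have hodd : q % 2 = 1 := by
    rcases (hS q hq).1.eq_two_or_odd with h | h
    · exact absurd h (hS q hq).2.1
    · exact h
  have e20 : (20 : ℤ) = -5 * (-1) * (2 ^ 2) := by norm_num
  have hg : Int.gcd 2 q = 1 := by
    have : Nat.Coprime 2 q := (Nat.coprime_primes Nat.prime_two (hS q hq).1).2 (Ne.symm (hS q hq).2.1)
    exact this
  rw [e20, jacobiSym.mul_left, jacobiSym.mul_left, jacobiSym.mul_left, jacobiSym.mul_left,
    jacobiSym.sq_one' hg, ha3 q hq, h5 q hq, one_mul, one_mul, mul_one] at h6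
  have h7 : jacobiSym (-1) q ≠ 0 := by
    rcases jacobiSym.eq_one_or_neg_one (a := -1) (b := q) (by simp) with h | h <;> rw [h] <;> norm_num
  have h8 : jacobiSym (-1) q * (jacobiSym (iot (NN S) a) q - 1) = 0 := by linear_combination h6
  have := (mul_eq_zero.1 h8).resolve_left h7
  linarith

lemma NN_insert {S : Finset ℕ} {q : ℕ} (hq : q ∉ S) : NN (insert q S) = q * NN S := by
  unfold NN
  rw [prod_insert hq]

lemma NN_dvd_int {S : Finset ℕ} (hS : Adm S) {x : ℤ} (h : ∀ q ∈ S, (q : ℤ) ∣ x) : (NN S : ℤ) ∣ x := by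
  classical
  induction S using Finset.induction_on with
  | empty =>
    unfold NN
    simp
  | insert q S hq ih =>
    have hS' : Adm S := hS.mono (subset_insert _ _)
    rw [NN_insert hq, Nat.cast_mul]
    refine IsCoprime.mul_dvd ?_ (h q (mem_insert_self _ _)) (ih hS' fun r hr =>
      h r (mem_insert_of_mem hr))
    exact Nat.isCoprime_iff_coprime.2 (NN_coprime hS' (hS q (mem_insert_self _ _)).1 hq)

lemma eq_of_dvd_sub {N b c : ℕ} (hb : b < N) (hc : c < N) (h : (N : ℤ) ∣ (b : ℤ) - c) : b = c := by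
  obtain ⟨k, hk⟩ := h
  have hk0 : k = 0 := by
    by_contra h
    have : 1 ≤ |k| := Int.one_le_abs h
    have h5 : |((b : ℤ) - c)| = N * |k| := by rw [hk, abs_mul, Nat.abs_cast]
    have h6 : |((b : ℤ) - c)| < N := by
      rw [abs_lt]; constructor <;> omega
    nlinarith
  rw [hk0, mul_zero] at hk
  omega

lemma jac_of_dvd_sub {a b : ℤ} {q : ℕ} (h : (q : ℤ) ∣ a - b) : jacobiSym a q = jacobiSym b q :=
  jacobiSym.mod_left' (Int.emod_eq_emod_iff_emod_sub_eq_zero.2 (Int.emod_eq_zero_of_dvd h))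

/-- the two fixed points -/
lemma exists_other {S0 : Finset ℕ} {p : ℕ} (hS : Adm (insert p S0)) (hpS : p ∉ S0)
    (h3 : ∀ q ∈ S0, q % 4 = 3) (hp4 : p % 4 = 1) {a : ℕ} (ha : a ∈ HH (insert p S0))
    (hf : NN (insert p S0) ∣ 20 * (a * a) + 1) :
    ∃ a' : ℕ, a' ∈ HH (insert p S0) ∧ NN (insert p S0) ∣ 20 * (a' * a') + 1 ∧ a' ≠ a ∧
      (NN S0 : ℤ) ∣ (a' : ℤ) - a ∧ (p : ℤ) ∣ (a' : ℤ) + a ∧
      ∀ b ∈ HH (insert p S0), NN (insert p S0) ∣ 20 * (b * b) + 1 → b = a ∨ b = a' := by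
  classical
  have hS0 : Adm S0 := hS.mono (subset_insert _ _)
  have hp := (hS p (mem_insert_self _ _)).1
  have hcop : (NN S0).Coprime p := (NN_coprime hS0 hp hpS).symm
  have hNp : NN S0 * p ≠ 0 := mul_ne_zero (NN_ne hS0) hp.ne_zero
  have hNN : NN (insert p S0) = NN S0 * p := by rw [NN_insert hpS, mul_comm]
  unfold HH at ha
  rw [mem_filter, mem_CC] at ha
  obtain ⟨⟨ha1, ha2⟩, ha3⟩ := ha
  obtain ⟨x, hx1, hx2⟩ := Nat.chineseRemainder hcop a ((p - 1) * a)
  set a' := x % (NN S0 * p) with ha'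
  have hlt : a' < NN S0 * p := Nat.mod_lt _ (Nat.pos_of_ne_zero hNp)
  have d1 : (NN S0 : ℤ) ∣ (a' : ℤ) - a := by
    have h1 : a' ≡ a [MOD NN S0] := by
      have : a' ≡ x [MOD NN S0] := (Nat.mod_modEq x (NN S0 * p)).of_dvd (Dvd.intro _ rfl)
      exact this.trans hx1
    exact (Nat.modEq_iff_dvd.1 h1.symm)
  have d2 : (p : ℤ) ∣ (a' : ℤ) + a := by
    have h1 : a' ≡ (p - 1) * a [MOD p] := by
      have : a' ≡ x [MOD p] := (Nat.mod_modEq x (NN S0 * p)).of_dvd (Dvd.intro_left _ rfl)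
      exact this.trans hx2
    have h2 := Nat.modEq_iff_dvd.1 h1.symm
    rw [Nat.cast_mul, Nat.cast_sub hp.one_le] at h2
    have e : (a' : ℤ) + a = ((a' : ℤ) - ((p : ℤ) - (1 : ℕ)) * a) + p * a := by push_cast; ring
    rw [e]
    exact dvd_add h2 (Dvd.intro _ rfl)
  have hfZ : ∀ b : ℕ, NN (insert p S0) ∣ 20 * (b * b) + 1 → ∀ q ∈ insert p S0,
      (q : ℤ) ∣ 20 * (b * b) + 1 := by
    intro b hb q hq
    exact_mod_cast Int.natCast_dvd_natCast.2 ((dvd_NN hq).trans hb)
  have hsq : NN (insert p S0) ∣ 20 * (a' * a') + 1 := by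
    have h1 : ((NN (insert p S0) : ℕ) : ℤ) ∣ (20 * ((a' : ℤ) * a') + 1) := by
      apply NN_dvd_int hS
      intro q hq
      have h2 := hfZ a hf q hq
      rcases mem_insert.1 hq with rfl | hq0
      · have e : (20 * ((a' : ℤ) * a') + 1 : ℤ) = 20 * (a * a) + 1 + 20 * (a' - a) * (a' + a) := by ring
        rw [e]
        exact dvd_add h2 (d2.mul_left _)
      · have e : (20 * ((a' : ℤ) * a') + 1 : ℤ) = 20 * (a * a) + 1 + (a' - a) * (20 * (a' + a)) := by ring
        rw [e]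
        exact dvd_add h2 (((Int.natCast_dvd_natCast.2 (dvd_NN hq0)).trans d1).mul_right _)
    exact_mod_cast h1
  have hneg : ∀ q : ℕ, q % 4 = 3 → jacobiSym (-1) q = -1 := fun q h1 => by
    rw [jacobiSym.at_neg_one (Nat.odd_iff.2 (by omega)), ZMod.χ₄_nat_three_mod_four h1]
  have hnegp : jacobiSym (-1) p = 1 := by
    rw [jacobiSym.at_neg_one (Nat.odd_iff.2 (by omega)), ZMod.χ₄_nat_one_mod_four hp4]
  refine ⟨a', ?_, hsq, ?_, d1, d2, ?_⟩
  · unfold HH
    rw [mem_filter, mem_CC, hNN]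
    refine ⟨⟨hlt, ?_⟩, fun q hq => ?_⟩
    · obtain ⟨k, hk⟩ := hsq
      have h4 : Nat.Coprime (20 * (a' * a')) (20 * (a' * a') + 1) :=
        (Nat.coprime_self_add_right).2 (Nat.coprime_one_right _)
      rw [hk] at h4
      have h5 : Nat.Coprime (20 * (a' * a')) (NN (insert p S0)) :=
        Nat.Coprime.coprime_dvd_right (Dvd.intro _ rfl) h4
      rw [hNN] at h5
      exact Nat.Coprime.coprime_dvd_left ⟨20 * a', by ring⟩ h5
    · rcases mem_insert.1 hq with rfl | hq0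
      · rw [jac_of_dvd_sub (b := -1 * (a : ℤ)) (by
          have e : (a' : ℤ) - -1 * a = a' + a := by ring
          rw [e]; exact d2), jacobiSym.mul_left, hnegp, ha3 q hq, one_mul]
      · rw [jac_of_dvd_sub ((Int.natCast_dvd_natCast.2 (dvd_NN hq0)).trans d1), ha3 q hq]
  · intro h
    rw [h] at d2
    have h2 := hfZ a hf p (mem_insert_self _ _)
    have hpp : Prime (p : ℤ) := Nat.prime_iff_prime_int.1 hp
    have h5 : (p : ℤ) ∣ a := by
      have e : (a : ℤ) + a = 2 * a := by ring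
      rw [e] at d2
      rcases hpp.dvd_or_dvd d2 with h6 | h6
      · exfalso
        have h7 : p ∣ 2 := by exact_mod_cast h6
        have := Nat.le_of_dvd (by norm_num) h7
        have := hp.two_le
        omega
      · exact h6
    have h6 : (p : ℤ) ∣ 1 := by
      have e : (1 : ℤ) = (20 * (a * a) + 1) - a * (20 * a) := by ring
      rw [e]
      exact dvd_sub h2 (h5.mul_right _)
    exact hpp.not_unit (isUnit_of_dvd_one h6)
  · intro b hb hfb
    unfold HH at hb
    rw [mem_filter, mem_CC] at hb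
    obtain ⟨⟨hb1, hb2⟩, hb3⟩ := hb
    have hcase : ∀ q ∈ insert p S0, (q : ℤ) ∣ (b : ℤ) - a ∨ (q : ℤ) ∣ (b : ℤ) + a := by
      intro q hq
      have hqp : Prime (q : ℤ) := Nat.prime_iff_prime_int.1 (hS q hq).1
      have e1 := hfZ a hf q hq
      have e2 := hfZ b hfb q hq
      have e3 : (q : ℤ) ∣ 20 * (((b : ℤ) - a) * (b + a)) := by
        have := dvd_sub e2 e1
        have e : (20 * (b * b) + 1 : ℤ) - (20 * (a * a) + 1) = 20 * (((b : ℤ) - a) * (b + a)) := by
          ring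
        rwa [e] at this
      have e4 : IsCoprime (q : ℤ) 20 := by
        have h1 := NN_ten (S := {q}) (fun r hr => by
          rw [mem_singleton] at hr; subst hr; exact hS r hq)
        unfold NN at h1
        rw [prod_singleton] at h1
        exact_mod_cast (Nat.isCoprime_iff_coprime.2 (cop20 h1)).symm
      exact hqp.dvd_or_dvd (e4.dvd_of_dvd_mul_left e3)
    have hN0 : (NN S0 : ℤ) ∣ (b : ℤ) - a := by
      apply NN_dvd_int hS0
      intro q hq
      rcases hcase q (mem_insert_of_mem hq) with h | h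
      · exact h
      · exfalso
        have h1 := jac_of_dvd_sub (a := (b : ℤ)) (b := -1 * (a : ℤ)) (q := q) (by
          have e : (b : ℤ) - -1 * a = b + a := by ring
          rw [e]; exact h)
        rw [jacobiSym.mul_left, hneg q (h3 q hq), ha3 q (mem_insert_of_mem hq),
          hb3 q (mem_insert_of_mem hq)] at h1
        norm_num at h1
    have hcopZ : IsCoprime (NN S0 : ℤ) (p : ℤ) := Nat.isCoprime_iff_coprime.2 hcop
    rcases hcase p (mem_insert_self _ _) with h | h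
    · left
      rw [hNN] at ha1 hb1
      apply eq_of_dvd_sub hb1 ha1
      push_cast
      exact hcopZ.mul_dvd hN0 h
    · right
      rw [hNN] at hb1
      apply eq_of_dvd_sub hb1 hlt
      push_cast
      refine hcopZ.mul_dvd ?_ ?_
      · have e : (b : ℤ) - a' = (b - a) - (a' - a) := by ring
        rw [e]
        exact dvd_sub hN0 d1
      · have e : (b : ℤ) - a' = (b + a) - (a' + a) := by ring
        rw [e]
        exact dvd_sub h d2

end Pool.Agent.Y695
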