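import Pool.Agent.Y695.LfunG
import Pool.Agent.Y695.Rec5

/-!
Primitive real characters as functions on the natural numbers, and their products.
-/

set_option autoImplicit false
set_option linter.all false

open Finset ZMod

namespace Pool.Agent.Y695

/-- a primitive real character modulo `M` -/
structure RC (M : ℕ) (f : ℕ → ℤ) : Prop where
  pos : 0 < M
  per : ∀ a, f (a + M) = f a
  one : f 1 = 1
  mul : ∀ a b, f (a * b) = f a * f b
  zero : ∀ a : ℕ, ¬ a.Coprime M → f a = 0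
  sq : ∀ a : ℕ, a.Coprime M → f a * f a = 1
  prim : ∀ l : ℕ, l.Prime → l ∣ M → ∃ u : ℕ, u.Coprime M ∧ u ≡ 1 [MOD M / l] ∧ f u = -1

namespace RC

variable {M : ℕ} {f : ℕ → ℤ}

lemma per' (h : RC M f) (a b : ℕ) : f (a + b * M) = f a := by
  induction b with
  | zero => simp
  | succ b ih => rw [← ih, ← h.per (a + b * M)]; congr 1; ring

lemma mod (h : RC M f) (a : ℕ) : f (a % M) = f a := by
  have h1 : a % M + a / M * M = a := by rw [mul_comm, Nat.mod_add_div]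
  rw [← h.per' (a % M) (a / M), h1]

/-- the Dirichlet character -/
noncomputable def chr (h : RC M f) [NeZero M] : DirichletCharacter ℂ M where
  toFun a := ((f a.val : ℤ) : ℂ)
  map_one' := by
    rw [ZMod.val_one_eq_one_mod, h.mod, h.one]
    norm_num
  map_mul' a b := by
    rw [ZMod.val_mul, h.mod, h.mul]
    push_cast
    rfl
  map_nonunit' a ha := by
    have h1 : f a.val = 0 := by
      apply h.zero
      intro h2
      apply ha
      have h3 := (ZMod.isUnit_iff_coprime a.val M).mpr h2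
      rwa [ZMod.natCast_zmod_val] at h3
    rw [h1]
    norm_num

lemma chr_apply (h : RC M f) [NeZero M] (n : ℕ) : h.chr (n : ZMod M) = ((f n : ℤ) : ℂ) := by
  have : h.chr (n : ZMod M) = ((f ((n : ZMod M).val) : ℤ) : ℂ) := rfl
  rw [this, ZMod.val_natCast, h.mod]

lemma chr_val (h : RC M f) [NeZero M] (u : ZMod M) : h.chr u = ((f u.val : ℤ) : ℂ) := rfl

lemma chr_real (h : RC M f) [NeZero M] : h.chr⁻¹ = h.chr := by
  rw [inv_eq_iff_mul_eq_one]
  ext u
  rw [MulChar.mul_apply, MulChar.one_apply_coe, h.chr_val]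
  have := h.sq (u : ZMod M).val (ZMod.val_coe_unit_coprime u)
  exact_mod_cast this

lemma chr_prim (h : RC M f) [NeZero M] : h.chr.IsPrimitive := by
  rw [DirichletCharacter.isPrimitive_def]
  have hd := h.chr.conductor_dvd_level
  by_contra hne
  obtain ⟨k, hk⟩ := hd
  have hM : M ≠ 0 := NeZero.ne M
  have hk1 : k ≠ 1 := by
    rintro rfl
    rw [mul_one] at hk
    exact hne hk.symm
  obtain ⟨l, hl, hlk⟩ := Nat.exists_prime_and_dvd hk1
  have hlM : l ∣ M := hlk.trans ⟨h.chr.conductor, by rw [mul_comm]; exact hk⟩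
  obtain ⟨u, hu1, hu2, hu3⟩ := h.prim l hl hlM
  have h4 : h.chr.conductor ∣ M / l := by
    obtain ⟨k', hk'⟩ := hlk
    refine ⟨k', ?_⟩
    have : M = l * (h.chr.conductor * k') := by
      calc M = h.chr.conductor * k := hk
        _ = l * (h.chr.conductor * k') := by rw [hk']; ring
    exact Nat.div_eq_of_eq_mul_right hl.pos this
  have h5 : IsCoprime (u : ℤ) ((M : ℕ) : ℤ) := Nat.isCoprime_iff_coprime.mpr hu1
  have h6 := h.chr.primitiveCharacter_apply_of_isCoprime h5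
  rw [Int.cast_natCast, Int.cast_natCast] at h6
  have h7 : (u : ZMod h.chr.conductor) = 1 := by
    have := (ZMod.natCast_eq_natCast_iff u 1 h.chr.conductor).mpr (hu2.of_dvd h4)
    rw [this, Nat.cast_one]
  rw [h7, map_one, h.chr_apply, hu3] at h6
  norm_num at h6

/-- the product -/
lemma prod {M₁ M₂ : ℕ} {f₁ f₂ : ℕ → ℤ} (h₁ : RC M₁ f₁) (h₂ : RC M₂ f₂) (hc : M₁.Coprime M₂) :
    RC (M₁ * M₂) (fun a => f₁ a * f₂ a) where
  pos := Nat.mul_pos h₁.pos h₂.pos
  per a := by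
    show f₁ (a + M₁ * M₂) * f₂ (a + M₁ * M₂) = _
    rw [h₂.per' a M₁, mul_comm M₁ M₂, h₁.per' a M₂]
  one := by
    show f₁ 1 * f₂ 1 = 1
    rw [h₁.one, h₂.one]; norm_num
  mul a b := by
    show f₁ (a * b) * f₂ (a * b) = _
    rw [h₁.mul, h₂.mul]; ring
  zero a ha := by
    rw [Nat.coprime_mul_iff_right, not_and_or] at ha
    rcases ha with h | h
    · show f₁ a * f₂ a = 0
      rw [h₁.zero a h, zero_mul]
    · show f₁ a * f₂ a = 0
      rw [h₂.zero a h, mul_zero]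
  sq a ha := by
    rw [Nat.coprime_mul_iff_right] at ha
    show f₁ a * f₂ a * (f₁ a * f₂ a) = 1
    have e1 := h₁.sq a ha.1
    have e2 := h₂.sq a ha.2
    calc f₁ a * f₂ a * (f₁ a * f₂ a) = (f₁ a * f₁ a) * (f₂ a * f₂ a) := by ring
      _ = 1 := by rw [e1, e2, one_mul]
  prim l hl hlM := by
    rcases (Nat.Prime.dvd_mul hl).1 hlM with h | h
    · obtain ⟨u, hu1, hu2, hu3⟩ := h₁.prim l hl h
      obtain ⟨x, hx1, hx2⟩ := Nat.chineseRemainder hc u 1
      refine ⟨x, ?_, ?_, ?_⟩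
      · rw [Nat.coprime_mul_iff_right]
        constructor
        · have := hx1.gcd_eq
          rw [Nat.coprime_iff_gcd_eq_one, this]
          exact hu1
        · have := hx2.gcd_eq
          rw [Nat.coprime_iff_gcd_eq_one, this]
          exact Nat.gcd_one_left _
      · rw [Nat.mul_comm M₁ M₂, Nat.mul_div_assoc _ h, mul_comm]
        have hc' : (M₁ / l).Coprime M₂ := Nat.Coprime.coprime_dvd_left (Nat.div_dvd_of_dvd h) hc
        rw [← Nat.modEq_and_modEq_iff_modEq_mul hc']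
        exact ⟨(hx1.of_dvd (Nat.div_dvd_of_dvd h)).trans hu2, hx2⟩
      · have e1 : f₁ x = f₁ u := by
          rw [← h₁.mod x, ← h₁.mod u, hx1]
        have e2 : f₂ x = f₂ 1 := by
          rw [← h₂.mod x, ← h₂.mod 1, hx2]
        show f₁ x * f₂ x = -1
        rw [e1, e2, hu3, h₂.one]; norm_num
    · obtain ⟨u, hu1, hu2, hu3⟩ := h₂.prim l hl h
      obtain ⟨x, hx1, hx2⟩ := Nat.chineseRemainder hc 1 u
      refine ⟨x, ?_, ?_, ?_⟩
      · rw [Nat.coprime_mul_iff_right]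
        constructor
        · have := hx1.gcd_eq
          rw [Nat.coprime_iff_gcd_eq_one, this]
          exact Nat.gcd_one_left _
        · have := hx2.gcd_eq
          rw [Nat.coprime_iff_gcd_eq_one, this]
          exact hu1
      · rw [Nat.mul_div_assoc _ h]
        have hc' : M₁.Coprime (M₂ / l) := Nat.Coprime.coprime_dvd_right (Nat.div_dvd_of_dvd h) hc
        rw [← Nat.modEq_and_modEq_iff_modEq_mul hc']
        exact ⟨hx1, (hx2.of_dvd (Nat.div_dvd_of_dvd h)).trans hu2⟩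
      · have e1 : f₁ x = f₁ 1 := by
          rw [← h₁.mod x, ← h₁.mod 1, hx1]
        have e2 : f₂ x = f₂ u := by
          rw [← h₂.mod x, ← h₂.mod u, hx2]
        show f₁ x * f₂ x = -1
        rw [e1, e2, hu3, h₁.one]; norm_num

end RC

/-- the Jacobi symbols -/
lemma rc_ch {S : Finset ℕ} (hS : Adm S) : RC (NN S) (fun a => ch S a) where
  pos := Nat.pos_of_ne_zero (NN_ne hS)
  per a := by
    show ch S ((a + NN S : ℕ) : ℤ) = ch S a
    apply ch_congr (N := NN S) (fun q hq => dvd_NN hq)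
    push_cast
    exact ⟨1, by ring⟩
  one := by
    show ch S ((1 : ℕ) : ℤ) = 1
    rw [Nat.cast_one, ch_one]
  mul a b := by
    show ch S ((a * b : ℕ) : ℤ) = ch S a * ch S b
    rw [Nat.cast_mul, ch_mul]
  zero a ha := by
    show ch S a = 0
    rw [coprime_iff] at ha
    push Not at ha
    obtain ⟨q, hq, h⟩ := ha
    unfold ch
    apply prod_eq_zero hq
    haveI : NeZero q := ⟨(hS q hq).1.ne_zero⟩
    rw [jacobiSym.eq_zero_iff_not_coprime, Int.gcd_natCast_natCast]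
    exact h
  sq a ha := by
    show ch S a * ch S a = 1
    apply ch_sq
    intro q hq
    rw [Int.gcd_natCast_natCast]
    exact coprime_iff.1 ha q hq
  prim l hl hlN := by
    have hlS : l ∈ S := by
      by_contra h
      have h2 := NN_coprime hS hl h
      rw [hl.coprime_iff_not_dvd] at h2
      exact h2 hlN
    obtain ⟨u, h1, h2, h3⟩ := exists_unit hS hlS
    refine ⟨u, h1, ?_, h3⟩
    have hN : NN S = l * NN (S.erase l) := by
      exact (Finset.mul_prod_erase S (fun q => q) hlS).symm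
    rw [hN, Nat.mul_div_cancel_left _ hl.pos]
    exact h2

lemma rc_four : RC 4 (fun a => ZMod.χ₄ (a : ZMod 4)) where
  pos := by norm_num
  per a := by
    have : ((a + 4 : ℕ) : ZMod 4) = (a : ZMod 4) := by
      push_cast
      have : (4 : ZMod 4) = 0 := by decide
      rw [this, add_zero]
    show ZMod.χ₄ ((a + 4 : ℕ) : ZMod 4) = _
    rw [this]
  one := by decide
  mul a b := by
    show ZMod.χ₄ ((a * b : ℕ) : ZMod 4) = _
    rw [Nat.cast_mul, map_mul]
  zero a ha := by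
    show ZMod.χ₄ ((a : ℕ) : ZMod 4) = 0
    rw [ZMod.χ₄_nat_eq_if_mod_four, if_pos]
    by_contra h
    apply ha
    have h1 : a.Coprime 2 := Nat.coprime_two_right.2 (Nat.odd_iff.2 (by omega))
    have := Nat.Coprime.pow_right 2 h1
    exact this
  sq a ha := by
    have h1 : a.Coprime 2 := Nat.Coprime.coprime_dvd_right (by norm_num) ha
    have h2 := Nat.odd_iff.1 (Nat.coprime_two_right.1 h1)
    show ZMod.χ₄ ((a : ℕ) : ZMod 4) * ZMod.χ₄ ((a : ℕ) : ZMod 4) = 1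
    rw [ZMod.χ₄_nat_eq_if_mod_four, if_neg (by omega)]
    split_ifs <;> norm_num
  prim l hl hl4 := by
    have h2 : l = 2 := by
      have : l ∣ 2 ^ 2 := by norm_num; exact hl4
      exact (Nat.prime_dvd_prime_iff_eq hl Nat.prime_two).1 (hl.dvd_of_dvd_pow this)
    subst h2
    exact ⟨3, by norm_num, by decide, by decide⟩

lemma rc_five : RC 5 (fun a => jacobiSym a 5) where
  pos := by norm_num
  per a := by
    show jacobiSym ((a + 5 : ℕ) : ℤ) 5 = _
    apply jac_of_dvd_sub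
    push_cast
    exact ⟨1, by ring⟩
  one := by
    show jacobiSym ((1 : ℕ) : ℤ) 5 = 1
    rw [Nat.cast_one, jacobiSym.one_left]
  mul a b := by
    show jacobiSym ((a * b : ℕ) : ℤ) 5 = _
    rw [Nat.cast_mul, jacobiSym.mul_left]
  zero a ha := by
    show jacobiSym (a : ℤ) 5 = 0
    rw [jacobiSym.eq_zero_iff_not_coprime, show ((5 : ℕ) : ℤ) = ((5 : ℕ) : ℤ) from rfl,
      Int.gcd_natCast_natCast]
    exact ha
  sq a ha := by
    show jacobiSym (a : ℤ) 5 * jacobiSym (a : ℤ) 5 = 1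
    rcases jacobiSym.eq_one_or_neg_one (a := (a : ℤ)) (b := 5) (by
      rw [show ((5 : ℕ) : ℤ) = ((5 : ℕ) : ℤ) from rfl, Int.gcd_natCast_natCast]; exact ha)
      with h | h <;> rw [h] <;> norm_num
  prim l hl hl5 := by
    have h2 : l = 5 := (Nat.prime_dvd_prime_iff_eq hl (by norm_num)).1 hl5
    subst h2
    refine ⟨2, by norm_num, ?_, ?_⟩
    · exact Nat.modEq_one
    · norm_num

/-- the Chinese remainder theorem for the twisted sums -/
theorem sum_crt {M₁ M₂ : ℕ} {f₁ f₂ : ℕ → ℤ} (h₁ : RC M₁ f₁) (h₂ : RC M₂ f₂) (hc : M₁.Coprime M₂)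
    [NeZero (M₁ * M₂)] {F : ℚ → ℂ} (hF : ∀ x, F (x + 1) = F x) :
    ∑ u : ZMod (M₁ * M₂), (((h₁.prod h₂ hc).chr u : ℂ)) * F ((u.val : ℚ) / (M₁ * M₂ : ℕ)) =
      ((f₁ M₂ * f₂ M₁ : ℤ) : ℂ) * ∑ a ∈ CC M₂, (f₂ a : ℂ) *
        ∑ j ∈ range M₁, (f₁ j : ℂ) * F ((a : ℚ) / M₂ + (j : ℚ) / M₁) := by
  have hM1 : (M₁ : ℚ) ≠ 0 := by exact_mod_cast h₁.pos.ne'
  have hM2 : (M₂ : ℚ) ≠ 0 := by exact_mod_cast h₂.pos.ne'
  set G : ℕ → ℂ := fun c => ((f₁ c * f₂ c : ℤ) : ℂ) * F ((c : ℚ) / (M₁ * M₂ : ℕ)) with hG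
  have hFn : ∀ (x : ℚ) (n : ℕ), F (x + n) = F x := fun x n => per_nat hF x n
  have hGmod : ∀ c, G (c % (M₁ * M₂)) = G c := by
    intro c
    have h3 : c % (M₁ * M₂) + c / (M₁ * M₂) * (M₁ * M₂) = c := by
      rw [mul_comm (c / (M₁ * M₂)), Nat.mod_add_div]
    have e1 : f₁ (c % (M₁ * M₂)) * f₂ (c % (M₁ * M₂)) = f₁ c * f₂ c := (h₁.prod h₂ hc).mod c
    have e2 : (c : ℚ) / (M₁ * M₂ : ℕ) = ((c % (M₁ * M₂) : ℕ) : ℚ) / (M₁ * M₂ : ℕ) +
        ((c / (M₁ * M₂) : ℕ) : ℚ) := by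
      have h4 : (c : ℚ) = ((c % (M₁ * M₂) : ℕ) : ℚ) + ((c / (M₁ * M₂) : ℕ) : ℚ) * ((M₁ * M₂ : ℕ) : ℚ) := by
        exact_mod_cast h3.symm
      have h5 : (((M₁ * M₂ : ℕ)) : ℚ) ≠ 0 := by push_cast; exact mul_ne_zero hM1 hM2
      rw [div_add' _ _ _ h5, ← h4]
    rw [hG]
    dsimp only
    rw [e1, e2, hFn]
  have s1 : ∑ u : ZMod (M₁ * M₂), (((h₁.prod h₂ hc).chr u : ℂ)) * F ((u.val : ℚ) / (M₁ * M₂ : ℕ)) =
      ∑ c ∈ range (M₁ * M₂), G c := by
    refine Finset.sum_bij (fun u _ => u.val) ?_ ?_ ?_ ?_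
    · intro u _
      rw [mem_range]
      exact ZMod.val_lt u
    · intro u _ v _ h
      exact ZMod.val_injective _ h
    · intro c hc'
      rw [mem_range] at hc'
      exact ⟨(c : ZMod (M₁ * M₂)), mem_univ _, by rw [ZMod.val_natCast, Nat.mod_eq_of_lt hc']⟩
    · intro u _
      rfl
  have s2 : ∑ c ∈ range (M₁ * M₂), G c =
      ∑ x ∈ range M₂ ×ˢ range M₁, G (x.1 * M₁ + x.2 * M₂) := by
    have hinj : Set.InjOn (fun x : ℕ × ℕ => (x.1 * M₁ + x.2 * M₂) % (M₁ * M₂))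
        ((range M₂ ×ˢ range M₁ : Finset (ℕ × ℕ)) : Set (ℕ × ℕ)) := by
      intro x hx y hy h
      rw [mem_coe, mem_product, mem_range, mem_range] at hx hy
      have h3 : x.1 * M₁ + x.2 * M₂ ≡ y.1 * M₁ + y.2 * M₂ [MOD M₁ * M₂] := h
      have h4 : x.2 * M₂ ≡ y.2 * M₂ [MOD M₁] := by
        have := h3.of_dvd (Dvd.intro _ rfl : M₁ ∣ M₁ * M₂)
        have e1 : x.1 * M₁ + x.2 * M₂ ≡ x.2 * M₂ [MOD M₁] := by
          rw [Nat.ModEq, add_comm, Nat.add_mul_mod_self_right]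
        have e2 : y.1 * M₁ + y.2 * M₂ ≡ y.2 * M₂ [MOD M₁] := by
          rw [Nat.ModEq, add_comm, Nat.add_mul_mod_self_right]
        exact (e1.symm.trans this).trans e2
      have h5 : x.1 * M₁ ≡ y.1 * M₁ [MOD M₂] := by
        have := h3.of_dvd (Dvd.intro_left _ rfl : M₂ ∣ M₁ * M₂)
        have e1 : x.1 * M₁ + x.2 * M₂ ≡ x.1 * M₁ [MOD M₂] := by
          rw [Nat.ModEq, Nat.add_mul_mod_self_right]
        have e2 : y.1 * M₁ + y.2 * M₂ ≡ y.1 * M₁ [MOD M₂] := by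
          rw [Nat.ModEq, Nat.add_mul_mod_self_right]
        exact (e1.symm.trans this).trans e2
      have h6 : x.2 ≡ y.2 [MOD M₁] := Nat.ModEq.cancel_right_of_coprime hc h4
      have h7 : x.1 ≡ y.1 [MOD M₂] := Nat.ModEq.cancel_right_of_coprime hc.symm h5
      rw [Nat.ModEq, Nat.mod_eq_of_lt hx.2, Nat.mod_eq_of_lt hy.2] at h6
      rw [Nat.ModEq, Nat.mod_eq_of_lt hx.1, Nat.mod_eq_of_lt hy.1] at h7
      exact Prod.ext h7 h6
    have himg : (range M₂ ×ˢ range M₁).image (fun x : ℕ × ℕ => (x.1 * M₁ + x.2 * M₂) % (M₁ * M₂)) =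
        range (M₁ * M₂) := by
      apply Finset.eq_of_subset_of_card_le
      · intro c hc'
        rw [mem_image] at hc'
        obtain ⟨x, _, rfl⟩ := hc'
        rw [mem_range]
        exact Nat.mod_lt _ (Nat.mul_pos h₁.pos h₂.pos)
      · rw [Finset.card_image_of_injOn hinj, card_product, card_range, card_range, card_range,
          mul_comm]
    rw [← himg, Finset.sum_image hinj]
    refine sum_congr rfl fun x _ => ?_
    exact hGmod _
  have s3 : ∀ a j : ℕ, G (a * M₁ + j * M₂) =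
      ((f₁ M₂ * f₂ M₁ : ℤ) : ℂ) * ((f₂ a : ℂ) * ((f₁ j : ℂ) * F ((a : ℚ) / M₂ + (j : ℚ) / M₁))) := by
    intro a j
    rw [hG]
    dsimp only
    have e1 : f₁ (a * M₁ + j * M₂) = f₁ j * f₁ M₂ := by
      rw [add_comm, h₁.per', h₁.mul]
    have e2 : f₂ (a * M₁ + j * M₂) = f₂ a * f₂ M₁ := by
      rw [h₂.per', h₂.mul]
    have e3 : (((a * M₁ + j * M₂ : ℕ)) : ℚ) / ((M₁ * M₂ : ℕ) : ℚ) = (a : ℚ) / M₂ + (j : ℚ) / M₁ := by
      push_cast
      field_simp
    rw [e1, e2, e3]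
    push_cast
    ring
  rw [s1, s2, sum_product, mul_sum]
  have s4 : ∀ a ∈ range M₂, ∑ j ∈ range M₁, G (a * M₁ + j * M₂) =
      ((f₁ M₂ * f₂ M₁ : ℤ) : ℂ) * ((f₂ a : ℂ) *
        ∑ j ∈ range M₁, (f₁ j : ℂ) * F ((a : ℚ) / M₂ + (j : ℚ) / M₁)) := by
    intro a _
    rw [mul_sum, mul_sum]
    exact sum_congr rfl fun j _ => s3 a j
  rw [sum_congr rfl s4]
  unfold CC
  rw [sum_filter]
  refine sum_congr rfl fun a _ => ?_
  split_ifs with h
  · rfl
  · rw [h₂.zero a h]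
    push_cast
    ring

end Pool.Agent.Y695
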