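import Mathlib

/-!
Hecke relations for twisted sums over the residues coprime to a modulus.
-/

set_option autoImplicit false
set_option linter.all false

open Finset

namespace Pool.Agent.Y695

/-- residues coprime to `N` -/
def CC (N : ℕ) : Finset ℕ := (range N).filter (fun a => a.Coprime N)

lemma mem_CC {N a : ℕ} : a ∈ CC N ↔ a < N ∧ a.Coprime N := by
  unfold CC
  rw [mem_filter, mem_range]

lemma sum_units {N : ℕ} [NeZero N] (F : ℕ → ℂ) :
    ∑ u : (ZMod N)ˣ, F (u : ZMod N).val = ∑ a ∈ CC N, F a := by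
  refine Finset.sum_bij (fun u _ => (u : ZMod N).val) ?_ ?_ ?_ ?_
  · intro u _
    rw [mem_CC]
    exact ⟨ZMod.val_lt _, ZMod.val_coe_unit_coprime u⟩
  · intro u _ v _ h
    exact Units.ext (ZMod.val_injective N h)
  · intro a ha
    rw [mem_CC] at ha
    refine ⟨ZMod.unitOfCoprime a ha.2, mem_univ _, ?_⟩
    rw [ZMod.coe_unitOfCoprime, ZMod.val_natCast, Nat.mod_eq_of_lt ha.1]
  · intro u _
    rfl

/-- multiplication by a unit -/
lemma sum_mulU {N : ℕ} [NeZero N] (G : ℕ → ℂ) (hG : ∀ a, G (a % N) = G a) {q : ℕ}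
    (hq : q.Coprime N) : ∑ a ∈ CC N, G (q * a) = ∑ a ∈ CC N, G a := by
  rw [← sum_units (fun a => G (q * a)), ← sum_units G]
  refine Fintype.sum_equiv (Equiv.mulLeft (ZMod.unitOfCoprime q hq)) _ _ fun u => ?_
  rw [Equiv.coe_mulLeft, Units.val_mul, ZMod.coe_unitOfCoprime, ZMod.val_mul, ZMod.val_natCast]
  rw [Nat.mod_mul_mod, hG]

/-- complete residues: `a + b N` -/
lemma sum_split {N q : ℕ} (hN : 0 < N) (F : ℕ → ℂ) :
    ∑ a ∈ CC N, ∑ b ∈ range q, F (a + b * N) =
      ∑ a ∈ (range (q * N)).filter (fun a => a.Coprime N), F a := by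
  rw [← Finset.sum_product']
  refine Finset.sum_bij (fun x _ => x.1 + x.2 * N) ?_ ?_ ?_ ?_
  · intro x hx
    rw [mem_product, mem_CC, mem_range] at hx
    rw [mem_filter, mem_range]
    refine ⟨?_, ?_⟩
    · have h1 : (x.2 + 1) * N ≤ q * N := Nat.mul_le_mul_right N hx.2
      have h2 := hx.1.1
      rw [add_mul, one_mul] at h1
      omega
    · rw [Nat.coprime_add_mul_right_left]
      exact hx.1.2
  · intro x hx y hy h
    rw [mem_product, mem_CC, mem_range] at hx hy
    have h1 : (x.1 + x.2 * N) % N = (y.1 + y.2 * N) % N := by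
      have : x.1 + x.2 * N = y.1 + y.2 * N := h
      rw [this]
    rw [Nat.add_mul_mod_self_right, Nat.add_mul_mod_self_right, Nat.mod_eq_of_lt hx.1.1,
      Nat.mod_eq_of_lt hy.1.1] at h1
    have h2 : x.1 + x.2 * N = y.1 + y.2 * N := h
    rw [h1] at h2
    have h3 : x.2 * N = y.2 * N := by omega
    exact Prod.ext h1 (Nat.eq_of_mul_eq_mul_right hN h3)
  · intro a ha
    rw [mem_filter, mem_range] at ha
    refine ⟨(a % N, a / N), ?_, ?_⟩
    · rw [mem_product, mem_CC, mem_range]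
      refine ⟨⟨Nat.mod_lt _ hN, ?_⟩, ?_⟩
      · have h1 : (a % N + a / N * N).Coprime N := by
          rw [mul_comm, Nat.mod_add_div]
          exact ha.2
        rwa [Nat.coprime_add_mul_right_left] at h1
      · exact Nat.div_lt_of_lt_mul (by rw [mul_comm]; exact ha.1)
    · show a % N + a / N * N = a
      rw [mul_comm, Nat.mod_add_div]
  · intro x _
    rfl

/-- multiples of `q` -/
lemma sum_split' {N q : ℕ} (hq : q.Prime) (hqN : q.Coprime N) (F : ℕ → ℂ) :
    ∑ a ∈ (range (q * N)).filter (fun a => a.Coprime N), F a =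
      ∑ a ∈ CC (q * N), F a + ∑ a ∈ CC N, F (q * a) := by
  have hqp := hq.pos
  rw [← Finset.sum_filter_not_add_sum_filter _ (fun a => q ∣ a)]
  congr 1
  · apply Finset.sum_congr _ (fun _ _ => rfl)
    ext a
    rw [mem_filter, mem_filter, mem_range, mem_CC, Nat.coprime_mul_iff_right]
    have : a.Coprime q ↔ ¬ q ∣ a := by
      rw [Nat.coprime_comm]
      exact hq.coprime_iff_not_dvd
    rw [this]
    tauto
  · symm
    refine Finset.sum_bij (fun a _ => q * a) ?_ ?_ ?_ ?_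
    · intro a ha
      rw [mem_CC] at ha
      rw [mem_filter, mem_filter, mem_range]
      exact ⟨⟨Nat.mul_lt_mul_of_pos_left ha.1 hqp, Nat.Coprime.mul_left hqN ha.2⟩,
        Dvd.intro _ rfl⟩
    · intro a _ b _ h
      exact Nat.eq_of_mul_eq_mul_left hqp h
    · intro a ha
      rw [mem_filter, mem_filter, mem_range] at ha
      obtain ⟨⟨h1, h2⟩, ⟨c, rfl⟩⟩ := ha
      refine ⟨c, ?_, rfl⟩
      rw [mem_CC]
      exact ⟨Nat.lt_of_mul_lt_mul_left h1, Nat.Coprime.coprime_mul_left h2⟩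
    · intro a _
      rfl

/-- the twisted sum -/
noncomputable def TS (pf : ℚ → ℂ) (χ : ℕ → ℂ) (N : ℕ) : ℂ := ∑ a ∈ CC N, χ a * pf ((a : ℚ) / N)

lemma per_nat {pf : ℚ → ℂ} (hper : ∀ x, pf (x + 1) = pf x) (x : ℚ) (n : ℕ) : pf (x + n) = pf x := by
  induction n with
  | zero => simp
  | succ n ih =>
    rw [← ih, ← hper (x + n)]
    congr 1
    push_cast
    ring

/-- **the Hecke relation for the twisted sums** -/
theorem TS_step {pf : ℚ → ℂ} (hper : ∀ x, pf (x + 1) = pf x) {q : ℕ} (hq : q.Prime) {A : ℂ}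
    (hH : ∀ x : ℚ, A * pf x = pf (q * x) + ∑ b ∈ range q, pf ((x + b) / q)) {N : ℕ} (hN : N ≠ 0)
    (hqN : q.Coprime N) {χ : ℕ → ℂ} (hχ : ∀ a, χ (a + N) = χ a)
    (hm : ∀ a, χ (q * a) = χ q * χ a) (h2 : χ q * χ q = 1) :
    TS pf χ (q * N) = (A - 2 * χ q) * TS pf χ N := by
  haveI : NeZero N := ⟨hN⟩
  have hNp : 0 < N := Nat.pos_of_ne_zero hN
  have hNQ : (N : ℚ) ≠ 0 := by exact_mod_cast hN
  have hqQ : (q : ℚ) ≠ 0 := by exact_mod_cast hq.ne_zero
  have hχn : ∀ a b, χ (a + b * N) = χ a := by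
    intro a b
    induction b with
    | zero => simp
    | succ b ih => rw [← ih, ← hχ (a + b * N)]; congr 1; ring
  set G : ℕ → ℂ := fun a => χ a * pf ((a : ℚ) / N) with hG
  have hGp : ∀ a, G (a % N) = G a := by
    intro a
    have h1 : a % N + a / N * N = a := by rw [mul_comm, Nat.mod_add_div]
    have h3 : G a = G (a % N + a / N * N) := by rw [h1]
    rw [h3, hG]
    dsimp only
    rw [hχn]
    congr 1
    have h4 : (((a % N + a / N * N : ℕ) : ℚ)) / N = ((a % N : ℕ) : ℚ) / N + ((a / N : ℕ) : ℚ) := by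
      push_cast
      field_simp
    rw [h4, per_nat hper]
  -- sum the Hecke relations
  have e1 : A * TS pf χ N = ∑ a ∈ CC N, χ a * pf (q * ((a : ℚ) / N)) +
      ∑ a ∈ CC N, ∑ b ∈ range q, χ (a + b * N) * pf (((a + b * N : ℕ) : ℚ) / (q * N : ℕ)) := by
    unfold TS
    rw [mul_sum, ← sum_add_distrib]
    refine sum_congr rfl fun a _ => ?_
    have : A * (χ a * pf ((a : ℚ) / N)) = χ a * (A * pf ((a : ℚ) / N)) := by ring
    rw [this, hH, mul_add, mul_sum]
    congr 1
    refine sum_congr rfl fun b _ => ?_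
    rw [hχn]
    congr 2
    push_cast
    field_simp
  have e2 : ∑ a ∈ CC N, χ a * pf (q * ((a : ℚ) / N)) = χ q * TS pf χ N := by
    have h3 : TS pf χ N = ∑ a ∈ CC N, G (q * a) := (sum_mulU G hGp hqN).symm
    rw [h3, mul_sum]
    refine sum_congr rfl fun a _ => ?_
    rw [hG]
    dsimp only
    rw [hm, ← mul_assoc, ← mul_assoc, h2, one_mul]
    congr 2
    push_cast
    ring
  rw [e2, sum_split hNp (fun c => χ c * pf ((c : ℚ) / (q * N : ℕ))), sum_split' hq hqN] at e1
  have e3 : ∑ a ∈ CC N, χ (q * a) * pf (((q * a : ℕ) : ℚ) / (q * N : ℕ)) = χ q * TS pf χ N := by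
    unfold TS
    rw [mul_sum]
    refine sum_congr rfl fun a _ => ?_
    rw [hm, mul_assoc]
    congr 3
    push_cast
    rw [mul_div_mul_left _ _ hqQ]
  rw [e3] at e1
  have e4 : TS pf χ (q * N) = ∑ a ∈ CC (q * N), χ a * pf ((a : ℚ) / (q * N : ℕ)) := rfl
  rw [e4]
  linear_combination -e1

end Pool.Agent.Y695
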