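import Pool.Agent.Y695.Rec1

/-!
Products of Jacobi symbols and the twisted sums.
-/

set_option autoImplicit false
set_option linter.all false

open Finset

namespace Pool.Agent.Y695

/-- product of Jacobi symbols -/
def ch (R : Finset ℕ) (a : ℤ) : ℤ := ∏ q ∈ R, jacobiSym a q

/-- product of the primes -/
def NN (R : Finset ℕ) : ℕ := ∏ q ∈ R, q

/-- sets of primes different from `2` and `5` -/
def Adm (S : Finset ℕ) : Prop := ∀ q ∈ S, q.Prime ∧ q ≠ 2 ∧ q ≠ 5

lemma Adm.mono {R S : Finset ℕ} (h : Adm S) (hRS : R ⊆ S) : Adm R := fun q hq => h q (hRS hq)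

lemma NN_ne {S : Finset ℕ} (h : Adm S) : NN S ≠ 0 :=
  Finset.prod_ne_zero_iff.2 fun q hq => (h q hq).1.ne_zero

lemma NN_coprime {S : Finset ℕ} (h : Adm S) {q : ℕ} (hq : q.Prime) (hqS : q ∉ S) :
    q.Coprime (NN S) := by
  refine Nat.Coprime.prod_right fun r hr => ?_
  exact (Nat.coprime_primes hq (h r hr).1).2 fun e => hqS (e ▸ hr)

lemma coprime_iff {S : Finset ℕ} {a : ℕ} : a.Coprime (NN S) ↔ ∀ q ∈ S, a.Coprime q :=
  Nat.coprime_prod_right_iff

lemma NN_ten {S : Finset ℕ} (h : Adm S) : (NN S).Coprime 10 := by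
  refine Nat.Coprime.prod_left fun q hq => ?_
  have e : (10 : ℕ) = 2 * 5 := by norm_num
  rw [e]
  exact Nat.Coprime.mul_right ((Nat.coprime_primes (h q hq).1 Nat.prime_two).2 (h q hq).2.1)
    ((Nat.coprime_primes (h q hq).1 Nat.prime_five).2 (h q hq).2.2)

lemma dvd_NN {S : Finset ℕ} {q : ℕ} (h : q ∈ S) : q ∣ NN S := Finset.dvd_prod_of_mem _ h

lemma ch_mul (R : Finset ℕ) (a b : ℤ) : ch R (a * b) = ch R a * ch R b := by
  unfold ch
  rw [← prod_mul_distrib]
  exact prod_congr rfl fun q _ => jacobiSym.mul_left a b q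

lemma ch_empty (a : ℤ) : ch ∅ a = 1 := by
  unfold ch
  rw [prod_empty]

lemma ch_one (R : Finset ℕ) : ch R 1 = 1 := by
  unfold ch
  exact prod_eq_one fun q _ => jacobiSym.one_left q

lemma ch_insert {R : Finset ℕ} {q : ℕ} (h : q ∉ R) (a : ℤ) :
    ch (insert q R) a = jacobiSym a q * ch R a := by
  unfold ch
  rw [prod_insert h]

lemma ch_congr {R : Finset ℕ} {N : ℕ} (hR : ∀ q ∈ R, q ∣ N) {a b : ℤ} (h : (N : ℤ) ∣ a - b) :
    ch R a = ch R b := by
  unfold ch
  refine prod_congr rfl fun q hq => ?_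
  apply jacobiSym.mod_left'
  have h1 : (q : ℤ) ∣ a - b := (Int.natCast_dvd_natCast.2 (hR q hq)).trans h
  exact Int.emod_eq_emod_iff_emod_sub_eq_zero.2 (Int.emod_eq_zero_of_dvd h1)

lemma ch_eq {R : Finset ℕ} {a : ℤ} (h : ∀ q ∈ R, a.gcd q = 1) : ch R a = 1 ∨ ch R a = -1 := by
  classical
  induction R using Finset.induction_on with
  | empty => left; exact ch_empty a
  | insert q R hq ih =>
    rw [ch_insert hq]
    have h1 := ih fun r hr => h r (mem_insert_of_mem hr)
    have h2 := jacobiSym.eq_one_or_neg_one (h q (mem_insert_self q R))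
    rcases h1 with h1 | h1 <;> rcases h2 with h2 | h2 <;> rw [h1, h2] <;> norm_num

lemma ch_sq {R : Finset ℕ} {a : ℤ} (h : ∀ q ∈ R, a.gcd q = 1) : ch R a * ch R a = 1 := by
  rcases ch_eq h with h1 | h1 <;> rw [h1] <;> norm_num

lemma ch_neg_one (R : Finset ℕ) : ch R (-1) = 1 ∨ ch R (-1) = -1 := by
  apply ch_eq
  intro q _
  simp

/-- orthogonality over the subsets -/
lemma sum_ch (S : Finset ℕ) {a : ℕ} (h : ∀ q ∈ S, a.Coprime q) :
    ∑ R ∈ S.powerset, ch R a = if ∀ q ∈ S, jacobiSym a q = 1 then 2 ^ S.card else 0 := by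
  have h1 : ∑ R ∈ S.powerset, ch R a = ∏ q ∈ S, (1 + jacobiSym a q) := by
    rw [Finset.prod_one_add]
    rfl
  rw [h1]
  split_ifs with h2
  · rw [prod_congr rfl (g := fun _ => (2 : ℤ)) (fun q hq => by rw [h2 q hq]; norm_num), prod_const]
  · push Not at h2
    obtain ⟨q, hq, h3⟩ := h2
    apply prod_eq_zero hq
    have h4 : (a : ℤ).gcd q = 1 := by
      rw [Int.gcd_natCast_natCast]
      exact h q hq
    rcases jacobiSym.eq_one_or_neg_one h4 with h5 | h5
    · exact absurd h5 h3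
    · rw [h5]; norm_num

/-- the subgroup of the elements which are squares modulo each of the primes -/
def HH (S : Finset ℕ) : Finset ℕ := (CC (NN S)).filter (fun a => ∀ q ∈ S, jacobiSym a q = 1)

/-- the character as a function -/
noncomputable def cf (R : Finset ℕ) (a : ℕ) : ℂ := (ch R a : ℤ)

lemma cf_add {R S : Finset ℕ} (h : R ⊆ S) (a : ℕ) : cf R (a + NN S) = cf R a := by
  unfold cf
  rw [ch_congr (N := NN S) (fun q hq => dvd_NN (h hq)) (b := (a : ℤ))]
  push_cast
  exact ⟨1, by ring⟩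

lemma cf_mul (R : Finset ℕ) (a b : ℕ) : cf R (a * b) = cf R a * cf R b := by
  unfold cf
  rw [Nat.cast_mul, ch_mul]
  push_cast
  rfl

lemma cf_sq {R : Finset ℕ} {a : ℕ} (h : ∀ q ∈ R, a.Coprime q) : cf R a * cf R a = 1 := by
  unfold cf
  have := ch_sq (R := R) (a := (a : ℤ)) fun q hq => by
    rw [Int.gcd_natCast_natCast]; exact h q hq
  exact_mod_cast this

section

variable {pf : ℚ → ℂ} {A : ℕ → ℤ} {J0 I1 : ℝ}

/-- the properties of the modular symbol -/
structure Sym (pf : ℚ → ℂ) (A : ℕ → ℤ) (J0 I1 : ℝ) : Prop where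
  J0_pos : 0 < J0
  I1_pos : 0 < I1
  zero : pf 0 = J0
  per : ∀ x, pf (x + 1) = pf x
  conj : ∀ x, pf (-x) = starRingEnd ℂ (pf x)
  hecke : ∀ q : ℕ, q.Prime → q ≠ 2 → q ≠ 5 → ∀ x : ℚ,
    (A q : ℂ) * pf x = pf (q * x) + ∑ b ∈ range q, pf ((x + b) / q)
  vals : ∀ N a : ℕ, N.Coprime 10 → a.Coprime N → ∃ n m : ℤ,
    pf ((a : ℚ) / N) = n * J0 + m * I1 * Complex.I ∧ Odd (n + m) ∧ (Odd n ↔ jacobiSym N 5 = 1)
  fricke : ∀ N a b : ℕ, N ≠ 0 → N ∣ 20 * (a * b) + 1 → pf ((a : ℚ) / N) = pf ((b : ℚ) / N)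

/-- the sums of level `N_R` with the character `χ_R` -/
noncomputable def MR (pf : ℚ → ℂ) (R : Finset ℕ) : ℂ := TS pf (cf R) (NN R)

/-- **change of level** -/
theorem TS_prod (hs : Sym pf A J0 I1) {R S : Finset ℕ} (hS : Adm S) (hRS : R ⊆ S) :
    TS pf (cf R) (NN S) = (∏ q ∈ S \ R, ((A q - 2 * ch R q : ℤ) : ℂ)) * MR pf R := by
  classical
  have key : ∀ U : Finset ℕ, Disjoint U R → Adm (U ∪ R) →
      TS pf (cf R) (NN (U ∪ R)) = (∏ q ∈ U, ((A q - 2 * ch R q : ℤ) : ℂ)) * MR pf R := by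
    intro U
    induction U using Finset.induction_on with
    | empty =>
      intro _ _
      rw [empty_union, prod_empty, one_mul]
      rfl
    | insert q U hq ih =>
      intro hd hA
      rw [disjoint_insert_left] at hd
      rw [insert_union] at hA
      have hA' : Adm (U ∪ R) := hA.mono (subset_insert _ _)
      have hqS : q ∉ U ∪ R := by
        rw [mem_union, not_or]
        exact ⟨hq, hd.1⟩
      have hqp := hA q (mem_insert_self _ _)
      have h1 := ih hd.2 hA'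
      rw [insert_union]
      have h2 : NN (insert q (U ∪ R)) = q * NN (U ∪ R) := by
        unfold NN
        rw [prod_insert hqS]
      have hcop : ∀ r ∈ R, q.Coprime r := fun r hr =>
        (Nat.coprime_primes hqp.1 (hA' r (mem_union_right _ hr)).1).2 fun e => hd.1 (e ▸ hr)
      rw [h2, TS_step hs.per hqp.1 (hs.hecke q hqp.1 hqp.2.1 hqp.2.2) (NN_ne hA')
        (NN_coprime hA' hqp.1 hqS) (cf_add subset_union_right) (fun a => cf_mul R q a)
        (cf_sq hcop), h1, prod_insert hq]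
      unfold cf
      push_cast
      ring
  have h1 := key (S \ R) sdiff_disjoint (by rw [sdiff_union_of_subset hRS]; exact hS)
  rwa [sdiff_union_of_subset hRS] at h1

/-- **the sum over the subsets** -/
theorem sum_TS (hs : Sym pf A J0 I1) {S : Finset ℕ} (hS : Adm S) :
    ∑ R ∈ S.powerset, TS pf (cf R) (NN S) =
      2 ^ S.card * ∑ a ∈ HH S, pf ((a : ℚ) / NN S) := by
  unfold TS
  rw [sum_comm, HH, sum_filter, mul_sum]
  refine sum_congr rfl fun a ha => ?_
  rw [mem_CC] at ha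
  rw [← sum_mul]
  have h1 := sum_ch S (coprime_iff.1 ha.2)
  have h2 : ∑ R ∈ S.powerset, cf R a = (((∑ R ∈ S.powerset, ch R a : ℤ)) : ℂ) := by
    unfold cf
    push_cast
    rfl
  rw [h2, h1]
  split_ifs
  · push_cast
    ring
  · push_cast
    ring

/-- complex conjugation -/
theorem conj_MR (hs : Sym pf A J0 I1) {R : Finset ℕ} (hR : Adm R) :
    starRingEnd ℂ (MR pf R) = ch R (-1) * MR pf R := by
  have hN := NN_ne hR
  haveI : NeZero (NN R) := ⟨hN⟩
  have hNQ : (NN R : ℚ) ≠ 0 := by exact_mod_cast hN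
  have hpos : 1 ≤ NN R := Nat.pos_of_ne_zero hN
  set N := NN R with hNdef
  have hcop : (N - 1).Coprime N := by
    have h1 : N = (N - 1) + 1 := by omega
    nth_rw 2 [h1]
    exact (Nat.coprime_self_add_right).2 (Nat.coprime_one_right _)
  have hG : ∀ a, (fun a : ℕ => cf R a * pf ((a : ℚ) / N)) (a % N) =
      (fun a : ℕ => cf R a * pf ((a : ℚ) / N)) a := by
    intro a
    dsimp only
    have h1 : a % N + a / N * N = a := by rw [mul_comm, Nat.mod_add_div]
    have h2 : cf R (a % N) = cf R a := by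
      unfold cf
      rw [ch_congr (N := N) (fun q hq => dvd_NN hq) (b := (a : ℤ))]
      refine ⟨-((a / N : ℕ) : ℤ), ?_⟩
      have : (a : ℤ) = ((a % N : ℕ) : ℤ) + ((a / N : ℕ) : ℤ) * N := by exact_mod_cast h1.symm
      linarith
    have h4 : (a : ℚ) / N = ((a % N : ℕ) : ℚ) / N + ((a / N : ℕ) : ℚ) := by
      have : (a : ℚ) = ((a % N : ℕ) : ℚ) + ((a / N : ℕ) : ℚ) * N := by exact_mod_cast h1.symm
      rw [this]
      field_simp
    rw [h2, h4, per_nat hs.per]
  have h5 := sum_mulU (fun a : ℕ => cf R a * pf ((a : ℚ) / N)) hG hcop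
  have h6 : cf R (N - 1) = ch R (-1) := by
    unfold cf
    rw [ch_congr (N := N) (fun q hq => dvd_NN hq) (b := (-1 : ℤ))]
    refine ⟨1, ?_⟩
    push_cast [Nat.cast_sub hpos]
    ring
  have h7 : (ch R (-1) : ℂ) * ch R (-1) = 1 := by
    rcases ch_neg_one R with h | h <;> rw [h] <;> norm_num
  unfold MR TS
  rw [← hNdef, map_sum]
  calc ∑ a ∈ CC N, starRingEnd ℂ (cf R a * pf ((a : ℚ) / N))
      = ∑ a ∈ CC N, ch R (-1) * (cf R ((N - 1) * a) * pf ((((N - 1) * a : ℕ) : ℚ) / N)) := by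
        refine sum_congr rfl fun a _ => ?_
        rw [map_mul, ← hs.conj]
        have e1 : starRingEnd ℂ (cf R a) = cf R a := by
          unfold cf
          exact map_intCast (starRingEnd ℂ) _
        have e2 : (((N - 1) * a : ℕ) : ℚ) / N = -((a : ℚ) / N) + (a : ℕ) := by
          push_cast [Nat.cast_sub hpos]
          field_simp
          ring
        rw [e1, e2, per_nat hs.per, cf_mul, h6]
        linear_combination (-(cf R a * pf (-((a : ℚ) / N)))) * h7
    _ = ch R (-1) * ∑ a ∈ CC N, cf R a * pf ((a : ℚ) / N) := by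
        rw [← mul_sum, h5]

end

end Pool.Agent.Y695
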