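import Pool.Agent.Y695.Rec2

/-!
The integers attached to the twisted sums and their relation.
-/

set_option autoImplicit false
set_option linter.all false

open Finset

namespace Pool.Agent.Y695

/-- an involution without fixed points -/
lemma sum_invol {s : Finset ℕ} (ν : ℕ → ℤ) (ι : ℕ → ℕ) (hι : ∀ a ∈ s, ι a ∈ s)
    (h2 : ∀ a ∈ s, ι (ι a) = a) (h3 : ∀ a ∈ s, ι a ≠ a) (h4 : ∀ a ∈ s, ν (ι a) = ν a) (t : ℤ)
    (ht : ∀ a ∈ s, (2 : ℤ) ∣ ν a - t) : (4 : ℤ) ∣ ∑ a ∈ s, ν a - t * s.card := by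
  choose! k hk using ht
  have h5 : ∑ a ∈ s, ν a - t * s.card = 2 * ∑ a ∈ s, k a := by
    have : ∑ a ∈ s, (ν a - t) = ∑ a ∈ s, 2 * k a := sum_congr rfl fun a ha => hk a ha
    rw [sum_sub_distrib, sum_const, ← mul_sum, nsmul_eq_mul] at this
    rw [← this]; ring
  have h6 : ∑ a ∈ s, ((k a : ℤ) : ZMod 2) = 0 := by
    refine Finset.sum_involution (fun a _ => ι a) ?_ ?_ ?_ ?_
    · intro a ha
      have h7 : k (ι a) = k a := by
        have e1 := hk a ha
        have e2 := hk (ι a) (hι a ha)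
        rw [h4 a ha] at e2
        omega
      rw [h7]
      exact CharTwo.add_self_eq_zero _
    · intro a ha _
      exact h3 a ha
    · intro a ha
      exact hι a ha
    · intro a ha
      exact h2 a ha
  have h7 : (2 : ℤ) ∣ ∑ a ∈ s, k a := by
    rw [← Int.cast_sum] at h6
    exact (ZMod.intCast_zmod_eq_zero_iff_dvd _ 2).1 h6
  obtain ⟨c, hc⟩ := h7
  exact ⟨c, by rw [h5, hc]; ring⟩

/-- the sum of a nontrivial character vanishes -/
lemma sum_ch_zero {R S : Finset ℕ} (hS : Adm S) (hRS : R ⊆ S) (hR : R.Nonempty) :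
    ∑ a ∈ CC (NN S), ch R a = 0 := by
  classical
  obtain ⟨q, hq⟩ := hR
  have hqp := hS q (hRS hq)
  haveI : Fact q.Prime := ⟨hqp.1⟩
  haveI : NeZero (NN S) := ⟨NN_ne hS⟩
  obtain ⟨t, ht⟩ := quadraticChar_exists_neg_one (F := ZMod q) (by
    rw [ZMod.ringChar_zmod_n]; exact hqp.2.1)
  have hcop : q.Coprime (NN (S.erase q)) :=
    NN_coprime (hS.mono (erase_subset _ _)) hqp.1 (notMem_erase _ _)
  obtain ⟨u, hu1, hu2⟩ := Nat.chineseRemainder hcop t.val 1
  have hjq : jacobiSym u q = -1 := by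
    rw [← jacobiSym.legendreSym.to_jacobiSym, legendreSym]
    have : (((u : ℕ) : ℤ) : ZMod q) = t := by
      have h1 := (ZMod.natCast_eq_natCast_iff _ _ _).2 hu1
      rw [ZMod.natCast_zmod_val] at h1
      exact_mod_cast h1
    rw [this, ht]
  have hjr : ∀ r ∈ S, r ≠ q → ((u : ℕ) : ℤ) % r = 1 % r := by
    intro r hr hrq
    have h1 : r ∣ NN (S.erase q) := dvd_NN (mem_erase.2 ⟨hrq, hr⟩)
    have h2 : u ≡ 1 [MOD r] := hu2.of_dvd h1
    have h3 := Int.natCast_modEq_iff.2 h2
    exact h3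
  have hucop : u.Coprime (NN S) := by
    rw [coprime_iff]
    intro r hr
    by_cases hrq : r = q
    · subst hrq
      by_contra h
      have : jacobiSym u r = 0 := jacobiSym.eq_zero_iff_not_coprime.2 (by
        rw [Int.gcd_natCast_natCast]; exact h)
      rw [this] at hjq
      norm_num at hjq
    · have h1 : r ∣ NN (S.erase q) := dvd_NN (mem_erase.2 ⟨hrq, hr⟩)
      have h2 : u ≡ 1 [MOD r] := hu2.of_dvd h1
      have h3 := h2.gcd_eq
      rw [Nat.gcd_one_left] at h3
      exact h3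
  have hch : ch R u = -1 := by
    unfold ch
    rw [← Finset.mul_prod_erase R _ hq, hjq, prod_eq_one, mul_one]
    intro r hr
    rw [mem_erase] at hr
    rw [jacobiSym.mod_left, hjr r (hRS hr.2) hr.1, ← jacobiSym.mod_left, jacobiSym.one_left]
  have hG : ∀ a, (fun a : ℕ => cf R a) (a % NN S) = (fun a : ℕ => cf R a) a := by
    intro a
    dsimp only
    unfold cf
    rw [ch_congr (N := NN S) (fun q hq => dvd_NN (hRS hq)) (b := (a : ℤ))]
    have h1 : a % NN S + a / NN S * NN S = a := by rw [mul_comm, Nat.mod_add_div]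
    refine ⟨-((a / NN S : ℕ) : ℤ), ?_⟩
    have : (a : ℤ) = ((a % NN S : ℕ) : ℤ) + ((a / NN S : ℕ) : ℤ) * NN S := by exact_mod_cast h1.symm
    linarith
  have h5 := sum_mulU (fun a : ℕ => cf R a) hG hucop
  have h6 : cf R u = -1 := by
    unfold cf
    rw [hch]; norm_num
  have h7 : ∑ a ∈ CC (NN S), cf R (u * a) = -∑ a ∈ CC (NN S), cf R a := by
    rw [← sum_neg_distrib]
    refine sum_congr rfl fun a _ => ?_
    rw [cf_mul, h6]; ring
  rw [h7] at h5
  have h8 : ∑ a ∈ CC (NN S), cf R a = 0 := by linear_combination (-1 / 2 : ℂ) * h5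
  unfold cf at h8
  exact_mod_cast h8

lemma card_CC {S : Finset ℕ} (hS : Adm S) : ((CC (NN S)).card : ℤ) = ∏ q ∈ S, ((q : ℤ) - 1) := by
  classical
  have h1 : ∀ N : ℕ, (CC N).card = N.totient := by
    intro N
    unfold CC
    rw [Nat.totient]
    congr 1
    ext a
    rw [mem_filter, mem_filter, Nat.coprime_comm]
  rw [h1]
  induction S using Finset.induction_on with
  | empty =>
    unfold NN
    simp
  | insert q S hq ih =>
    have hqp := hS q (mem_insert_self _ _)
    have hS' : Adm S := hS.mono (subset_insert _ _)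
    have h2 : NN (insert q S) = q * NN S := by
      unfold NN
      rw [prod_insert hq]
    rw [h2, Nat.totient_mul (NN_coprime hS' hqp.1 hq), Nat.totient_prime hqp.1, prod_insert hq,
      Nat.cast_mul, ih hS', Nat.cast_sub hqp.1.one_le]
    norm_num

/-- the order of the subgroup -/
theorem card_HH {S : Finset ℕ} (hS : Adm S) :
    2 ^ S.card * ((HH S).card : ℤ) = ∏ q ∈ S, ((q : ℤ) - 1) := by
  classical
  rw [← card_CC hS]
  have h1 : ∑ R ∈ S.powerset, ∑ a ∈ CC (NN S), ch R a = ((CC (NN S)).card : ℤ) := by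
    rw [Finset.sum_eq_single ∅]
    · simp [ch_empty]
    · intro R hR hne
      exact sum_ch_zero hS (mem_powerset.1 hR) (nonempty_iff_ne_empty.2 hne)
    · intro h
      exact absurd (empty_mem_powerset S) h
  rw [← h1, sum_comm]
  have h2 : ∀ a ∈ CC (NN S), ∑ R ∈ S.powerset, ch R a =
      if ∀ q ∈ S, jacobiSym a q = 1 then 2 ^ S.card else 0 := fun a ha =>
    sum_ch S (coprime_iff.1 (mem_CC.1 ha).2)
  rw [sum_congr rfl h2, ← sum_filter]
  show 2 ^ S.card * ((HH S).card : ℤ) = ∑ a ∈ HH S, 2 ^ S.card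
  rw [sum_const, nsmul_eq_mul]
  ring

section

variable {pf : ℚ → ℂ} {A : ℕ → ℤ} {J0 I1 : ℝ}

/-- the real or the imaginary part -/
noncomputable def pt (J0 I1 : ℝ) (e : ℤ) : ℂ →ₗ[ℝ] ℝ :=
  if e = 1 then (1 / J0) • Complex.reLm else (1 / I1) • Complex.imLm

lemma pt_one (z : ℂ) : pt J0 I1 1 z = z.re / J0 := by
  unfold pt
  rw [if_pos rfl]
  show (1 / J0) * z.re = _
  ring

lemma pt_neg (z : ℂ) : pt J0 I1 (-1) z = z.im / I1 := by
  unfold pt
  rw [if_neg (by norm_num)]
  show (1 / I1) * z.im = _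
  ring

lemma pt_int (e k : ℤ) (z : ℂ) : pt J0 I1 e ((k : ℂ) * z) = k * pt J0 I1 e z := by
  have : (k : ℂ) * z = (k : ℝ) • z := by
    rw [Complex.real_smul]
    push_cast
    rfl
  rw [this, map_smul, smul_eq_mul]

lemma pt_val (h0 : 0 < J0) (h1 : 0 < I1) (n m : ℤ) {e : ℤ} (he : e = 1 ∨ e = -1) :
    pt J0 I1 e (n * J0 + m * I1 * Complex.I) = ((if e = 1 then n else m : ℤ) : ℝ) := by
  have e1 : ((n : ℂ) * J0 + m * I1 * Complex.I) =
      ((n * J0 : ℝ) : ℂ) + ((m * I1 : ℝ) : ℂ) * Complex.I := by push_cast; ring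
  have er : ((n : ℂ) * J0 + m * I1 * Complex.I).re = n * J0 := by
    rw [e1]; simp
  have ei : ((n : ℂ) * J0 + m * I1 * Complex.I).im = m * I1 := by
    rw [e1]; simp
  rcases he with rfl | rfl
  · rw [pt_one, if_pos rfl, er]
    field_simp
  · rw [pt_neg, if_neg (by norm_num), ei]
    field_simp

lemma jac5 {N : ℕ} (h : N.Coprime 10) : jacobiSym N 5 = 1 ∨ jacobiSym N 5 = -1 := by
  apply jacobiSym.eq_one_or_neg_one
  rw [show ((5 : ℕ) : ℤ) = ((5 : ℕ) : ℤ) from rfl, Int.gcd_natCast_natCast]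
  exact Nat.Coprime.coprime_dvd_right (by norm_num) h

/-- the values -/
theorem exists_nu (hs : Sym pf A J0 I1) {N : ℕ} (hN : N.Coprime 10) {e : ℤ} (he : e = 1 ∨ e = -1) :
    ∃ ν : ℕ → ℤ, ∀ a : ℕ, a.Coprime N → pt J0 I1 e (pf ((a : ℚ) / N)) = ν a ∧
      (Odd (ν a) ↔ jacobiSym N 5 = e) := by
  have h1 : ∀ a : ℕ, ∃ k : ℤ, a.Coprime N → pt J0 I1 e (pf ((a : ℚ) / N)) = k ∧
      (Odd k ↔ jacobiSym N 5 = e) := by
    intro a
    by_cases ha : a.Coprime N
    · obtain ⟨n, m, h1, h2, h3⟩ := hs.vals N a hN ha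
      refine ⟨if e = 1 then n else m, fun _ => ⟨?_, ?_⟩⟩
      · rw [h1, pt_val hs.J0_pos hs.I1_pos n m he]
      · rcases he with rfl | rfl
        · rw [if_pos rfl]; exact h3
        · rw [if_neg (by norm_num)]
          have h4 : Odd m ↔ ¬ Odd n := by
            constructor
            · intro h5 h6
              have := h6.add_odd h5
              exact (Int.not_odd_iff_even.2 this) h2
            · intro h5
              have h6 := Int.not_odd_iff_even.1 h5
              by_contra h7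
              exact (Int.not_odd_iff_even.2 (h6.add (Int.not_odd_iff_even.1 h7))) h2
          rw [h4, h3]
          rcases jac5 hN with h5 | h5 <;> rw [h5] <;> norm_num
    · exact ⟨0, fun h => absurd h ha⟩
  choose ν hν using h1
  exact ⟨ν, hν⟩

/-- the integer `μ_R` -/
theorem exists_mu (hs : Sym pf A J0 I1) {R : Finset ℕ} (hR : Adm R) : ∃ μ : ℤ, ∀ e : ℤ,
    (e = 1 ∨ e = -1) → pt J0 I1 e (MR pf R) = if e = ch R (-1) then (μ : ℝ) else 0 := by
  have hN10 := NN_ten hR
  have hc := conj_MR hs hR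
  have key : ∀ e : ℤ, (e = 1 ∨ e = -1) → ∃ k : ℤ, pt J0 I1 e (MR pf R) = k := by
    intro e he
    obtain ⟨ν, hν⟩ := exists_nu hs hN10 he
    refine ⟨∑ a ∈ CC (NN R), ch R a * ν a, ?_⟩
    unfold MR TS
    rw [map_sum]
    push_cast
    refine sum_congr rfl fun a ha => ?_
    unfold cf
    rw [pt_int, (hν a (mem_CC.1 ha).2).1]
  obtain ⟨k1, hk1⟩ := key 1 (Or.inl rfl)
  obtain ⟨k2, hk2⟩ := key (-1) (Or.inr rfl)
  have h0 := hs.J0_pos
  have h1 := hs.I1_pos
  rcases ch_neg_one R with h | h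
  · refine ⟨k1, fun e he => ?_⟩
    rw [h]
    rcases he with rfl | rfl
    · rw [if_pos rfl]; exact hk1
    · rw [if_neg (by norm_num), pt_neg]
      rw [h, Int.cast_one, one_mul] at hc
      have h2 : (MR pf R).im = 0 := by
        have := congrArg Complex.im hc
        rw [Complex.conj_im] at this
        linarith
      rw [h2, zero_div]
  · refine ⟨k2, fun e he => ?_⟩
    rw [h]
    rcases he with rfl | rfl
    · rw [if_neg (by norm_num), pt_one]
      rw [h] at hc
      have h2 : (MR pf R).re = 0 := by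
        have := congrArg Complex.re hc
        rw [Complex.conj_re] at this
        push_cast at this
        rw [neg_one_mul, Complex.neg_re] at this
        linarith
      rw [h2, zero_div]
    · rw [if_pos rfl]; exact hk2

open Classical in
/-- the integer `μ_R` -/
noncomputable def mu (pf : ℚ → ℂ) (J0 I1 : ℝ) (R : Finset ℕ) : ℤ :=
  if h : ∃ μ : ℤ, ∀ e : ℤ, (e = 1 ∨ e = -1) →
    pt J0 I1 e (MR pf R) = if e = ch R (-1) then (μ : ℝ) else 0 then h.choose else 0

lemma mu_spec (hs : Sym pf A J0 I1) {R : Finset ℕ} (hR : Adm R) (e : ℤ) (he : e = 1 ∨ e = -1) :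
    pt J0 I1 e (MR pf R) = if e = ch R (-1) then (mu pf J0 I1 R : ℝ) else 0 := by
  have h := exists_mu hs hR
  unfold mu
  rw [dif_pos h]
  exact h.choose_spec e he

/-- **the relation** -/
theorem main_id (hs : Sym pf A J0 I1) {S : Finset ℕ} (hS : Adm S) :
    ∃ ν : ℕ → ℤ, (∀ a : ℕ, a.Coprime (NN S) →
      pt J0 I1 (ch S (-1)) (pf ((a : ℚ) / NN S)) = ν a ∧
        (Odd (ν a) ↔ jacobiSym (NN S) 5 = ch S (-1))) ∧
      ∑ R ∈ S.powerset, (∏ q ∈ S \ R, (A q - 2 * ch R q)) *
        (if ch R (-1) = ch S (-1) then mu pf J0 I1 R else 0) = 2 ^ S.card * ∑ a ∈ HH S, ν a := by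
  have he := ch_neg_one S
  obtain ⟨ν, hν⟩ := exists_nu hs (NN_ten hS) he
  refine ⟨ν, hν, ?_⟩
  have h1 := congrArg (pt J0 I1 (ch S (-1))) (sum_TS hs hS)
  have h2 : (2 ^ S.card * ∑ a ∈ HH S, pf ((a : ℚ) / NN S) : ℂ) =
      ((2 ^ S.card : ℤ) : ℂ) * ∑ a ∈ HH S, pf ((a : ℚ) / NN S) := by push_cast; rfl
  rw [h2, pt_int, map_sum, map_sum] at h1
  have h3 : ∑ a ∈ HH S, pt J0 I1 (ch S (-1)) (pf ((a : ℚ) / NN S)) = ∑ a ∈ HH S, (ν a : ℝ) := by
    refine sum_congr rfl fun a ha => ?_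
    unfold HH at ha
    rw [mem_filter, mem_CC] at ha
    exact (hν a ha.1.2).1
  have h4 : ∀ R ∈ S.powerset, pt J0 I1 (ch S (-1)) (TS pf (cf R) (NN S)) =
      (((∏ q ∈ S \ R, (A q - 2 * ch R q)) *
        (if ch R (-1) = ch S (-1) then mu pf J0 I1 R else 0) : ℤ) : ℝ) := by
    intro R hR
    rw [mem_powerset] at hR
    rw [TS_prod hs hS hR]
    have h5 : (∏ q ∈ S \ R, ((A q - 2 * ch R q : ℤ) : ℂ)) =
        ((∏ q ∈ S \ R, (A q - 2 * ch R q) : ℤ) : ℂ) := by push_cast; rfl
    rw [h5, pt_int, mu_spec hs (hS.mono hR) _ he]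
    by_cases h6 : ch R (-1) = ch S (-1)
    · rw [if_pos h6.symm, if_pos h6]
      push_cast
      ring
    · rw [if_neg (fun h => h6 h.symm), if_neg h6]
      push_cast
      ring
  rw [sum_congr rfl h4, h3] at h1
  exact_mod_cast h1

/-- the value of the sum -/
theorem MR_eq (hs : Sym pf A J0 I1) {R : Finset ℕ} (hR : Adm R) :
    (ch R (-1) = 1 → MR pf R = mu pf J0 I1 R * J0) ∧
    (ch R (-1) = -1 → MR pf R = mu pf J0 I1 R * I1 * Complex.I) := by
  have h1 := mu_spec hs hR 1 (Or.inl rfl)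
  have h2 := mu_spec hs hR (-1) (Or.inr rfl)
  rw [pt_one] at h1
  rw [pt_neg] at h2
  have h0 := hs.J0_pos
  have h3 := hs.I1_pos
  constructor
  · intro h
    rw [h, if_pos rfl, div_eq_iff h0.ne'] at h1
    rw [h, if_neg (by norm_num), div_eq_zero_iff] at h2
    have h4 : (MR pf R).im = 0 := h2.resolve_right h3.ne'
    apply Complex.ext
    · rw [h1]; simp
    · rw [h4]; simp
  · intro h
    rw [h, if_neg (by norm_num), div_eq_zero_iff] at h1
    rw [h, if_pos rfl, div_eq_iff h3.ne'] at h2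
    have h4 : (MR pf R).re = 0 := h1.resolve_right h0.ne'
    apply Complex.ext
    · rw [h4]; simp
    · rw [h2]; simp

lemma MR_empty (hs : Sym pf A J0 I1) : MR pf ∅ = J0 := by
  unfold MR TS NN CC
  rw [prod_empty]
  have : (range 1).filter (fun a => a.Coprime 1) = {0} := by decide
  rw [this, sum_singleton]
  unfold cf
  rw [ch_empty]
  push_cast
  rw [zero_div, hs.zero, one_mul]

lemma mu_empty (hs : Sym pf A J0 I1) : mu pf J0 I1 ∅ = 1 := by
  have hA : Adm ∅ := fun q hq => absurd hq (notMem_empty q)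
  have h1 := (MR_eq hs hA).1 (ch_empty _)
  rw [MR_empty hs] at h1
  have h0 := hs.J0_pos
  have h2 : (J0 : ℂ) ≠ 0 := by exact_mod_cast h0.ne'
  have h3 : ((mu pf J0 I1 ∅ : ℤ) : ℂ) = 1 := by
    have : (((mu pf J0 I1 ∅ : ℤ) : ℂ) - 1) * J0 = 0 := by linear_combination -h1
    rcases mul_eq_zero.1 this with h | h
    · linear_combination h
    · exact absurd h h2
  exact_mod_cast h3

/-- **the coefficients modulo four** -/
theorem A_mod4 (hs : Sym pf A J0 I1) {q : ℕ} (hq : q.Prime) (h2 : q ≠ 2) (h5 : q ≠ 5) :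
    (4 : ℤ) ∣ A q - 2 - (if jacobiSym q 5 = 1 then (q : ℤ) - 1 else 0) := by
  classical
  have hS : Adm {q} := fun r hr => by rw [mem_singleton] at hr; subst hr; exact ⟨hq, h2, h5⟩
  have hN : NN {q} = q := by unfold NN; rw [prod_singleton]
  have h1 := TS_prod hs hS (empty_subset {q})
  rw [MR_empty hs, sdiff_empty, prod_singleton, hN, ch_empty] at h1
  have h10 := NN_ten hS
  rw [hN] at h10
  obtain ⟨ν, hν⟩ := exists_nu hs h10 (Or.inl rfl : (1 : ℤ) = 1 ∨ (1 : ℤ) = -1)
  have h3 := congrArg (pt J0 I1 1) h1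
  unfold TS at h3
  rw [map_sum, pt_int, pt_one, Complex.ofReal_re, div_self hs.J0_pos.ne'] at h3
  have h4 : ∑ a ∈ CC q, pt J0 I1 1 (cf ∅ a * pf ((a : ℚ) / q)) = ∑ a ∈ CC q, (ν a : ℝ) := by
    refine sum_congr rfl fun a ha => ?_
    unfold cf
    rw [ch_empty, Int.cast_one, one_mul]
    exact (hν a (mem_CC.1 ha).2).1
  rw [h4] at h3
  have h6 : ∑ a ∈ CC q, ν a = A q - 2 := by
    have : ((∑ a ∈ CC q, ν a : ℤ) : ℝ) = ((A q - 2 * 1 : ℤ) : ℝ) := by
      rw [mul_one] at h3
      push_cast at h3 ⊢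
      exact h3
    have := Int.cast_injective this
    rw [this]; ring
  have hcard : ((CC q).card : ℤ) = q - 1 := by
    have := card_CC hS
    rw [hN, prod_singleton] at this
    exact this
  have hq0 : (q : ℚ) ≠ 0 := by exact_mod_cast hq.ne_zero
  have hodd : ¬ 2 ∣ q := fun h => h2 ((Nat.prime_dvd_prime_iff_eq Nat.prime_two hq).1 h).symm
  have hpos : ∀ a ∈ CC q, 0 < a := by
    intro a ha
    rw [mem_CC] at ha
    rcases Nat.eq_zero_or_pos a with h | h
    · exfalso
      rw [h, Nat.coprime_zero_left] at ha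
      exact hq.one_lt.ne' ha.2
    · exact h
  have hinv := sum_invol (s := CC q) ν (fun a => q - a) (by
      intro a ha
      have hp := hpos a ha
      rw [mem_CC] at ha ⊢
      refine ⟨by omega, ?_⟩
      have := (Nat.coprime_sub_self_left (m := a) (n := q) ha.1.le).2 (Nat.coprime_comm.1 ha.2)
      have h7 : (q - a).Coprime q := by
        rw [Nat.coprime_comm, hq.coprime_iff_not_dvd]
        intro h
        have := Nat.le_of_dvd (by omega) h
        omega
      exact h7) (by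
      intro a ha
      rw [mem_CC] at ha
      show q - (q - a) = a
      omega) (by
      intro a ha h
      rw [mem_CC] at ha
      apply hodd
      have : q - a = a := h
      exact ⟨a, by omega⟩) (by
      intro a ha
      have hp := hpos a ha
      rw [mem_CC] at ha
      have h7 : (q - a).Coprime q := by
        rw [Nat.coprime_comm, hq.coprime_iff_not_dvd]
        intro h
        have := Nat.le_of_dvd (by omega) h
        omega
      have e1 := (hν a ha.2).1
      have e2 := (hν (q - a) h7).1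
      have e3 : (((q - a : ℕ) : ℚ)) / q = -((a : ℚ) / q) + 1 := by
        rw [Nat.cast_sub ha.1.le]
        field_simp
        ring
      rw [e3, hs.per, hs.conj, pt_one, Complex.conj_re, ← pt_one (I1 := I1), e1] at e2
      exact_mod_cast e2.symm)
  rw [h6, hcard] at hinv
  by_cases hj : jacobiSym q 5 = 1
  · rw [if_pos hj]
    have := hinv 1 (fun a ha => by
      have h7 := (hν a (mem_CC.1 ha).2).2.2 hj
      obtain ⟨c, hc⟩ := h7
      exact ⟨c, by rw [hc]; ring⟩)
    rwa [one_mul] at this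
  · rw [if_neg hj]
    have := hinv 0 (fun a ha => by
      have h7 : ¬ Odd (ν a) := fun h => hj ((hν a (mem_CC.1 ha).2).2.1 h)
      rw [Int.not_odd_iff_even] at h7
      rw [sub_zero]
      exact h7.two_dvd)
    rwa [zero_mul] at this

end

end Pool.Agent.Y695
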