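import Pool.Agent.Y695.Rec3

/-!
The power of two in the twisted sums.
-/

set_option autoImplicit false
set_option linter.all false

open Finset

namespace Pool.Agent.Y695

lemma even_iff_z (x : ℤ) : Even x ↔ (x : ZMod 2) = 0 := by
  rw [ZMod.intCast_zmod_eq_zero_iff_dvd, even_iff_two_dvd]
  rfl

lemma z2' : ∀ t : ZMod 2, t ≠ 0 ↔ t = 1 := by decide

lemma odd_iff_z (x : ℤ) : Odd x ↔ (x : ZMod 2) = 1 := by
  rw [← Int.not_even_iff_odd, even_iff_z]
  exact z2' _

lemma odd_prod_iff {ι : Type*} (s : Finset ι) (f : ι → ℤ) :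
    Odd (∏ i ∈ s, f i) ↔ ∀ i ∈ s, Odd (f i) := by
  classical
  induction s using Finset.induction_on with
  | empty => simp
  | insert a s ha ih =>
    rw [prod_insert ha, Int.odd_mul, ih]
    simp

/-- the primes `3, 7` modulo `20` -/
def Qp (q : ℕ) : Prop := q % 4 = 3 ∧ jacobiSym q 5 = -1

/-- the primes `11, 19` modulo `20` -/
def Pp (q : ℕ) : Prop := q % 4 = 3 ∧ jacobiSym q 5 = 1

lemma ch_neg_of {R : Finset ℕ} (h : ∀ q ∈ R, q % 4 = 3) : ch R (-1) = (-1) ^ R.card := by
  unfold ch
  rw [prod_congr rfl (g := fun _ => (-1 : ℤ)), prod_const]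
  intro q hq
  have h1 := h q hq
  rw [jacobiSym.at_neg_one (Nat.odd_iff.2 (by omega)), ZMod.χ₄_nat_three_mod_four h1]

lemma jac_NN {R : Finset ℕ} : jacobiSym (NN R) 5 = ∏ q ∈ R, jacobiSym q 5 := by
  classical
  unfold NN
  induction R using Finset.induction_on with
  | empty =>
    rw [prod_empty, prod_empty, Nat.cast_one, jacobiSym.one_left]
  | insert q R hq ih =>
    rw [prod_insert hq, prod_insert hq, Nat.cast_mul, jacobiSym.mul_left, ih]

lemma odd_HH {S : Finset ℕ} (hS : Adm S) : Odd ((HH S).card : ℤ) ↔ ∀ q ∈ S, q % 4 = 3 := by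
  have h1 := card_HH hS
  have h2 : ∀ q ∈ S, ((q : ℤ) - 1) = 2 * (((q : ℤ) - 1) / 2) := by
    intro q hq
    have h3 : q % 2 = 1 := by
      rcases (hS q hq).1.eq_two_or_odd with h | h
      · exact absurd h (hS q hq).2.1
      · exact h
    omega
  rw [prod_congr rfl h2, prod_mul_distrib, prod_const] at h1
  have h3 : ((HH S).card : ℤ) = ∏ q ∈ S, (((q : ℤ) - 1) / 2) :=
    mul_left_cancel₀ (pow_ne_zero _ two_ne_zero) h1
  rw [h3, odd_prod_iff]
  constructor
  · intro h q hq
    have h4 := h q hq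
    have h5 : q % 2 = 1 := by
      rcases (hS q hq).1.eq_two_or_odd with h | h
      · exact absurd h (hS q hq).2.1
      · exact h
    rw [Int.odd_iff] at h4
    omega
  · intro h q hq
    have h4 := h q hq
    rw [Int.odd_iff]
    omega

section

variable {pf : ℚ → ℂ} {A : ℕ → ℤ} {J0 I1 : ℝ}

lemma ch_pm {R : Finset ℕ} {q : ℕ} (hq : q.Prime) (hR : Adm R) (hqR : q ∉ R) :
    ch R q = 1 ∨ ch R q = -1 := by
  apply ch_eq
  intro r hr
  rw [Int.gcd_natCast_natCast]
  exact (Nat.coprime_primes hq (hR r hr).1).2 fun e => hqR (e ▸ hr)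

/-- the factors -/
lemma factor (hs : Sym pf A J0 I1) {R : Finset ℕ} {q : ℕ} (hq : q.Prime) (h2 : q ≠ 2)
    (h5 : q ≠ 5) (hR : Adm R) (hqR : q ∉ R) :
    ∃ α : ℤ, A q - 2 * ch R q = 2 * α ∧ (Odd α ↔ Pp q) := by
  obtain ⟨k, hk⟩ := A_mod4 hs hq h2 h5
  have hodd : q % 2 = 1 := by
    rcases hq.eq_two_or_odd with h | h
    · exact absurd h h2
    · exact h
  have hqN : q.Coprime 10 := by
    have := NN_ten (S := {q}) (fun r hr => by rw [mem_singleton] at hr; subst hr; exact ⟨hq, h2, h5⟩)
    unfold NN at this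
    rwa [prod_singleton] at this
  have hj := jac5 hqN
  unfold Pp
  rcases ch_pm hq hR hqR with h | h <;> rcases hj with h' | h' <;> rw [h] <;> rw [h'] at hk ⊢
  · rw [if_pos rfl] at hk
    refine ⟨((q : ℤ) - 1) / 2 + 2 * k, by omega, ?_⟩
    rw [Int.odd_iff]
    constructor
    · intro h3; exact ⟨by omega, rfl⟩
    · rintro ⟨h3, -⟩; omega
  · rw [if_neg (by norm_num)] at hk
    refine ⟨2 * k, by omega, ?_⟩
    rw [Int.odd_iff]
    constructor
    · intro h3; omega
    · rintro ⟨-, h3⟩; norm_num at h3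
  · rw [if_pos rfl] at hk
    refine ⟨((q : ℤ) - 1) / 2 + 2 * k + 2, by omega, ?_⟩
    rw [Int.odd_iff]
    constructor
    · intro h3; exact ⟨by omega, rfl⟩
    · rintro ⟨h3, -⟩; omega
  · rw [if_neg (by norm_num)] at hk
    refine ⟨2 * k + 2, by omega, ?_⟩
    rw [Int.odd_iff]
    constructor
    · intro h3; omega
    · rintro ⟨-, h3⟩; norm_num at h3

/-- **the power of two in `μ_S`** -/
theorem mu_two (hs : Sym pf A J0 I1) (S : Finset ℕ) (hS : Adm S) :
    ∃ c : ℤ, mu pf J0 I1 S = 2 ^ S.card * c ∧ (Odd c ↔ ∀ q ∈ S, Qp q) := by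
  classical
  induction S using Finset.strongInduction with
  | H S ih =>
  obtain ⟨ν, hν, hid⟩ := main_id hs hS
  choose! c hc1 hc2 using ih
  have hfac : ∀ R ⊆ S, ∀ q ∈ S \ R, ∃ α : ℤ, A q - 2 * ch R q = 2 * α ∧ (Odd α ↔ Pp q) := by
    intro R hR q hq
    rw [mem_sdiff] at hq
    have hqp := hS q hq.1
    exact factor hs hqp.1 hqp.2.1 hqp.2.2 (hS.mono hR) hq.2
  choose! α hα1 hα2 using hfac
  -- the terms
  have hterm : ∀ R ∈ S.ssubsets, (∏ q ∈ S \ R, (A q - 2 * ch R q)) *
      (if ch R (-1) = ch S (-1) then mu pf J0 I1 R else 0) =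
      2 ^ S.card * ((∏ q ∈ S \ R, α R q) * (if ch R (-1) = ch S (-1) then c R else 0)) := by
    intro R hR
    rw [mem_ssubsets] at hR
    rw [prod_congr rfl (hα1 R hR.1), prod_mul_distrib, prod_const]
    have hcard : (S \ R).card + R.card = S.card := card_sdiff_add_card_eq_card hR.1
    split_ifs
    · rw [hc1 R hR (hS.mono hR.1), ← hcard, pow_add]
      ring
    · ring
  have hsplit : ∑ R ∈ S.powerset, (∏ q ∈ S \ R, (A q - 2 * ch R q)) *
      (if ch R (-1) = ch S (-1) then mu pf J0 I1 R else 0) = mu pf J0 I1 S +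
      ∑ R ∈ S.ssubsets, (∏ q ∈ S \ R, (A q - 2 * ch R q)) *
      (if ch R (-1) = ch S (-1) then mu pf J0 I1 R else 0) := by
    have h1 : S.powerset = insert S S.ssubsets := by
      unfold ssubsets
      exact (insert_erase (mem_powerset_self S)).symm
    rw [h1, sum_insert (by rw [mem_ssubsets]; exact ssubset_irrefl S), sdiff_self]
    simp
  rw [hsplit, sum_congr rfl hterm, ← mul_sum] at hid
  set T := ∑ R ∈ S.ssubsets, (∏ q ∈ S \ R, α R q) *
    (if ch R (-1) = ch S (-1) then c R else 0) with hT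
  refine ⟨∑ a ∈ HH S, ν a - T, by linear_combination hid, ?_⟩
  -- the sum over the subgroup
  have hsum : Odd (∑ a ∈ HH S, ν a) ↔
      ((∀ q ∈ S, q % 4 = 3) ∧ jacobiSym (NN S) 5 = ch S (-1)) := by
    rw [← odd_HH hS]
    by_cases hj : jacobiSym (NN S) 5 = ch S (-1)
    · have h1 : ((∑ a ∈ HH S, ν a : ℤ) : ZMod 2) = (((HH S).card : ℤ) : ZMod 2) := by
        push_cast
        rw [sum_congr rfl (g := fun _ => (1 : ZMod 2)), sum_const, nsmul_eq_mul, mul_one]
        intro a ha
        unfold HH at ha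
        rw [mem_filter, mem_CC] at ha
        exact (odd_iff_z _).1 ((hν a ha.1.2).2.2 hj)
      rw [odd_iff_z, h1, ← odd_iff_z]
      exact ⟨fun h => ⟨h, hj⟩, fun h => h.1⟩
    · have h1 : ((∑ a ∈ HH S, ν a : ℤ) : ZMod 2) = 0 := by
        push_cast
        apply sum_eq_zero
        intro a ha
        unfold HH at ha
        rw [mem_filter, mem_CC] at ha
        rw [← even_iff_z, ← Int.not_odd_iff_even]
        exact fun h => hj ((hν a ha.1.2).2.1 h)
      rw [odd_iff_z, h1]
      constructor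
      · intro h; exact absurd h (by decide)
      · rintro ⟨-, h⟩; exact absurd h hj
  -- the other terms
  have hzero : ∀ R ∈ S.ssubsets, R ≠ S.filter Qp → (((∏ q ∈ S \ R, α R q) *
      (if ch R (-1) = ch S (-1) then c R else 0) : ℤ) : ZMod 2) = 0 := by
    intro R hR hne
    rw [← even_iff_z, ← Int.not_odd_iff_even, Int.odd_mul, odd_prod_iff]
    rintro ⟨h1, h2⟩
    rw [mem_ssubsets] at hR
    split_ifs at h2
    · rw [hc2 R hR (hS.mono hR.1)] at h2
      apply hne
      ext q
      rw [mem_filter]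
      constructor
      · intro hq
        exact ⟨hR.1 hq, h2 q hq⟩
      · rintro ⟨hq, hqQ⟩
        by_contra hqR
        have h3 := (hα2 R hR.1 q (mem_sdiff.2 ⟨hq, hqR⟩)).1 (h1 q (mem_sdiff.2 ⟨hq, hqR⟩))
        have h4 := hqQ.2
        rw [h3.2] at h4
        norm_num at h4
    · exact absurd h2 (by decide)
  by_cases hall : ∀ q ∈ S, Qp q
  · -- all primes are good
    refine ⟨fun _ => hall, fun _ => ?_⟩
    have h4 : ∀ q ∈ S, q % 4 = 3 := fun q hq => (hall q hq).1
    have hj : jacobiSym (NN S) 5 = ch S (-1) := by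
      rw [jac_NN, ch_neg_of h4, prod_congr rfl (fun q hq => (hall q hq).2), prod_const]
    have h1 := hsum.2 ⟨h4, hj⟩
    have h2 : (T : ZMod 2) = 0 := by
      rw [hT, Int.cast_sum]
      apply sum_eq_zero
      intro R hR
      apply hzero R hR
      intro h
      rw [mem_ssubsets, h] at hR
      apply hR.2
      intro q hq
      rw [mem_filter]
      exact ⟨hq, hall q hq⟩
    exact h1.sub_even ((even_iff_z _).2 h2)
  · refine ⟨fun h => ?_, fun h => absurd h hall⟩
    exfalso
    rw [odd_iff_z, Int.cast_sub] at h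
    set R0 := S.filter Qp with hR0
    have hR0S : R0 ∈ S.ssubsets := by
      rw [mem_ssubsets]
      refine ⟨filter_subset _ _, fun h1 => hall fun q hq => ?_⟩
      exact (mem_filter.1 (h1 hq)).2
    have hTz : (T : ZMod 2) = (((∏ q ∈ S \ R0, α R0 q) *
      (if ch R0 (-1) = ch S (-1) then c R0 else 0) : ℤ) : ZMod 2) := by
      rw [hT, Int.cast_sum]
      exact sum_eq_single R0 (fun R hR hne => hzero R hR hne) (fun h1 => absurd hR0S h1)
    have hR0s := (mem_ssubsets.1 hR0S)
    -- both are odd under the same condition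
    have hiff : Odd (∑ a ∈ HH S, ν a) ↔ Odd T := by
      rw [hsum, odd_iff_z T, hTz, ← odd_iff_z, Int.odd_mul, odd_prod_iff]
      constructor
      · rintro ⟨h4, hj⟩
        have hch : ch R0 (-1) = ch S (-1) := by
          rw [← hj, jac_NN, ch_neg_of (fun q hq => h4 q (hR0s.1 hq))]
          rw [← prod_sdiff hR0s.1, prod_congr rfl (s₂ := R0) (g := fun _ => (-1 : ℤ))
            (fun q hq => (mem_filter.1 hq).2.2), prod_const, prod_eq_one, one_mul]
          intro q hq
          rw [mem_sdiff, hR0, mem_filter] at hq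
          have hqN : q.Coprime 10 := by
            have := NN_ten (S := {q}) (fun r hr => by
              rw [mem_singleton] at hr; subst hr; exact hS r hq.1)
            unfold NN at this
            rwa [prod_singleton] at this
          rcases jac5 hqN with h5 | h5
          · exact h5
          · exact absurd ⟨hq.1, h4 q hq.1, h5⟩ hq.2
        refine ⟨?_, ?_⟩
        · intro q hq
          rw [hα2 R0 hR0s.1 q hq]
          rw [mem_sdiff, hR0, mem_filter] at hq
          have hqN : q.Coprime 10 := by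
            have := NN_ten (S := {q}) (fun r hr => by
              rw [mem_singleton] at hr; subst hr; exact hS r hq.1)
            unfold NN at this
            rwa [prod_singleton] at this
          rcases jac5 hqN with h5 | h5
          · exact ⟨h4 q hq.1, h5⟩
          · exact absurd ⟨hq.1, h4 q hq.1, h5⟩ hq.2
        · rw [if_pos hch, hc2 R0 hR0s (hS.mono hR0s.1)]
          intro q hq
          exact (mem_filter.1 hq).2
      · rintro ⟨h1, h2⟩
        have h4 : ∀ q ∈ S, q % 4 = 3 := by
          intro q hq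
          by_cases hqR : q ∈ R0
          · exact (mem_filter.1 hqR).2.1
          · have hq' := mem_sdiff.2 ⟨hq, hqR⟩
            exact ((hα2 R0 hR0s.1 q hq').1 (h1 q hq')).1
        refine ⟨h4, ?_⟩
        have hch : ch R0 (-1) = ch S (-1) := by
          by_contra hne
          rw [if_neg hne] at h2
          exact absurd h2 (by decide)
        rw [← hch, jac_NN, ch_neg_of (fun q hq => h4 q (hR0s.1 hq))]
        rw [← prod_sdiff hR0s.1, prod_congr rfl (s₂ := R0) (g := fun _ => (-1 : ℤ))
          (fun q hq => (mem_filter.1 hq).2.2), prod_const, prod_eq_one, one_mul]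
        intro q hq
        exact ((hα2 R0 hR0s.1 q hq).1 (h1 q hq)).2
    by_cases ho : Odd T
    · have h1 := (odd_iff_z _).1 (hiff.2 ho)
      have h2 := (odd_iff_z _).1 ho
      rw [h1, h2, sub_self] at h
      exact absurd h (by decide)
    · have h1 : ¬ Odd (∑ a ∈ HH S, ν a) := fun h3 => ho (hiff.1 h3)
      have h2 := (even_iff_z _).1 (Int.not_odd_iff_even.1 h1)
      have h3 := (even_iff_z _).1 (Int.not_odd_iff_even.1 ho)
      rw [h2, h3, sub_zero] at h
      exact absurd h (by decide)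

end

end Pool.Agent.Y695
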