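import Pool.Agent.Y695.Rec5

/-!
The power of two in the twisted sums with one split prime.
-/

set_option autoImplicit false
set_option linter.all false

open Finset

namespace Pool.Agent.Y695

section

variable {pf : ℚ → ℂ} {A : ℕ → ℤ} {J0 I1 : ℝ}

/-- the relation, for both signs -/
theorem main_id_e (hs : Sym pf A J0 I1) {S : Finset ℕ} (hS : Adm S) {e : ℤ} (he : e = 1 ∨ e = -1) :
    ∃ ν : ℕ → ℤ, (∀ a : ℕ, a.Coprime (NN S) →
      pt J0 I1 e (pf ((a : ℚ) / NN S)) = ν a ∧ (Odd (ν a) ↔ jacobiSym (NN S) 5 = e)) ∧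
      ∑ R ∈ S.powerset, (∏ q ∈ S \ R, (A q - 2 * ch R q)) *
        (if ch R (-1) = e then mu pf J0 I1 R else 0) = 2 ^ S.card * ∑ a ∈ HH S, ν a := by
  obtain ⟨ν, hν⟩ := exists_nu hs (NN_ten hS) he
  refine ⟨ν, hν, ?_⟩
  have h1 := congrArg (pt J0 I1 e) (sum_TS hs hS)
  have h2 : (2 ^ S.card * ∑ a ∈ HH S, pf ((a : ℚ) / NN S) : ℂ) =
      ((2 ^ S.card : ℤ) : ℂ) * ∑ a ∈ HH S, pf ((a : ℚ) / NN S) := by push_cast; rfl
  rw [h2, pt_int, map_sum, map_sum] at h1
  have h3 : ∑ a ∈ HH S, pt J0 I1 e (pf ((a : ℚ) / NN S)) = ∑ a ∈ HH S, (ν a : ℝ) := by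
    refine sum_congr rfl fun a ha => ?_
    unfold HH at ha
    rw [mem_filter, mem_CC] at ha
    exact (hν a ha.1.2).1
  have h4 : ∀ R ∈ S.powerset, pt J0 I1 e (TS pf (cf R) (NN S)) =
      (((∏ q ∈ S \ R, (A q - 2 * ch R q)) *
        (if ch R (-1) = e then mu pf J0 I1 R else 0) : ℤ) : ℝ) := by
    intro R hR
    rw [mem_powerset] at hR
    rw [TS_prod hs hS hR]
    have h5 : (∏ q ∈ S \ R, ((A q - 2 * ch R q : ℤ) : ℂ)) =
        ((∏ q ∈ S \ R, (A q - 2 * ch R q) : ℤ) : ℂ) := by push_cast; rfl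
    rw [h5, pt_int, mu_spec hs (hS.mono hR) _ he]
    by_cases h6 : ch R (-1) = e
    · rw [if_pos h6.symm, if_pos h6]
      push_cast
      ring
    · rw [if_neg (fun h => h6 h.symm), if_neg h6]
      push_cast
      ring
  rw [sum_congr rfl h4, h3] at h1
  exact_mod_cast h1

/-- the values at the two fixed points -/
def FixP (pf : ℚ → ℂ) (J0 I1 : ℝ) (p : ℕ) : Prop := ∀ N0 a a' : ℤ, IsCoprime (p : ℤ) N0 →
  N0 * p ∣ 20 * a ^ 2 + 1 → N0 * p ∣ 20 * a' ^ 2 + 1 → N0 ∣ a' - a → (p : ℤ) ∣ a' + a →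
  ∃ n m : ℤ, Even (n + m) ∧ pf ((a' : ℚ) / (N0 * p : ℤ)) =
      pf ((a : ℚ) / (N0 * p : ℤ)) + 2 * (n * J0 + m * I1 * Complex.I)

/-- the sum over the subgroup modulo four -/
theorem sum_HH_four (hs : Sym pf A J0 I1) {S0 : Finset ℕ} {p : ℕ} (hS : Adm (insert p S0))
    (hpS : p ∉ S0) (h3 : ∀ q ∈ S0, q % 4 = 3) (hp4 : p % 4 = 1)
    (h5 : ∀ q ∈ insert p S0, jacobiSym (-5) q = 1) (hfix : FixP pf J0 I1 p) {e : ℤ}
    (he : e = 1 ∨ e = -1) {ν ν' : ℕ → ℤ}
    (hν : ∀ a : ℕ, a.Coprime (NN (insert p S0)) →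
      pt J0 I1 e (pf ((a : ℚ) / NN (insert p S0))) = ν a ∧ Odd (ν a))
    (hν' : ∀ a : ℕ, a.Coprime (NN (insert p S0)) →
      pt J0 I1 (-e) (pf ((a : ℚ) / NN (insert p S0))) = ν' a ∧ Even (ν' a))
    (hsum : (4 : ℤ) ∣ ∑ a ∈ HH (insert p S0), ν' a) :
    (4 : ℤ) ∣ ∑ a ∈ HH (insert p S0), ν a - (HH (insert p S0)).card := by
  classical
  set S := insert p S0 with hSdef
  have hN0 := NN_ne hS
  have hN10 := NN_ten hS
  have hmem : ∀ a ∈ HH S, a < NN S ∧ a.Coprime (NN S) := fun a ha => by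
    unfold HH at ha
    rw [mem_filter, mem_CC] at ha
    exact ha.1
  have hinv : ∀ a ∈ HH S, iot (NN S) (iot (NN S) a) = a := fun a ha =>
    iot_iot hN0 hN10 (hmem a ha).1 (hmem a ha).2
  have hpfinv : ∀ a ∈ HH S, pf ((iot (NN S) a : ℚ) / NN S) = pf ((a : ℚ) / NN S) := by
    intro a ha
    have h1 := (iot_spec hN0 hN10 (hmem a ha).2).2.2
    exact (hs.fricke (NN S) a (iot (NN S) a) hN0 h1).symm
  have hνinv : ∀ a ∈ HH S, ν (iot (NN S) a) = ν a := by
    intro a ha
    have h1 := (hν a (hmem a ha).2).1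
    have h2 := (hν _ (iot_spec hN0 hN10 (hmem a ha).2).2.1).1
    rw [hpfinv a ha, h1] at h2
    exact_mod_cast h2.symm
  have hνinv' : ∀ a ∈ HH S, ν' (iot (NN S) a) = ν' a := by
    intro a ha
    have h1 := (hν' a (hmem a ha).2).1
    have h2 := (hν' _ (iot_spec hN0 hN10 (hmem a ha).2).2.1).1
    rw [hpfinv a ha, h1] at h2
    exact_mod_cast h2.symm
  by_cases hex : ∃ a ∈ HH S, NN S ∣ 20 * (a * a) + 1
  · obtain ⟨a, ha, hf⟩ := hex
    obtain ⟨a', ha', hf', hne, d1, d2, huniq⟩ := exists_other hS hpS h3 hp4 ha hf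
    set s := ((HH S).erase a).erase a' with hsdef
    have hs1 : ∀ b ∈ s, b ∈ HH S ∧ b ≠ a ∧ b ≠ a' := by
      intro b hb
      rw [hsdef, mem_erase, mem_erase] at hb
      exact ⟨hb.2.2, hb.2.1, hb.1⟩
    have hfixa : iot (NN S) a = a := (iot_fix hN0 hN10 (hmem a ha).1 (hmem a ha).2).2 hf
    have hfixa' : iot (NN S) a' = a' := (iot_fix hN0 hN10 (hmem a' ha').1 (hmem a' ha').2).2 hf'
    have hcl : ∀ b ∈ s, iot (NN S) b ∈ s := by
      intro b hb
      obtain ⟨h1, h2, h4⟩ := hs1 b hb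
      rw [hsdef, mem_erase, mem_erase]
      refine ⟨?_, ?_, iot_HH hS h5 h1⟩
      · intro h
        apply h4
        rw [← hinv b h1, h, hfixa']
      · intro h
        apply h2
        rw [← hinv b h1, h, hfixa]
    have hnf : ∀ b ∈ s, iot (NN S) b ≠ b := by
      intro b hb h
      obtain ⟨h1, h2, h4⟩ := hs1 b hb
      have h6 := (iot_fix hN0 hN10 (hmem b h1).1 (hmem b h1).2).1 h
      rcases huniq b h1 h6 with h7 | h7
      · exact h2 h7
      · exact h4 h7
    have e1 := sum_invol (s := s) ν (iot (NN S)) hcl (fun b hb => hinv b (hs1 b hb).1) hnf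
      (fun b hb => hνinv b (hs1 b hb).1) 1 (fun b hb => by
        obtain ⟨c, hc⟩ := (hν b (hmem b (hs1 b hb).1).2).2
        exact ⟨c, by rw [hc]; ring⟩)
    have e2 := sum_invol (s := s) ν' (iot (NN S)) hcl (fun b hb => hinv b (hs1 b hb).1) hnf
      (fun b hb => hνinv' b (hs1 b hb).1) 0 (fun b hb => by
        obtain ⟨c, hc⟩ := (hν' b (hmem b (hs1 b hb).1).2).2
        exact ⟨c, by rw [hc]; ring⟩)
    have hmem' : a' ∈ (HH S).erase a := mem_erase.2 ⟨hne, ha'⟩
    have s1 : ∑ b ∈ HH S, ν b = ν a + (ν a' + ∑ b ∈ s, ν b) := by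
      rw [← add_sum_erase _ _ ha, ← add_sum_erase _ _ hmem']
    have s2 : ∑ b ∈ HH S, ν' b = ν' a + (ν' a' + ∑ b ∈ s, ν' b) := by
      rw [← add_sum_erase _ _ ha, ← add_sum_erase _ _ hmem']
    have s3 : ((HH S).card : ℤ) = s.card + 2 := by
      have h1 := card_erase_add_one ha
      have h2 := card_erase_add_one hmem'
      rw [← hsdef] at h2
      omega
    -- the fixed points
    have hNN : ((NN S : ℕ) : ℤ) = (NN S0 : ℤ) * p := by
      rw [hSdef, NN_insert hpS]; push_cast; ring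
    have hpS0 : IsCoprime (p : ℤ) (NN S0 : ℤ) := Nat.isCoprime_iff_coprime.2
      (NN_coprime (hS.mono (subset_insert _ _)) (hS p (mem_insert_self _ _)).1 hpS)
    obtain ⟨n, m, hnm, hval⟩ := hfix (NN S0) a a' hpS0 (by
      rw [← hNN, pow_two]; exact_mod_cast Int.natCast_dvd_natCast.2 hf) (by
      rw [← hNN, pow_two]; exact_mod_cast Int.natCast_dvd_natCast.2 hf') d1 d2
    rw [← hNN] at hval
    push_cast at hval
    have hve : ∀ e' : ℤ, (e' = 1 ∨ e' = -1) → pt J0 I1 e' (pf ((a' : ℚ) / NN S)) =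
        pt J0 I1 e' (pf ((a : ℚ) / NN S)) + 2 * ((if e' = 1 then n else m : ℤ) : ℝ) := by
      intro e' he'
      rw [hval, map_add]
      have : (2 * ((n : ℂ) * J0 + m * I1 * Complex.I)) =
          ((2 : ℤ) : ℂ) * ((n : ℂ) * J0 + m * I1 * Complex.I) := by push_cast; rfl
      rw [this, pt_int, pt_val hs.J0_pos hs.I1_pos n m he']
      push_cast
      rfl
    have v1 := hve e he
    have v2 := hve (-e) (by rcases he with rfl | rfl <;> norm_num)
    rw [(hν a (hmem a ha).2).1, (hν a' (hmem a' ha').2).1] at v1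
    rw [(hν' a (hmem a ha).2).1, (hν' a' (hmem a' ha').2).1] at v2
    have w1 : ν a' = ν a + 2 * (if e = 1 then n else m) := by exact_mod_cast v1
    have w2 : ν' a' = ν' a + 2 * (if -e = 1 then n else m) := by exact_mod_cast v2
    obtain ⟨k, hk⟩ := hnm
    obtain ⟨c1, hc1⟩ := (hν a (hmem a ha).2).2
    obtain ⟨c2, hc2⟩ := (hν' a (hmem a ha).2).2
    rcases he with rfl | rfl
    · norm_num at w1 w2
      omega
    · norm_num at w1 w2
      omega
  · push Not at hex
    have e1 := sum_invol (s := HH S) ν (iot (NN S)) (fun a ha => iot_HH hS h5 ha) hinv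
      (fun a ha h => hex a ha ((iot_fix hN0 hN10 (hmem a ha).1 (hmem a ha).2).1 h)) hνinv 1
      (fun b hb => by
        obtain ⟨c, hc⟩ := (hν b (hmem b hb).2).2
        exact ⟨c, by rw [hc]; ring⟩)
    rwa [one_mul] at e1

/-- the terms of the relation -/
lemma term_bound (hs : Sym pf A J0 I1) {S0 : Finset ℕ} {p : ℕ} (hS : Adm (insert p S0))
    (hpS : p ∉ S0) (hQ : ∀ q ∈ S0, Qp q) (hp4 : p % 4 = 1) {R : Finset ℕ}
    (hR : R ⊆ insert p S0) (hne : R ≠ insert p S0) (hne' : R ≠ S0) :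
    (2 : ℤ) ^ ((insert p S0).card + 2) ∣
      (∏ q ∈ insert p S0 \ R, (A q - 2 * ch R q)) * mu pf J0 I1 R := by
  classical
  set S := insert p S0 with hSdef
  have hfac : ∀ q ∈ S \ R, ∃ α : ℤ, A q - 2 * ch R q = 4 * α := by
    intro q hq
    rw [mem_sdiff] at hq
    have hqp := hS q hq.1
    obtain ⟨α, h1, h2⟩ := factor hs hqp.1 hqp.2.1 hqp.2.2 (hS.mono hR) hq.2
    have hnot : ¬ Pp q := by
      rintro ⟨h3, h4⟩
      rcases mem_insert.1 hq.1 with rfl | h5
      · omega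
      · rw [(hQ q h5).2] at h4
        norm_num at h4
    have h3 : Even α := Int.not_odd_iff_even.1 fun h => hnot (h2.1 h)
    obtain ⟨k, hk⟩ := h3
    exact ⟨k, by rw [h1, hk]; ring⟩
  choose! α hα using hfac
  obtain ⟨c, hc, hodd⟩ := mu_two hs R (hS.mono hR)
  have hcard : (S \ R).card + R.card = S.card := card_sdiff_add_card_eq_card hR
  rw [prod_congr rfl hα, prod_mul_distrib, prod_const, hc]
  have hpow : (4 : ℤ) ^ (S \ R).card * 2 ^ R.card = 2 ^ (S.card + (S \ R).card) := by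
    rw [← hcard, show (4 : ℤ) = 2 ^ 2 by norm_num, ← pow_mul, ← pow_add]
    congr 1
    ring
  have e1 : 4 ^ (S \ R).card * (∏ x ∈ S \ R, α x) * (2 ^ R.card * c) =
      2 ^ (S.card + (S \ R).card) * (c * ∏ x ∈ S \ R, α x) := by
    rw [← hpow]; ring
  rw [e1]
  by_cases hp : p ∈ R
  · have hce : Even c := by
      rw [← Int.not_odd_iff_even, hodd]
      intro h
      have := (h p hp).1
      omega
    obtain ⟨k, hk⟩ := hce
    have h1 : 1 ≤ (S \ R).card := by
      rw [Nat.one_le_iff_ne_zero, Ne, card_eq_zero, sdiff_eq_empty_iff_subset]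
      exact fun h => hne (Subset.antisymm hR h)
    obtain ⟨j, hj⟩ := Nat.exists_eq_add_of_le h1
    rw [hj, hk]
    exact ⟨2 ^ j * (k * ∏ x ∈ S \ R, α x), by ring⟩
  · have h1 : 2 ≤ (S \ R).card := by
      have hRS0 : R ⊂ S0 := by
        refine ssubset_of_subset_of_ne ?_ hne'
        intro q hq
        rcases mem_insert.1 (hR hq) with rfl | h
        · exact absurd hq hp
        · exact h
      obtain ⟨q, hq, hqR⟩ := exists_of_ssubset hRS0
      have h2 : ({p, q} : Finset ℕ) ⊆ S \ R := by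
        intro x hx
        rw [mem_insert, mem_singleton] at hx
        rw [mem_sdiff]
        rcases hx with rfl | rfl
        · exact ⟨mem_insert_self _ _, hp⟩
        · exact ⟨mem_insert_of_mem hq, hqR⟩
      have h3 : ({p, q} : Finset ℕ).card = 2 := card_pair (fun h => hpS (h ▸ hq))
      rw [← h3]
      exact card_le_card h2
    obtain ⟨j, hj⟩ := Nat.exists_eq_add_of_le h1
    rw [hj]
    exact ⟨2 ^ j * (c * ∏ x ∈ S \ R, α x), by ring⟩

/-- **the power of two in `μ_S` with one split prime** -/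
theorem mu_B (hs : Sym pf A J0 I1) {S0 : Finset ℕ} {p : ℕ} (hS : Adm (insert p S0))
    (hpS : p ∉ S0) (hQ : ∀ q ∈ S0, Qp q) (hp4 : p % 4 = 1) (hj : jacobiSym p 5 = 1)
    (hfix : FixP pf J0 I1 p) {t : ℤ} (ht : A p = p + 1 - 4 * t) :
    ∃ c : ℤ, mu pf J0 I1 (insert p S0) = 2 ^ ((insert p S0).card + 1) * c ∧
      (Odd c ↔ (Odd t ↔ ch S0 p = 1)) := by
  classical
  have hS0 : Adm S0 := hS.mono (subset_insert _ _)
  have hp := hS p (mem_insert_self _ _)
  have h3 : ∀ q ∈ S0, q % 4 = 3 := fun q hq => (hQ q hq).1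
  set S := insert p S0 with hSdef
  have hcS : S.card = S0.card + 1 := card_insert_of_notMem hpS
  have hnegp : jacobiSym (-1) p = 1 := by
    rw [jacobiSym.at_neg_one (Nat.odd_iff.2 (by omega)), ZMod.χ₄_nat_one_mod_four hp4]
  have hchS : ch S (-1) = ch S0 (-1) := by
    rw [hSdef, ch_insert hpS, hnegp, one_mul]
  have hjS : jacobiSym (NN S) 5 = ch S (-1) := by
    rw [jac_NN, hchS, ch_neg_of h3, hSdef, prod_insert hpS, hj, one_mul,
      prod_congr rfl (fun q hq => (hQ q hq).2), prod_const]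
  have he := ch_neg_one S
  have he' : -ch S (-1) = 1 ∨ -ch S (-1) = -1 := by
    rcases he with h | h <;> rw [h] <;> norm_num
  have h5 : ∀ q ∈ S, jacobiSym (-5) q = 1 := by
    intro q hq
    have hq2 : q % 2 = 1 := by
      rcases (hS q hq).1.eq_two_or_odd with h | h
      · exact absurd h (hS q hq).2.1
      · exact h
    have h6 : jacobiSym (-5) q = jacobiSym (-1) q * jacobiSym 5 q := by
      rw [← jacobiSym.mul_left]; norm_num
    have h7 : jacobiSym 5 q = jacobiSym q 5 := by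
      have := jacobiSym.quadratic_reciprocity_one_mod_four (a := 5) (b := q) (by norm_num)
        (Nat.odd_iff.2 hq2)
      exact_mod_cast this
    rw [h6, h7]
    rcases mem_insert.1 hq with rfl | hq0
    · rw [hnegp, hj]; norm_num
    · rw [(hQ q hq0).2, jacobiSym.at_neg_one (Nat.odd_iff.2 hq2),
        ZMod.χ₄_nat_three_mod_four (h3 q hq0)]
      norm_num
  obtain ⟨ν, hν, hid⟩ := main_id_e hs hS he
  obtain ⟨ν', hν', hid'⟩ := main_id_e hs hS he'
  have hνo : ∀ a : ℕ, a.Coprime (NN S) →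
      pt J0 I1 (ch S (-1)) (pf ((a : ℚ) / NN S)) = ν a ∧ Odd (ν a) := fun a ha =>
    ⟨(hν a ha).1, (hν a ha).2.2 hjS⟩
  have hνe : ∀ a : ℕ, a.Coprime (NN S) →
      pt J0 I1 (-ch S (-1)) (pf ((a : ℚ) / NN S)) = ν' a ∧ Even (ν' a) := fun a ha => by
    refine ⟨(hν' a ha).1, Int.not_odd_iff_even.1 fun h => ?_⟩
    have h6 := (hν' a ha).2.1 h
    rw [hjS] at h6
    rcases he with h7 | h7 <;> rw [h7] at h6 <;> norm_num at h6
  -- the other sign
  have hpow : (2 : ℤ) ^ S.card ≠ 0 := by positivity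
  have h4 : (4 : ℤ) ∣ ∑ a ∈ HH S, ν' a := by
    have h6 : (2 : ℤ) ^ (S.card + 2) ∣ 2 ^ S.card * ∑ a ∈ HH S, ν' a := by
      rw [← hid']
      apply dvd_sum
      intro R hR
      rw [mem_powerset] at hR
      split_ifs with h7
      · apply term_bound hs hS hpS hQ hp4 hR
        · rintro rfl
          rcases he with h8 | h8 <;> rw [h8] at h7 <;> norm_num at h7
        · rintro rfl
          rw [← hchS] at h7
          rcases he with h8 | h8 <;> rw [h8] at h7 <;> norm_num at h7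
      · rw [mul_zero]; exact dvd_zero _
    rw [pow_add] at h6
    exact (mul_dvd_mul_iff_left hpow).1 (by simpa using h6)
  have hfour := sum_HH_four hs hS hpS h3 hp4 h5 hfix he hνo hνe h4
  -- the main sign
  have hSS0 : S0 ∈ S.powerset.erase S := by
    rw [mem_erase, mem_powerset]
    refine ⟨fun h => hpS ?_, subset_insert _ _⟩
    rw [h]; exact mem_insert_self _ _
  have hSS : S ∈ S.powerset := mem_powerset_self S
  rw [← add_sum_erase _ _ hSS, ← add_sum_erase _ _ hSS0] at hid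
  have hrest : (2 : ℤ) ^ (S.card + 2) ∣ ∑ R ∈ (S.powerset.erase S).erase S0,
      (∏ q ∈ S \ R, (A q - 2 * ch R q)) * (if ch R (-1) = ch S (-1) then mu pf J0 I1 R else 0) := by
    apply dvd_sum
    intro R hR
    rw [mem_erase, mem_erase, mem_powerset] at hR
    split_ifs with h7
    · exact term_bound hs hS hpS hQ hp4 hR.2.2 hR.2.1 hR.1
    · rw [mul_zero]; exact dvd_zero _
  obtain ⟨r, hr⟩ := hrest
  obtain ⟨c0, hc0, hodd0⟩ := mu_two hs S0 hS0
  have hc0o : Odd c0 := hodd0.2 hQ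
  rw [hr, if_pos rfl, if_pos hchS.symm, sdiff_self] at hid
  have hsd : S \ S0 = {p} := by
    ext x
    rw [mem_sdiff, mem_singleton, hSdef, mem_insert]
    constructor
    · rintro ⟨h | h, h'⟩
      · exact h
      · exact absurd h h'
    · rintro rfl
      exact ⟨Or.inl rfl, hpS⟩
  rw [hsd, prod_singleton, bot_eq_empty, prod_empty, one_mul, hc0, ht] at hid
  obtain ⟨w, hw⟩ := hfour
  -- the order of the subgroup
  have hcard := card_HH hS
  rw [hSdef, prod_insert hpS, ← hSdef] at hcard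
  have hodd3 : ∃ o : ℤ, Odd o ∧ ∏ q ∈ S0, ((q : ℤ) - 1) = 2 ^ S0.card * o := by
    refine ⟨∏ q ∈ S0, (((q : ℤ) - 1) / 2), ?_, ?_⟩
    · rw [odd_prod_iff]
      intro q hq
      have := h3 q hq
      rw [Int.odd_iff]
      omega
    · rw [← prod_const, ← prod_mul_distrib]
      refine prod_congr rfl fun q hq => ?_
      have := h3 q hq
      omega
  obtain ⟨o, ho, hprod⟩ := hodd3
  rw [hprod, hcS, pow_succ] at hcard
  have hcardH : 2 * ((HH S).card : ℤ) = ((p : ℤ) - 1) * o := by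
    have h6 : (2 : ℤ) ^ S0.card ≠ 0 := by positivity
    apply mul_left_cancel₀ h6
    linear_combination hcard
  have hp1 : ∃ k : ℤ, (p : ℤ) = 4 * k + 1 := ⟨p / 4, by omega⟩
  obtain ⟨k, hk⟩ := hp1
  have hcardH' : ((HH S).card : ℤ) = 2 * (k * o) := by
    rw [hk] at hcardH; linarith
  have hε := ch_pm hp.1 hS0 hpS
  obtain ⟨x, hx⟩ := hc0o
  obtain ⟨y, hy⟩ := ho
  rw [hcS] at hid ⊢
  have hsumν : ∑ a ∈ HH S, ν a = 4 * w + 2 * (k * o) := by
    rw [← hcardH']; linear_combination hw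
  rw [hsumν] at hid
  rcases hε with hε | hε
  · rw [hε] at hid ⊢
    refine ⟨2 * w + k * o - 2 * r - (k - t) * c0, ?_, ?_⟩
    · rw [hk] at hid
      linear_combination hid
    · have e1 : 2 * w + k * o - 2 * r - (k - t) * c0 =
          2 * (w + k * y - r - (k - t) * x) + t := by rw [hx, hy]; ring
      rw [e1]
      constructor
      · intro h
        refine ⟨fun _ => rfl, fun _ => ?_⟩
        rw [Int.odd_iff] at h ⊢
        omega
      · intro h
        have := h.2 rfl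
        rw [Int.odd_iff] at this ⊢
        omega
  · rw [hε] at hid ⊢
    refine ⟨2 * w + k * o - 2 * r - (k + 1 - t) * c0, ?_, ?_⟩
    · rw [hk] at hid
      linear_combination hid
    · have e1 : 2 * w + k * o - 2 * r - (k + 1 - t) * c0 =
          2 * (w + k * y - r - (k + 1 - t) * x) + t - 1 := by rw [hx, hy]; ring
      rw [e1]
      constructor
      · intro h
        refine ⟨fun h' => ?_, fun h' => absurd h' (by norm_num)⟩
        exfalso
        rw [Int.odd_iff] at h h'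
        omega
      · intro h
        have h' : ¬ Odd t := fun h1 => absurd (h.1 h1) (by norm_num)
        rw [Int.odd_iff] at h' ⊢
        omega

end

end Pool.Agent.Y695
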