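import Pool.Agent.Y695.Hh
import Pool.Agent.TH344.SH.Def
import Pool.Agent.W309.TD.Des

/-!
Descent by a 2-isogeny for the locally trivial cocycles of the curves
`y ^ 2 = x ^ 3 + a x ^ 2 + b x` over `ℚ`.
-/

set_option autoImplicit false
set_option linter.all false

open WeierstrassCurve WeierstrassCurve.Affine
open scoped Classical
open Pool.Agent.W309.TD (Pt act act_zero act_some act_inj act_act two_act rs incl rs_apply
  rs_act_incl exists_root compare au au_apply exists_restrict)

namespace Pool.Agent.Y695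

open Pool.Agent.TH344.SH

theorem galQB : IsGalois ℚ QB := by
  have h : @IsGalois ℚ _ QB _ (AlgebraicClosure.instAlgebra ℚ) := inferInstance
  convert h
  exact Subsingleton.elim _ _

/-- `d` is modulo squares the value of `x` at a point over `K` of the curve
`y² = x³ + a x² + b x` -/
def LocA (K : Type) [Field K] (a b d : K) : Prop :=
  IsSquare d ∨ IsSquare (b * d) ∨
    ∃ X Y : K, X ≠ 0 ∧ Y ^ 2 = X * (X ^ 2 + a * X + b) ∧ IsSquare (X * d)

lemma isT_base {W : WeierstrassCurve ℚ} {a b : ℚ} (h : IsT W.toAffine a b) (L : Type) [Field L]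
    [Algebra ℚ L] : IsT (W.baseChange L).toAffine (algebraMap ℚ L a) (algebraMap ℚ L b) := by
  haveI : CharZero L := algebraRat.charZero L
  refine ⟨?_, ?_, ?_, ?_, ?_, two_ne_zero, (map_ne_zero _).2 h.nb, ?_⟩
  · show algebraMap ℚ L W.a₁ = 0
    rw [h.a1, map_zero]
  · show algebraMap ℚ L W.a₂ = _
    rw [h.a2]
  · show algebraMap ℚ L W.a₃ = 0
    rw [h.a3, map_zero]
  · show algebraMap ℚ L W.a₄ = _
    rw [h.a4]
  · show algebraMap ℚ L W.a₆ = 0
    rw [h.a6, map_zero]
  · have := (map_ne_zero (algebraMap ℚ L)).2 h.nd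
    rwa [map_sub, map_mul, map_pow, map_ofNat] at this

section local_part

variable {W : WeierstrassCurve ℚ} {a b : ℚ}

/-- the first local step -/
lemma loc1 (h : IsT W.toAffine a b) {f : GQ → Points W QB} (hf2 : ∀ σ, f σ + f σ = 0)
    {t : QB} {d : ℚ} (ht : t ≠ 0) (hd : t ^ 2 = algebraMap ℚ QB d)
    (hσ : ∀ σ : GQ, σ t = sg 0 (f σ) * t)
    (K : Type) [Field K] [Algebra ℚ K] (hl : LocallyTrivial W K f) :
    LocA K (algebraMap ℚ K a) (algebraMap ℚ K b) (algebraMap ℚ K d) := by
  have hG : IsGalois K (AlgebraicClosure K) := by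
    haveI := algebraRat.charZero K
    infer_instance
  have hGQ : IsGalois ℚ QB := galQB
  obtain ⟨ι⟩ : Nonempty (QB →ₐ[ℚ] AlgebraicClosure K) := ⟨IsAlgClosed.lift⟩
  obtain ⟨P, hP⟩ := hl ι
  choose res hres using exists_restrict (K := ℚ) (Ω := QB) (F := K) (Ω' := AlgebraicClosure K) ι
  have hTK := isT_base h K
  have hT' := isT_base h (AlgebraicClosure K)
  obtain ⟨e, e', he1, he2⟩ := hT'.roots
  have hR := hT'.isR he1 he2
  set T : (AlgebraicClosure K ≃ₐ[K] AlgebraicClosure K) → Pt W (AlgebraicClosure K) :=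
    fun τ => act W ι (f (res τ)) with hT
  have hT2 : ∀ τ, T τ + T τ = 0 := fun τ => (two_act W ι _).2 (hf2 _)
  have hTP : ∀ τ, act W (rs ℚ τ) P = P + T τ := by
    intro τ
    have h1 : T τ = act W (rs ℚ τ) P - P := hP τ (res τ) (hres τ)
    rw [h1]; abel
  have hPP : ∀ τ : AlgebraicClosure K ≃ₐ[K] AlgebraicClosure K,
      act W (rs ℚ τ) (P + P) = P + P := by
    intro τ
    rw [map_add, hTP, add_add_add_comm, hT2, add_zero]
  obtain ⟨Q, hQ⟩ := Pool.Agent.W309.TD.fixed_point (K := ℚ) (F := K) W (P + P) hPP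
  have hsg : ∀ τ, P + P = 0 → sg 0 (T τ) = 1 := by
    intro τ hP0
    have h1 : T τ = act W (rs ℚ τ) P + P := by
      have h2 : act W (rs ℚ τ) P = P + T τ := hTP τ
      rw [h2]
      have h3 : P + T τ + P = (P + P) + T τ := by abel
      rw [h3, hP0, zero_add]
    rw [h1, sg_add hR ((two_act W _ _).2 hP0) hP0]
    have h2 := sg_act W (rs ℚ τ) 0 P
    rw [map_zero] at h2
    rw [h2]
    rcases sg_sq (0 : AlgebraicClosure K) P with h3 | h3 <;> rw [h3] <;> simp
  have m0 : ∀ τ : AlgebraicClosure K ≃ₐ[K] AlgebraicClosure K,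
      τ (hh (algebraMap ℚ (AlgebraicClosure K) b) P) =
      sg 0 (T τ) * hh (algebraMap ℚ (AlgebraicClosure K) b) P := by
    intro τ
    have h1 := hh_act W (rs ℚ τ) (algebraMap ℚ (AlgebraicClosure K) b) P
    rw [(rs ℚ τ).commutes, hTP, hh_tr hT' he1 he2 (hT2 τ) (hsg τ), rs_apply] at h1
    exact h1.symm
  have l0 : ∀ τ : AlgebraicClosure K ≃ₐ[K] AlgebraicClosure K,
      τ (ι t) = sg 0 (T τ) * ι t := by
    intro τ
    have h1 := congrArg (fun φ : QB →ₐ[ℚ] AlgebraicClosure K => φ t) (hres τ)
    have h2 : τ (ι t) = ι ((res τ) t) := h1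
    have h3 := sg_act W ι 0 (f (res τ))
    rw [map_zero] at h3
    rw [h2, hσ, map_mul, ← h3]
  obtain ⟨c, hc, q⟩ := compare (K := K) ((map_ne_zero ι).2 ht)
    (hh_ne hT' P) _ (fun τ => sg_ne _ _) l0 m0
  have inj := (algebraMap K (AlgebraicClosure K)).injective
  have tow : ∀ r : ℚ, algebraMap K (AlgebraicClosure K) (algebraMap ℚ K r) =
      algebraMap ℚ (AlgebraicClosure K) r := fun r =>
    (IsScalarTower.algebraMap_apply ℚ K (AlgebraicClosure K) r).symm
  have hdd : algebraMap ℚ K d = c ^ 2 * al (algebraMap ℚ K b) Q := by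
    apply inj
    have w1 : (ι t) ^ 2 = algebraMap ℚ (AlgebraicClosure K) d := by
      rw [← map_pow, hd, ι.commutes]
    have w2 := al_act W (incl ℚ K (AlgebraicClosure K)) (algebraMap ℚ K b) Q
    have w3 : incl ℚ K (AlgebraicClosure K) (algebraMap ℚ K b) =
      algebraMap ℚ (AlgebraicClosure K) b := tow b
    rw [w3, hQ] at w2
    rw [tow, ← w1, q, mul_pow, hh_sq hT', map_mul, map_pow]
    congr 1
  rcases Q with _ | ⟨X, Y, hXY⟩
  · left
    rw [hdd]
    exact ⟨c, by rw [show al (algebraMap ℚ K b) (Point.zero : Pt W K) = 1 from rfl]; ring⟩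
  · by_cases hX : X = 0
    · right; left
      subst hX
      rw [hdd, al_some0]
      exact ⟨algebraMap ℚ K b * c, by ring⟩
    · right; right
      refine ⟨X, Y, hX, hTK.nonsingular.1 hXY, ?_⟩
      rw [hdd, al_some _ hXY hX]
      exact ⟨X * c, by ring⟩

/-- the second local step -/
lemma loc2 (h : IsT W.toAffine a b) {f : GQ → Points W QB}
    (hf : ∀ σ, f σ = 0 ∨ sg 0 (f σ) = 1 ∧ f σ ≠ 0 ∧ f σ + f σ = 0)
    {t : QB} {d : ℚ} (ht : t ≠ 0) (hd : t ^ 2 = algebraMap ℚ QB d)
    (hσ : ∀ σ : GQ, (f σ = 0 → σ t = t) ∧ (f σ ≠ 0 → σ t = -t))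
    (K : Type) [Field K] [Algebra ℚ K] (hl : LocallyTrivial W K f) :
    LocA K (algebraMap ℚ K (-2 * a)) (algebraMap ℚ K (a ^ 2 - 4 * b)) (algebraMap ℚ K d) := by
  have hG : IsGalois K (AlgebraicClosure K) := by
    haveI := algebraRat.charZero K
    infer_instance
  have hGQ : IsGalois ℚ QB := galQB
  obtain ⟨ι⟩ : Nonempty (QB →ₐ[ℚ] AlgebraicClosure K) := ⟨IsAlgClosed.lift⟩
  obtain ⟨P, hP⟩ := hl ι
  choose res hres using exists_restrict (K := ℚ) (Ω := QB) (F := K) (Ω' := AlgebraicClosure K) ι
  have hTK := isT_base h K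
  have hTQ := isT_base h QB
  have hT' := isT_base h (AlgebraicClosure K)
  obtain ⟨e, e', he1, he2⟩ := hT'.roots
  have hR := hT'.isR he1 he2
  set a' := algebraMap ℚ (AlgebraicClosure K) a with ha'
  set b' := algebraMap ℚ (AlgebraicClosure K) b with hb'
  have hns : (W.baseChange (AlgebraicClosure K)).toAffine.Nonsingular 0 0 := hT'.ns0
  set T0 : Pt W (AlgebraicClosure K) := Point.some 0 0 hns with hT0
  have inj := (algebraMap K (AlgebraicClosure K)).injective
  have tow : ∀ r : ℚ, algebraMap K (AlgebraicClosure K) (algebraMap ℚ K r) =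
      algebraMap ℚ (AlgebraicClosure K) r := fun r =>
    (IsScalarTower.algebraMap_apply ℚ K (AlgebraicClosure K) r).symm
  -- the values
  have hval : ∀ τ : AlgebraicClosure K ≃ₐ[K] AlgebraicClosure K,
      (act W (rs ℚ τ) P = P ∧ τ (ι t) = ι t) ∨
      (act W (rs ℚ τ) P = P + T0 ∧ τ (ι t) = -ι t) := by
    intro τ
    have h1 := hP τ (res τ) (hres τ)
    have h2 : act W ι (f (res τ)) = act W (rs ℚ τ) P - P := h1
    have h3 : τ (ι t) = ι ((res τ) t) :=
      congrArg (fun φ : QB →ₐ[ℚ] AlgebraicClosure K => φ t) (hres τ)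
    rcases hf (res τ) with h0 | ⟨h0, h0', h0''⟩
    · left
      rw [h0, map_zero] at h2
      exact ⟨(sub_eq_zero.1 h2.symm), by rw [h3, (hσ _).1 h0]⟩
    · right
      refine ⟨?_, by rw [h3, (hσ _).2 h0', map_neg]⟩
      have h4 : act W ι (f (res τ)) = T0 := by
        have h5 : sg 0 (act W ι (f (res τ))) = 1 := by
          have := sg_act W ι 0 (f (res τ))
          rw [map_zero, h0, map_one] at this
          exact this
        have h6 : act W ι (f (res τ)) + act W ι (f (res τ)) = 0 := (two_act W ι _).2 h0''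
        have h7 : act W ι (f (res τ)) ≠ 0 := by
          intro h8
          apply h0'
          apply act_inj W ι
          rw [h8, map_zero]
        generalize act W ι (f (res τ)) = S at h5 h6 h7
        rcases S with _ | ⟨x, y, hxy⟩
        · exact absurd rfl h7
        · have hy : y = 0 := (hT'.dbl_zero_iff hxy).1 h6
          subst hy
          have h11 : (1 : AlgebraicClosure K) ≠ -1 := by
            intro h'
            exact hT'.two (by linear_combination h')
          have hx : x = 0 := by
            by_contra hx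
            simp only [sg, hx, if_false] at h5
            exact h11 h5.symm
          subst hx
          rfl
      rw [← h4, h2]; abel
  by_cases hP0 : P = 0 ∨ P = T0
  · -- the character is trivial
    left
    have hfix : ∀ τ : AlgebraicClosure K ≃ₐ[K] AlgebraicClosure K, τ (ι t) = ι t := by
      intro τ
      rcases hval τ with ⟨-, h1⟩ | ⟨h1, -⟩
      · exact h1
      · exfalso
        have hne : T0 ≠ 0 := Point.some_ne_zero _
        have hTr : act W (rs ℚ τ) T0 = T0 := by
          obtain ⟨h2, h3⟩ := act_some W (rs ℚ τ) hns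
          rw [hT0, h3]
          simp only [map_zero]
        rcases hP0 with rfl | rfl
        · rw [map_zero, zero_add] at h1
          exact hne h1.symm
        · rw [hTr] at h1
          exact hne (left_eq_add.1 h1)
    have h3 : ι t ∈ Set.range (algebraMap K (AlgebraicClosure K)) := by
      rw [InfiniteGalois.mem_range_algebraMap_iff_fixed]
      exact hfix
    obtain ⟨c, hc⟩ := h3
    refine ⟨c, inj ?_⟩
    rw [tow, map_mul, hc, ← ι.commutes, ← hd, map_pow, pow_two]
  · push Not at hP0
    obtain ⟨hP0, hPT⟩ := hP0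
    have m0 : ∀ τ : AlgebraicClosure K ≃ₐ[K] AlgebraicClosure K,
        (act W (rs ℚ τ) P = P ∧ τ (kk b' P) = kk b' P ∧ τ (ι t) = ι t) ∨
        (act W (rs ℚ τ) P = P + T0 ∧ τ (kk b' P) = -kk b' P ∧ τ (ι t) = -ι t) := by
      intro τ
      have h1 := kk_act W (rs ℚ τ) b' P
      rw [hb', (rs ℚ τ).commutes, rs_apply, ← hb'] at h1
      rcases hval τ with ⟨h2, h3⟩ | ⟨h2, h3⟩
      · left
        rw [h2] at h1
        exact ⟨h2, h1.symm, h3⟩
      · right
        rw [h2, kk_tr hT' he1 he2 ⟨hns, rfl⟩ hP0 hPT] at h1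
        exact ⟨h2, h1.symm, h3⟩
    have h11 : (1 : AlgebraicClosure K) ≠ -1 := by
      intro h'
      exact hT'.two (by linear_combination h')
    -- comparison
    have hex : ∃ c : K, ι t = algebraMap K _ c * kk b' P := by
      have : ι t / kk b' P ∈ Set.range (algebraMap K (AlgebraicClosure K)) := by
        rw [InfiniteGalois.mem_range_algebraMap_iff_fixed]
        intro τ
        rw [map_div₀]
        rcases m0 τ with ⟨-, h2, h3⟩ | ⟨-, h2, h3⟩
        · rw [h2, h3]
        · rw [h2, h3, neg_div_neg_eq]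
      obtain ⟨c, hc⟩ := this
      exact ⟨c, by rw [hc, div_mul_cancel₀ _ (kk_ne hT' P)]⟩
    obtain ⟨c, hc⟩ := hex
    have w1 : (ι t) ^ 2 = algebraMap ℚ (AlgebraicClosure K) d := by
      rw [← map_pow, hd, ι.commutes]
    rcases P with _ | ⟨x, y, hxy⟩
    · exact absurd rfl hP0
    have hE := hT'.nonsingular.1 hxy
    have hx : x ≠ 0 := by
      rintro rfl
      have hy : y = 0 := by
        rw [zero_mul] at hE
        exact pow_eq_zero_iff (two_ne_zero) |>.1 hE
      subst hy
      exact hPT rfl
    by_cases hy : y = 0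
    · -- the value of the function is the difference of the roots
      right; left
      have hk : kk b' (Point.some x y hxy) = x - b' / x := by simp [kk, hx, hy]
      rw [hk] at hc
      refine ⟨c * algebraMap ℚ K (a ^ 2 - 4 * b), inj ?_⟩
      have h4 : x ^ 2 + a' * x + b' = 0 := by
        have h5 : x * (x ^ 2 + a' * x + b') = 0 := by rw [← hE, hy]; ring
        exact (mul_eq_zero.1 h5).resolve_left hx
      have h5 : (x - b' / x) ^ 2 = a' ^ 2 - 4 * b' := by
        have h6 : x + b' / x = -a' := by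
          field_simp
          linear_combination h4
        have h7 : (x - b' / x) ^ 2 = (x + b' / x) ^ 2 - 4 * b' := by
          field_simp
          ring
        rw [h7, h6]; ring
      rw [map_mul, tow, tow, ← w1, hc, mul_pow, h5, map_mul, map_mul, tow]
      rw [map_sub, map_pow, map_mul, map_ofNat]
      ring
    · right; right
      have hk : kk b' (Point.some x y hxy) = y / x := by simp [kk, hx, hy]
      rw [hk] at hc m0
      -- the coordinates of the image
      have hfx : ∀ τ : AlgebraicClosure K ≃ₐ[K] AlgebraicClosure K,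
          τ (x - b' / x) * τ (y / x) = (x - b' / x) * (y / x) := by
        intro τ
        have hbτ : τ b' = b' := by
          rw [hb', ← tow]
          exact τ.commutes _
        rcases m0 τ with ⟨h1, h2, h3⟩ | ⟨h1, h2, h3⟩
        · obtain ⟨h4, h5⟩ := act_some W (rs ℚ τ) hxy
          rw [h5] at h1
          have h6 : τ x = x := (Point.some.inj h1).1
          rw [map_sub, map_div₀, h2, hbτ, h6]
        · obtain ⟨h4, h5⟩ := act_some W (rs ℚ τ) hxy
          obtain ⟨hQ, hadd⟩ := hT'.add hxy hns hx
          rw [h5, hT0, hadd] at h1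
          have h6 : τ x = ((y - 0) / (x - 0)) ^ 2 - a' - x - 0 := (Point.some.inj h1).1
          have h7 : ((y - 0) / (x - 0)) ^ 2 - a' - x - 0 = b' / x := by
            rw [sub_zero, sub_zero, div_pow, hE]
            field_simp
            ring
          rw [h7] at h6
          have hb0 : b' ≠ 0 := hT'.nb
          rw [map_sub, map_div₀, h2, hbτ, h6]
          field_simp
          ring
      have hX : ∃ X : K, algebraMap K (AlgebraicClosure K) X = (y / x) ^ 2 := by
        have : (y / x) ^ 2 ∈ Set.range (algebraMap K (AlgebraicClosure K)) := by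
          rw [InfiniteGalois.mem_range_algebraMap_iff_fixed]
          intro τ
          rw [map_pow]
          rcases m0 τ with ⟨-, h2, -⟩ | ⟨-, h2, -⟩
          · rw [h2]
          · rw [h2, neg_sq]
        exact this
      have hY : ∃ Y : K, algebraMap K (AlgebraicClosure K) Y = (x - b' / x) * (y / x) := by
        have : (x - b' / x) * (y / x) ∈ Set.range (algebraMap K (AlgebraicClosure K)) := by
          rw [InfiniteGalois.mem_range_algebraMap_iff_fixed]
          intro τ
          rw [map_mul]
          exact hfx τ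
        exact this
      obtain ⟨X, hX⟩ := hX
      obtain ⟨Y, hY⟩ := hY
      refine ⟨X, Y, ?_, ?_, ?_⟩
      · rintro rfl
        rw [map_zero] at hX
        exact pow_ne_zero 2 (div_ne_zero hy hx) hX.symm
      · apply inj
        have e1 : (y / x) ^ 2 = x + a' + b' / x := by
          rw [div_pow, hE]
          field_simp
        rw [map_pow, hY, map_mul, map_add, map_add, map_pow, map_mul, tow, tow, hX, mul_pow, e1]
        rw [map_sub, map_pow, map_mul, map_mul, map_ofNat, map_neg, map_ofNat, ← ha', ← hb']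
        field_simp
        ring
      · refine ⟨X * c, inj ?_⟩
        rw [map_mul, tow, ← w1, hc, map_mul, map_mul, hX]
        ring

end local_part

end Pool.Agent.Y695
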