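import Pool.Agent.Y695.Per1
import Pool.Agent.Y695.Rec4

/-!
The modular symbol of the form of level `20`.
-/

set_option autoImplicit false
set_option linter.all false

open Filter Topology MeasureTheory Set

namespace Pool.Agent.Y695

open Pool.Agent.W97.TW
open Pool.Agent.W97.V20
open Pool.Agent.W97.MT (qq qq_ne norm_qq norm_qq_lt iI iI_pos iI_eventually line_im line_re
  tendsto_qq)

lemma exists_lim (x : ℚ) : ∃ L, Lim x L := by
  obtain ⟨n, ⟨L, m, hL, -, -⟩, -⟩ := hdesc CP closedC x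
  exact ⟨L, hL⟩

lemma J_T (x : ℚ) : J (x + 1) = -J x := by
  obtain ⟨L, hL⟩ := exists_lim x
  obtain ⟨CT, hT⟩ := mv_T.exists_const
  have zT : CT = 0 := by
    have h := (F_tendsto.comp (f := fun w : ℂ => w + 1) (x := iI) ?_)
    · have h3 : Tendsto (fun w => -1 * F w + CT) iI (𝓝 (-1 * 0 + CT)) :=
        (F_tendsto.const_mul _).add_const _
      have h4 := tendsto_nhds_unique (h3.congr' ?_) h
      · simpa using h4
      · filter_upwards [iI_pos] with w hw
        have := hT w hw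
        simp only [Function.comp_apply]
        rw [← this]
        congr 1
        push_cast
        ring
    · unfold iI
      rw [tendsto_comap_iff]
      have e : Complex.im ∘ (fun w : ℂ => w + 1) = Complex.im := by ext w; simp
      rw [e]
      exact tendsto_comap
  have h := lim_move mv_T hT hL (by norm_num)
  have e : (((1 : ℤ) : ℚ) * x + ((1 : ℤ) : ℚ)) / (((0 : ℤ) : ℚ) * x + ((1 : ℤ) : ℚ)) = x + 1 := by
    push_cast; ring
  rw [e] at h
  rw [J_eq h, J_eq hL, zT]
  ring

lemma kap_even4 : ∀ k a b n : ZMod 4, k * n - (2 * a) * (5 * (2 * b)) = 1 →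
    kap k (2 * a) (5 * (2 * b)) n + kap k (5 * (2 * a)) (2 * b) n = 0 := by
  decide

/-- the elements of `Γ_0(20)` conjugated by `z ↦ 2z` -/
lemma mv_even {K a b N : ℤ} (h : K * N - (2 * a) * (5 * (2 * b)) = 1) :
    Mv K (2 * a) (5 * (2 * b)) N 1 where
  det := by rw [h]; norm_num
  eps := Or.inl rfl
  gg' := fun w hw => by
    have h1 := gg_gamma h hw
    have h0 := (G5_gamma h hw).2.1
    have h2 := (phases5 h).2
    have h4 := kap_even4 K a b N (by exact_mod_cast congrArg (Int.cast : ℤ → ZMod 4) h)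
    have h3 : (12 : ℤ) ∣ kap K (2 * a) (5 * (2 * b)) N + kap K (5 * (2 * a)) (2 * b) N := by
      have h5 : ((kap K (2 * a) (5 * (2 * b)) N + kap K (5 * (2 * a)) (2 * b) N : ℤ) : ZMod 4) = 0 := by
        push_cast [cast_kap]
        exact h4
      have h6 := (ZMod.intCast_zmod_eq_zero_iff_dvd _ 4).1 h5
      omega
    rw [h]
    push_cast at h1 h0 ⊢
    rw [h1, ze_dvd h3]
    generalize (5 * (2 * (b : ℂ)) * w + N : ℂ) = c at h0
    field_simp

/-- **the functional equation of the modular symbol** -/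
theorem J_fricke (N a b : ℕ) (hN : N ≠ 0) (h : N ∣ 20 * (a * b) + 1) :
    J (2 * ((a : ℚ) / N)) = J (2 * ((b : ℚ) / N)) := by
  obtain ⟨K, hK⟩ := h
  have hKZ : (20 : ℤ) * (a * b) + 1 = N * K := by exact_mod_cast hK
  have hNZ : (N : ℤ) ≠ 0 := by exact_mod_cast hN
  have key : ∀ a b : ℕ, (20 : ℤ) * (a * b) + 1 = N * K → Mv (10 * a) (-K) (5 * N) (-(10 * b)) (-1) := by
    intro a b h
    have h1 := mv_even (K := K) (a := a) (b := b) (N := N) (by linear_combination -h)
    have h2 := (mv_comp h1 mv_W).1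
    have e1 : (K : ℤ) * 0 + 2 * a * 5 = 10 * a := by ring
    have e2 : (K : ℤ) * -1 + 2 * a * 0 = -K := by ring
    have e3 : (5 * (2 * b) : ℤ) * 0 + N * 5 = 5 * N := by ring
    have e4 : (5 * (2 * b) : ℤ) * -1 + N * 0 = -(10 * b) := by ring
    rw [e1, e2, e3, e4, one_mul] at h2
    exact h2
  have m1 := key a b hKZ
  have m2 := key b a (by rw [← hKZ]; ring)
  obtain ⟨C, hC⟩ := m1.exists_const
  obtain ⟨C', hC'⟩ := m2.exists_const
  have l1 := lim_base m1 (by positivity) hC
  have l2 := lim_base m2 (by positivity) hC'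
  have hNQ : (N : ℚ) ≠ 0 := by exact_mod_cast hN
  have e1 : (((10 * a : ℤ) : ℚ)) / ((5 * N : ℤ) : ℚ) = 2 * ((a : ℚ) / N) := by
    push_cast
    field_simp
    ring
  have e2 : (((10 * b : ℤ) : ℚ)) / ((5 * N : ℤ) : ℚ) = 2 * ((b : ℚ) / N) := by
    push_cast
    field_simp
    ring
  rw [e1] at l1
  rw [e2] at l2
  rw [J_eq l1, J_eq l2]
  -- the two constants agree
  have hw : 0 < (Complex.I).im := by simp
  have i1 := mv_im m1.det hw
  have h3 := hC Complex.I hw
  have h4 := hC' _ i1.2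
  have h5 : (((10 * b : ℤ) : ℂ) * ((((10 * a : ℤ) : ℂ) * Complex.I + ((-K : ℤ) : ℂ)) /
      (((5 * N : ℤ) : ℂ) * Complex.I + ((-(10 * b) : ℤ) : ℂ))) + ((-K : ℤ) : ℂ)) /
      (((5 * N : ℤ) : ℂ) * ((((10 * a : ℤ) : ℂ) * Complex.I + ((-K : ℤ) : ℂ)) /
      (((5 * N : ℤ) : ℂ) * Complex.I + ((-(10 * b) : ℤ) : ℂ))) + ((-(10 * a) : ℤ) : ℂ)) =
      Complex.I := by
    have h0 := i1.1
    have h0' := (mv_im m2.det i1.2).1
    rw [div_eq_iff h0']
    have hKC : (20 : ℂ) * (a * b) + 1 = N * K := by exact_mod_cast hKZ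
    set d := (((5 * N : ℤ) : ℂ) * Complex.I + ((-(10 * b) : ℤ) : ℂ)) with hd
    have e3 : ∀ u v x : ℂ, u * (x / d) + v = (u * x + v * d) / d := fun u v x => by
      field_simp
    rw [e3, e3, mul_div_assoc', div_left_inj' h0, hd]
    push_cast
    ring
  rw [h5, h3] at h4
  linear_combination h4

lemma den_two {N a : ℕ} (hN : N.Coprime 10) (ha : a.Coprime N) :
    ((2 * ((a : ℚ) / N) : ℚ)).den = N := by
  have hN0 : N ≠ 0 := by
    rintro rfl
    norm_num at hN
  have e : (2 * ((a : ℚ) / N) : ℚ) = ((2 * a : ℤ) : ℚ) / ((N : ℤ) : ℚ) := by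
    push_cast; ring
  rw [e]
  have h2 : Nat.Coprime 2 N := by
    rw [Nat.coprime_comm]
    exact Nat.Coprime.coprime_dvd_right (by norm_num) hN
  have hc : (2 * (a : ℤ)).natAbs.Coprime N := by
    have : (2 * (a : ℤ)).natAbs = 2 * a := by
      rw [Int.natAbs_mul, Int.natAbs_natCast]; rfl
    rw [this]
    exact Nat.Coprime.mul_left h2 ha
  have := Rat.den_div_eq_of_coprime (a := 2 * (a : ℤ)) (b := (N : ℤ))
    (by exact_mod_cast Nat.pos_of_ne_zero hN0) (by simpa using hc)
  exact_mod_cast this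

/-- **the modular symbol has the required properties** -/
theorem sym : Sym (fun x => J (2 * x)) A J0 I1 where
  J0_pos := J0_pos
  I1_pos := by
    exact I1_pos
  zero := by
    show J (2 * 0) = J0
    rw [mul_zero, J_zero]
    rfl
  per := fun x => by
    show J (2 * (x + 1)) = J (2 * x)
    have e : 2 * (x + 1) = (2 * x + 1) + 1 := by ring
    rw [e, J_T, J_T, neg_neg]
  conj := fun x => by
    show J (2 * (-x)) = _
    have e : 2 * (-x) = -(2 * x) := by ring
    rw [e, J_conj]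
  hecke := fun q hq h2 h5 x => by
    have h1 := hhint 20 q f20 (A q : ℂ) hq int_f20 (hecke_f20 hq).1 x
    rw [if_neg (dvd_20 hq h2 h5), prim_f20] at h1
    rw [h1]
    congr 1
    · rw [prim_f20]
    · refine Finset.sum_congr rfl fun b _ => ?_
      rw [prim_f20]
  vals := fun N a hN ha => by
    have hd := den_two hN ha
    obtain ⟨n, m, h1, h2, h3⟩ := values (2 * ((a : ℚ) / N)) (by
      rw [hd]
      intro h5
      have h6 : 5 ∣ N := by exact_mod_cast h5
      have h7 := Nat.dvd_gcd h6 (by norm_num : 5 ∣ 10)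
      rw [hN] at h7
      norm_num at h7)
    rw [hd] at h3
    exact ⟨n, m, h1, h2, h3⟩
  fricke := fun N a b hN h => J_fricke N a b hN h

end Pool.Agent.Y695
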