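import Pool.Agent.Y695.Defs
import Pool.Agent.Y695.Loc

/-!
Tamagawa numbers of the curves `y² = x³ - 11 D x² - D² x`.
-/

set_option autoImplicit false
set_option linter.all false

open WeierstrassCurve WeierstrassCurve.Affine
open scoped Classical

namespace Pool.Agent.Y695

/-- the curve over a field -/
lemma isT_ED (D : ℤ) (hD : D ≠ 0) (K : Type) [Field K] [CharZero K] :
    IsT ((ED D).map (Int.castRingHom K)).toAffine (-11 * (D : K)) (-(D : K) ^ 2) := by
  have hD0 : (D : K) ≠ 0 := by exact_mod_cast hD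
  refine ⟨?_, ?_, ?_, ?_, ?_, two_ne_zero, ?_, ?_⟩
  · show (Int.castRingHom K) 0 = 0
    exact map_zero _
  · show (Int.castRingHom K) (-11 * D) = _
    rw [eq_intCast]; push_cast; ring
  · show (Int.castRingHom K) 0 = 0
    exact map_zero _
  · show (Int.castRingHom K) (-D ^ 2) = _
    rw [eq_intCast]; push_cast; ring
  · show (Int.castRingHom K) 0 = 0
    exact map_zero _
  · exact neg_ne_zero.2 (pow_ne_zero 2 hD0)
  · have : (-11 * (D : K)) ^ 2 - 4 * (-(D : K) ^ 2) = 125 * (D : K) ^ 2 := by ring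
    rw [this]
    exact mul_ne_zero (by norm_num) (pow_ne_zero 2 hD0)

section group

variable {G : Type*} [AddCommGroup G]

/-- a group which is cyclic of order one or three modulo a subgroup -/
lemma odd_index (S : Set G) (h1 : ∀ P Q, P ∉ S → Q ∉ S → P - Q ∈ S ∨ P + Q ∈ S)
    (h3 : ∀ P, P ∉ S → P + P + P ∈ S) : Odd (AddSubgroup.closure S).index := by
  set H := AddSubgroup.closure S with hH
  have hS : ∀ x ∈ S, x ∈ H := fun x hx => AddSubgroup.subset_closure hx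
  by_cases hall : ∀ P, P ∈ S
  · have : H = ⊤ := by
      rw [eq_top_iff]
      intro x _
      exact hS x (hall x)
    rw [this, AddSubgroup.index_top]
    exact odd_one
  · push Not at hall
    obtain ⟨P0, hP0⟩ := hall
    -- three classes
    have hthree : ∀ x : G ⧸ H, x + x + x = 0 := by
      intro x
      obtain ⟨P, rfl⟩ := QuotientAddGroup.mk_surjective x
      rw [← QuotientAddGroup.mk_add, ← QuotientAddGroup.mk_add, QuotientAddGroup.eq_zero_iff]
      by_cases hP : P ∈ S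
      · exact H.add_mem (H.add_mem (hS _ hP) (hS _ hP)) (hS _ hP)
      · exact hS _ (h3 P hP)
    have hfin : Finite (G ⧸ H) := by
      have hsub : (Set.univ : Set (G ⧸ H)) ⊆ {0, QuotientAddGroup.mk P0, -QuotientAddGroup.mk P0} := by
        intro x _
        obtain ⟨P, rfl⟩ := QuotientAddGroup.mk_surjective x
        by_cases hP : P ∈ S
        · left
          rw [QuotientAddGroup.eq_zero_iff]
          exact hS _ hP
        · right
          rcases h1 P P0 hP hP0 with h | h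
          · left
            rw [← sub_eq_zero, ← QuotientAddGroup.mk_sub, QuotientAddGroup.eq_zero_iff]
            exact hS _ h
          · right
            rw [Set.mem_singleton_iff, eq_neg_iff_add_eq_zero, ← QuotientAddGroup.mk_add,
              QuotientAddGroup.eq_zero_iff]
            exact hS _ h
      exact Set.finite_univ_iff.1 ((Set.toFinite _).subset hsub)
    rw [AddSubgroup.index, ← Nat.not_even_iff_odd]
    intro heven
    obtain ⟨x, hx⟩ := exists_prime_addOrderOf_dvd_card' (G := G ⧸ H) 2 heven.two_dvd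
    have h6 : x + x = 0 := by
      have := addOrderOf_nsmul_eq_zero x
      rw [hx, two_nsmul] at this
      exact this
    have h7 := hthree x
    rw [h6, zero_add] at h7
    rw [h7, addOrderOf_zero] at hx
    norm_num at hx

/-- a subgroup of index two -/
lemma index_two (S : Set G) (N : AddSubgroup G) (hSN : ∀ x ∈ S, x ∈ N) (T : G) (hT : T ∉ N)
    (h : ∀ P, P ∉ S → P + T ∈ S) : (AddSubgroup.closure S).index = 2 := by
  set H := AddSubgroup.closure S with hH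
  have hS : ∀ x ∈ S, x ∈ H := fun x hx => AddSubgroup.subset_closure hx
  have hHN : H ≤ N := (AddSubgroup.closure_le N).2 hSN
  rw [AddSubgroup.index_eq_two_iff]
  refine ⟨T, fun b => ?_⟩
  by_cases hb : b ∈ H
  · right
    refine ⟨hb, fun h1 => hT ?_⟩
    have : T = (b + T) - b := by abel
    rw [this]
    exact hHN (H.sub_mem h1 hb)
  · left
    exact ⟨hS _ (h b fun h1 => hb (hS _ h1)), hb⟩

end group

section padic

variable {p : ℕ} [hp : Fact p.Prime]

lemma mem_nsRed {D : ℤ} {x y : ℚ_[p]}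
    (h : ((ED D).map (Int.castRingHom ℚ_[p])).toAffine.Nonsingular x y) :
    Point.some x y h ∈ nsRed (ED D) p ↔ 1 < ‖x‖ ∨
      ‖3 * x ^ 2 - 22 * D * x - (D : ℚ_[p]) ^ 2‖ = 1 ∨ ‖2 * y‖ = 1 := by
  show (1 < ‖x‖ ∨ ‖(((ED D).a₁ : ℤ) : ℚ_[p]) * y - (3 * x ^ 2 + 2 * (((ED D).a₂ : ℤ) : ℚ_[p]) * x +
    (((ED D).a₄ : ℤ) : ℚ_[p]))‖ = 1 ∨ ‖2 * y + (((ED D).a₁ : ℤ) : ℚ_[p]) * x +
    (((ED D).a₃ : ℤ) : ℚ_[p])‖ = 1) ↔ _
  have e1 : (((ED D).a₁ : ℤ) : ℚ_[p]) * y - (3 * x ^ 2 + 2 * (((ED D).a₂ : ℤ) : ℚ_[p]) * x +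
    (((ED D).a₄ : ℤ) : ℚ_[p])) = -(3 * x ^ 2 - 22 * D * x - (D : ℚ_[p]) ^ 2) := by
    simp only [ED]
    push_cast
    ring
  have e2 : 2 * y + (((ED D).a₁ : ℤ) : ℚ_[p]) * x + (((ED D).a₃ : ℤ) : ℚ_[p]) = 2 * y := by
    simp only [ED]
    push_cast
    ring
  rw [e1, e2, norm_neg]

lemma zero_mem_nsRed (D : ℤ) :
    (0 : ((ED D).map (Int.castRingHom ℚ_[p])).toAffine.Point) ∈ nsRed (ED D) p := trivial

lemma neg_pt {D : ℤ} (hD : D ≠ 0) {x y : ℚ_[p]}
    (h : ((ED D).map (Int.castRingHom ℚ_[p])).toAffine.Nonsingular x y) :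
    ∃ h', -(Point.some x y h) = Point.some x (-y) h' := by
  have hT := isT_ED D hD ℚ_[p]
  refine ⟨hT.nonsingular.2 (by rw [neg_sq]; exact hT.nonsingular.1 h), ?_⟩
  rw [neg_eq_iff_add_eq_zero]
  exact hT.add_neg _ _ (by ring)

lemma norm_le_int {x y : ℚ_[p]} (hx : ‖x‖ ≤ 1) (hy : ‖y‖ ≤ 1) : ‖x + y‖ ≤ 1 :=
  (Padic.nonarchimedean _ _).trans (max_le hx hy)

lemma norm_sub_le' {x y : ℚ_[p]} {r : ℝ} (hx : ‖x‖ ≤ r) (hy : ‖y‖ ≤ r) : ‖x - y‖ ≤ r := by
  rw [sub_eq_add_neg]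
  exact (Padic.nonarchimedean _ _).trans (max_le hx (by rw [norm_neg]; exact hy))

lemma norm_add_le'' {x y : ℚ_[p]} {r : ℝ} (hx : ‖x‖ ≤ r) (hy : ‖y‖ ≤ r) : ‖x + y‖ ≤ r :=
  (Padic.nonarchimedean _ _).trans (max_le hx hy)

lemma norm_add_eq {x y : ℚ_[p]} (h : ‖y‖ < ‖x‖) : ‖x + y‖ = ‖x‖ := by
  rw [Padic.add_eq_max_of_ne h.ne', max_eq_left h.le]

lemma norm_intc (n : ℤ) : ‖(n : ℚ_[p])‖ ≤ 1 := by
  have := (n : ℤ_[p]).2
  simpa using this

lemma norm_natc (n : ℕ) : ‖(n : ℚ_[p])‖ ≤ 1 := by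
  have := norm_intc (p := p) n
  exact_mod_cast this

lemma norm_int_unit {n : ℤ} (h : ¬ (p : ℤ) ∣ n) : ‖(n : ℚ_[p])‖ = 1 := by
  have h1 := norm_unit_of_zmod (p := p) (n : ℤ_[p]) (by
    rw [map_intCast]
    intro h2
    exact h ((ZMod.intCast_zmod_eq_zero_iff_dvd _ _).1 h2))
  push_cast at h1
  exact h1

/-- the norm is a power of `p` -/
lemma norm_lt_one_le {x : ℚ_[p]} (h : ‖x‖ < 1) : ‖x‖ ≤ (p : ℝ)⁻¹ := by
  have := (Padic.norm_le_pow_iff_norm_lt_pow_add_one x (-1)).2 (by simpa using h)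
  simpa using this

lemma norm_le_of_lt {x : ℚ_[p]} (n : ℤ) (h : ‖x‖ < (p : ℝ) ^ n) : ‖x‖ ≤ (p : ℝ) ^ (n - 1) := by
  apply (Padic.norm_le_pow_iff_norm_lt_pow_add_one x (n - 1)).2
  rwa [sub_add_cancel]

end padic

end Pool.Agent.Y695
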