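import Pool.Agent.Y695.Tam

/-!
The Tamagawa numbers at the primes which divide `D`.
-/

set_option autoImplicit false
set_option linter.all false

open WeierstrassCurve WeierstrassCurve.Affine
open scoped Classical

namespace Pool.Agent.Y695

variable {p : ℕ} [hp : Fact p.Prime]

/-- units congruent to one are squares -/
lemma sq_one (h2 : p ≠ 2) {u : ℚ_[p]} (hu : ‖u - 1‖ < 1) : IsSquare u := by
  have hu1 : ‖u‖ ≤ 1 := by
    have : u = (u - 1) + 1 := by ring
    rw [this]
    exact norm_le_int hu.le (by rw [norm_one])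
  set z : ℤ_[p] := ⟨u, hu1⟩ with hz
  let F : Polynomial ℤ_[p] := Polynomial.X ^ 2 - Polynomial.C z
  have h1 : F.aeval (1 : ℤ_[p]) = 1 - z := by
    simp [F]
  have h3 : F.derivative.aeval (1 : ℤ_[p]) = 2 := by
    simp [F, one_add_one_eq_two]
  have h4 : ‖(2 : ℤ_[p])‖ = 1 := by
    have h5 := norm_int_unit (p := p) (n := 2) (by
      intro h
      have h6 : p ∣ 2 := by exact_mod_cast h
      exact h2 ((Nat.prime_dvd_prime_iff_eq hp.out Nat.prime_two).1 h6))
    rw [PadicInt.norm_def]
    exact_mod_cast h5
  obtain ⟨w, hw, -⟩ := hensels_lemma (p := p) (R := ℤ_[p]) (F := F) (a := 1) (by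
    rw [h1, h3, h4, one_pow, PadicInt.norm_def]
    push_cast
    rw [norm_sub_rev]
    exact hu)
  refine ⟨w, ?_⟩
  have h5 : w ^ 2 = z := by
    have : F.aeval w = w ^ 2 - z := by simp [F]
    rw [this] at hw
    linear_combination hw
  have h6 := congrArg (fun x : ℤ_[p] => (x : ℚ_[p])) h5
  simp only [PadicInt.coe_pow] at h6
  rw [← pow_two]
  exact h6.symm

/-- `-1` is not a square -/
lemma neg_one_nsq (h1 : ¬ IsSquare (-1 : ZMod p)) : ¬ IsSquare (-1 : ℚ_[p]) := by
  rintro ⟨c, hc⟩
  have hc1 : ‖c‖ ≤ 1 := by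
    have h2 : ‖c‖ * ‖c‖ = 1 := by rw [← norm_mul, ← hc, norm_neg, norm_one]
    nlinarith [norm_nonneg c]
  set z : ℤ_[p] := ⟨c, hc1⟩ with hz
  have h3 : z * z = -1 := by
    apply Subtype.ext
    push_cast
    exact hc.symm
  apply h1
  refine ⟨PadicInt.toZMod z, ?_⟩
  rw [← map_mul, h3, map_neg, map_one]

/-- **the Tamagawa number at a prime divisor of `D` is two** -/
theorem tam_q {D : ℤ} (hD : Squarefree D) (hpD : (p : ℤ) ∣ D) (h2 : p ≠ 2) (h5' : p ≠ 5)
    (h5 : ¬ IsSquare (5 : ZMod p)) (h1 : ¬ IsSquare (-1 : ZMod p)) : tam (ED D) p = 2 := by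
  have hD0 := hD.ne_zero
  have hDp : (D : ℚ_[p]) ≠ 0 := by exact_mod_cast hD0
  have hT := isT_ED D hD0 ℚ_[p]
  have hvD : ((D : ℚ_[p])).valuation = 1 := val_squarefree hD hpD
  have hp1 : (1 : ℝ) < p := by exact_mod_cast hp.out.one_lt
  have hnD : ‖(D : ℚ_[p])‖ = (p : ℝ)⁻¹ := by
    rw [Padic.norm_eq_zpow_neg_valuation hDp, hvD, zpow_neg_one]
  have hnD1 : ‖(D : ℚ_[p])‖ < 1 := by
    rw [hnD]; exact inv_lt_one_of_one_lt₀ hp1
  have hn2 : ‖(2 : ℚ_[p])‖ = 1 := by
    have := norm_int_unit (p := p) (n := 2) (by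
      intro h
      have h6 : p ∣ 2 := by exact_mod_cast h
      exact h2 ((Nat.prime_dvd_prime_iff_eq hp.out Nat.prime_two).1 h6))
    exact_mod_cast this
  unfold tam
  rw [dif_pos hp.out]
  -- the subgroup of the points with square `x`
  let N : AddSubgroup ((ED D).map (Int.castRingHom ℚ_[p])).toAffine.Point :=
    { carrier := {P | IsSquare (al (-(D : ℚ_[p]) ^ 2) P)}
      zero_mem' := by
        show IsSquare (al _ 0)
        rw [al_zero]
        exact IsSquare.one
      add_mem' := by
        intro P Q hP hQ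
        have h3 := al_mul hT P Q
        have hP' : IsSquare (al (-(D : ℚ_[p]) ^ 2) P) := hP
        have hQ' : IsSquare (al (-(D : ℚ_[p]) ^ 2) Q) := hQ
        show IsSquare (al (-(D : ℚ_[p]) ^ 2) (P + Q))
        have h4 : al (-(D : ℚ_[p]) ^ 2) P * al (-(D : ℚ_[p]) ^ 2) Q ≠ 0 :=
          mul_ne_zero (al_ne hT P) (al_ne hT Q)
        have h6 := h3.div (hP'.mul hQ')
        rwa [mul_div_cancel_left₀ _ h4] at h6
      neg_mem' := by
        intro P hP
        have h3 := al_mul hT P (-P)
        have hP' : IsSquare (al (-(D : ℚ_[p]) ^ 2) P) := hP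
        rw [add_neg_cancel, al_zero, mul_one] at h3
        show IsSquare (al (-(D : ℚ_[p]) ^ 2) (-P))
        have h6 := h3.div hP'
        rwa [mul_div_cancel_left₀ _ (al_ne hT P)] at h6 }
  refine index_two (nsRed (ED D) p) N ?_ (Point.some 0 0 hT.ns0) ?_ ?_
  · -- nonsingular reduction implies that `x` is a square
    intro P hP
    rcases P with _ | ⟨x, y, hxy⟩
    · exact N.zero_mem
    · rw [mem_nsRed] at hP
      have hE := hT.nonsingular.1 hxy
      have hx1 : 1 ≤ ‖x‖ := by
        by_contra hlt
        push Not at hlt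
        rcases hP with h3 | h3 | h3
        · linarith
        · have h4 : ‖3 * x ^ 2 - 22 * D * x - (D : ℚ_[p]) ^ 2‖ < 1 := by
            have e1 : 3 * x ^ 2 - 22 * D * x - (D : ℚ_[p]) ^ 2 =
              x * (3 * x - 22 * D) - D * D := by ring
            rw [e1]
            have e2 : ‖x * (3 * x - 22 * D)‖ ≤ ‖x‖ := by
              rw [norm_mul]
              apply mul_le_of_le_one_right (norm_nonneg _)
              apply norm_sub_le'
              · rw [norm_mul]
                exact mul_le_one₀ (norm_natc 3) (norm_nonneg _) hlt.le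
              · rw [norm_mul]
                exact mul_le_one₀ (norm_natc 22) (norm_nonneg _) hnD1.le
            have e3 : ‖(D : ℚ_[p]) * D‖ ≤ ‖(D : ℚ_[p])‖ := by
              rw [norm_mul]
              exact mul_le_of_le_one_right (norm_nonneg _) hnD1.le
            exact lt_of_le_of_lt (norm_sub_le' (r := max ‖x‖ ‖(D : ℚ_[p])‖)
              (e2.trans (le_max_left _ _)) (e3.trans (le_max_right _ _))) (max_lt hlt hnD1)
          linarith
        · rw [norm_mul, hn2, one_mul] at h3
          have h4 : ‖y ^ 2‖ < 1 := by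
            rw [hE, norm_mul]
            have h5 : ‖x ^ 2 + -11 * (D : ℚ_[p]) * x + -(D : ℚ_[p]) ^ 2‖ ≤ 1 := by
              apply norm_add_le''
              · apply norm_add_le''
                · rw [norm_pow]; exact pow_le_one₀ (norm_nonneg _) hlt.le
                · rw [norm_mul, norm_mul, norm_neg]
                  exact mul_le_one₀ (mul_le_one₀ (norm_natc 11) (norm_nonneg _) hnD1.le)
                    (norm_nonneg _) hlt.le
              · rw [norm_neg, norm_pow]; exact pow_le_one₀ (norm_nonneg _) hnD1.le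
            calc ‖x‖ * _ ≤ ‖x‖ * 1 := mul_le_mul_of_nonneg_left h5 (norm_nonneg _)
              _ < 1 := by rw [mul_one]; exact hlt
          rw [norm_pow, h3] at h4
          norm_num at h4
      have hx0 : x ≠ 0 := by
        rintro rfl
        rw [norm_zero] at hx1
        norm_num at hx1
      show IsSquare (al (-(D : ℚ_[p]) ^ 2) (Point.some x y hxy))
      rw [al_some _ hxy hx0]
      set w := (D : ℚ_[p]) / x with hw
      have hw1 : ‖w‖ < 1 := by
        rw [hw, norm_div, div_lt_one (by linarith)]
        linarith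
      obtain ⟨s, hs⟩ := sq_one h2 (u := 1 - 11 * w - w ^ 2) (by
        have e1 : 1 - 11 * w - w ^ 2 - 1 = -(w * (11 + w)) := by ring
        rw [e1, norm_neg, norm_mul]
        calc ‖w‖ * ‖11 + w‖ ≤ ‖w‖ * 1 :=
              mul_le_mul_of_nonneg_left (norm_le_int (norm_natc 11) hw1.le) (norm_nonneg _)
          _ < 1 := by rw [mul_one]; exact hw1)
      have hs0 : s ≠ 0 := by
        rintro rfl
        have h3 : ‖(1 : ℚ_[p]) - 11 * w - w ^ 2‖ = 1 := by
          have e1 : 1 - 11 * w - w ^ 2 = 1 + -(w * (11 + w)) := by ring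
          rw [e1, norm_add_eq, norm_one]
          rw [norm_one, norm_neg, norm_mul]
          calc ‖w‖ * ‖11 + w‖ ≤ ‖w‖ * 1 :=
                mul_le_mul_of_nonneg_left (norm_le_int (norm_natc 11) hw1.le) (norm_nonneg _)
            _ < 1 := by rw [mul_one]; exact hw1
        rw [hs, mul_zero, norm_zero] at h3
        norm_num at h3
      have h3 : y ^ 2 = x ^ 3 * (s * s) := by
        rw [← hs, hE, hw]
        field_simp
        ring
      refine ⟨y / (x * s), ?_⟩
      have h4 : y / (x * s) * (y / (x * s)) = y ^ 2 / (x * s) ^ 2 := by ring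
      rw [h4, h3]
      field_simp
  · -- the point of order two
    intro h3
    have h4 : IsSquare (al (-(D : ℚ_[p]) ^ 2) (Point.some 0 0 hT.ns0)) := h3
    rw [al_some0] at h4
    apply neg_one_nsq h1
    obtain ⟨c, hc⟩ := h4
    refine ⟨c / D, ?_⟩
    field_simp
    linear_combination hc
  · intro P hP
    rcases P with _ | ⟨x, y, hxy⟩
    · exact absurd (zero_mem_nsRed D) hP
    · have hE := hT.nonsingular.1 hxy
      rw [mem_nsRed] at hP
      push Not at hP
      obtain ⟨hx1, hP2, hP3⟩ := hP
      rw [norm_mul, hn2, one_mul] at hP3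
      by_cases hx0 : x = 0
      · subst hx0
        have hy : y = 0 := by
          rw [zero_mul] at hE
          exact pow_eq_zero_iff (two_ne_zero) |>.1 hE
        subst hy
        rw [(hT.dbl_zero_iff hxy).2 rfl]
        exact zero_mem_nsRed D
      · obtain ⟨hQ, hadd⟩ := hT.add hxy hT.ns0 hx0
        rw [hadd, mem_nsRed]
        have e2 : ((y - 0) / (x - 0)) ^ 2 - -11 * (D : ℚ_[p]) - x - 0 = -(D : ℚ_[p]) ^ 2 / x := by
          rw [sub_zero, sub_zero, div_pow, hE]
          field_simp
          ring
        have hE2 := hT.nonsingular.1 hQ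
        rw [e2] at hE2 ⊢
        set X := -(D : ℚ_[p]) ^ 2 / x with hX
        -- `x` is divisible by `p²`
        have hx2 : ‖x‖ ≤ (p : ℝ)⁻¹ ^ 2 := by
          have hlt : ‖x‖ < 1 := by
            refine lt_of_le_of_ne hx1 fun h3 => hP3 ?_
            have h4 : ‖y ^ 2‖ = 1 := by
              have e3 : x ^ 2 + -11 * (D : ℚ_[p]) * x + -(D : ℚ_[p]) ^ 2 =
                x ^ 2 + -(D * (11 * x + D)) := by ring
              rw [hE, norm_mul, h3, one_mul, e3, norm_add_eq, norm_pow, h3, one_pow]
              rw [norm_pow, h3, one_pow, norm_neg, norm_mul]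
              calc ‖(D : ℚ_[p])‖ * ‖11 * x + D‖ ≤ ‖(D : ℚ_[p])‖ * 1 := by
                    apply mul_le_mul_of_nonneg_left _ (norm_nonneg _)
                    apply norm_le_int _ hnD1.le
                    rw [norm_mul, h3, mul_one]
                    exact norm_natc 11
                _ < 1 := by rw [mul_one]; exact hnD1
            rw [norm_pow] at h4
            nlinarith [norm_nonneg y]
          have h3 : ‖x‖ ≤ (p : ℝ)⁻¹ := norm_lt_one_le hlt
          by_contra h4
          push Not at h4
          -- then the valuation is one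
          have hxn : ‖x‖ = (p : ℝ)⁻¹ := by
            apply le_antisymm h3
            have h6 := norm_le_of_lt (p := p) (x := x⁻¹) 2 (by
              rw [norm_inv]
              have h7 : (0 : ℝ) < (p : ℝ)⁻¹ ^ 2 := by positivity
              have h8 := inv_strictAnti₀ h7 h4
              rw [inv_pow, inv_inv] at h8
              exact_mod_cast h8)
            norm_num at h6
            have hxp : 0 < ‖x‖ := norm_pos_iff.2 hx0
            exact inv_le_of_inv_le₀ hxp h6
          have hvx : x.valuation = 1 := by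
            have h6 := val_of_norm hx0 hDp (by rw [hxn, hnD])
            rw [h6, hvD]
          set x' := x / D with hx'
          have hx'0 : x' ≠ 0 := div_ne_zero hx0 hDp
          have hx'n : ‖x'‖ = 1 := by
            rw [hx', norm_div, hxn, hnD, div_self (by positivity)]
          have hun := norm_poly_one (-11) (-1) x' hx'n.le (no_root1 h5' h5)
          have hne : x' ^ 2 + ((-11 : ℤ) : ℚ_[p]) * x' + ((-1 : ℤ) : ℚ_[p]) ≠ 0 := by
            intro h0
            rw [h0, norm_zero] at hun
            norm_num at hun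
          have hy2 : y ^ 2 = x * (D ^ 2 * (x' ^ 2 + ((-11 : ℤ) : ℚ_[p]) * x' + ((-1 : ℤ) : ℚ_[p]))) := by
            rw [hE, hx']
            push_cast
            field_simp
          have h6 := even_of_sq' (mul_ne_zero hx0 (mul_ne_zero (pow_ne_zero 2 hDp) hne)) hy2
          rw [Padic.valuation_mul hx0 (mul_ne_zero (pow_ne_zero 2 hDp) hne),
            Padic.valuation_mul (pow_ne_zero 2 hDp) hne, Padic.valuation_pow, hvx, hvD,
            val_of_norm hne one_ne_zero (by rw [hun, norm_one]), Padic.valuation_one] at h6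
          exact absurd h6 (by decide)
        have hX1 : 1 ≤ ‖X‖ := by
          rw [hX, norm_div, norm_neg, norm_pow, hnD, one_le_div (norm_pos_iff.2 hx0)]
          exact hx2
        rcases hX1.lt_or_eq with h3 | h3
        · exact Or.inl h3
        · right; right
          rw [norm_mul, hn2, one_mul]
          have h4 : ‖X ^ 2 + -11 * (D : ℚ_[p]) * X + -(D : ℚ_[p]) ^ 2‖ = 1 := by
            have e3 : X ^ 2 + -11 * (D : ℚ_[p]) * X + -(D : ℚ_[p]) ^ 2 =
              X ^ 2 + -(D * (11 * X + D)) := by ring
            rw [e3, norm_add_eq, norm_pow, ← h3, one_pow]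
            rw [norm_pow, ← h3, one_pow, norm_neg, norm_mul]
            calc ‖(D : ℚ_[p])‖ * ‖11 * X + D‖ ≤ ‖(D : ℚ_[p])‖ * 1 := by
                  apply mul_le_mul_of_nonneg_left _ (norm_nonneg _)
                  apply norm_le_int _ hnD1.le
                  rw [norm_mul, ← h3, mul_one]
                  exact norm_natc 11
              _ < 1 := by rw [mul_one]; exact hnD1
          have h6 := congrArg norm hE2
          rw [norm_mul, h4, ← h3, one_mul, norm_pow] at h6
          exact (pow_eq_one_iff_of_nonneg (norm_nonneg _) two_ne_zero).1 h6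

end Pool.Agent.Y695
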