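import Pool.Agent.W97.V20.Fin

/-!
The complex values of the integrals of `η(w)² η(5w)²` at the rational points.
-/

set_option autoImplicit false
set_option linter.all false

open Filter Topology MeasureTheory Set

namespace Pool.Agent.Y695

open Pool.Agent.W97.TW
open Pool.Agent.W97.V20
open Pool.Agent.W97.MT (qq qq_ne norm_qq norm_qq_lt iI iI_pos iI_eventually line_im line_re
  tendsto_qq)

lemma den_aux {a b c d : ℤ} (hd : ¬ (5 : ℤ) ∣ d) {r : ℚ} (hr : ¬ (5 : ℤ) ∣ r.den)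
    (h0 : (5 * c : ℚ) * r + d ≠ 0) : ¬ (5 : ℤ) ∣ ((a * r + b : ℚ) / ((5 * c : ℚ) * r + d)).den := by
  have hden : (r.den : ℚ) ≠ 0 := by exact_mod_cast r.den_nz
  have hnum : r = r.num / r.den := (Rat.num_div_den r).symm
  have e : (a * r + b : ℚ) / ((5 * c : ℚ) * r + d) =
      ((a * r.num + b * r.den : ℤ) : ℚ) / ((5 * c * r.num + d * r.den : ℤ) : ℚ) := by
    have e1 : (a * r + b : ℚ) = (a * r.num + b * r.den) / r.den := by
      rw [eq_div_iff hden, add_mul, mul_assoc, Rat.mul_den_eq_num]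
    have e2 : ((5 * c : ℚ) * r + d) = (5 * c * r.num + d * r.den) / r.den := by
      rw [eq_div_iff hden, add_mul, mul_assoc, Rat.mul_den_eq_num]
    rw [e1, e2, div_div_div_cancel_right₀ hden]
    push_cast
    rfl
  intro h5
  rw [e] at h5
  have h1 := Rat.den_dvd (a * r.num + b * r.den) (5 * c * r.num + d * r.den)
  rw [Rat.divInt_eq_div] at h1
  have h2 := h5.trans h1
  have h3 : (5 : ℤ) ∣ d * r.den := by
    have : d * r.den = (5 * c * r.num + d * r.den) - 5 * (c * r.num) := by ring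
    rw [this]
    exact dvd_sub h2 (Dvd.intro _ rfl)
  have h5p : Prime (5 : ℤ) := by norm_num
  rcases h5p.dvd_or_dvd h3 with h | h
  · exact hd h
  · exact hr h

lemma den_iff {a b c d : ℤ} (h : a * d - b * (5 * c) = 1) {r : ℚ}
    (h0 : (5 * c : ℚ) * r + d ≠ 0) :
    (5 : ℤ) ∣ ((a * r + b : ℚ) / ((5 * c : ℚ) * r + d)).den ↔ (5 : ℤ) ∣ r.den := by
  have hd : ¬ (5 : ℤ) ∣ d := by
    intro hd
    have : (5 : ℤ) ∣ 1 := by
      rw [← h]
      exact dvd_sub (hd.mul_left a) ⟨b * c, by ring⟩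
    norm_num at this
  have ha : ¬ (5 : ℤ) ∣ a := by
    intro ha
    have : (5 : ℤ) ∣ 1 := by
      rw [← h]
      exact dvd_sub (ha.mul_right d) ⟨b * c, by ring⟩
    norm_num at this
  constructor
  · intro h1
    by_contra h2
    exact den_aux hd h2 h0 h1
  · intro h1
    by_contra h2
    set s : ℚ := (a * r + b) / ((5 * c : ℚ) * r + d) with hs
    have hdet : (a : ℚ) * d - b * (5 * c) = 1 := by exact_mod_cast h
    have e1 : s * ((5 * c : ℚ) * r + d) = a * r + b := by rw [hs, div_mul_cancel₀ _ h0]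
    have e2 : ((5 * (-c : ℤ) : ℚ)) * s + a = ((5 * c : ℚ) * r + d)⁻¹ := by
      apply eq_inv_of_mul_eq_one_left
      push_cast
      have : (5 * -(c : ℚ) * s + a) * (5 * c * r + d) =
        5 * -(c : ℚ) * (s * (5 * c * r + d)) + a * (5 * c * r + d) := by ring
      rw [this, e1]
      linear_combination hdet
    have e3 : (d * s + ((-b : ℤ) : ℚ)) / (((5 * (-c : ℤ) : ℚ)) * s + a) = r := by
      rw [e2, div_inv_eq_mul]
      push_cast
      have : (d * s + -(b : ℚ)) * (5 * c * r + d) =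
        d * (s * (5 * c * r + d)) - b * (5 * c * r + d) := by ring
      rw [this, e1]
      linear_combination r * hdet
    have h3 := den_aux (a := d) (b := -b) (c := -c) (d := a) ha h2
      (by rw [e2]; exact inv_ne_zero h0)
    rw [e3] at h3
    exact h3 h1

/-- the second period -/
noncomputable def I1 : ℝ := (J (2 / 5)).im

/-- the complex values at the rational points -/
def CP (x : ℚ) (n : ℤ) : Prop := ∃ (L : ℂ) (m : ℤ), Lim x L ∧ L = n * J0 + m * I1 * Complex.I ∧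
  (Odd (n + m) ↔ ¬ (5 : ℤ) ∣ x.den)

/-- the constants of the transformations -/
lemma consts : ∃ C1 C2 : ℂ, Lim (2 / 5) C1 ∧ Lim (-2 / 5) C2 ∧ C1 = J0 + I1 * Complex.I ∧
    C2 = J0 - I1 * Complex.I ∧
    (∀ w : ℂ, 0 < w.im → F ((((2 : ℤ) : ℂ) * w + ((-1 : ℤ) : ℂ)) / (((5 : ℤ) : ℂ) * w + ((-2 : ℤ) : ℂ))) =
      -1 * F w + C1) ∧
    (∀ w : ℂ, 0 < w.im → F ((((-2 : ℤ) : ℂ) * w + ((-1 : ℤ) : ℂ)) / (((5 : ℤ) : ℂ) * w + ((2 : ℤ) : ℂ))) =
      -1 * F w + C2) := by
  obtain ⟨n, hn, -⟩ := closed.p2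
  obtain ⟨C1, h1⟩ := mv_e1.exists_const
  obtain ⟨C2, h2⟩ := mv_e2.exists_const
  have l1 : Lim (2 / 5) C1 := by
    have := lim_base mv_e1 (by norm_num) h1
    norm_num at this
    exact this
  have l2 : Lim (-2 / 5) C2 := by
    have := lim_base mv_e2 (by norm_num) h2
    norm_num at this ⊢
    exact this
  have hconj : C2 = starRingEnd ℂ C1 := by
    rw [← J_eq l1, ← J_eq l2, ← J_conj]
    norm_num
  have hre : C1.re = J0 := by
    have h3 := closed.p2.re
    rw [J_eq l1] at h3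
    simpa using h3
  have him : C1.im = I1 := by
    unfold I1
    rw [J_eq l1]
  have e1 : C1 = J0 + I1 * Complex.I := by
    rw [← hre, ← him]
    exact (Complex.re_add_im C1).symm
  refine ⟨C1, C2, l1, l2, e1, ?_, h1, h2⟩
  rw [hconj, e1]
  simp only [map_add, map_mul, Complex.conj_I, Complex.conj_ofReal]
  ring

theorem closedC : Closed CP := by
  obtain ⟨L0, hL0⟩ := exists_zero
  obtain ⟨CT, hT⟩ := mv_T.exists_const
  obtain ⟨CTi, hTi⟩ := mv_Ti.exists_const
  obtain ⟨CU, hU⟩ := mv_U.exists_const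
  obtain ⟨CUi, hUi⟩ := mv_Ui.exists_const
  obtain ⟨C1, C2, l1, l2, e1, e2, h1, h2⟩ := consts
  have z0 : L0 = J0 := by
    rw [← J_eq hL0, J_zero]; rfl
  have uniq : ∀ {x : ℚ} {L L' : ℂ}, Lim x L → Lim x L' → L = L' := fun h h' => by
    rw [← J_eq h, ← J_eq h']
  -- the translations
  have zT : CT = 0 := by
    have h := (F_tendsto.comp (f := fun w : ℂ => w + 1) (x := iI) ?_)
    · have h3 : Tendsto (fun w => -1 * F w + CT) iI (𝓝 (-1 * 0 + CT)) :=
        (F_tendsto.const_mul _).add_const _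
      have h4 := tendsto_nhds_unique (h3.congr' ?_) h
      · simpa using h4
      · filter_upwards [iI_pos] with w hw
        have := hT w hw
        simp only [Function.comp_apply]
        rw [← this]
        congr 1
        push_cast
        ring
    · unfold iI
      rw [tendsto_comap_iff]
      have e : Complex.im ∘ (fun w : ℂ => w + 1) = Complex.im := by ext w; simp
      rw [e]
      exact tendsto_comap
  have zTi : CTi = 0 := by
    have h := (F_tendsto.comp (f := fun w : ℂ => w - 1) (x := iI) ?_)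
    · have h3 : Tendsto (fun w => -1 * F w + CTi) iI (𝓝 (-1 * 0 + CTi)) :=
        (F_tendsto.const_mul _).add_const _
      have h4 := tendsto_nhds_unique (h3.congr' ?_) h
      · simpa using h4
      · filter_upwards [iI_pos] with w hw
        have := hTi w hw
        simp only [Function.comp_apply]
        rw [← this]
        congr 1
        push_cast
        ring
    · unfold iI
      rw [tendsto_comap_iff]
      have e : Complex.im ∘ (fun w : ℂ => w - 1) = Complex.im := by ext w; simp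
      rw [e]
      exact tendsto_comap
  -- the parabolic elements fixing zero
  have zU : CU = 2 * J0 := by
    have h := lim_move mv_U hU hL0 (by norm_num)
    have e : (((1 : ℤ) : ℚ) * 0 + ((0 : ℤ) : ℚ)) / (((-5 : ℤ) : ℚ) * 0 + ((1 : ℤ) : ℚ)) = 0 := by
      norm_num
    rw [e] at h
    have := uniq h hL0
    rw [z0] at this
    linear_combination this
  have zUi : CUi = 2 * J0 := by
    have h := lim_move mv_Ui hUi hL0 (by norm_num)
    have e : (((1 : ℤ) : ℚ) * 0 + ((0 : ℤ) : ℚ)) / (((5 : ℤ) : ℚ) * 0 + ((1 : ℤ) : ℚ)) = 0 := by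
      norm_num
    rw [e] at h
    have := uniq h hL0
    rw [z0] at this
    linear_combination this
  have par : ∀ n m k l : ℤ, Even (k + l) → (Odd ((k - n) + (l - m)) ↔ Odd (n + m)) := by
    intro n m k l h
    obtain ⟨t, ht⟩ := h
    constructor
    · rintro ⟨s, hs⟩
      exact ⟨t - s - 1, by linarith⟩
    · rintro ⟨s, hs⟩
      exact ⟨t - s - 1, by linarith⟩
  refine ⟨?_, ?_, ?_, ?_, ?_, ?_, ?_, ?_, ?_, ?_, ?_⟩
  · refine ⟨L0, 0, hL0, by rw [z0]; simp, ?_⟩
    norm_num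
  · refine ⟨C1, 1, l1, by rw [e1]; simp, ?_⟩
    have : ((2 / 5 : ℚ)).den = 5 := by norm_num
    rw [this]
    norm_num
  · refine ⟨C2, -1, l2, by rw [e2]; push_cast; ring, ?_⟩
    have : ((-2 / 5 : ℚ)).den = 5 := by norm_num
    rw [this]
    norm_num
  · have := lim_base mv_Ui (by norm_num) hUi
    norm_num at this
    refine ⟨CUi, 0, by norm_num; exact this, by rw [zUi]; simp, ?_⟩
    have : ((1 / 5 : ℚ)).den = 5 := by norm_num
    rw [this]
    norm_num
  · have := lim_base mv_U (by norm_num) hU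
    norm_num at this
    refine ⟨CU, 0, by norm_num; exact this, by rw [zU]; simp, ?_⟩
    have : ((-1 / 5 : ℚ)).den = 5 := by norm_num
    rw [this]
    norm_num
  · rintro r n ⟨L, m, hL, hn, hp⟩
    have h := lim_move mv_T hT hL (by norm_num)
    have e : (((1 : ℤ) : ℚ) * r + ((1 : ℤ) : ℚ)) / (((0 : ℤ) : ℚ) * r + ((1 : ℤ) : ℚ)) = r + 1 := by
      push_cast; ring
    rw [e] at h
    refine ⟨_, -m, h, ?_, ?_⟩
    · rw [hn, zT]; push_cast; ring
    · have h5 := den_iff (a := 1) (b := 1) (c := 0) (d := 1) (by norm_num) (r := r) (by norm_num)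
      have e' : (((1 : ℤ) : ℚ) * r + ((1 : ℤ) : ℚ)) / ((5 * ((0 : ℤ) : ℚ)) * r + ((1 : ℤ) : ℚ)) =
          r + 1 := by push_cast; ring
      rw [e'] at h5
      rw [h5, ← hp, ← par n m 0 0 (by norm_num)]
      norm_num
  · rintro r n ⟨L, m, hL, hn, hp⟩
    have h := lim_move mv_Ti hTi hL (by norm_num)
    have e : (((1 : ℤ) : ℚ) * r + ((-1 : ℤ) : ℚ)) / (((0 : ℤ) : ℚ) * r + ((1 : ℤ) : ℚ)) = r - 1 := by
      push_cast; ring
    rw [e] at h
    refine ⟨_, -m, h, ?_, ?_⟩
    · rw [hn, zTi]; push_cast; ring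
    · have h5 := den_iff (a := 1) (b := -1) (c := 0) (d := 1) (by norm_num) (r := r) (by norm_num)
      have e' : (((1 : ℤ) : ℚ) * r + ((-1 : ℤ) : ℚ)) / ((5 * ((0 : ℤ) : ℚ)) * r + ((1 : ℤ) : ℚ)) =
          r - 1 := by push_cast; ring
      rw [e'] at h5
      rw [h5, ← hp, ← par n m 0 0 (by norm_num)]
      norm_num
  · rintro r n h0 ⟨L, m, hL, hn, hp⟩
    have h := lim_move mv_e1 h1 hL (by push_cast; intro h5; apply h0; linarith)
    have e : (((2 : ℤ) : ℚ) * r + ((-1 : ℤ) : ℚ)) / (((5 : ℤ) : ℚ) * r + ((-2 : ℤ) : ℚ)) =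
        (2 * r - 1) / (5 * r - 2) := by push_cast; congr 1 <;> ring
    rw [e] at h
    refine ⟨_, 1 - m, h, ?_, ?_⟩
    · rw [hn, e1]; push_cast; ring
    · have h5 := den_iff (a := 2) (b := -1) (c := 1) (d := -2) (by norm_num) (r := r)
        (by push_cast; intro h5; apply h0; linarith)
      have e' : (((2 : ℤ) : ℚ) * r + ((-1 : ℤ) : ℚ)) / ((5 * ((1 : ℤ) : ℚ)) * r + ((-2 : ℤ) : ℚ)) =
          (2 * r - 1) / (5 * r - 2) := by push_cast; congr 1 <;> ring
      rw [e'] at h5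
      rw [h5, ← hp, ← par n m 1 1 (by decide)]
  · rintro r n h0 ⟨L, m, hL, hn, hp⟩
    have h := lim_move mv_e2 h2 hL (by push_cast; intro h5; apply h0; linarith)
    have e : (((-2 : ℤ) : ℚ) * r + ((-1 : ℤ) : ℚ)) / (((5 : ℤ) : ℚ) * r + ((2 : ℤ) : ℚ)) =
        (-2 * r - 1) / (5 * r + 2) := by push_cast; congr 1 <;> ring
    rw [e] at h
    refine ⟨_, -1 - m, h, ?_, ?_⟩
    · rw [hn, e2]; push_cast; ring
    · have h5 := den_iff (a := -2) (b := -1) (c := 1) (d := 2) (by norm_num) (r := r)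
        (by push_cast; intro h5; apply h0; linarith)
      have e' : (((-2 : ℤ) : ℚ) * r + ((-1 : ℤ) : ℚ)) / ((5 * ((1 : ℤ) : ℚ)) * r + ((2 : ℤ) : ℚ)) =
          (-2 * r - 1) / (5 * r + 2) := by push_cast; congr 1 <;> ring
      rw [e'] at h5
      rw [h5, ← hp, ← par n m 1 (-1) (by decide)]
  · rintro r n h0 ⟨L, m, hL, hn, hp⟩
    have h := lim_move mv_U hU hL (by push_cast; intro h5; apply h0; linarith)
    have e : (((1 : ℤ) : ℚ) * r + ((0 : ℤ) : ℚ)) / (((-5 : ℤ) : ℚ) * r + ((1 : ℤ) : ℚ)) =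
        r / (-5 * r + 1) := by push_cast; congr 1 <;> ring
    rw [e] at h
    refine ⟨_, -m, h, ?_, ?_⟩
    · rw [hn, zU]; push_cast; ring
    · have h5 := den_iff (a := 1) (b := 0) (c := -1) (d := 1) (by norm_num) (r := r)
        (by push_cast; intro h5; apply h0; linarith)
      have e' : (((1 : ℤ) : ℚ) * r + ((0 : ℤ) : ℚ)) / ((5 * ((-1 : ℤ) : ℚ)) * r + ((1 : ℤ) : ℚ)) =
          r / (-5 * r + 1) := by push_cast; congr 1 <;> ring
      rw [e'] at h5
      rw [h5, ← hp, ← par n m 2 0 (by decide)]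
      norm_num
  · rintro r n h0 ⟨L, m, hL, hn, hp⟩
    have h := lim_move mv_Ui hUi hL (by push_cast; intro h5; apply h0; linarith)
    have e : (((1 : ℤ) : ℚ) * r + ((0 : ℤ) : ℚ)) / (((5 : ℤ) : ℚ) * r + ((1 : ℤ) : ℚ)) =
        r / (5 * r + 1) := by push_cast; congr 1 <;> ring
    rw [e] at h
    refine ⟨_, -m, h, ?_, ?_⟩
    · rw [hn, zUi]; push_cast; ring
    · have h5 := den_iff (a := 1) (b := 0) (c := 1) (d := 1) (by norm_num) (r := r)
        (by push_cast; intro h5; apply h0; linarith)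
      have e' : (((1 : ℤ) : ℚ) * r + ((0 : ℤ) : ℚ)) / ((5 * ((1 : ℤ) : ℚ)) * r + ((1 : ℤ) : ℚ)) =
          r / (5 * r + 1) := by push_cast; congr 1 <;> ring
      rw [e'] at h5
      rw [h5, ← hp, ← par n m 2 0 (by decide)]
      norm_num

/-- **the values of the modular symbol** -/
theorem values (r : ℚ) (h : ¬ (5 : ℤ) ∣ r.den) : ∃ n m : ℤ, J r = n * J0 + m * I1 * Complex.I ∧
    Odd (n + m) ∧ (Odd n ↔ jacobiSym r.den 5 = 1) := by
  obtain ⟨n, ⟨L, m, hL, hn, hp⟩, h1, -⟩ := hdesc CP closedC r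
  exact ⟨n, m, by rw [J_eq hL, hn], hp.2 h, h1 h⟩

theorem J_half : J (1 / 2) = I1 * Complex.I := by
  obtain ⟨L0, hL0⟩ := exists_zero
  have z0 : L0 = J0 := by
    rw [← J_eq hL0, J_zero]; rfl
  obtain ⟨C1, C2, l1, l2, e1, e2, h1, h2⟩ := consts
  have h := lim_move mv_e1 h1 hL0 (by norm_num)
  have e : (((2 : ℤ) : ℚ) * 0 + ((-1 : ℤ) : ℚ)) / (((5 : ℤ) : ℚ) * 0 + ((-2 : ℤ) : ℚ)) = 1 / 2 := by
    norm_num
  rw [e] at h
  rw [J_eq h, z0, e1]
  ring

end Pool.Agent.Y695
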