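import Pool.Agent.Y695.SymJ
import Pool.Agent.Y695.Rec5

/-!
The parities of the values of the modular symbol at the cusps with denominator divisible by five.
-/

set_option autoImplicit false
set_option linter.all false

open Filter Topology MeasureTheory Set

namespace Pool.Agent.Y695

open Pool.Agent.W97.TW
open Pool.Agent.W97.V20

/-- the numerators under unimodular transformations -/
lemma num_move {a b c d : ℤ} (h : a * d - b * c = 1) {r : ℚ} (h0 : (c : ℚ) * r + d ≠ 0) :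
    ((a * r + b : ℚ) / ((c : ℚ) * r + d)).num = a * r.num + b * r.den ∨
    ((a * r + b : ℚ) / ((c : ℚ) * r + d)).num = -(a * r.num + b * r.den) := by
  have hden : (r.den : ℚ) ≠ 0 := by exact_mod_cast r.den_nz
  have e : (a * r + b : ℚ) / ((c : ℚ) * r + d) =
      ((a * r.num + b * r.den : ℤ) : ℚ) / ((c * r.num + d * r.den : ℤ) : ℚ) := by
    have e1 : (a * r + b : ℚ) = (a * r.num + b * r.den) / r.den := by
      rw [eq_div_iff hden, add_mul, mul_assoc, Rat.mul_den_eq_num]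
    have e2 : ((c : ℚ) * r + d) = (c * r.num + d * r.den) / r.den := by
      rw [eq_div_iff hden, add_mul, mul_assoc, Rat.mul_den_eq_num]
    rw [e1, e2, div_div_div_cancel_right₀ hden]
    push_cast
    rfl
  set X := a * r.num + b * (r.den : ℤ) with hX
  set Y := c * r.num + d * (r.den : ℤ) with hY
  have hY0 : Y ≠ 0 := by
    intro hy
    apply h0
    have : ((c : ℚ) * r + d) = (Y : ℚ) / r.den := by
      rw [hY, eq_div_iff hden, add_mul, mul_assoc, Rat.mul_den_eq_num]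
      push_cast
      rfl
    rw [this, hy]
    simp
  have hcop0 : IsCoprime r.num (r.den : ℤ) := by
    have := r.reduced
    rw [Int.isCoprime_iff_gcd_eq_one]
    exact this
  have hcop : IsCoprime X Y := by
    obtain ⟨u, v, huv⟩ := hcop0
    refine ⟨u * d - v * c, v * a - u * b, ?_⟩
    rw [hX, hY]
    linear_combination (a * d - b * c) * huv + h
  have hcop' : X.natAbs.Coprime Y.natAbs := Int.isCoprime_iff_gcd_eq_one.1 hcop
  rw [e]
  rcases lt_or_gt_of_ne hY0 with h1 | h1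
  · right
    have e2 : ((X : ℤ) : ℚ) / ((Y : ℤ) : ℚ) = ((-X : ℤ) : ℚ) / ((-Y : ℤ) : ℚ) := by
      push_cast
      rw [neg_div_neg_eq]
    rw [e2, Rat.num_div_eq_of_coprime (by linarith) (by rwa [Int.natAbs_neg, Int.natAbs_neg])]
  · left
    rw [Rat.num_div_eq_of_coprime h1 hcop']

lemma jac_neg5 (x : ℤ) : jacobiSym (-x) 5 = jacobiSym x 5 := by
  have : -x = -1 * x := by ring
  rw [this, jacobiSym.mul_left]
  have : jacobiSym (-1) 5 = 1 := by norm_num
  rw [this, one_mul]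

lemma num_cop {r : ℚ} (h : (5 : ℤ) ∣ r.den) : jacobiSym r.num 5 = 1 ∨ jacobiSym r.num 5 = -1 := by
  apply jacobiSym.eq_one_or_neg_one
  have h5 : Nat.Coprime r.num.natAbs 5 := by
    have h1 : (5 : ℕ) ∣ r.den := by exact_mod_cast h
    exact Nat.Coprime.coprime_dvd_right h1 r.reduced
  exact h5

/-- the values together with the parities -/
def CP2 (x : ℚ) (n : ℤ) : Prop := CP x n ∧
  ((5 : ℤ) ∣ x.den → (Odd n ↔ jacobiSym x.num 5 = -1))

theorem closed2 : Closed CP2 := by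
  have hc := closedC
  have hmul : ∀ {x y : ℤ} {k : ℤ}, (5 : ℤ) ∣ y → jacobiSym (k * x + y) 5 = jacobiSym k 5 * jacobiSym x 5 := by
    intro x y k h
    rw [← jacobiSym.mul_left]
    apply jac_of_dvd_sub
    rw [add_sub_cancel_left]
    exact h
  have step : ∀ {a b c d : ℤ}, a * d - b * (5 * c) = 1 → ∀ {r : ℚ}, (5 * c : ℚ) * r + d ≠ 0 →
      (5 : ℤ) ∣ ((a * r + b : ℚ) / ((5 * c : ℚ) * r + d)).den →
      (5 : ℤ) ∣ r.den ∧ jacobiSym ((a * r + b : ℚ) / ((5 * c : ℚ) * r + d)).num 5 =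
        jacobiSym a 5 * jacobiSym r.num 5 := by
    intro a b c d h r h0 h5
    have h1 := (den_iff h h0).1 h5
    refine ⟨h1, ?_⟩
    have h2 := num_move (c := 5 * c) h (r := r) (by push_cast; exact h0)
    push_cast at h2
    rcases h2 with h3 | h3
    · rw [h3, hmul (h1.mul_left b)]
    · rw [h3, jac_neg5, hmul (h1.mul_left b)]
  have oflip : ∀ n : ℤ, Odd (1 - n) ↔ ¬ Odd n := by
    intro n
    rw [Int.odd_iff, Int.odd_iff]
    omega
  refine ⟨⟨hc.zero, ?_⟩, ⟨hc.p2, ?_⟩, ⟨hc.m2, ?_⟩, ⟨hc.p1, ?_⟩, ⟨hc.m1, ?_⟩, ?_, ?_, ?_, ?_, ?_, ?_⟩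
  · intro h
    norm_num at h
  · intro _
    have : ((2 / 5 : ℚ)).num = 2 := by norm_num
    rw [this]
    norm_num
  · intro _
    have : ((-2 / 5 : ℚ)).num = -2 := by norm_num
    rw [this]
    norm_num
  · intro _
    have : ((1 / 5 : ℚ)).num = 1 := by norm_num
    rw [this]
    norm_num
  · intro _
    have : ((-1 / 5 : ℚ)).num = -1 := by norm_num
    rw [this]
    norm_num
  · rintro r n ⟨h1, h2⟩
    refine ⟨hc.T r n h1, fun h5 => ?_⟩
    have h3 := step (a := 1) (b := 1) (c := 0) (d := 1) (by norm_num) (r := r) (by norm_num)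
    have e' : (((1 : ℤ) : ℚ) * r + ((1 : ℤ) : ℚ)) / ((5 * ((0 : ℤ) : ℚ)) * r + ((1 : ℤ) : ℚ)) =
        r + 1 := by push_cast; ring
    rw [e'] at h3
    obtain ⟨h4, h6⟩ := h3 h5
    rw [h6, odd_neg, h2 h4, jacobiSym.one_left, one_mul]
  · rintro r n ⟨h1, h2⟩
    refine ⟨hc.Ti r n h1, fun h5 => ?_⟩
    have h3 := step (a := 1) (b := -1) (c := 0) (d := 1) (by norm_num) (r := r) (by norm_num)
    have e' : (((1 : ℤ) : ℚ) * r + ((-1 : ℤ) : ℚ)) / ((5 * ((0 : ℤ) : ℚ)) * r + ((1 : ℤ) : ℚ)) =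
        r - 1 := by push_cast; ring
    rw [e'] at h3
    obtain ⟨h4, h6⟩ := h3 h5
    rw [h6, odd_neg, h2 h4, jacobiSym.one_left, one_mul]
  · rintro r n h0 ⟨h1, h2⟩
    refine ⟨hc.e1 r n h0 h1, fun h5 => ?_⟩
    have h3 := step (a := 2) (b := -1) (c := 1) (d := -2) (by norm_num) (r := r)
      (by push_cast; intro h5; apply h0; linarith)
    have e' : (((2 : ℤ) : ℚ) * r + ((-1 : ℤ) : ℚ)) / ((5 * ((1 : ℤ) : ℚ)) * r + ((-2 : ℤ) : ℚ)) =
        (2 * r - 1) / (5 * r - 2) := by push_cast; congr 1 <;> ring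
    rw [e'] at h3
    obtain ⟨h4, h6⟩ := h3 h5
    have h7 : jacobiSym 2 5 = -1 := by norm_num
    rw [h6, h7, oflip, h2 h4]
    rcases num_cop h4 with h | h <;> rw [h] <;> norm_num
  · rintro r n h0 ⟨h1, h2⟩
    refine ⟨hc.e2 r n h0 h1, fun h5 => ?_⟩
    have h3 := step (a := -2) (b := -1) (c := 1) (d := 2) (by norm_num) (r := r)
      (by push_cast; intro h5; apply h0; linarith)
    have e' : (((-2 : ℤ) : ℚ) * r + ((-1 : ℤ) : ℚ)) / ((5 * ((1 : ℤ) : ℚ)) * r + ((2 : ℤ) : ℚ)) =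
        (-2 * r - 1) / (5 * r + 2) := by push_cast; congr 1 <;> ring
    rw [e'] at h3
    obtain ⟨h4, h6⟩ := h3 h5
    have h7 : jacobiSym (-2) 5 = -1 := by norm_num
    rw [h6, h7, oflip, h2 h4]
    rcases num_cop h4 with h | h <;> rw [h] <;> norm_num
  · rintro r n h0 ⟨h1, h2⟩
    refine ⟨hc.U r n h0 h1, fun h5 => ?_⟩
    have h3 := step (a := 1) (b := 0) (c := -1) (d := 1) (by norm_num) (r := r)
      (by push_cast; intro h5; apply h0; linarith)
    have e' : (((1 : ℤ) : ℚ) * r + ((0 : ℤ) : ℚ)) / ((5 * ((-1 : ℤ) : ℚ)) * r + ((1 : ℤ) : ℚ)) =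
        r / (-5 * r + 1) := by push_cast; congr 1 <;> ring
    rw [e'] at h3
    obtain ⟨h4, h6⟩ := h3 h5
    have h8 : Odd (2 - n) ↔ Odd n := by
      rw [Int.odd_iff, Int.odd_iff]; omega
    rw [h6, h8, h2 h4, jacobiSym.one_left, one_mul]
  · rintro r n h0 ⟨h1, h2⟩
    refine ⟨hc.Ui r n h0 h1, fun h5 => ?_⟩
    have h3 := step (a := 1) (b := 0) (c := 1) (d := 1) (by norm_num) (r := r)
      (by push_cast; intro h5; apply h0; linarith)
    have e' : (((1 : ℤ) : ℚ) * r + ((0 : ℤ) : ℚ)) / ((5 * ((1 : ℤ) : ℚ)) * r + ((1 : ℤ) : ℚ)) =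
        r / (5 * r + 1) := by push_cast; congr 1 <;> ring
    rw [e'] at h3
    obtain ⟨h4, h6⟩ := h3 h5
    have h8 : Odd (2 - n) ↔ Odd n := by
      rw [Int.odd_iff, Int.odd_iff]; omega
    rw [h6, h8, h2 h4, jacobiSym.one_left, one_mul]

/-- **the values at the cusps over infinity** -/
theorem values5 (r : ℚ) (h : (5 : ℤ) ∣ r.den) : ∃ n m : ℤ, J r = n * J0 + m * I1 * Complex.I ∧
    Even (n + m) ∧ (Odd n ↔ jacobiSym r.num 5 = -1) := by
  obtain ⟨n, ⟨⟨L, m, hL, hn, hp⟩, h2⟩, -, -⟩ := hdesc CP2 closed2 r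
  refine ⟨n, m, by rw [J_eq hL, hn], ?_, h2 h⟩
  rw [← Int.not_odd_iff_even, hp, not_not]
  exact h

/-- the numerator and the denominator of `2 c / (5 N)` -/
lemma rat5 {N c : ℕ} (hN : N.Coprime 10) (hc : c.Coprime (5 * N)) :
    ((2 * ((c : ℚ) / (5 * N : ℕ)) : ℚ)).den = 5 * N ∧
    ((2 * ((c : ℚ) / (5 * N : ℕ)) : ℚ)).num = 2 * c := by
  have hN0 : N ≠ 0 := by
    rintro rfl
    norm_num at hN
  have e : (2 * ((c : ℚ) / (5 * N : ℕ)) : ℚ) = ((2 * c : ℤ) : ℚ) / (((5 * N : ℕ) : ℤ) : ℚ) := by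
    push_cast; ring
  rw [e]
  have h2 : Nat.Coprime 2 (5 * N) := by
    rw [Nat.coprime_mul_iff_right]
    exact ⟨by norm_num, by
      rw [Nat.coprime_comm]
      exact Nat.Coprime.coprime_dvd_right (by norm_num) hN⟩
  have hcop : (2 * (c : ℤ)).natAbs.Coprime (((5 * N : ℕ) : ℤ)).natAbs := by
    have : (2 * (c : ℤ)).natAbs = 2 * c := by
      rw [Int.natAbs_mul, Int.natAbs_natCast]; rfl
    rw [this, Int.natAbs_natCast]
    exact Nat.Coprime.mul_left h2 hc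
  have hpos : (0 : ℤ) < ((5 * N : ℕ) : ℤ) := by
    have := Nat.pos_of_ne_zero hN0
    exact_mod_cast (by omega : 0 < 5 * N)
  constructor
  · have := Rat.den_div_eq_of_coprime (a := 2 * (c : ℤ)) (b := ((5 * N : ℕ) : ℤ)) hpos hcop
    exact_mod_cast this
  · exact Rat.num_div_eq_of_coprime hpos hcop

/-- the values with denominator `5 N` -/
theorem vals5 {N c : ℕ} (hN : N.Coprime 10) (hc : c.Coprime (5 * N)) : ∃ n m : ℤ,
    J (2 * ((c : ℚ) / (5 * N : ℕ))) = n * J0 + m * I1 * Complex.I ∧ Even (n + m) ∧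
      (Odd n ↔ jacobiSym c 5 = 1) := by
  obtain ⟨h1, h2⟩ := rat5 hN hc
  obtain ⟨n, m, h3, h4, h5⟩ := values5 (2 * ((c : ℚ) / (5 * N : ℕ))) (by
    rw [h1]; push_cast; exact Dvd.intro _ rfl)
  refine ⟨n, m, h3, h4, ?_⟩
  rw [h5, h2, jacobiSym.mul_left]
  have h6 : jacobiSym 2 5 = -1 := by norm_num
  rw [h6]
  constructor
  · intro h; linarith
  · intro h; rw [h]; norm_num

lemma mv_four {N K c c' : ℤ} (h : 5 * N * K = 4 * (c * c') + 1) :
    Mv (2 * c) (-K) (5 * N) (-(2 * c')) (-1) := by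
  have h1 := mv_even (K := 5 * K - 4 * c) (a := c - K) (b := c' - N) (N := 5 * N - 4 * c')
    (by linear_combination 5 * h - 4 * h)
  have h2 := (mv_comp h1 mv_e1).1
  have e1 : (5 * K - 4 * c) * 2 + 2 * (c - K) * 5 = 2 * c := by ring
  have e2 : (5 * K - 4 * c) * -1 + 2 * (c - K) * -2 = -K := by ring
  have e3 : (5 * (2 * (c' - N)) : ℤ) * 2 + (5 * N - 4 * c') * 5 = 5 * N := by ring
  have e4 : (5 * (2 * (c' - N)) : ℤ) * -1 + (5 * N - 4 * c') * -2 = -(2 * c') := by ring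
  rw [e1, e2, e3, e4, one_mul] at h2
  exact h2

/-- **the involution `c ↦ -1/(4c)` at these cusps** -/
theorem J_four {N c c' : ℤ} (hN : N ≠ 0) (h : 5 * N ∣ 4 * (c * c') + 1) :
    J (2 * ((c : ℚ) / (5 * N : ℤ))) = J (2 * ((c' : ℚ) / (5 * N : ℤ))) := by
  obtain ⟨K, hK⟩ := h
  have m1 := mv_four (N := N) (K := K) (c := c) (c' := c') hK.symm
  have m2 := mv_four (N := N) (K := K) (c := c') (c' := c) (by rw [← hK]; ring)
  obtain ⟨C, hC⟩ := m1.exists_const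
  obtain ⟨C', hC'⟩ := m2.exists_const
  have hN5 : (5 * N : ℤ) ≠ 0 := by positivity
  have l1 := lim_base m1 hN5 hC
  have l2 := lim_base m2 hN5 hC'
  have hNQ : (N : ℚ) ≠ 0 := by exact_mod_cast hN
  have e1 : (((2 * c : ℤ) : ℚ)) / ((5 * N : ℤ) : ℚ) = 2 * ((c : ℚ) / (5 * N : ℤ)) := by
    push_cast
    ring
  have e2 : (((2 * c' : ℤ) : ℚ)) / ((5 * N : ℤ) : ℚ) = 2 * ((c' : ℚ) / (5 * N : ℤ)) := by
    push_cast
    ring
  rw [e1] at l1
  rw [e2] at l2
  rw [J_eq l1, J_eq l2]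
  -- the two constants agree
  have hw : 0 < (Complex.I).im := by simp
  have i1 := mv_im m1.det hw
  have h3 := hC Complex.I hw
  have h4 := hC' _ i1.2
  have h5 : (((2 * c' : ℤ) : ℂ) * ((((2 * c : ℤ) : ℂ) * Complex.I + ((-K : ℤ) : ℂ)) /
      (((5 * N : ℤ) : ℂ) * Complex.I + ((-(2 * c') : ℤ) : ℂ))) + ((-K : ℤ) : ℂ)) /
      (((5 * N : ℤ) : ℂ) * ((((2 * c : ℤ) : ℂ) * Complex.I + ((-K : ℤ) : ℂ)) /
      (((5 * N : ℤ) : ℂ) * Complex.I + ((-(2 * c') : ℤ) : ℂ))) + ((-(2 * c) : ℤ) : ℂ)) =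
      Complex.I := by
    have h0 := i1.1
    have h0' := (mv_im m2.det i1.2).1
    rw [div_eq_iff h0']
    have hKC : (4 : ℂ) * (c * c') + 1 = 5 * N * K := by exact_mod_cast hK
    set d := (((5 * N : ℤ) : ℂ) * Complex.I + ((-(2 * c') : ℤ) : ℂ)) with hd
    have e3 : ∀ u v x : ℂ, u * (x / d) + v = (u * x + v * d) / d := fun u v x => by
      field_simp
    rw [e3, e3, mul_div_assoc', div_left_inj' h0, hd]
    push_cast
    ring
  rw [h5, h3] at h4
  linear_combination h4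

/-- **the Hecke relation at five** -/
theorem J_U5 (x : ℚ) : -J (2 * (5 * x)) = ∑ j ∈ Finset.range 5, J (2 * (x + (j : ℚ) / 5)) := by
  have h1 := hhint 20 5 f20 (A 5 : ℂ) (by norm_num) int_f20 (hecke_f20 (by norm_num)).1 (5 * x)
  rw [if_pos (by norm_num), prim_f20] at h1
  rw [zero_add] at h1
  rw [A_five, Int.cast_neg, Int.cast_one, neg_one_mul] at h1
  rw [h1]
  refine Finset.sum_congr rfl fun j _ => ?_
  rw [prim_f20]
  congr 1
  push_cast
  ring

end Pool.Agent.Y695
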